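import Pool.Agent.Work.MP_433a35_co.GB.Sys.Marks

/-!
# The hybrid system (marks and the colour of the `F`-edges)

Digits: `0` not adjacent (or equal), `1` edge outside `F`, `2` edge of `F`, `3` weight `w` of an
`F`-edge, `4` its square, `5` adjacent (`1` or `2`).  `tgtG S mk sq a b` is the target
`b D^(K-4) (2 κ' D² ∑ w² + 2 D ∑ w² codeg + ∑ w² inn - (∑ w)²)`, `κ' = a/b` (sums over ordered pairs)
for any kind `S` of systems, `mk`, `sq` being the digits of `w` and `w²`.
-/

namespace MP433Sys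

open Finset

set_option linter.unusedSimpArgs false

/-- a further vertex joined to position 0, or not joined to position 0 and joined to position 1 -/
def zp (S : Spec) : List (ℕ × ℕ × Bool) :=
  (S.ad.map fun d => (d, 0, true)) ++ S.ad.map fun d => (0, d, false)

/-- source of the term `w² inn` -/
def zsrc (sq b d : ℕ) (z u : ℕ × ℕ × Bool) : Src :=
  ⟨b, sq + z.1 * 8 + z.2.1 * 64 + u.1 * 512 + u.2.1 * 4096 + d * 32768,
    (if z.2.2 then [2] else []) ++ (if u.2.2 then [4] else [])⟩

/-- the target -/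
def tgtG (S : Spec) (mk sq a b : ℕ) : ℕ → List Src
  | 2 => [⟨2 * a, sq, []⟩]
  | 3 => S.ad.flatMap fun d => S.ad.map fun e => ⟨2 * b, sq + d * 8 + e * 64, []⟩
  | 4 => ⟨-b, mk + mk * 32768, [1, 2, 3, 4]⟩ ::
      S.ad.flatMap fun d => (zp S).flatMap fun z => (zp S).map fun u => zsrc sq b d z u
  | _ => []

section general

variable {S : Spec} {V : Type*} [Fintype V] (T : Sys S V)

/-- total weight of the joined digits -/
noncomputable def al (x y : V) : ℝ := (S.ad.map fun d => T.rho d x y).sum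

theorem lsum_comm {ι α : Type*} (L : List ι) (s : Finset α) (f : ι → α → ℝ) :
    (L.map fun d => ∑ x ∈ s, f d x).sum = ∑ x ∈ s, (L.map fun d => f d x).sum := by
  induction L with
  | nil => simp
  | cons a L ih => simp only [List.map_cons, List.sum_cons, ih, sum_add_distrib]

theorem srcVal_flatMap {ι : Type*} (k : ℕ) (L : List ι) (f : ι → List Src) :
    srcVal T k (L.flatMap f) = (L.map fun d => srcVal T k (f d)).sum := by
  induction L with
  | nil => simp [srcVal]
  | cons a L ih => rw [List.flatMap_cons, srcVal_append, ih, List.map_cons, List.sum_cons]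

theorem srcVal_map {ι : Type*} (k : ℕ) (L : List ι) (f : ι → Src) :
    srcVal T k (L.map f) = (L.map fun d => ((f d).w : ℝ) * T.pcount k (f d).c (f d).free).sum := by
  unfold srcVal
  rw [List.map_map]
  rfl

/-- weight of a further vertex -/
noncomputable def zw (z : ℕ × ℕ × Bool) (x y v : V) : ℝ :=
  T.rho z.1 x v * (if z.2.2 then 1 else T.rho z.2.1 y v)

theorem pcount_zsrc (sq b d : ℕ) (z u : ℕ × ℕ × Bool) (hsq : sq < 8) (hd : d < 8)
    (hz1 : z.1 < 8) (hz2 : z.2.1 < 8) (hu1 : u.1 < 8) (hu2 : u.2.1 < 8) :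
    T.pcount 4 (zsrc sq b d z u).c (zsrc sq b d z u).free =
      ∑ x : V, ∑ y : V, ∑ v : V, ∑ v' : V,
        T.rho sq x y * (zw T z x y v * (zw T u x y v' * T.rho d v v')) := by
  obtain ⟨z1, z2, z3⟩ := z
  obtain ⟨u1, u2, u3⟩ := u
  simp only at hz1 hz2 hu1 hu2
  rw [pcount_four]
  have g0 : dig (sq + z1 * 8 + z2 * 64 + u1 * 512 + u2 * 4096 + d * 32768) 0 = sq := by
    unfold dig; omega
  have g1 : dig (sq + z1 * 8 + z2 * 64 + u1 * 512 + u2 * 4096 + d * 32768) 1 = z1 := by
    unfold dig; omega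
  have g2 : dig (sq + z1 * 8 + z2 * 64 + u1 * 512 + u2 * 4096 + d * 32768) 2 = z2 := by
    unfold dig; omega
  have g3 : dig (sq + z1 * 8 + z2 * 64 + u1 * 512 + u2 * 4096 + d * 32768) 3 = u1 := by
    unfold dig; omega
  have g4 : dig (sq + z1 * 8 + z2 * 64 + u1 * 512 + u2 * 4096 + d * 32768) 4 = u2 := by
    unfold dig; omega
  have g5 : dig (sq + z1 * 8 + z2 * 64 + u1 * 512 + u2 * 4096 + d * 32768) 5 = d := by
    unfold dig; omega
  refine sum_congr rfl fun x _ => sum_congr rfl fun y _ => sum_congr rfl fun v _ =>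
    sum_congr rfl fun v' _ => ?_
  simp only [zsrc, g0, g1, g2, g3, g4, g5, zw]
  cases z3 <;> cases u3 <;> simp <;> ring

theorem zp_lt (had : ∀ d ∈ S.ad, d < 8) (z : ℕ × ℕ × Bool) (hz : z ∈ zp S) :
    z.1 < 8 ∧ z.2.1 < 8 := by
  unfold zp at hz
  rw [List.mem_append, List.mem_map, List.mem_map] at hz
  rcases hz with ⟨d, hd, rfl⟩ | ⟨d, hd, rfl⟩
  · exact ⟨had d hd, by norm_num⟩
  · exact ⟨by norm_num, had d hd⟩

theorem zp_sum (x y v : V) :
    ((zp S).map fun z => zw T z x y v).sum = al T x v + T.rho 0 x v * al T y v := by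
  unfold zp zw al
  rw [List.map_append, List.sum_append, List.map_map, List.map_map]
  congr 1
  · congr 1
    refine List.map_congr_left fun d _ => ?_
    simp
  · rw [← List.sum_map_mul_left]
    congr 1

theorem lvl_tgtG (mk sq : ℕ) (hmk : mk < 8) (hsq : sq < 8) (had : ∀ d ∈ S.ad, d < 8)
    (K : ℕ) (hK : 4 ≤ K) (a b : ℕ) :
    lvl T K (tgtG S mk sq a b) = T.D ^ (K - 4) *
      (2 * a * T.D ^ 2 * ∑ x : V, ∑ y : V, T.rho sq x y +
      2 * b * T.D * ∑ x : V, ∑ y : V, T.rho sq x y * ∑ z : V, al T x z * al T y z +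
      b * ∑ x : V, ∑ y : V, T.rho sq x y * ∑ z : V, ∑ u : V,
        (al T x z + T.rho 0 x z * al T y z) * ((al T x u + T.rho 0 x u * al T y u) * al T z u) -
      b * (∑ x : V, ∑ y : V, T.rho mk x y) ^ 2) := by
  rw [lvl_split T K hK (tgtG S mk sq a b) (by
    intro k h2 h3 h4
    unfold tgtG
    split <;> first | rfl | contradiction)]
  have s2 : srcVal T 2 (tgtG S mk sq a b 2) = 2 * a * ∑ x : V, ∑ y : V, T.rho sq x y := by
    have h := full_two T sq
    have hd : dig sq 0 = sq := by unfold dig; omega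
    rw [hd] at h
    simp only [srcVal, tgtG, List.map_cons, List.map_nil, List.sum_cons, List.sum_nil, add_zero]
    change _ * T.full 2 sq = _
    rw [h]
    push_cast
    ring
  have s3 : srcVal T 3 (tgtG S mk sq a b 3) =
      2 * b * ∑ x : V, ∑ y : V, T.rho sq x y * ∑ z : V, al T x z * al T y z := by
    change srcVal T 3 (S.ad.flatMap fun d => S.ad.map fun e => ⟨2 * b, sq + d * 8 + e * 64, []⟩) = _
    rw [srcVal_flatMap]
    have h1 : ∀ d ∈ S.ad, srcVal T 3 (S.ad.map fun e => ⟨2 * b, sq + d * 8 + e * 64, []⟩) =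
        ∑ x : V, ∑ y : V, ∑ z : V, (2 * b * T.rho sq x y) * (T.rho d x z * al T y z) := by
      intro d hd
      rw [srcVal_map]
      have h2 : ∀ e ∈ S.ad, (((2 * b : ℤ) : ℤ) : ℝ) * T.pcount 3 (sq + d * 8 + e * 64) [] =
          ∑ x : V, ∑ y : V, ∑ z : V, (2 * b * T.rho sq x y * T.rho d x z) * T.rho e y z := by
        intro e he
        have hd8 := had d hd
        have he8 := had e he
        have h := full_three T (sq + d * 8 + e * 64)
        have g0 : dig (sq + d * 8 + e * 64) 0 = sq := by unfold dig; omega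
        have g1 : dig (sq + d * 8 + e * 64) 1 = d := by unfold dig; omega
        have g2 : dig (sq + d * 8 + e * 64) 2 = e := by unfold dig; omega
        rw [g0, g1, g2] at h
        change _ * T.full 3 (sq + d * 8 + e * 64) = _
        rw [h]
        simp only [mul_sum]
        refine sum_congr rfl fun x _ => sum_congr rfl fun y _ => sum_congr rfl fun z _ => ?_
        push_cast
        ring
      rw [List.map_congr_left h2]
      simp only [lsum_comm]
      refine sum_congr rfl fun x _ => sum_congr rfl fun y _ => sum_congr rfl fun z _ => ?_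
      rw [List.sum_map_mul_left]
      unfold al
      ring
    rw [List.map_congr_left h1]
    simp only [lsum_comm, mul_sum]
    refine sum_congr rfl fun x _ => sum_congr rfl fun y _ => sum_congr rfl fun z _ => ?_
    rw [List.sum_map_mul_left, List.sum_map_mul_right]
    unfold al
    ring
  have s4 : srcVal T 4 (tgtG S mk sq a b 4) =
      b * ∑ x : V, ∑ y : V, T.rho sq x y * ∑ z : V, ∑ u : V,
        (al T x z + T.rho 0 x z * al T y z) * ((al T x u + T.rho 0 x u * al T y u) * al T z u) -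
      b * (∑ x : V, ∑ y : V, T.rho mk x y) ^ 2 := by
    have h0 : T.pcount 4 (mk + mk * 32768) [1, 2, 3, 4] = (∑ x : V, ∑ y : V, T.rho mk x y) ^ 2 := by
      rw [pcount_four]
      have d0 : dig (mk + mk * 32768) 0 = mk := by unfold dig; omega
      have d5 : dig (mk + mk * 32768) 5 = mk := by
        change (mk + mk * 32768) / 32768 % 8 = mk
        rw [Nat.add_mul_div_right _ _ (by norm_num)]
        omega
      simp only [d0, d5]
      simp only [List.mem_cons, List.not_mem_nil, or_false, not_true_eq_false, if_false,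
        mul_one, OfNat.zero_ne_ofNat, zero_ne_one, or_self, not_false_eq_true, if_true,
        OfNat.ofNat_ne_one, Nat.reduceEqDiff, or_true, one_mul]
      rw [pow_two, sum_mul]
      refine sum_congr rfl fun x _ => ?_
      rw [sum_mul]
      refine sum_congr rfl fun y _ => ?_
      rw [mul_sum]
      refine sum_congr rfl fun z _ => ?_
      rw [mul_sum]
    have hsplit : srcVal T 4 (tgtG S mk sq a b 4) =
        -b * T.pcount 4 (mk + mk * 32768) [1, 2, 3, 4] +
        srcVal T 4 (S.ad.flatMap fun d => (zp S).flatMap fun z => (zp S).map fun u =>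
          zsrc sq b d z u) := by
      change srcVal T 4 (_ :: _) = _
      simp only [srcVal, List.map_cons, List.sum_cons]
      push_cast
      ring
    rw [hsplit, h0]
    have h1 : ∀ d ∈ S.ad, srcVal T 4 ((zp S).flatMap fun z => (zp S).map fun u => zsrc sq b d z u) =
        ∑ x : V, ∑ y : V, ∑ v : V, ∑ v' : V, (b * (T.rho sq x y *
          ((al T x v + T.rho 0 x v * al T y v) * (al T x v' + T.rho 0 x v' * al T y v')))) *
          T.rho d v v' := by
      intro d hd
      rw [srcVal_flatMap]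
      have h2 : ∀ z ∈ zp S, srcVal T 4 ((zp S).map fun u => zsrc sq b d z u) =
          ∑ x : V, ∑ y : V, ∑ v : V, ∑ v' : V, zw T z x y v * (b * (T.rho sq x y *
            ((al T x v' + T.rho 0 x v' * al T y v') * T.rho d v v'))) := by
        intro z hz
        rw [srcVal_map]
        have h3 : ∀ u ∈ zp S, (((zsrc sq b d z u).w : ℤ) : ℝ) *
            T.pcount 4 (zsrc sq b d z u).c (zsrc sq b d z u).free =
            ∑ x : V, ∑ y : V, ∑ v : V, ∑ v' : V, zw T u x y v' *
              (b * (T.rho sq x y * (zw T z x y v * T.rho d v v'))) := by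
          intro u hu
          rw [pcount_zsrc T sq b d z u hsq (had d hd) (zp_lt had z hz).1 (zp_lt had z hz).2
            (zp_lt had u hu).1 (zp_lt had u hu).2]
          simp only [mul_sum]
          refine sum_congr rfl fun x _ => sum_congr rfl fun y _ => sum_congr rfl fun v _ =>
            sum_congr rfl fun v' _ => ?_
          simp only [zsrc]
          push_cast
          ring
        rw [List.map_congr_left h3]
        simp only [lsum_comm]
        refine sum_congr rfl fun x _ => sum_congr rfl fun y _ => sum_congr rfl fun v _ =>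
          sum_congr rfl fun v' _ => ?_
        rw [List.sum_map_mul_right, zp_sum]
        ring
      rw [List.map_congr_left h2]
      simp only [lsum_comm]
      refine sum_congr rfl fun x _ => sum_congr rfl fun y _ => sum_congr rfl fun v _ =>
        sum_congr rfl fun v' _ => ?_
      rw [List.sum_map_mul_right, zp_sum]
      ring
    rw [srcVal_flatMap, List.map_congr_left h1]
    simp only [lsum_comm, mul_sum]
    rw [neg_mul, neg_add_eq_sub]
    congr 1
    refine sum_congr rfl fun x _ => sum_congr rfl fun y _ => sum_congr rfl fun v _ =>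
      sum_congr rfl fun v' _ => ?_
    rw [List.sum_map_mul_left]
    unfold al
    ring
  rw [s2, s3, s4]
  have p2 : T.D ^ (K - 2) = T.D ^ (K - 4) * T.D ^ 2 := by
    rw [← pow_add]
    congr 1
    omega
  have p3 : T.D ^ (K - 3) = T.D ^ (K - 4) * T.D := by
    rw [← pow_succ]
    congr 1
    omega
  rw [p2, p3]
  ring

end general

section concrete

/-- product table of the hybrid system -/
def hmul (a b : ℕ) : ℕ :=
  bif Nat.beq a 0 then (bif Nat.beq b 0 then 0 else 7)
  else bif Nat.beq a 1 then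
    (bif Nat.beq b 1 then 1 else bif Nat.beq b 5 then 1 else 7)
  else bif Nat.beq a 2 then
    (bif Nat.beq b 2 then 2 else bif Nat.beq b 3 then 3 else bif Nat.beq b 4 then 4
      else bif Nat.beq b 5 then 2 else 7)
  else bif Nat.beq a 3 then
    (bif Nat.beq b 2 then 3 else bif Nat.beq b 3 then 4 else bif Nat.beq b 5 then 3 else 7)
  else bif Nat.beq a 4 then
    (bif Nat.beq b 2 then 4 else bif Nat.beq b 5 then 4 else 7)
  else bif Nat.beq a 5 then
    (bif Nat.beq b 1 then 1 else bif Nat.beq b 2 then 2 else bif Nat.beq b 3 then 3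
      else bif Nat.beq b 4 then 4 else bif Nat.beq b 5 then 5 else 7)
  else 7

/-- the kind of the hybrid systems -/
def hS : Spec where
  fd := [0, 1, 2]
  ad := [1, 2]
  fg := [2, 3, 4]
  mul := hmul

/-- the kind of the hybrid systems in which the colours are not used in the free pairs -/
def hS' : Spec where
  fd := [0, 5]
  ad := [5]
  fg := [2, 3, 4]
  mul := hmul

variable {V : Type*} [Fintype V] [DecidableEq V] (G F : SimpleGraph V) [DecidableRel G.Adj]
  [DecidableRel F.Adj]

/-- the weights of the digits -/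
def hrho (w : V → V → ℝ) : ℕ → V → V → ℝ
  | 0, x, y => if G.Adj x y then 0 else 1
  | 1, x, y => if G.Adj x y then (if F.Adj x y then 0 else 1) else 0
  | 2, x, y => if F.Adj x y then 1 else 0
  | 3, x, y => w x y
  | 4, x, y => w x y ^ 2
  | 5, x, y => if G.Adj x y then 1 else 0
  | _, _, _ => 0

section lemmas

variable {G F} {w : V → V → ℝ}

omit [Fintype V] [DecidableEq V] in
theorem hrho_nonneg (hw0 : ∀ x y, 0 ≤ w x y) (d : ℕ) (x y : V) : 0 ≤ hrho G F w d x y := by
  unfold hrho
  split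
  · split_ifs <;> norm_num
  · split_ifs <;> norm_num
  · split_ifs <;> norm_num
  · exact hw0 x y
  · positivity
  · split_ifs <;> norm_num
  · norm_num

omit [Fintype V] [DecidableEq V] in
theorem hrho_le_one (hw0 : ∀ x y, 0 ≤ w x y) (hw1 : ∀ x y, w x y ≤ 1) (d : ℕ) (x y : V) :
    hrho G F w d x y ≤ 1 := by
  unfold hrho
  split
  · split_ifs <;> norm_num
  · split_ifs <;> norm_num
  · split_ifs <;> norm_num
  · exact hw1 x y
  · exact pow_le_one₀ (hw0 x y) (hw1 x y)
  · split_ifs <;> norm_num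
  · norm_num

omit [Fintype V] [DecidableEq V] in
theorem hrho_symm (hws : ∀ x y, w x y = w y x) (d : ℕ) (x y : V) :
    hrho G F w d x y = hrho G F w d y x := by
  unfold hrho
  split
  · simp only [G.adj_comm]
  · simp only [G.adj_comm, F.adj_comm]
  · simp only [F.adj_comm]
  · exact hws x y
  · rw [hws x y]
  · simp only [G.adj_comm]
  · rfl

omit [Fintype V] [DecidableEq V] in
theorem hrho_fig (hw0 : ∀ x y, 0 ≤ w x y) (hw1 : ∀ x y, w x y ≤ 1)
    (hwF : ∀ x y, ¬ F.Adj x y → w x y = 0) (d : ℕ) (hd : d ∈ [2, 3, 4]) (x y : V) :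
    hrho G F w d x y ≤ if F.Adj x y then 1 else 0 := by
  simp only [List.mem_cons, List.not_mem_nil, or_false] at hd
  rcases hd with rfl | rfl | rfl
  · exact le_rfl
  · show w x y ≤ _
    split_ifs with h
    · exact hw1 x y
    · rw [hwF x y h]
  · show w x y ^ 2 ≤ _
    split_ifs with h
    · exact pow_le_one₀ (hw0 x y) (hw1 x y)
    · rw [hwF x y h]; norm_num

omit [Fintype V] [DecidableEq V] in
theorem hrho_12 (hFG : F ≤ G) (x y : V) :
    hrho G F w 1 x y + hrho G F w 2 x y = if G.Adj x y then 1 else 0 := by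
  show (if G.Adj x y then (if F.Adj x y then (0 : ℝ) else 1) else 0) +
    (if F.Adj x y then (1 : ℝ) else 0) = _
  by_cases h : G.Adj x y
  · by_cases h2 : F.Adj x y <;> simp [h, h2]
  · have h2 : ¬ F.Adj x y := fun h2 => h (hFG h2)
    simp [h, h2]

omit [Fintype V] [DecidableEq V] in
theorem hrho_le_adj (hFG : F ≤ G) (hw0 : ∀ x y, 0 ≤ w x y) (hw1 : ∀ x y, w x y ≤ 1)
    (hwF : ∀ x y, ¬ F.Adj x y → w x y = 0) (d : ℕ) (hd : d ≠ 0) (x y : V) :
    hrho G F w d x y ≤ if G.Adj x y then 1 else 0 := by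
  by_cases h : G.Adj x y
  · rw [if_pos h]
    exact hrho_le_one hw0 hw1 d x y
  · rw [if_neg h]
    have h2 : ¬ F.Adj x y := fun h2 => h (hFG h2)
    unfold hrho
    split
    · exact absurd rfl hd
    · simp [h]
    · simp [h2]
    · rw [hwF x y h2]
    · rw [hwF x y h2]; norm_num
    · simp [h]
    · exact le_rfl

omit [DecidableEq V] in
theorem hrho_deg (D : ℝ) (hD : ∀ v, (G.degree v : ℝ) ≤ D) (x : V) :
    ∑ y, (if G.Adj x y then (1 : ℝ) else 0) ≤ D := by
  rw [sum_boole]
  refine le_trans (le_of_eq ?_) (hD x)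
  rw [← G.card_neighborFinset_eq_degree]
  congr 2
  ext y
  simp

omit [Fintype V] [DecidableEq V] in
theorem hrho_mul (hFG : F ≤ G) (hwF : ∀ x y, ¬ F.Adj x y → w x y = 0) (a b : ℕ) (x y : V)
    (h : hmul a b ≠ 7) :
    hrho G F w a x y * hrho G F w b x y = hrho G F w (hmul a b) x y := by
  have r0 : hrho G F w 0 x y = if G.Adj x y then 0 else 1 := rfl
  have r1 : hrho G F w 1 x y = if G.Adj x y then (if F.Adj x y then 0 else 1) else 0 := rfl
  have r2 : hrho G F w 2 x y = if F.Adj x y then 1 else 0 := rfl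
  have r3 : hrho G F w 3 x y = w x y := rfl
  have r4 : hrho G F w 4 x y = w x y ^ 2 := rfl
  have r5 : hrho G F w 5 x y = if G.Adj x y then 1 else 0 := rfl
  have hF : F.Adj x y → G.Adj x y := fun h => hFG h
  have p00 : hrho G F w 0 x y * hrho G F w 0 x y = hrho G F w 0 x y := by
    rw [r0]
    by_cases h1 : F.Adj x y
    · have h2 := hF h1
      simp [h1, h2, pow_two]
    · by_cases h2 : G.Adj x y <;> simp [h1, h2, hwF x y h1]
  have p11 : hrho G F w 1 x y * hrho G F w 1 x y = hrho G F w 1 x y := by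
    rw [r1]
    by_cases h1 : F.Adj x y
    · have h2 := hF h1
      simp [h1, h2, pow_two]
    · by_cases h2 : G.Adj x y <;> simp [h1, h2, hwF x y h1]
  have p15 : hrho G F w 1 x y * hrho G F w 5 x y = hrho G F w 1 x y := by
    rw [r1, r5]
    by_cases h1 : F.Adj x y
    · have h2 := hF h1
      simp [h1, h2, pow_two]
    · by_cases h2 : G.Adj x y <;> simp [h1, h2, hwF x y h1]
  have p22 : hrho G F w 2 x y * hrho G F w 2 x y = hrho G F w 2 x y := by
    rw [r2]
    by_cases h1 : F.Adj x y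
    · have h2 := hF h1
      simp [h1, h2, pow_two]
    · by_cases h2 : G.Adj x y <;> simp [h1, h2, hwF x y h1]
  have p23 : hrho G F w 2 x y * hrho G F w 3 x y = hrho G F w 3 x y := by
    rw [r2, r3]
    by_cases h1 : F.Adj x y
    · have h2 := hF h1
      simp [h1, h2, pow_two]
    · by_cases h2 : G.Adj x y <;> simp [h1, h2, hwF x y h1]
  have p24 : hrho G F w 2 x y * hrho G F w 4 x y = hrho G F w 4 x y := by
    rw [r2, r4]
    by_cases h1 : F.Adj x y
    · have h2 := hF h1
      simp [h1, h2, pow_two]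
    · by_cases h2 : G.Adj x y <;> simp [h1, h2, hwF x y h1]
  have p25 : hrho G F w 2 x y * hrho G F w 5 x y = hrho G F w 2 x y := by
    rw [r2, r5]
    by_cases h1 : F.Adj x y
    · have h2 := hF h1
      simp [h1, h2, pow_two]
    · by_cases h2 : G.Adj x y <;> simp [h1, h2, hwF x y h1]
  have p32 : hrho G F w 3 x y * hrho G F w 2 x y = hrho G F w 3 x y := by
    rw [r2, r3]
    by_cases h1 : F.Adj x y
    · have h2 := hF h1
      simp [h1, h2, pow_two]
    · by_cases h2 : G.Adj x y <;> simp [h1, h2, hwF x y h1]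
  have p33 : hrho G F w 3 x y * hrho G F w 3 x y = hrho G F w 4 x y := by
    rw [r3, r4]
    by_cases h1 : F.Adj x y
    · have h2 := hF h1
      simp [h1, h2, pow_two]
    · by_cases h2 : G.Adj x y <;> simp [h1, h2, hwF x y h1]
  have p35 : hrho G F w 3 x y * hrho G F w 5 x y = hrho G F w 3 x y := by
    rw [r3, r5]
    by_cases h1 : F.Adj x y
    · have h2 := hF h1
      simp [h1, h2, pow_two]
    · by_cases h2 : G.Adj x y <;> simp [h1, h2, hwF x y h1]
  have p42 : hrho G F w 4 x y * hrho G F w 2 x y = hrho G F w 4 x y := by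
    rw [r2, r4]
    by_cases h1 : F.Adj x y
    · have h2 := hF h1
      simp [h1, h2, pow_two]
    · by_cases h2 : G.Adj x y <;> simp [h1, h2, hwF x y h1]
  have p45 : hrho G F w 4 x y * hrho G F w 5 x y = hrho G F w 4 x y := by
    rw [r4, r5]
    by_cases h1 : F.Adj x y
    · have h2 := hF h1
      simp [h1, h2, pow_two]
    · by_cases h2 : G.Adj x y <;> simp [h1, h2, hwF x y h1]
  have p51 : hrho G F w 5 x y * hrho G F w 1 x y = hrho G F w 1 x y := by
    rw [r1, r5]
    by_cases h1 : F.Adj x y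
    · have h2 := hF h1
      simp [h1, h2, pow_two]
    · by_cases h2 : G.Adj x y <;> simp [h1, h2, hwF x y h1]
  have p52 : hrho G F w 5 x y * hrho G F w 2 x y = hrho G F w 2 x y := by
    rw [r2, r5]
    by_cases h1 : F.Adj x y
    · have h2 := hF h1
      simp [h1, h2, pow_two]
    · by_cases h2 : G.Adj x y <;> simp [h1, h2, hwF x y h1]
  have p53 : hrho G F w 5 x y * hrho G F w 3 x y = hrho G F w 3 x y := by
    rw [r3, r5]
    by_cases h1 : F.Adj x y
    · have h2 := hF h1
      simp [h1, h2, pow_two]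
    · by_cases h2 : G.Adj x y <;> simp [h1, h2, hwF x y h1]
  have p54 : hrho G F w 5 x y * hrho G F w 4 x y = hrho G F w 4 x y := by
    rw [r4, r5]
    by_cases h1 : F.Adj x y
    · have h2 := hF h1
      simp [h1, h2, pow_two]
    · by_cases h2 : G.Adj x y <;> simp [h1, h2, hwF x y h1]
  have p55 : hrho G F w 5 x y * hrho G F w 5 x y = hrho G F w 5 x y := by
    rw [r5]
    by_cases h1 : F.Adj x y
    · have h2 := hF h1
      simp [h1, h2, pow_two]
    · by_cases h2 : G.Adj x y <;> simp [h1, h2, hwF x y h1]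
  rcases a with _ | _ | _ | _ | _ | _ | a
  all_goals rcases b with _ | _ | _ | _ | _ | _ | b
  all_goals
    first
    | exact absurd rfl h
    | exact p00
    | exact p11
    | exact p15
    | exact p22
    | exact p23
    | exact p24
    | exact p25
    | exact p32
    | exact p33
    | exact p35
    | exact p42
    | exact p45
    | exact p51
    | exact p52
    | exact p53
    | exact p54
    | exact p55

end lemmas

/-- the hybrid system of weights `w ∈ [0, 1]` on the edges of `F` -/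
noncomputable def hSys (hFG : F ≤ G) (w : V → V → ℝ) (hw0 : ∀ x y, 0 ≤ w x y)
    (hw1 : ∀ x y, w x y ≤ 1) (hws : ∀ x y, w x y = w y x) (hwF : ∀ x y, ¬ F.Adj x y → w x y = 0)
    (D : ℝ) (hD : ∀ v, (G.degree v : ℝ) ≤ D) : Sys hS V where
  rho := hrho G F w
  fi := fun x y => if F.Adj x y then 1 else 0
  D := D
  nonneg := hrho_nonneg hw0
  le_one := hrho_le_one hw0 hw1
  symm := hrho_symm hws
  free := by
    intro x y
    simp only [hS, List.map_cons, List.map_nil, List.sum_cons, List.sum_nil, add_zero]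
    rw [hrho_12 hFG]
    show (if G.Adj x y then (0 : ℝ) else 1) + (if G.Adj x y then (1 : ℝ) else 0) = 1
    split_ifs <;> norm_num
  deg := by
    intro x
    simp only [hS, List.map_cons, List.map_nil, List.sum_cons, List.sum_nil, add_zero,
      hrho_12 hFG]
    exact hrho_deg D hD x
  adj := by
    intro d x y hd
    simp only [hS, List.map_cons, List.map_nil, List.sum_cons, List.sum_nil, add_zero,
      hrho_12 hFG]
    exact hrho_le_adj hFG hw0 hw1 hwF d hd x y
  fig := hrho_fig hw0 hw1 hwF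
  mul := fun a b x y h => hrho_mul hFG hwF a b x y h

end concrete

section final

variable {V : Type*} [Fintype V] [DecidableEq V] {G F : SimpleGraph V} [DecidableRel G.Adj]
  [DecidableRel F.Adj]

theorem bad_hrho (hFG : F ≤ G) (w : V → V → ℝ) :
    ∑ a : V, ∑ b : V, ∑ c : V, ∑ d : V,
      (if F.Adj a b then (1 : ℝ) else 0) * (if F.Adj c d then (1 : ℝ) else 0) *
        (hrho G F w 0 a c * hrho G F w 0 a d * hrho G F w 0 b c * hrho G F w 0 b d) =
      (((univ : Finset ((V × V) × (V × V))).filter fun q => F.Adj q.1.1 q.1.2 ∧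
        F.Adj q.2.1 q.2.2 ∧ MP433GB.nonconf G q.1.1 q.1.2 q.2.1 q.2.2).card : ℝ) := by
  rw [← sum_boole, Fintype.sum_prod_type]
  simp only [Fintype.sum_prod_type]
  refine sum_congr rfl fun a _ => sum_congr rfl fun b _ => sum_congr rfl fun c _ =>
    sum_congr rfl fun d _ => ?_
  show (if F.Adj a b then (1 : ℝ) else 0) * (if F.Adj c d then (1 : ℝ) else 0) *
    ((if G.Adj a c then (0 : ℝ) else 1) * (if G.Adj a d then (0 : ℝ) else 1) *
      (if G.Adj b c then (0 : ℝ) else 1) * (if G.Adj b d then (0 : ℝ) else 1)) = _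
  by_cases h1 : F.Adj a b
  · by_cases h2 : F.Adj c d
    · by_cases h3 : G.Adj a c
      · simp [h3, MP433GB.nonconf]
      · by_cases h4 : G.Adj a d
        · simp [h4, MP433GB.nonconf]
        · by_cases h5 : G.Adj b c
          · simp [h5, MP433GB.nonconf]
          · by_cases h6 : G.Adj b d
            · simp [h6, MP433GB.nonconf]
            · have n1 : a ≠ c := fun e => h4 (e ▸ hFG h2)
              have n2 : a ≠ d := fun e => h3 (e ▸ (hFG h2).symm)
              have n3 : b ≠ c := fun e => h6 (e ▸ hFG h2)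
              have n4 : b ≠ d := fun e => h5 (e ▸ (hFG h2).symm)
              simp [h1, h2, h3, h4, h5, h6, n1, n2, n3, n4, MP433GB.nonconf]
    · simp [h2]
  · simp [h1]

omit [Fintype V] [DecidableEq V] in
/-- the factor of a further vertex in the term `inn` -/
theorem hz_eq (x y v : V) : (if G.Adj x v then (1 : ℝ) else 0) +
    (if G.Adj x v then (0 : ℝ) else 1) * (if G.Adj y v then (1 : ℝ) else 0) =
    1 - mrho G (0 : V → V → ℝ) 0 x v * mrho G (0 : V → V → ℝ) 0 y v := by
  show _ = 1 - (if G.Adj x v then (0 : ℝ) else 1) * (if G.Adj y v then (0 : ℝ) else 1)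
  by_cases h1 : G.Adj x v <;> by_cases h2 : G.Adj y v <;> simp [h1, h2]

/-- the target of a hybrid system -/
theorem lvl_hSys (hFG : F ≤ G) (w : V → V → ℝ) (hw0 : ∀ x y, 0 ≤ w x y)
    (hw1 : ∀ x y, w x y ≤ 1) (hws : ∀ x y, w x y = w y x) (hwF : ∀ x y, ¬ F.Adj x y → w x y = 0)
    (D : ℝ) (hD : ∀ v, (G.degree v : ℝ) ≤ D) (K : ℕ) (hK : 4 ≤ K) (a b : ℕ) :
    lvl (hSys G F hFG w hw0 hw1 hws hwF D hD) K (tgtG hS 3 4 a b) = D ^ (K - 4) *
      (2 * ∑ x : V, ∑ y : V, w x y ^ 2 *
        (a * D ^ 2 + b * (MP433GB.codeg G x y * D + (MP433GB.inn G x y : ℝ) / 2)) -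
      b * (∑ x : V, ∑ y : V, w x y) ^ 2) := by
  rw [lvl_tgtG _ 3 4 (by norm_num) (by norm_num) (by
    intro d hd
    simp only [hS, List.mem_cons, List.not_mem_nil, or_false] at hd
    omega) K hK a b]
  have h3 : ∀ x y, (hSys G F hFG w hw0 hw1 hws hwF D hD).rho 3 x y = w x y := fun _ _ => rfl
  have h4 : ∀ x y, (hSys G F hFG w hw0 hw1 hws hwF D hD).rho 4 x y = w x y ^ 2 := fun _ _ => rfl
  have h0 : ∀ x y, (hSys G F hFG w hw0 hw1 hws hwF D hD).rho 0 x y =
    if G.Adj x y then 0 else 1 := fun _ _ => rfl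
  have hal : ∀ x y, al (hSys G F hFG w hw0 hw1 hws hwF D hD) x y =
      if G.Adj x y then 1 else 0 := by
    intro x y
    simp only [al, hS, List.map_cons, List.map_nil, List.sum_cons, List.sum_nil, add_zero]
    exact hrho_12 (w := w) hFG x y
  have hDD : (hSys G F hFG w hw0 hw1 hws hwF D hD).D = D := rfl
  simp only [h3, h4, h0, hal, hDD, hz_eq]
  have hc : ∀ x y : V, ∑ z : V, (if G.Adj x z then (1 : ℝ) else 0) *
      (if G.Adj y z then (1 : ℝ) else 0) = MP433GB.codeg G x y := fun x y => codeg_sum x y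
  have hi : ∀ x y : V, ∑ z : V, ∑ u : V,
      (1 - mrho G (0 : V → V → ℝ) 0 x z * mrho G (0 : V → V → ℝ) 0 y z) *
      ((1 - mrho G (0 : V → V → ℝ) 0 x u * mrho G (0 : V → V → ℝ) 0 y u) *
        (if G.Adj z u then (1 : ℝ) else 0)) = MP433GB.inn G x y := by
    intro x y
    rw [← inn_sum]
    refine sum_congr rfl fun z _ => sum_congr rfl fun u _ => ?_
    rw [← mul_assoc]
    rfl
  simp only [hc, hi]
  congr 1
  simp only [mul_sum]
  rw [← sum_add_distrib, ← sum_add_distrib]
  congr 1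
  refine sum_congr rfl fun x _ => ?_
  rw [← sum_add_distrib, ← sum_add_distrib]
  refine sum_congr rfl fun y _ => ?_
  ring

end final

/-- **From the quadratic inequality to `RStar`.** -/
theorem rstar_core (a b : ℕ) (ha : 0 < a) (hb : 0 < b) (C : ℝ)
    (h : ∀ (V : Type) [Fintype V] [DecidableEq V] (G F : SimpleGraph V) [DecidableRel G.Adj]
      [DecidableRel F.Adj] (D : ℕ) (w : V → V → ℝ), 1 ≤ D → F ≤ G → (∀ v, G.degree v ≤ D) →
      (∀ x y, 0 ≤ w x y) → (∀ x y, w x y ≤ 1) → (∀ x y, w x y = w y x) →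
      (∀ x y, ¬ F.Adj x y → w x y = 0) →
      -C * (((univ : Finset ((V × V) × (V × V))).filter fun q => F.Adj q.1.1 q.1.2 ∧
        F.Adj q.2.1 q.2.2 ∧ MP433GB.nonconf G q.1.1 q.1.2 q.2.1 q.2.2).card : ℝ) ≤
      2 * ∑ x : V, ∑ y : V, w x y ^ 2 *
        (a * (D : ℝ) ^ 2 + b * (MP433GB.codeg G x y * D + (MP433GB.inn G x y : ℝ) / 2)) -
      b * (∑ x : V, ∑ y : V, w x y) ^ 2) :
    MP433GB.RStar (2 + a / b) := by
  intro e1 he1
  have ha' : (0 : ℝ) < a := by exact_mod_cast ha
  have hb' : (0 : ℝ) < b := by exact_mod_cast hb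
  set kp : ℝ := a / b with hkp
  have hkp0 : 0 < kp := by positivity
  set C' : ℝ := max C 1 with hC'
  have hC0 : 0 < C' := lt_of_lt_of_le one_pos (le_max_right _ _)
  refine ⟨4 * e1 * b * kp ^ 2 / C', by positivity, 1, ?_⟩
  intro V _ _ G F _ _ D hD1 hFG hdeg hbad
  have hD0 : (0 : ℝ) < D := by exact_mod_cast hD1
  have hdeg' : ∀ v, (G.degree v : ℝ) ≤ D := fun v => by exact_mod_cast hdeg v
  -- the weights
  set X : V → V → ℝ := fun x y =>
    (2 + kp - 2) * (D : ℝ) ^ 2 + MP433GB.codeg G x y * D + (MP433GB.inn G x y : ℝ) / 2 with hX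
  have hXlow : ∀ x y, kp * (D : ℝ) ^ 2 ≤ X x y := by
    intro x y
    have h1 : (0 : ℝ) ≤ MP433GB.codeg G x y * D := by positivity
    have h2 : (0 : ℝ) ≤ (MP433GB.inn G x y : ℝ) / 2 := by positivity
    show kp * (D : ℝ) ^ 2 ≤ (2 + kp - 2) * (D : ℝ) ^ 2 + MP433GB.codeg G x y * D +
      (MP433GB.inn G x y : ℝ) / 2
    nlinarith
  have hc0 : 0 < kp * (D : ℝ) ^ 2 := by positivity
  have hXpos : ∀ x y, 0 < X x y := fun x y => lt_of_lt_of_le hc0 (hXlow x y)
  have hXs : ∀ x y, X x y = X y x := by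
    intro x y
    have e1 : MP433GB.codeg G x y = MP433GB.codeg G y x := by
      unfold MP433GB.codeg
      rw [inter_comm]
    have e2 : MP433GB.inn G x y = MP433GB.inn G y x := by
      unfold MP433GB.inn
      rw [union_comm]
    show (2 + kp - 2) * (D : ℝ) ^ 2 + MP433GB.codeg G x y * D + (MP433GB.inn G x y : ℝ) / 2 =
      (2 + kp - 2) * (D : ℝ) ^ 2 + MP433GB.codeg G y x * D + (MP433GB.inn G y x : ℝ) / 2
    rw [e1, e2]
  set w : V → V → ℝ := fun x y => if F.Adj x y then kp * (D : ℝ) ^ 2 / X x y else 0 with hw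
  have hw0 : ∀ x y, 0 ≤ w x y := by
    intro x y
    show 0 ≤ (if F.Adj x y then kp * (D : ℝ) ^ 2 / X x y else 0)
    split_ifs
    · exact div_nonneg hc0.le (hXpos x y).le
    · exact le_rfl
  have hw1 : ∀ x y, w x y ≤ 1 := by
    intro x y
    show (if F.Adj x y then kp * (D : ℝ) ^ 2 / X x y else 0) ≤ 1
    split_ifs
    · exact (div_le_one (hXpos x y)).2 (hXlow x y)
    · norm_num
  have hws : ∀ x y, w x y = w y x := by
    intro x y
    show (if F.Adj x y then kp * (D : ℝ) ^ 2 / X x y else 0) =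
      (if F.Adj y x then kp * (D : ℝ) ^ 2 / X y x else 0)
    rw [hXs x y]
    simp only [F.adj_comm]
  have hwF : ∀ x y, ¬ F.Adj x y → w x y = 0 := by
    intro x y hn
    show (if F.Adj x y then kp * (D : ℝ) ^ 2 / X x y else 0) = 0
    rw [if_neg hn]
  have main := h V G F D w hD1 hFG hdeg hw0 hw1 hws hwF
  set B : ℝ := (((univ : Finset ((V × V) × (V × V))).filter fun q => F.Adj q.1.1 q.1.2 ∧
        F.Adj q.2.1 q.2.2 ∧ MP433GB.nonconf G q.1.1 q.1.2 q.2.1 q.2.2).card : ℝ) with hB
  change -C * B ≤ _ at main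
  have hB0 : 0 ≤ B := by rw [hB]; positivity
  -- the harmonic sum
  set H : ℝ := ∑ q ∈ (univ : Finset (V × V)).filter (fun q => F.Adj q.1 q.2),
      1 / ((2 + kp - 2) * (D : ℝ) ^ 2 + MP433GB.codeg G q.1 q.2 * D +
        (MP433GB.inn G q.1 q.2 : ℝ) / 2) with hH
  have hHs : H = ∑ x : V, ∑ y : V, if F.Adj x y then 1 / X x y else 0 := by
    rw [hH, sum_filter, Fintype.sum_prod_type]
  have hS1 : ∑ x : V, ∑ y : V, w x y = kp * (D : ℝ) ^ 2 * H := by
    rw [hHs, mul_sum]
    refine sum_congr rfl fun x _ => ?_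
    rw [mul_sum]
    refine sum_congr rfl fun y _ => ?_
    show (if F.Adj x y then kp * (D : ℝ) ^ 2 / X x y else 0) = _
    split_ifs
    · ring
    · ring
  have hS2 : ∑ x : V, ∑ y : V, w x y ^ 2 *
      (a * (D : ℝ) ^ 2 + b * (MP433GB.codeg G x y * D + (MP433GB.inn G x y : ℝ) / 2)) =
      b * ((kp * (D : ℝ) ^ 2) ^ 2 * H) := by
    rw [hHs, mul_sum, mul_sum]
    refine sum_congr rfl fun x _ => ?_
    rw [mul_sum, mul_sum]
    refine sum_congr rfl fun y _ => ?_
    have e1 : (a : ℝ) * (D : ℝ) ^ 2 +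
        b * (MP433GB.codeg G x y * D + (MP433GB.inn G x y : ℝ) / 2) = b * X x y := by
      show _ = (b : ℝ) * ((2 + kp - 2) * (D : ℝ) ^ 2 + MP433GB.codeg G x y * D +
        (MP433GB.inn G x y : ℝ) / 2)
      have : (a : ℝ) = b * kp := by rw [hkp]; field_simp
      rw [this]
      ring
    rw [e1]
    show (if F.Adj x y then kp * (D : ℝ) ^ 2 / X x y else 0) ^ 2 * (b * X x y) = _
    split_ifs
    · have := (hXpos x y).ne'
      field_simp
    · ring
  rw [hS1, hS2] at main
  have main2 : -C * B ≤ 2 * (b * ((kp * (D : ℝ) ^ 2) ^ 2 * H)) -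
      b * (kp * (D : ℝ) ^ 2 * H) ^ 2 := main
  have hCB : C * B ≤ C' * (4 * e1 * b * kp ^ 2 / C' * (D : ℝ) ^ 4) :=
    le_trans (mul_le_mul_of_nonneg_right (le_max_left _ _) hB0)
      (mul_le_mul_of_nonneg_left hbad hC0.le)
  have hCB2 : C' * (4 * e1 * b * kp ^ 2 / C' * (D : ℝ) ^ 4) =
      (b * (kp * (D : ℝ) ^ 2) ^ 2) * (4 * e1) := by
    field_simp
  have hbc : 0 < (b : ℝ) * (kp * (D : ℝ) ^ 2) ^ 2 := by positivity
  have main3 : H * (H - 2) ≤ 4 * e1 := by
    have : (b * (kp * (D : ℝ) ^ 2) ^ 2) * (H * (H - 2)) ≤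
        (b * (kp * (D : ℝ) ^ 2) ^ 2) * (4 * e1) := by
      have e : (b * (kp * (D : ℝ) ^ 2) ^ 2) * (H * (H - 2)) =
          b * (kp * (D : ℝ) ^ 2 * H) ^ 2 - 2 * (b * ((kp * (D : ℝ) ^ 2) ^ 2 * H)) := by ring
      rw [e]
      linarith
    exact le_of_mul_le_mul_left this hbc
  by_contra hcon
  push Not at hcon
  nlinarith


/-- **From the inequality for hybrid systems to `RStar`.** -/
theorem rstar_of_hyb (a b : ℕ) (ha : 0 < a) (hb : 0 < b) (K : ℕ) (hK : 4 ≤ K) (C : ℝ)
    (h : ∀ (V : Type) [Fintype V] (T : Sys hS V), 0 ≤ T.D →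
      -C * T.bad * T.D ^ (K - 4) ≤ lvl T K (tgtG hS 3 4 a b)) :
    MP433GB.RStar (2 + a / b) := by
  refine rstar_core a b ha hb C ?_
  intro V _ _ G F _ _ D w hD1 hFG hdeg hw0 hw1 hws hwF
  have hD0 : (0 : ℝ) < D := by exact_mod_cast hD1
  have hdeg' : ∀ v, (G.degree v : ℝ) ≤ D := fun v => by exact_mod_cast hdeg v
  have main := h V (hSys G F hFG w hw0 hw1 hws hwF D hdeg') hD0.le
  rw [lvl_hSys hFG w hw0 hw1 hws hwF D hdeg' K hK a b] at main
  have hb : (hSys G F hFG w hw0 hw1 hws hwF D hdeg').bad = _ := bad_hrho hFG w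
  rw [hb] at main
  change -C * _ * (D : ℝ) ^ (K - 4) ≤ _ at main
  have hDK : (0 : ℝ) < (D : ℝ) ^ (K - 4) := by positivity
  refine le_of_mul_le_mul_left ?_ hDK
  rw [mul_comm]
  exact main

end MP433Sys
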