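import Pool.Agent.Work.MP_433a35_co.GB.Sys.Dec

/-!
# Assembly

The sources of a certificate are cut into parts; the parts at level `k` are the list
`parts S Tgt k bs rs`, where `bs` is the list of the blocks with the lengths of their parts (in rows
of the quadratic form) and `rs` is the list of the degree rows, cut into lists.
-/

namespace MP433Sys

open Finset

variable {S : Spec} {V : Type*} [Fintype V] (T : Sys S V)

/-- the parts of a block: rows `i ..` of the quadratic form -/
def cutC (S : Spec) (s : ℕ) (R : Option ℕ) (k : ℕ) (Q : List (List ℤ)) (F : List (ℕ × ℕ)) :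
    ℕ → List ℕ → List (List Src)
  | i, (n :: ns) => blkSrc S s R k ((Q.drop i).take n) (F.drop i) :: cutC S s R k Q F (i + n) ns
  | i, [] => [blkSrc S s R k (Q.drop i) (F.drop i)]

/-- the parts of all blocks with root size at most `k` -/
def partsB (S : Spec) (k : ℕ) : List (BlkD × List ℕ) → List (List Src)
  | (x :: bs) => (if x.1.s ≤ k then cutC S x.1.s x.1.R k x.1.Q x.1.fls 0 x.2 else []) ++
      partsB S k bs
  | [] => []

/-- the sources of a list of degree rows -/
def rowsSrc (S : Spec) (k : ℕ) (r : List RowD) : List Src := r.flatMap fun x => x.src S k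

/-- all parts -/
def parts (S : Spec) (Tgt : ℕ → List Src) (k : ℕ) (bs : List (BlkD × List ℕ))
    (rs : List (List RowD)) : List (List Src) :=
  Tgt k :: (partsB S k bs ++ rs.map (rowsSrc S k))

theorem blkSrc_nil (S : Spec) (s : ℕ) (R : Option ℕ) (k : ℕ) (Q : List (List ℤ)) :
    blkSrc S s R k Q [] = [] := by
  cases Q <;> rfl

theorem blkSrc_nil' (S : Spec) (s : ℕ) (R : Option ℕ) (k : ℕ) (F : List (ℕ × ℕ)) :
    blkSrc S s R k [] F = [] := by
  cases F <;> rfl

theorem rowS_lt (S : Spec) (s : ℕ) (R : Option ℕ) (k : ℕ) (h : k < s) (A : ℕ × ℕ) (cs : List ℤ)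
    (F : List (ℕ × ℕ)) : rowS S s R k A cs F = [] := by
  induction F generalizing cs with
  | nil => cases cs <;> rfl
  | cons B F ih =>
    cases cs with
    | nil => rfl
    | cons c cs =>
      rw [rowS, ih, if_neg (by omega)]
      rfl

theorem blkSrc_lt (S : Spec) (s : ℕ) (R : Option ℕ) (k : ℕ) (h : k < s) (Q : List (List ℤ))
    (F : List (ℕ × ℕ)) : blkSrc S s R k Q F = [] := by
  induction F generalizing Q with
  | nil => exact blkSrc_nil S s R k Q
  | cons A F ih =>
    cases Q with
    | nil => rfl
    | cons q Q =>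
      rw [blkSrc, ih, rowS_lt S s R k h, if_neg (by omega)]
      rfl

theorem blkSrc_split (S : Spec) (s : ℕ) (R : Option ℕ) (k n : ℕ) (Q : List (List ℤ))
    (F : List (ℕ × ℕ)) : blkSrc S s R k Q F =
      blkSrc S s R k (Q.take n) F ++ blkSrc S s R k (Q.drop n) (F.drop n) := by
  induction n generalizing Q F with
  | zero => simp [blkSrc_nil']
  | succ n ih =>
    cases Q with
    | nil => simp [blkSrc_nil']
    | cons q Q =>
      cases F with
      | nil => simp [blkSrc_nil]
      | cons A F =>
        rw [List.take_succ_cons, List.drop_succ_cons, List.drop_succ_cons, blkSrc, blkSrc, ih Q F]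
        simp only [List.append_assoc]

theorem cutC_flatten (S : Spec) (s : ℕ) (R : Option ℕ) (k : ℕ) (Q : List (List ℤ))
    (F : List (ℕ × ℕ)) (ns : List ℕ) (i : ℕ) :
    (cutC S s R k Q F i ns).flatten = blkSrc S s R k (Q.drop i) (F.drop i) := by
  induction ns generalizing i with
  | nil => simp [cutC]
  | cons n ns ih =>
    rw [cutC, List.flatten_cons, ih, blkSrc_split S s R k n (Q.drop i) (F.drop i), List.drop_drop,
      List.drop_drop]

theorem partsB_flatten (S : Spec) (k : ℕ) (bs : List (BlkD × List ℕ)) :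
    (partsB S k bs).flatten =
      (bs.map Prod.fst).flatMap fun b => blkSrc S b.s b.R k b.Q b.fls := by
  induction bs with
  | nil => rfl
  | cons x bs ih =>
    have e : (if x.1.s ≤ k then cutC S x.1.s x.1.R k x.1.Q x.1.fls 0 x.2 else []).flatten =
        blkSrc S x.1.s x.1.R k x.1.Q x.1.fls := by
      split_ifs with h
      · rw [cutC_flatten]
        rfl
      · rw [blkSrc_lt S _ _ k (by omega)]
        rfl
    rw [partsB, List.flatten_append, e, ih, List.map_cons, List.flatMap_cons]

theorem parts_flatten (S : Spec) (Tgt : ℕ → List Src) (k : ℕ) (bs : List (BlkD × List ℕ))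
    (rs : List (List RowD)) :
    (parts S Tgt k bs rs).flatten = allSrc S Tgt (bs.map Prod.fst) rs.flatten k := by
  unfold parts allSrc
  rw [List.flatten_cons, List.flatten_append, partsB_flatten, List.append_assoc]
  congr 2
  induction rs with
  | nil => rfl
  | cons r rs ih =>
    rw [List.map_cons, List.flatten_cons, ih, List.flatten_cons, List.flatMap_append]
    rfl

/-- **The verifier**, for sources cut into parts. -/
theorem main_parts (reg : Bool) (hreg : reg = true → Regular T) (K : ℕ) (hK : 4 ≤ K)
    (hD : 0 ≤ T.D) (had : ∀ d ∈ S.ad, d < 8)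
    (Tgt : ℕ → List Src) (blks : List BlkD) (rows : List RowD)
    (hb : ∀ b ∈ blks, b.good S K)
    (hr : (rows.all fun x => x.ok reg K) = true)
    (bs : ℕ → List (BlkD × List ℕ)) (hbs : ∀ k ≤ K, (bs k).map Prod.fst = blks)
    (rs : ℕ → List (List RowD)) (hrs : ∀ k ≤ K, (rs k).flatten = rows)
    (c : ℕ → ℝ) (hc0 : ∀ k, k < 4 → c k = 0)
    (hc : ∀ k ≤ K, -(c k) * T.bad * T.D ^ (k - 4) ≤
      srcVal T k (parts S Tgt k (bs k) (rs k)).flatten) :
    -(∑ k ∈ range (K + 1), c k) * T.bad * T.D ^ (K - 4) ≤ lvl T K Tgt := by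
  refine main_ineq T reg hreg K hK hD had Tgt blks rows hb hr c hc0 ?_
  intro k hk
  have := hc k hk
  rwa [parts_flatten, hbs k hk, hrs k hk] at this

end MP433Sys
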