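import Pool.Agent.Work.MP_433a35_co.GB.Sys.BlkP

/-!
# Assembly, fast version

Blocks with packed data (`BlkT`); the parts are evaluated with `blkSrcP`.
-/

namespace MP433Sys

open Finset

variable {S : Spec} {V : Type*} [Fintype V] (T : Sys S V)

/-- data of a block: root size, number of further positions, base and offset of the packed rows `q`
of the quadratic form, flags `f`, list of the root codes `rts` -/
structure BlkT where
  s : ℕ
  e : ℕ
  X : ℕ
  off : ℕ
  q : List ℕ
  f : List FlT
  rts : List ℕ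

/-- the block -/
def BlkT.D (b : BlkT) : BlkD :=
  ⟨b.s, b.e, none, b.f.map FlT.pr, decT b.X b.off b.f.length b.q⟩

/-- the block is admissible and its form is nonnegative -/
def BlkT.good (S : Spec) (K : ℕ) (b : BlkT) : Prop :=
  b.s + 2 * b.e ≤ K ∧ flsOK S b.s b.e b.rts b.f = true ∧
    ∀ x : List ℝ, 0 ≤ qfu (decT b.X b.off b.f.length b.q) x

theorem BlkT.good_D {S : Spec} {K : ℕ} {b : BlkT} (h : b.good S K) : b.D.good S K :=
  ⟨h.1, flsOK_blk h.2.1, h.2.2⟩

/-- the parts of a block -/
def cutP (S : Spec) (s k X off : ℕ) (q : List ℕ) (f : List FlT) :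
    ℕ → List ℕ → List (List Src)
  | i, (n :: ns) =>
    blkSrcP S s k X off ((q.drop i).take n) (f.drop i) :: cutP S s k X off q f (i + n) ns
  | i, [] => [blkSrcP S s k X off (q.drop i) (f.drop i)]

theorem cutP_eq (S : Spec) (s e k X off : ℕ) (q : List ℕ) (f : List FlT)
    (hf : ∀ y ∈ f, y.ok s e = true) (ns : List ℕ) (i : ℕ) :
    cutP S s k X off q f i ns = cutC S s none k (decT X off f.length q) (f.map FlT.pr) i ns := by
  induction ns generalizing i with
  | nil => rw [cutP, cutC, partP_eq' S s e k X off _ i q f rfl hf]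
  | cons n ns ih => rw [cutP, cutC, partP_eq S s e k X off _ i n q f rfl hf, ih]

/-- the parts of all blocks with root size at most `k` -/
def partsP (S : Spec) (k : ℕ) : List (BlkT × List ℕ) → List (List Src)
  | (x :: bs) =>
    (if x.1.s ≤ k then cutP S x.1.s k x.1.X x.1.off x.1.q x.1.f 0 x.2 else []) ++ partsP S k bs
  | [] => []

theorem partsP_eq (S : Spec) (K k : ℕ) (bs : List (BlkT × List ℕ)) (h : ∀ x ∈ bs, x.1.good S K) :
    partsP S k bs = partsB S k (bs.map fun x => (x.1.D, x.2)) := by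
  induction bs with
  | nil => rfl
  | cons x bs ih =>
    rw [partsP, List.map_cons, partsB, ih fun y hy => h y (List.mem_cons_of_mem _ hy)]
    have hx := h x List.mem_cons_self
    show (if x.1.s ≤ k then _ else _) ++ _ = (if x.1.s ≤ k then _ else _) ++ _
    rw [cutP_eq S x.1.s x.1.e k x.1.X x.1.off x.1.q x.1.f (flsOK_ok hx.2.1)]
    rfl

theorem partsP_cons {S : Spec} {k : ℕ} {b : BlkT} {c : List ℕ} {n : List (List Src)}
    (h : b.s ≤ k) (hn : cutP S b.s k b.X b.off b.q b.f 0 c = n) (r : List (BlkT × List ℕ)) :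
    partsP S k ((b, c) :: r) = n ++ partsP S k r := by
  rw [partsP, if_pos h, hn]

theorem partsP_skip {S : Spec} {k : ℕ} {b : BlkT} {c : List ℕ}
    (h : k < b.s) (r : List (BlkT × List ℕ)) :
    partsP S k ((b, c) :: r) = partsP S k r := by
  rw [partsP, if_neg (by show ¬ b.s ≤ k; omega)]
  rfl

theorem partsP_nil (S : Spec) (k : ℕ) : partsP S k [] = [] := rfl

/-- all parts -/
def partsT (S : Spec) (Tgt : ℕ → List Src) (k : ℕ) (bs : List (BlkT × List ℕ))
    (rs : List (List RowD)) : List (List Src) :=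
  Tgt k :: (partsP S k bs ++ rs.map (rowsSrc S k))

/-- **The verifier**, for sources cut into parts, fast version. -/
theorem main_partsT (reg : Bool) (hreg : reg = true → Regular T) (K : ℕ) (hK : 4 ≤ K)
    (hD : 0 ≤ T.D) (had : ∀ d ∈ S.ad, d < 8)
    (Tgt : ℕ → List Src) (blks : List BlkT) (rows : List RowD)
    (hb : ∀ b ∈ blks, b.good S K)
    (hr : (rows.all fun x => x.ok reg K) = true)
    (bs : ℕ → List (BlkT × List ℕ)) (hbs : ∀ k ≤ K, (bs k).map Prod.fst = blks)
    (rs : ℕ → List (List RowD)) (hrs : ∀ k ≤ K, (rs k).flatten = rows)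
    (c : ℕ → ℝ) (hc0 : ∀ k, k < 4 → c k = 0)
    (hc : ∀ k ≤ K, -(c k) * T.bad * T.D ^ (k - 4) ≤
      srcVal T k (partsT S Tgt k (bs k) (rs k)).flatten) :
    -(∑ k ∈ range (K + 1), c k) * T.bad * T.D ^ (K - 4) ≤ lvl T K Tgt := by
  refine main_parts T reg hreg K hK hD had Tgt (blks.map BlkT.D) rows ?_ hr
    (fun k => (bs k).map fun x => (x.1.D, x.2)) ?_ rs hrs c hc0 ?_
  · intro b hb'
    obtain ⟨x, hx, rfl⟩ := List.mem_map.1 hb'
    exact BlkT.good_D (hb x hx)
  · intro k hk
    rw [← hbs k hk, List.map_map, List.map_map]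
    rfl
  · intro k hk
    have hg : ∀ x ∈ bs k, x.1.good S K := by
      intro x hx
      refine hb _ ?_
      rw [← hbs k hk]
      exact List.mem_map_of_mem hx
    have h1 := hc k hk
    have h2 : partsT S Tgt k (bs k) (rs k) =
        parts S Tgt k ((bs k).map fun x => (x.1.D, x.2)) (rs k) := by
      unfold partsT parts
      rw [partsP_eq S K k (bs k) hg]
    rwa [h2] at h1

end MP433Sys
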