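import Pool.Agent.Work.MP_433a35_co.GB.Sys.Defs

/-!
# Semantics: completion, relabelling
-/

namespace MP433Sys

open Finset

variable {S : Spec} {V : Type*} [Fintype V] (T : Sys S V)

theorem wt_nonneg (k c : ℕ) (free : List ℕ) (t : Fin k → V) : 0 ≤ T.wt k c free t := by
  unfold Sys.wt
  refine Finset.prod_nonneg fun q _ => Finset.prod_nonneg fun p _ => ?_
  split_ifs
  · exact T.nonneg _ _ _
  · norm_num

theorem pcount_nonneg (k c : ℕ) (free : List ℕ) : 0 ≤ T.pcount k c free :=
  Finset.sum_nonneg fun t _ => wt_nonneg T k c free t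

theorem full_nonneg (k c : ℕ) : 0 ≤ T.full k c := pcount_nonneg T k c []

/-- doubling the binomial -/
theorem npr_succ (q : ℕ) : npr (q + 1) = npr q + q := by
  unfold npr
  rcases q with _ | q
  · simp
  · simp only [Nat.add_sub_cancel]
    rw [show (q + 1 + 1) * (q + 1) = (q + 1) * q + (q + 1) * 2 by ring]
    rw [Nat.add_mul_div_right _ _ (by norm_num)]

theorem npr_mono {a b : ℕ} (h : a ≤ b) : npr a ≤ npr b :=
  Nat.div_le_div_right (Nat.mul_le_mul h (Nat.sub_le_sub_right h 1))

theorem idx_eq (p q : ℕ) : idx p q = npr q + p := rfl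

theorem idx_lt {p q k : ℕ} (h : p < q) (hq : q < k) : idx p q < npr k := by
  have h1 := npr_succ q
  have h2 : npr (q + 1) ≤ npr k := npr_mono hq
  rw [idx_eq]
  omega

theorem idx_inj {p q p' q' : ℕ} (h : p < q) (h' : p' < q') (e : idx p q = idx p' q') :
    p = p' ∧ q = q' := by
  have hq : q = q' := by
    rcases lt_trichotomy q q' with hlt | heq | hgt
    · have := idx_lt h hlt
      rw [idx_eq] at *
      rw [idx_eq] at e
      omega
    · exact heq
    · have := idx_lt h' hgt
      rw [idx_eq] at *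
      rw [idx_eq] at e
      omega
  subst hq
  rw [idx_eq, idx_eq] at e
  exact ⟨by omega, rfl⟩

theorem exists_idx (k i : ℕ) (hi : i < npr k) : ∃ p q, p < q ∧ q < k ∧ idx p q = i := by
  induction k with
  | zero => simp [npr] at hi
  | succ k ih =>
    rw [npr_succ] at hi
    by_cases h : i < npr k
    · obtain ⟨p, q, h1, h2, h3⟩ := ih h
      exact ⟨p, q, h1, by omega, h3⟩
    · exact ⟨i - npr k, k, by omega, by omega, by rw [idx_eq]; omega⟩

theorem dig_lt (c i : ℕ) : dig c i < 8 := Nat.mod_lt _ (by norm_num)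

theorem dig_add_self {c i x : ℕ} (hc : dig c i = 0) (hx : x < 8) : dig (c + x * 8 ^ i) i = x := by
  unfold dig at *
  rw [Nat.add_mul_div_right _ _ (by positivity)]
  omega

theorem dig_add_ne {c i j x : ℕ} (hc : dig c i = 0) (hx : x < 8) (hj : j ≠ i) :
    dig (c + x * 8 ^ i) j = dig c j := by
  unfold dig at *
  rcases lt_or_gt_of_ne hj with h | h
  · obtain ⟨d, rfl⟩ : ∃ d, i = j + 1 + d := ⟨i - (j + 1), by omega⟩
    rw [show x * 8 ^ (j + 1 + d) = (8 * (x * 8 ^ d)) * 8 ^ j by ring,
      Nat.add_mul_div_right _ _ (by positivity)]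
    omega
  · obtain ⟨d, rfl⟩ : ∃ d, j = i + 1 + d := ⟨j - (i + 1), by omega⟩
    rw [show 8 ^ (i + 1 + d) = 8 ^ i * 8 * 8 ^ d by ring, ← Nat.div_div_eq_div_mul,
      ← Nat.div_div_eq_div_mul, ← Nat.div_div_eq_div_mul, ← Nat.div_div_eq_div_mul,
      Nat.add_mul_div_right _ _ (by positivity)]
    congr 2
    omega

/-- one factor of the weight is split off -/
theorem wt_split (k c : ℕ) (free : List ℕ) (t : Fin k → V) (p q : Fin k) (hpq : p < q) (d : ℕ)
    (hd : d < 8) (hf : idx p q ∉ free) (hc : dig c (idx p q) = 0) :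
    T.wt k (c + d * 8 ^ idx p q) free t =
      T.rho d (t p) (t q) * T.wt k c (idx p q :: free) t := by
  unfold Sys.wt
  rw [← Fintype.prod_prod_type' (fun (b a : Fin k) =>
      if a < b ∧ idx a b ∉ free then T.rho (dig (c + d * 8 ^ idx p q) (idx a b)) (t a) (t b) else 1),
    ← Fintype.prod_prod_type' (fun (b a : Fin k) =>
      if a < b ∧ idx a b ∉ (idx p q :: free) then T.rho (dig c (idx a b)) (t a) (t b) else 1),
    ← Finset.mul_prod_erase univ _ (Finset.mem_univ ((q, p) : Fin k × Fin k)),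
    ← Finset.mul_prod_erase univ (fun x : Fin k × Fin k =>
      if x.2 < x.1 ∧ idx x.2 x.1 ∉ (idx p q :: free) then
        T.rho (dig c (idx x.2 x.1)) (t x.2) (t x.1) else 1) (Finset.mem_univ ((q, p) : Fin k × Fin k))]
  have h1 : (if p < q ∧ idx p q ∉ free then
      T.rho (dig (c + d * 8 ^ idx p q) (idx p q)) (t p) (t q) else 1) = T.rho d (t p) (t q) := by
    rw [if_pos ⟨hpq, hf⟩, dig_add_self hc hd]
  have h2 : (if p < q ∧ idx p q ∉ (idx p q :: free) then
      T.rho (dig c (idx p q)) (t p) (t q) else 1) = 1 := by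
    rw [if_neg (by simp)]
  simp only [h1, h2, one_mul]
  congr 1
  refine Finset.prod_congr rfl fun x hx => ?_
  rw [Finset.mem_erase] at hx
  by_cases hlt : x.2 < x.1
  · have hne : idx x.2 x.1 ≠ idx p q := by
      intro e
      obtain ⟨e1, e2⟩ := idx_inj hlt hpq e
      exact hx.1 (Prod.ext (Fin.ext e2) (Fin.ext e1))
    by_cases hfr : idx x.2 x.1 ∈ free
    · rw [if_neg (by simp [hfr]), if_neg (by simp [hfr])]
    · rw [if_pos ⟨hlt, hfr⟩, if_pos ⟨hlt, by simp [hfr, hne]⟩, dig_add_ne hc hd hne]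
  · rw [if_neg (by simp [hlt]), if_neg (by simp [hlt])]

/-- completion of a free pair -/
theorem pcount_cons (k c i : ℕ) (free : List ℕ) (hi : i < npr k) (hf : i ∉ free)
    (hc : dig c i = 0) (hfd : ∀ d ∈ S.fd, d < 8) :
    T.pcount k c (i :: free) = (S.fd.map fun d => T.pcount k (c + d * 8 ^ i) free).sum := by
  obtain ⟨p, q, hpq, hqk, hidx⟩ := exists_idx k i hi
  have hsum : ∀ L : List ℕ, (L.map fun d => T.pcount k (c + d * 8 ^ i) free).sum =
      ∑ t : Fin k → V, (L.map fun d => T.wt k (c + d * 8 ^ i) free t).sum := by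
    intro L
    induction L with
    | nil => simp
    | cons a L ih =>
      simp only [List.map_cons, List.sum_cons, Finset.sum_add_distrib, ih]
      rfl
  rw [hsum]
  unfold Sys.pcount
  refine Finset.sum_congr rfl fun t _ => ?_
  have key : ∀ d ∈ S.fd, T.wt k (c + d * 8 ^ i) free t =
      T.rho d (t ⟨p, by omega⟩) (t ⟨q, hqk⟩) * T.wt k c (i :: free) t := by
    intro d hd
    subst hidx
    exact wt_split T k c free t ⟨p, by omega⟩ ⟨q, hqk⟩ hpq d (hfd d hd) hf hc
  rw [List.map_congr_left key, List.sum_map_mul_right, T.free, one_mul]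

/-- reindexing of a product over the pairs -/
theorem prod_sort {k : ℕ} (σ : Equiv.Perm (Fin k)) (f : Fin k → Fin k → ℝ)
    (hs : ∀ p q, f p q = f q p) :
    ∏ x ∈ (univ : Finset (Fin k × Fin k)).filter (fun x => x.1 < x.2), f (σ x.1) (σ x.2) =
      ∏ x ∈ (univ : Finset (Fin k × Fin k)).filter (fun x => x.1 < x.2), f x.1 x.2 := by
  refine Finset.prod_nbij'
    (fun x => if σ x.1 < σ x.2 then (σ x.1, σ x.2) else (σ x.2, σ x.1))
    (fun x => if σ.symm x.1 < σ.symm x.2 then (σ.symm x.1, σ.symm x.2)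
      else (σ.symm x.2, σ.symm x.1)) ?_ ?_ ?_ ?_ ?_
  · rintro ⟨p, q⟩ hx
    simp only [mem_filter, mem_univ, true_and] at hx ⊢
    have hne : σ p ≠ σ q := fun e => (ne_of_lt hx) (σ.injective e)
    split_ifs with h
    · exact h
    · exact lt_of_le_of_ne (not_lt.mp h) hne.symm
  · rintro ⟨p, q⟩ hx
    simp only [mem_filter, mem_univ, true_and] at hx ⊢
    have hne : σ.symm p ≠ σ.symm q := fun e => (ne_of_lt hx) (σ.symm.injective e)
    split_ifs with h
    · exact h
    · exact lt_of_le_of_ne (not_lt.mp h) hne.symm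
  · rintro ⟨p, q⟩ hx
    simp only [mem_filter, mem_univ, true_and] at hx ⊢
    by_cases h : σ p < σ q
    · simp [h, hx]
    · simp [h, not_lt.mpr (le_of_lt hx)]
  · rintro ⟨p, q⟩ hx
    simp only [mem_filter, mem_univ, true_and] at hx ⊢
    by_cases h : σ.symm p < σ.symm q
    · simp [h, hx]
    · simp [h, not_lt.mpr (le_of_lt hx)]
  · rintro ⟨p, q⟩ hx
    simp only
    split_ifs with h
    · rfl
    · exact hs _ _

theorem wt_eq_pairs (k c : ℕ) (t : Fin k → V) :
    T.wt k c [] t = ∏ x ∈ (univ : Finset (Fin k × Fin k)).filter (fun x => x.1 < x.2),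
      T.rho (dig c (idx x.1 x.2)) (t x.1) (t x.2) := by
  unfold Sys.wt
  rw [Finset.prod_comm, ← Fintype.prod_prod_type' (fun (a b : Fin k) =>
      if a < b ∧ idx a b ∉ ([] : List ℕ) then T.rho (dig c (idx a b)) (t a) (t b) else 1),
    Finset.prod_filter]
  refine Finset.prod_congr rfl fun x _ => ?_
  simp

theorem dig_relab (n c w i : ℕ) (hi : i < n) : dig (relab n c w) i = dig c (w / 32 ^ i % 32) := by
  induction n generalizing w i with
  | zero => omega
  | succ n ih =>
    rw [relab]
    rcases i with _ | i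
    · have : dig c (w % 32) < 8 := Nat.mod_lt _ (by norm_num)
      simp only [pow_zero, Nat.div_one]
      conv_lhs => rw [dig]
      simp only [pow_zero, Nat.div_one]
      omega
    · have h1 : dig c (w % 32) < 8 := Nat.mod_lt _ (by norm_num)
      have h2 := ih (w / 32) i (by omega)
      rw [pow_succ', ← Nat.div_div_eq_div_mul, ← h2]
      conv_lhs => rw [dig]
      rw [pow_succ', ← Nat.div_div_eq_div_mul]
      unfold dig
      congr 2
      unfold dig at h1
      omega

/-- relabelling -/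
theorem full_relab (k c w s : ℕ) (hk : k ≤ 8) (h : permOK k w s = true) :
    T.full k (relab (npr k) c w) = T.full k c := by
  have _hk := hk
  unfold permOK at h
  simp only [Bool.and_eq_true, List.all_eq_true, List.mem_range, decide_eq_true_eq, bne_iff_ne,
    ne_eq, beq_iff_eq] at h
  obtain ⟨h1, h2⟩ := h
  let f : Fin k → Fin k := fun p => ⟨s / 8 ^ (p : ℕ) % 8, h1 p p.2⟩
  have hinj : Function.Injective f := by
    intro a b hab
    have hab' : s / 8 ^ (a : ℕ) % 8 = s / 8 ^ (b : ℕ) % 8 := congrArg Fin.val hab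
    rcases lt_trichotomy (a : ℕ) b with hl | he | hg
    · exact absurd hab' (h2 b b.2 a hl).1
    · exact Fin.ext he
    · exact absurd hab'.symm (h2 a a.2 b hg).1
  have hbij : Function.Bijective f := Finite.injective_iff_bijective.mp hinj
  let σ : Equiv.Perm (Fin k) := Equiv.ofBijective f hbij
  have hσ : ∀ p, σ p = f p := fun p => rfl
  have hdig : ∀ p q : Fin k, p < q → dig (relab (npr k) c w) (idx p q) =
      dig c (if f p < f q then idx (f p) (f q) else idx (f q) (f p)) := by
    intro p q hpq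
    rw [dig_relab _ _ _ _ (idx_lt hpq q.2), (h2 q q.2 p hpq).2]
    rfl
  unfold Sys.full Sys.pcount
  refine Fintype.sum_equiv (Equiv.arrowCongr σ (Equiv.refl V)) _ _ fun t => ?_
  have happ : ∀ p : Fin k, (Equiv.arrowCongr σ (Equiv.refl V) t) (σ p) = t p := by
    intro p
    simp [Equiv.arrowCongr]
  set t' := Equiv.arrowCongr σ (Equiv.refl V) t with ht'
  have e1 : T.wt k (relab (npr k) c w) [] t =
      ∏ x ∈ (univ : Finset (Fin k × Fin k)).filter (fun x => x.1 < x.2),
        (fun a b : Fin k => T.rho (dig c (if a < b then idx a b else idx b a)) (t' a) (t' b))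
          (σ x.1) (σ x.2) := by
    rw [wt_eq_pairs]
    refine Finset.prod_congr rfl fun x hx => ?_
    rw [Finset.mem_filter] at hx
    rw [hdig _ _ hx.2]
    simp only [happ]
    simp only [hσ]
  have e2 : T.wt k c [] t' =
      ∏ x ∈ (univ : Finset (Fin k × Fin k)).filter (fun x => x.1 < x.2),
        (fun a b : Fin k => T.rho (dig c (if a < b then idx a b else idx b a)) (t' a) (t' b))
          x.1 x.2 := by
    rw [wt_eq_pairs]
    refine Finset.prod_congr rfl fun x hx => ?_
    rw [Finset.mem_filter] at hx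
    simp only [if_pos hx.2]
  rw [e1, e2]
  refine prod_sort σ (fun a b : Fin k =>
    T.rho (dig c (if a < b then idx a b else idx b a)) (t' a) (t' b)) fun a b => ?_
  rw [T.symm]
  rcases lt_trichotomy a b with hl | he | hg
  · rw [if_pos hl, if_neg (not_lt.mpr (le_of_lt hl))]
  · subst he; rfl
  · rw [if_neg (not_lt.mpr (le_of_lt hg)), if_pos hg]

end MP433Sys
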