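import Pool.Agent.Work.MP_433a35_co.GB.Sys.HlpA

/-!
# Degree rows
-/

namespace MP433Sys

open Finset

variable {S : Spec} {V : Type*} [Fintype V] (T : Sys S V)

theorem wt_snoc_row (k p i d : ℕ) (hi : i < k) (hp : p < 8 ^ npr k) (hd : d < 8)
    (t : Fin k → V) (v : V) :
    T.wt (k + 1) (p + d * 8 ^ idx i k)
      (((List.range k).filter fun y => y != i).map fun y => idx y k) (Fin.snoc t v) =
    T.wt k p [] t * T.rho d (t ⟨i, hi⟩) v := by
  have h0 : dig p (idx i k) = 0 :=
    Aux.dig_eq_zero (lt_of_lt_of_le hp (Nat.pow_le_pow_right (by norm_num) (Aux.idx_ge le_rfl)))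
  unfold Sys.wt
  rw [Fin.prod_univ_castSucc]
  congr 1
  · refine Finset.prod_congr rfl fun q _ => ?_
    rw [Fin.prod_univ_castSucc, if_neg, mul_one]
    · refine Finset.prod_congr rfl fun r _ => ?_
      by_cases hrq : r < q
      · have hlt := Aux.idx_lt (p := r) (q := q) hrq q.2
        have hge := Aux.idx_ge (p := i) (le_refl k)
        have hnot : idx (r : ℕ) q ∉ ((List.range k).filter fun y => y != i).map
            fun y => idx y k := by
          simp only [List.mem_map, not_exists, not_and]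
          intro y _ e
          have := Aux.idx_ge (p := y) (le_refl k)
          omega
        rw [if_pos ⟨by simpa using hrq, by simpa using hnot⟩, if_pos ⟨hrq, by simp⟩,
          Fin.snoc_castSucc, Fin.snoc_castSucc, Fin.val_castSucc, Fin.val_castSucc,
          Aux.dig_add_ne h0 hd (by omega)]
      · rw [if_neg (fun h => hrq (by simpa using h.1)), if_neg (fun h => hrq h.1)]
    · rintro ⟨h, _⟩
      exact absurd h (not_lt.mpr (le_of_lt (Fin.castSucc_lt_last _)))
  · rw [Fin.prod_univ_castSucc, if_neg (fun h => absurd h.1 (lt_irrefl _)), mul_one]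
    rw [Finset.prod_eq_single (⟨i, hi⟩ : Fin k)]
    · rw [if_pos, Fin.snoc_castSucc, Fin.snoc_last, Fin.val_castSucc, Fin.val_last,
        Aux.dig_add_self h0 hd]
      refine ⟨Fin.castSucc_lt_last _, ?_⟩
      simp only [Fin.val_castSucc, Fin.val_last, List.mem_map, not_exists, not_and,
        List.mem_filter, List.mem_range, bne_iff_ne, ne_eq]
      rintro y ⟨hy, hne⟩ e
      exact hne (Aux.idx_inj hy hi e).1
    · intro r _ hne
      rw [if_neg]
      rintro ⟨_, h⟩
      apply h
      simp only [Fin.val_castSucc, Fin.val_last, List.mem_map, List.mem_filter,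
        List.mem_range, bne_iff_ne, ne_eq]
      exact ⟨r, ⟨r.2, fun e => hne (Fin.ext e)⟩, rfl⟩
    · intro h
      exact absurd (Finset.mem_univ _) h

theorem row_sum (k p i : ℕ) (hi : i < k) (hp : p < 8 ^ npr k) (w : ℤ) (l : List ℕ)
    (had : ∀ d ∈ l, d < 8) :
    (l.map fun d => (w : ℝ) * T.pcount (k + 1) (p + d * 8 ^ idx i k)
      (((List.range k).filter fun y => y != i).map fun y => idx y k)).sum =
    w * ∑ t : Fin k → V, T.wt k p [] t * ∑ v, (l.map fun d => T.rho d (t ⟨i, hi⟩) v).sum := by
  induction l with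
  | nil => simp
  | cons d l ih =>
    rw [List.map_cons, List.sum_cons, ih (fun x hx => had x (by simp [hx]))]
    simp only [List.map_cons, List.sum_cons, Finset.sum_add_distrib, mul_add]
    congr 2
    unfold Sys.pcount
    rw [Aux.sum_snoc]
    refine Finset.sum_congr rfl fun t _ => ?_
    rw [Finset.mul_sum]
    exact Finset.sum_congr rfl fun v _ => wt_snoc_row T k p i d hi hp (had d (by simp)) t v

theorem deg_row (k p i : ℕ) (hi : i < k) (hp : p < 8 ^ npr k) (had : ∀ d ∈ S.ad, d < 8)
    (w : ℤ) (hw : 0 ≤ w) :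
    srcVal T (k + 1) (rowSrc S k w p i) ≤ w * T.D * T.full k p := by
  have hw' : (0 : ℝ) ≤ w := by exact_mod_cast hw
  unfold srcVal rowSrc
  rw [List.map_map]
  refine le_trans (le_of_eq (row_sum T k p i hi hp w S.ad had)) ?_
  rw [mul_assoc]
  refine mul_le_mul_of_nonneg_left ?_ hw'
  unfold Sys.full Sys.pcount
  rw [Finset.mul_sum]
  refine Finset.sum_le_sum fun t _ => ?_
  rw [mul_comm T.D]
  exact mul_le_mul_of_nonneg_left (T.deg _) (Aux.wt_nonneg T _ _ _ _)

/-- in a regular system the degree rows are equations -/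
theorem deg_row_eq (hreg : ∀ x, ∑ y, (S.ad.map fun d => T.rho d x y).sum = T.D) (k p i : ℕ)
    (hi : i < k) (hp : p < 8 ^ npr k) (had : ∀ d ∈ S.ad, d < 8) (w : ℤ) :
    srcVal T (k + 1) (rowSrc S k w p i) = w * T.D * T.full k p := by
  unfold srcVal rowSrc
  rw [List.map_map]
  refine (row_sum T k p i hi hp w S.ad had).trans ?_
  rw [mul_assoc]
  congr 1
  unfold Sys.full Sys.pcount
  rw [Finset.mul_sum]
  refine Finset.sum_congr rfl fun t _ => ?_
  rw [hreg, mul_comm]

end MP433Sys
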