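import Pool.Agent.Work.MP_433a35_co.GB.Sys.Root
import Pool.Agent.Work.MP_433a35_co.GB.Sys.Deg
import Pool.Agent.Work.MP_433a35_co.GB.Sys.Psd

/-!
# Blocks of squares

A block has a root of size `s`, an optional root multiplier `R`, a list of flags `(a, F)` and a
quadratic form `Q` in upper triangular form.  `blkSrc` lists the products, with a minus sign.
-/

namespace MP433Sys

open Finset

variable {S : Spec} {V : Type*} [Fintype V] (T : Sys S V)

/-- the flag with the root multiplier -/
def mulR (S : Spec) (s : ℕ) (R : Option ℕ) (A : ℕ × ℕ) : ℕ :=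
  match R with
  | none => A.2
  | some R => glue S s 0 A.1 R A.2

/-- the products of the flag `A` with the later flags -/
def rowS (S : Spec) (s : ℕ) (R : Option ℕ) (k : ℕ) (A : ℕ × ℕ) : List ℤ → List (ℕ × ℕ) → List Src
  | (c :: cs), (B :: Bs) =>
    (if s + A.1 + B.1 = k ∧ c ≠ 0 then
      [⟨-(2 * c), glue S s A.1 B.1 (mulR S s R A) B.2, cross s A.1 B.1⟩] else []) ++
      rowS S s R k A cs Bs
  | _, _ => []

/-- all products of a block at level `k`, with a minus sign -/
def blkSrc (S : Spec) (s : ℕ) (R : Option ℕ) (k : ℕ) : List (List ℤ) → List (ℕ × ℕ) → List Src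
  | (q :: qs), (A :: As) =>
    (if s + A.1 + A.1 = k ∧ q.headD 0 ≠ 0 then
      [⟨-q.headD 0, glue S s A.1 A.1 (mulR S s R A) A.2, cross s A.1 A.1⟩] else []) ++
      rowS S s R k A q.tail As ++ blkSrc S s R k qs As
  | _, _ => []

/-- check of the products of the flag `A` with the flags `Bs` -/
def rowOK (S : Spec) (s : ℕ) (R : Option ℕ) (A : ℕ × ℕ) (Bs : List (ℕ × ℕ)) : Bool :=
  Bs.all fun B => glueOK S s A.1 (mulR S s R A) B.2

/-- check of a block -/
def blkOK (S : Spec) (s e : ℕ) (R : Option ℕ) : List (ℕ × ℕ) → Bool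
  | [] => true
  | (A :: As) => decide (A.1 ≤ e) &&
    (match R with
      | none => true
      | some R => glueOK S s 0 R A.2) && rowOK S s R A (A :: As) && blkOK S s e R As

/-- weight of the root multiplier -/
noncomputable def rootW (s : ℕ) (R : Option ℕ) (r : Fin s → V) : ℝ :=
  match R with
  | none => 1
  | some R => T.wt s R [] r

/-- the scaled flags -/
noncomputable def flX (s e : ℕ) (fls : List (ℕ × ℕ)) (r : Fin s → V) : List ℝ :=
  fls.map fun A => T.D ^ (e - A.1) * T.fl s A.1 A.2 r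

/-- sum over the levels -/
noncomputable def lvl (K : ℕ) (L : ℕ → List Src) : ℝ :=
  ∑ k ∈ range (K + 1), T.D ^ (K - k) * srcVal T k (L k)

theorem srcVal_append (k : ℕ) (L M : List Src) :
    srcVal T k (L ++ M) = srcVal T k L + srcVal T k M := by
  simp [srcVal]

theorem srcVal_nil (k : ℕ) : srcVal T k [] = 0 := by
  simp [srcVal]

theorem lvl_append (K : ℕ) (L M : ℕ → List Src) :
    lvl T K (fun k => L k ++ M k) = lvl T K L + lvl T K M := by
  simp only [lvl, srcVal_append, mul_add, sum_add_distrib]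

theorem lvl_nil (K : ℕ) : lvl T K (fun _ => []) = 0 := by
  simp [lvl, srcVal_nil]

theorem lvl_single (K k0 : ℕ) (h : k0 ≤ K) (p : Prop) [Decidable p] (x : Src)
    (hp : ¬ p → x.w = 0) :
    lvl T K (fun k => if k0 = k ∧ p then [x] else []) =
      T.D ^ (K - k0) * ((x.w : ℝ) * T.pcount k0 x.c x.free) := by
  unfold lvl
  rw [sum_eq_single k0]
  · by_cases hpp : p
    · simp [srcVal, hpp]
    · simp [srcVal, hpp, hp hpp]
  · intro b _ hb
    have : ¬ (k0 = b ∧ p) := fun h => hb h.1.symm
    simp [this, srcVal_nil]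
  · intro hn
    exact absurd (mem_range.2 (by omega)) hn

theorem fl_mulR (s e : ℕ) (R : Option ℕ) (A : ℕ × ℕ) (As : List (ℕ × ℕ))
    (h : blkOK S s e R (A :: As) = true) (r : Fin s → V) :
    T.fl s A.1 (mulR S s R A) r = rootW T s R r * T.fl s A.1 A.2 r := by
  simp only [blkOK, Bool.and_eq_true] at h
  cases R with
  | none => simp [mulR, rootW]
  | some R => exact fl_root T s A.1 R A.2 h.1.1.2 r

theorem pair_term (s e K : ℕ) (hK : s + 2 * e ≤ K) (R : Option ℕ) (A B : ℕ × ℕ) (hA : A.1 ≤ e)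
    (hB : B.1 ≤ e) (hg : glueOK S s A.1 (mulR S s R A) B.2 = true)
    (hR : ∀ r, T.fl s A.1 (mulR S s R A) r = rootW T s R r * T.fl s A.1 A.2 r) :
    T.D ^ (K - (s + A.1 + B.1)) *
      T.pcount (s + A.1 + B.1) (glue S s A.1 B.1 (mulR S s R A) B.2) (cross s A.1 B.1) =
    ∑ r : Fin s → V, rootW T s R r * T.D ^ (K - s - 2 * e) *
      ((T.D ^ (e - A.1) * T.fl s A.1 A.2 r) * (T.D ^ (e - B.1) * T.fl s B.1 B.2 r)) := by
  rw [← glue_sum T s A.1 B.1 _ _ hg, mul_sum]
  refine sum_congr rfl fun r _ => ?_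
  rw [hR r]
  have : T.D ^ (K - (s + A.1 + B.1)) =
      T.D ^ (K - s - 2 * e) * (T.D ^ (e - A.1) * T.D ^ (e - B.1)) := by
    rw [← pow_add, ← pow_add]
    congr 1
    omega
  rw [this]
  ring

theorem rowS_spec (s e K : ℕ) (hK : s + 2 * e ≤ K) (R : Option ℕ) (A : ℕ × ℕ) (hA : A.1 ≤ e)
    (hR : ∀ r, T.fl s A.1 (mulR S s R A) r = rootW T s R r * T.fl s A.1 A.2 r)
    (cs : List ℤ) (Bs : List (ℕ × ℕ)) (hB : ∀ B ∈ Bs, B.1 ≤ e)
    (hg : rowOK S s R A Bs = true) :
    lvl T K (fun k => rowS S s R k A cs Bs) =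
      -∑ r : Fin s → V, rootW T s R r * T.D ^ (K - s - 2 * e) *
        (2 * (T.D ^ (e - A.1) * T.fl s A.1 A.2 r) * dot cs (flX T s e Bs r)) := by
  induction Bs generalizing cs with
  | nil =>
    cases cs <;> simp [rowS, lvl_nil, flX, dot_nil_right]
  | cons B Bs ih =>
    cases cs with
    | nil => simp [rowS, lvl_nil, dot_nil_left]
    | cons c cs =>
      simp only [rowOK, List.all_cons, Bool.and_eq_true] at hg
      have ih' := ih cs (fun B' hB' => hB B' (List.mem_cons_of_mem _ hB')) hg.2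
      have hBe := hB B List.mem_cons_self
      simp only [rowS]
      rw [lvl_append, ih', lvl_single T K (s + A.1 + B.1) (by omega) (c ≠ 0) _
        (by intro h; push Not at h; simp [h])]
      have hp := pair_term T s e K hK R A B hA hBe hg.1 hR
      push_cast
      rw [show T.D ^ (K - (s + A.1 + B.1)) * (-(2 * (c : ℝ)) *
          T.pcount (s + A.1 + B.1) (glue S s A.1 B.1 (mulR S s R A) B.2) (cross s A.1 B.1)) =
          -(2 * (c : ℝ)) * (T.D ^ (K - (s + A.1 + B.1)) *
          T.pcount (s + A.1 + B.1) (glue S s A.1 B.1 (mulR S s R A) B.2) (cross s A.1 B.1)) by ring,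
        hp, mul_sum, ← sum_neg_distrib, ← sum_neg_distrib, ← sum_add_distrib]
      refine sum_congr rfl fun r _ => ?_
      simp only [flX, List.map_cons, dot_cons]
      ring

theorem blk_spec (s e K : ℕ) (hK : s + 2 * e ≤ K) (R : Option ℕ) (Q : List (List ℤ))
    (fls : List (ℕ × ℕ)) (h : blkOK S s e R fls = true) :
    lvl T K (fun k => blkSrc S s R k Q fls) =
      -∑ r : Fin s → V, rootW T s R r * T.D ^ (K - s - 2 * e) * qfu Q (flX T s e fls r) := by
  induction fls generalizing Q with
  | nil =>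
    cases Q <;> simp [blkSrc, lvl_nil, flX, qfu_nil_right]
  | cons A As ih =>
    cases Q with
    | nil => simp [blkSrc, lvl_nil, qfu_nil_left]
    | cons q qs =>
      have hR := fl_mulR T s e R A As h
      have h' := h
      simp only [blkOK, Bool.and_eq_true, decide_eq_true_eq] at h'
      obtain ⟨⟨⟨hA, -⟩, hrow⟩, hrest⟩ := h'
      have hall : ∀ B ∈ As, B.1 ≤ e := by
        clear ih hR h hrow
        induction As with
        | nil => simp
        | cons B Bs ih2 =>
          simp only [blkOK, Bool.and_eq_true, decide_eq_true_eq] at hrest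
          intro B' hB'
          rcases List.mem_cons.1 hB' with rfl | hB'
          · exact hrest.1.1.1
          · exact ih2 hrest.2 B' hB'
      have hrow2 : glueOK S s A.1 (mulR S s R A) A.2 = true ∧ rowOK S s R A As = true := by
        simpa [rowOK] using hrow
      simp only [blkSrc]
      rw [lvl_append, lvl_append, ih qs hrest,
        rowS_spec T s e K hK R A hA hR q.tail As hall hrow2.2,
        lvl_single T K (s + A.1 + A.1) (by omega) (q.headD 0 ≠ 0) _
        (by intro h0; push Not at h0; show -q.headD 0 = 0; rw [h0]; rfl)]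
      have hp := pair_term T s e K hK R A A hA hA hrow2.1 hR
      push_cast
      rw [show T.D ^ (K - (s + A.1 + A.1)) * (-((q.headD 0 : ℤ) : ℝ) *
          T.pcount (s + A.1 + A.1) (glue S s A.1 A.1 (mulR S s R A) A.2) (cross s A.1 A.1)) =
          -((q.headD 0 : ℤ) : ℝ) * (T.D ^ (K - (s + A.1 + A.1)) *
          T.pcount (s + A.1 + A.1) (glue S s A.1 A.1 (mulR S s R A) A.2) (cross s A.1 A.1)) by ring,
        hp, mul_sum, ← sum_neg_distrib, ← sum_neg_distrib, ← sum_neg_distrib, ← sum_add_distrib,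
        ← sum_add_distrib]
      refine sum_congr rfl fun r _ => ?_
      simp only [flX, List.map_cons, qfu_cons]
      ring

theorem rootW_nonneg (s : ℕ) (R : Option ℕ) (r : Fin s → V) : 0 ≤ rootW T s R r := by
  cases R with
  | none => simp [rootW]
  | some R => exact Aux.wt_nonneg T s R [] r

/-- data of a block: root size `s`, at most `e` further positions, root multiplier `R`, flags,
quadratic form `Q` -/
structure BlkD where
  s : ℕ
  e : ℕ
  R : Option ℕ
  fls : List (ℕ × ℕ)
  Q : List (List ℤ)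

/-- the block is admissible and its form is nonnegative -/
def BlkD.good (S : Spec) (K : ℕ) (b : BlkD) : Prop :=
  b.s + 2 * b.e ≤ K ∧ blkOK S b.s b.e b.R b.fls = true ∧ ∀ x : List ℝ, 0 ≤ qfu b.Q x

theorem blk_nonpos (K : ℕ) (hD : 0 ≤ T.D) (b : BlkD) (h : b.good S K) :
    lvl T K (fun k => blkSrc S b.s b.R k b.Q b.fls) ≤ 0 := by
  obtain ⟨h1, h2, h3⟩ := h
  rw [blk_spec T b.s b.e K h1 b.R b.Q b.fls h2, neg_nonpos]
  refine sum_nonneg fun r _ => mul_nonneg (mul_nonneg (rootW_nonneg T _ _ r) (pow_nonneg hD _)) ?_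
  exact h3 _

/-- a degree row: level, multiplier, code, position -/
structure RowD where
  k : ℕ
  w : ℤ
  p : ℕ
  i : ℕ

/-- check of a degree row; `reg`: the system is regular and the multipliers may be negative -/
def RowD.ok (reg : Bool) (K : ℕ) (x : RowD) : Bool :=
  decide (x.k + 1 ≤ K) && decide (x.i < x.k) && decide (x.p < 8 ^ npr x.k) &&
    (reg || decide (0 ≤ x.w))

/-- the contribution of a degree row at level `k` -/
def RowD.src (S : Spec) (x : RowD) (k : ℕ) : List Src :=
  (if x.k = k ∧ True then [⟨-x.w, x.p, []⟩] else []) ++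
    (if x.k + 1 = k then rowSrc S x.k x.w x.p x.i else [])

/-- all degrees are equal to `D` -/
def Regular {S : Spec} {V : Type*} [Fintype V] (T : Sys S V) : Prop :=
  ∀ x, ∑ y, (S.ad.map fun d => T.rho d x y).sum = T.D

theorem lvl_single' (K k0 : ℕ) (h : k0 ≤ K) (L : List Src) :
    lvl T K (fun k => if k0 = k then L else []) = T.D ^ (K - k0) * srcVal T k0 L := by
  unfold lvl
  rw [sum_eq_single k0]
  · simp
  · intro b _ hb
    have : ¬ (k0 = b) := fun h => hb h.symm
    simp [this, srcVal_nil]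
  · intro hn
    exact absurd (mem_range.2 (by omega)) hn

theorem row_nonpos (reg : Bool) (hreg : reg = true → Regular T) (K : ℕ) (hD : 0 ≤ T.D)
    (had : ∀ d ∈ S.ad, d < 8) (x : RowD)
    (h : x.ok reg K = true) : lvl T K (fun k => x.src S k) ≤ 0 := by
  simp only [RowD.ok, Bool.and_eq_true, Bool.or_eq_true, decide_eq_true_eq] at h
  obtain ⟨⟨⟨h1, h2⟩, h3⟩, h4⟩ := h
  unfold RowD.src
  rw [lvl_append, lvl_single T K x.k (by omega) True _ (by intro h; exact absurd trivial h),
    lvl_single' T K (x.k + 1) h1]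
  have hrow : srcVal T (x.k + 1) (rowSrc S x.k x.w x.p x.i) ≤ x.w * T.D * T.full x.k x.p := by
    rcases h4 with h4 | h4
    · exact (deg_row_eq T (hreg h4) x.k x.p x.i h2 h3 had x.w).le
    · exact deg_row T x.k x.p x.i h2 h3 had x.w h4
  have e1 : T.D ^ (K - x.k) = T.D ^ (K - (x.k + 1)) * T.D := by
    rw [← pow_succ]
    congr 1
    omega
  have e2 : T.pcount x.k x.p [] = T.full x.k x.p := rfl
  have hp : 0 ≤ T.D ^ (K - (x.k + 1)) := pow_nonneg hD _
  rw [e1, e2]
  push_cast at hrow ⊢
  nlinarith [mul_le_mul_of_nonneg_left hrow hp]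

/-- all sources at level `k` -/
def allSrc (S : Spec) (Tgt : ℕ → List Src) (blks : List BlkD) (rows : List RowD) (k : ℕ) :
    List Src :=
  Tgt k ++ blks.flatMap (fun b => blkSrc S b.s b.R k b.Q b.fls) ++
    rows.flatMap (fun x => x.src S k)

theorem lvl_blks (K : ℕ) (hD : 0 ≤ T.D) (blks : List BlkD)
    (h : ∀ b ∈ blks, b.good S K) :
    lvl T K (fun k => blks.flatMap (fun b => blkSrc S b.s b.R k b.Q b.fls)) ≤ 0 := by
  induction blks with
  | nil => simp [lvl_nil]
  | cons b bs ih =>
    simp only [List.flatMap_cons]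
    rw [lvl_append]
    have h1 := blk_nonpos T K hD b (h b List.mem_cons_self)
    have h2 := ih fun b hb => h b (List.mem_cons_of_mem _ hb)
    linarith

theorem lvl_rows (reg : Bool) (hreg : reg = true → Regular T) (K : ℕ) (hD : 0 ≤ T.D)
    (had : ∀ d ∈ S.ad, d < 8) (rows : List RowD) (h : (rows.all fun x => x.ok reg K) = true) :
    lvl T K (fun k => rows.flatMap (fun x => x.src S k)) ≤ 0 := by
  induction rows with
  | nil => simp [lvl_nil]
  | cons b bs ih =>
    simp only [List.all_cons, Bool.and_eq_true] at h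
    simp only [List.flatMap_cons]
    rw [lvl_append]
    have h1 := row_nonpos T reg hreg K hD had b h.1
    have h2 := ih h.2
    linarith

/-- **The verifier.** -/
theorem main_ineq (reg : Bool) (hreg : reg = true → Regular T) (K : ℕ) (hK : 4 ≤ K)
    (hD : 0 ≤ T.D) (had : ∀ d ∈ S.ad, d < 8)
    (Tgt : ℕ → List Src) (blks : List BlkD) (rows : List RowD)
    (hb : ∀ b ∈ blks, b.good S K) (hr : (rows.all fun x => x.ok reg K) = true)
    (c : ℕ → ℝ) (hc0 : ∀ k, k < 4 → c k = 0)
    (hc : ∀ k ≤ K, -(c k) * T.bad * T.D ^ (k - 4) ≤ srcVal T k (allSrc S Tgt blks rows k)) :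
    -(∑ k ∈ range (K + 1), c k) * T.bad * T.D ^ (K - 4) ≤ lvl T K Tgt := by
  have h1 : lvl T K (fun k => allSrc S Tgt blks rows k) ≤ lvl T K Tgt := by
    unfold allSrc
    rw [lvl_append, lvl_append]
    have h2 := lvl_blks T K hD blks hb
    have h3 := lvl_rows T reg hreg K hD had rows hr
    linarith
  refine le_trans ?_ h1
  unfold lvl
  rw [neg_mul, neg_mul, sum_mul, sum_mul, ← sum_neg_distrib]
  refine sum_le_sum fun k hk => ?_
  have hkK : k ≤ K := by
    have := mem_range.1 hk
    omega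
  have h2 := hc k hkK
  rcases lt_or_ge k 4 with h4 | h4
  · rw [hc0 k h4] at h2 ⊢
    simp only [neg_zero, zero_mul] at h2 ⊢
    exact mul_nonneg (pow_nonneg hD _) h2
  · have e1 : T.D ^ (K - 4) = T.D ^ (K - k) * T.D ^ (k - 4) := by
      rw [← pow_add]
      congr 1
      omega
    rw [e1]
    have := mul_le_mul_of_nonneg_left h2 (pow_nonneg hD (K - k))
    linarith

end MP433Sys
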