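import Pool.Agent.Work.MP_433a35_co.GB.Sys.Asm

/-!
# Fast evaluation of the sources of a block

Flags are stored with precomputed parts (`FlT`); `blkSrcP` works on the packed rows of the quadratic
form and gives the same list as `blkSrc`.
-/

namespace MP433Sys

/-- a flag: `a` further positions, root digits `r`, the other digits `h`, and these digits (without
the root digits) moved for a left factor with 0, 1, 2 further positions -/
structure FlT where
  a : ℕ
  r : ℕ
  h : ℕ
  t0 : ℕ
  t1 : ℕ
  t2 : ℕ

/-- the flag as a pair -/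
def FlT.pr (x : FlT) : ℕ × ℕ := (x.a, x.r + x.h)

/-- the moved digits for a left factor with `a` further positions -/
def FlT.t (x : FlT) : ℕ → ℕ
  | Nat.zero => x.t0
  | Nat.succ Nat.zero => x.t1
  | Nat.succ (Nat.succ _) => x.t2

/-- product of the root digits -/
def rmF (S : Spec) : ℕ → ℕ → ℕ → ℕ
  | Nat.zero, _, _ => 0
  | Nat.succ n, a, b =>
    Nat.add (S.mul (Nat.mod a 8) (Nat.mod b 8)) (Nat.mul 8 (rmF S n (Nat.div a 8) (Nat.div b 8)))

/-- the products of the flag `x` with the later flags `ys`; `u` is the packed row -/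
def rowP (S : Spec) (s k X off : ℕ) (x : FlT) : ℕ → List FlT → List Src
  | u, (y :: ys) =>
    bif Nat.beq (Nat.add (Nat.add s x.a) y.a) k && !(Nat.beq (Nat.mod u X) off) then
      ⟨Int.subNatNat (Nat.mul 2 off) (Nat.mul 2 (Nat.mod u X)),
        Nat.add (Nat.add (rmF S (npr s) x.r y.r) x.h) (y.t x.a), cross s x.a y.a⟩ ::
        rowP S s k X off x (Nat.div u X) ys
    else rowP S s k X off x (Nat.div u X) ys
  | _, [] => []

/-- all products of a block at level `k`, with a minus sign -/
def blkSrcP (S : Spec) (s k X off : ℕ) : List ℕ → List FlT → List Src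
  | (u :: us), (x :: xs) =>
    bif Nat.beq (Nat.add (Nat.add s x.a) x.a) k && !(Nat.beq (Nat.mod u X) off) then
      ⟨Int.subNatNat off (Nat.mod u X),
        Nat.add (Nat.add (rmF S (npr s) x.r x.r) x.h) (x.t x.a), cross s x.a x.a⟩ ::
        (rowP S s k X off x (Nat.div u X) xs ++ blkSrcP S s k X off us xs)
    else rowP S s k X off x (Nat.div u X) xs ++ blkSrcP S s k X off us xs
  | _, _ => []

/-- the moved digits -/
def movT (s a b F : ℕ) : ℕ := ((List.range b).map fun y => glueRow s a F y).sum

/-- check of a flag -/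
def FlT.ok (s e : ℕ) (x : FlT) : Bool :=
  (Nat.ble x.a e && (Nat.ble x.a 2 && (Nat.ble (Nat.succ x.r) (8 ^ npr s) &&
    (Nat.beq (Nat.mod x.h (8 ^ npr s)) 0 &&
      Nat.ble (Nat.succ (Nat.add x.r x.h)) (8 ^ npr (s + x.a)))))) &&
  (Nat.beq x.t0 (movT s 0 x.a (x.r + x.h)) && (Nat.beq x.t1 (movT s 1 x.a (x.r + x.h)) &&
    Nat.beq x.t2 (movT s 2 x.a (x.r + x.h))))

/-- the digits of the product are allowed -/
def rtOK (S : Spec) : ℕ → ℕ → ℕ → Bool
  | Nat.zero, _, _ => true
  | Nat.succ n, a, b => Nat.ble (Nat.succ (S.mul (Nat.mod a 8) (Nat.mod b 8))) 7 &&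
    rtOK S n (Nat.div a 8) (Nat.div b 8)

/-- check of the flags of a block; `rts` is the list of the root codes -/
def flsOK (S : Spec) (s e : ℕ) (rts : List ℕ) (fs : List FlT) : Bool :=
  (rts.all fun a => rts.all fun b => rtOK S (npr s) a b) &&
    fs.all fun x => x.ok s e && rts.any fun r => Nat.beq x.r r

theorem sum_range_succ' (n : ℕ) (f : ℕ → ℕ) :
    ((List.range (n + 1)).map f).sum = f 0 + ((List.range n).map fun i => f (i + 1)).sum := by
  rw [List.range_succ_eq_map, List.map_cons, List.sum_cons, List.map_map]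
  rfl

theorem dig_succ (c i : ℕ) : dig c (i + 1) = dig (c / 8) i := by
  unfold dig
  rw [Nat.div_div_eq_div_mul, pow_succ, mul_comm]

theorem dig_zero (c : ℕ) : dig c 0 = c % 8 := by simp [dig]

theorem rmF_eq (S : Spec) (n a b : ℕ) : rmF S n a b =
    ((List.range n).map fun i => S.mul (dig a i) (dig b i) * 8 ^ i).sum := by
  induction n generalizing a b with
  | zero => rfl
  | succ n ih =>
    have e : rmF S (n + 1) a b = S.mul (a % 8) (b % 8) + 8 * rmF S n (a / 8) (b / 8) := rfl
    rw [e, ih, sum_range_succ', dig_zero, dig_zero, pow_zero, mul_one, ← List.sum_map_mul_left]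
    congr 2
    refine List.map_congr_left fun i _ => ?_
    rw [dig_succ, dig_succ, pow_succ]
    ring

theorem rtOK_spec (S : Spec) (n a b : ℕ) (h : rtOK S n a b = true) :
    ∀ i < n, S.mul (dig a i) (dig b i) < 7 := by
  induction n generalizing a b with
  | zero => intro i hi; omega
  | succ n ih =>
    simp only [rtOK, Bool.and_eq_true] at h
    intro i hi
    cases i with
    | zero =>
      rw [dig_zero, dig_zero]
      exact Nat.le_of_ble_eq_true h.1
    | succ i =>
      rw [dig_succ, dig_succ]
      exact ih _ _ h.2 i (by omega)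

theorem dig_lowF (r h n i : ℕ) (hh : h % 8 ^ n = 0) (hi : i < n) : dig (r + h) i = dig r i := by
  obtain ⟨c, rfl⟩ := Nat.dvd_of_mod_eq_zero hh
  unfold dig
  obtain ⟨m, rfl⟩ : ∃ m, n = i + 1 + m := ⟨n - (i + 1), by omega⟩
  have e : r + 8 ^ (i + 1 + m) * c = r + 8 ^ i * (8 * (8 ^ m * c)) := by ring
  rw [e, Nat.add_mul_div_left _ _ (by positivity), Nat.add_mul_mod_self_left]

theorem FlT.ok_iff (s e : ℕ) (x : FlT) (h : x.ok s e = true) :
    x.a ≤ e ∧ x.a ≤ 2 ∧ x.r < 8 ^ npr s ∧ x.h % 8 ^ npr s = 0 ∧
      x.r + x.h < 8 ^ npr (s + x.a) ∧ ∀ a ≤ 2, x.t a = movT s a x.a (x.r + x.h) := by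
  simp only [FlT.ok, Bool.and_eq_true] at h
  obtain ⟨⟨h1, h2, h3, h4, h5⟩, h6, h7, h8⟩ := h
  refine ⟨Nat.le_of_ble_eq_true h1, Nat.le_of_ble_eq_true h2, Nat.le_of_ble_eq_true h3,
    Nat.eq_of_beq_eq_true h4, Nat.le_of_ble_eq_true h5, ?_⟩
  intro a ha
  have h6' := Nat.eq_of_beq_eq_true h6
  have h7' := Nat.eq_of_beq_eq_true h7
  have h8' := Nat.eq_of_beq_eq_true h8
  interval_cases a
  · exact h6'
  · exact h7'
  · exact h8'

theorem glueP (S : Spec) (s e : ℕ) (x y : FlT) (hx : x.ok s e = true) (hy : y.ok s e = true) :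
    glue S s x.a y.a x.pr.2 y.pr.2 =
      Nat.add (Nat.add (rmF S (npr s) x.r y.r) x.h) (y.t x.a) := by
  obtain ⟨hx1, hx2, hx3, hx4, hx5, hx6⟩ := FlT.ok_iff s e x hx
  obtain ⟨hy1, hy2, hy3, hy4, hy5, hy6⟩ := FlT.ok_iff s e y hy
  rw [hy6 x.a hx2]
  show glue S s x.a y.a (x.r + x.h) (y.r + y.h) =
    rmF S (npr s) x.r y.r + x.h + movT s x.a y.a (y.r + y.h)
  unfold glue movT
  have e1 : ((List.range (npr s)).map fun i =>
      S.mul (dig (x.r + x.h) i) (dig (y.r + y.h) i) * 8 ^ i).sum = rmF S (npr s) x.r y.r := by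
    rw [rmF_eq]
    congr 1
    refine List.map_congr_left fun i hi => ?_
    rw [List.mem_range] at hi
    rw [dig_lowF x.r x.h _ i hx4 hi, dig_lowF y.r y.h _ i hy4 hi]
  have e2 : (x.r + x.h) / 8 ^ npr s * 8 ^ npr s = x.h := by
    obtain ⟨c, hc⟩ := Nat.dvd_of_mod_eq_zero hx4
    rw [hc, Nat.add_mul_div_left _ _ (by positivity), Nat.div_eq_of_lt hx3, zero_add, mul_comm]
  rw [e1, e2]

theorem rowP_eq (S : Spec) (s e k X off : ℕ) (x : FlT) (hx : x.ok s e = true) (u : ℕ)
    (ys : List FlT) (hys : ∀ y ∈ ys, y.ok s e = true) :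
    rowP S s k X off x u ys =
      rowS S s none k x.pr (decI X off ys.length u) (ys.map FlT.pr) := by
  induction ys generalizing u with
  | nil => rfl
  | cons y ys ih =>
    have ih' := ih (Nat.div u X) fun z hz => hys z (List.mem_cons_of_mem _ hz)
    have hg := glueP S s e x y hx (hys y List.mem_cons_self)
    rw [List.length_cons, decI_succ, List.map_cons, rowS, ← ih', rowP]
    have hm : mulR S s none x.pr = x.pr.2 := rfl
    have ha : x.pr.1 = x.a := rfl
    have hb : y.pr.1 = y.a := rfl
    rw [hm, ha, hb, hg]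
    by_cases h1 : s + x.a + y.a = k
    · have h1' : Nat.beq (Nat.add (Nat.add s x.a) y.a) k = true := by
        rw [Nat.beq_eq]
        exact h1
      by_cases h2 : Nat.mod u X = off
      · have h2' : Nat.beq (Nat.mod u X) off = true := by
          rw [Nat.beq_eq]
          exact h2
        rw [if_neg (by
          intro h
          apply h.2
          rw [h2]
          simp), h1', h2']
        rfl
      · have h2' : Nat.beq (Nat.mod u X) off = false := by
          cases hb : Nat.beq (Nat.mod u X) off with
          | false => rfl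
          | true => exact absurd (Nat.eq_of_beq_eq_true hb) h2
        have h3 : ((Nat.mod u X : ℕ) : ℤ) - off ≠ 0 := by
          intro h
          apply h2
          have : ((Nat.mod u X : ℕ) : ℤ) = (off : ℤ) := by linarith
          exact_mod_cast this
        rw [if_pos ⟨h1, h3⟩, h1', h2']
        have hw : Int.subNatNat (Nat.mul 2 off) (Nat.mul 2 (Nat.mod u X)) =
            -(2 * (((Nat.mod u X : ℕ) : ℤ) - off)) := by
          rw [Int.subNatNat_eq_coe]
          show ((2 * off : ℕ) : ℤ) - ((2 * Nat.mod u X : ℕ) : ℤ) = _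
          push_cast
          ring
        rw [← hw]
        rfl
    · have h1' : Nat.beq (Nat.add (Nat.add s x.a) y.a) k = false := by
        cases hb : Nat.beq (Nat.add (Nat.add s x.a) y.a) k with
        | false => rfl
        | true => exact absurd (Nat.eq_of_beq_eq_true hb) h1
      rw [if_neg (fun h => h1 h.1), h1']
      rfl

theorem blkSrcP_eq (S : Spec) (s e k X off : ℕ) (us : List ℕ)
    (fs : List FlT) (hfs : ∀ y ∈ fs, y.ok s e = true) :
    blkSrcP S s k X off us fs =
      blkSrc S s none k (decT X off fs.length us) (fs.map FlT.pr) := by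
  induction fs generalizing us with
  | nil => cases us <;> rfl
  | cons x xs ih =>
    cases us with
    | nil => rfl
    | cons u us =>
      have ih' := ih us fun z hz => hfs z (List.mem_cons_of_mem _ hz)
      have hx := hfs x List.mem_cons_self
      have hr := rowP_eq S s e k X off x hx (Nat.div u X) xs
        fun z hz => hfs z (List.mem_cons_of_mem _ hz)
      have hg := glueP S s e x x hx hx
      have e1 : decT X off (x :: xs).length (u :: us) =
          decI X off (xs.length + 1) u :: decT X off xs.length us := rfl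
      rw [e1, decI_succ, List.map_cons, blkSrc, ← ih', blkSrcP]
      have hm : mulR S s none x.pr = x.pr.2 := rfl
      have ha : x.pr.1 = x.a := rfl
      have ht : ((((Nat.mod u X : ℕ) : ℤ) - off) :: decI X off xs.length (Nat.div u X)).tail =
        decI X off xs.length (Nat.div u X) := rfl
      have hh : ((((Nat.mod u X : ℕ) : ℤ) - off) :: decI X off xs.length (Nat.div u X)).headD 0 =
        ((Nat.mod u X : ℕ) : ℤ) - off := rfl
      rw [ht, hh, ← hr, hm, ha, hg]
      by_cases h1 : s + x.a + x.a = k
      · have h1' : Nat.beq (Nat.add (Nat.add s x.a) x.a) k = true := by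
          rw [Nat.beq_eq]
          exact h1
        by_cases h2 : Nat.mod u X = off
        · have h2' : Nat.beq (Nat.mod u X) off = true := by
            rw [Nat.beq_eq]
            exact h2
          rw [if_neg (by
            intro h
            apply h.2
            rw [h2]
            simp), h1', h2']
          rfl
        · have h2' : Nat.beq (Nat.mod u X) off = false := by
            cases hb : Nat.beq (Nat.mod u X) off with
            | false => rfl
            | true => exact absurd (Nat.eq_of_beq_eq_true hb) h2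
          have h3 : ((Nat.mod u X : ℕ) : ℤ) - off ≠ 0 := by
            intro h
            apply h2
            have : ((Nat.mod u X : ℕ) : ℤ) = (off : ℤ) := by linarith
            exact_mod_cast this
          rw [if_pos ⟨h1, h3⟩, h1', h2']
          have hw : Int.subNatNat off (Nat.mod u X) = -(((Nat.mod u X : ℕ) : ℤ) - off) := by
            rw [Int.subNatNat_eq_coe]
            ring
          rw [← hw]
          rfl
      · have h1' : Nat.beq (Nat.add (Nat.add s x.a) x.a) k = false := by
          cases hb : Nat.beq (Nat.add (Nat.add s x.a) x.a) k with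
          | false => rfl
          | true => exact absurd (Nat.eq_of_beq_eq_true hb) h1
        rw [if_neg (fun h => h1 h.1), h1']
        rfl

theorem decT_drop (X off l i : ℕ) (q : List ℕ) :
    (decT X off l q).drop i = decT X off (l - i) (q.drop i) := by
  induction i generalizing l q with
  | zero => rfl
  | succ i ih =>
    cases q with
    | nil => rfl
    | cons n q =>
      have e : decT X off l (n :: q) = decI X off l n :: decT X off (l - 1) q := rfl
      rw [e, List.drop_succ_cons, List.drop_succ_cons, ih]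
      congr 1
      omega

theorem decT_take (X off l i : ℕ) (q : List ℕ) :
    (decT X off l q).take i = decT X off l (q.take i) := by
  induction i generalizing l q with
  | zero => cases q <;> rfl
  | succ i ih =>
    cases q with
    | nil => rfl
    | cons n q =>
      have e : decT X off l (n :: q) = decI X off l n :: decT X off (l - 1) q := rfl
      rw [e, List.take_succ_cons, List.take_succ_cons, ih]
      rfl

theorem flsOK_ok {S : Spec} {s e : ℕ} {rts : List ℕ} {fs : List FlT}
    (h : flsOK S s e rts fs = true) : ∀ x ∈ fs, x.ok s e = true := by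
  intro x hx
  simp only [flsOK, Bool.and_eq_true, List.all_eq_true] at h
  exact (h.2 x hx).1

theorem flsOK_blk {S : Spec} {s e : ℕ} {rts : List ℕ} {fs : List FlT}
    (h : flsOK S s e rts fs = true) : blkOK S s e none (fs.map FlT.pr) = true := by
  have hok := flsOK_ok h
  simp only [flsOK, Bool.and_eq_true, List.all_eq_true, List.any_eq_true] at h
  obtain ⟨hrt, hfs⟩ := h
  have hpair : ∀ x ∈ fs, ∀ y ∈ fs, glueOK S s x.a (x.r + x.h) (y.r + y.h) = true := by
    intro x hx y hy
    obtain ⟨hx1, hx2, hx3, hx4, hx5, -⟩ := FlT.ok_iff s e x (hok x hx)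
    obtain ⟨hy1, hy2, hy3, hy4, hy5, -⟩ := FlT.ok_iff s e y (hok y hy)
    obtain ⟨r1, hr1, e1⟩ := (hfs x hx).2
    obtain ⟨r2, hr2, e2⟩ := (hfs y hy).2
    have e1' := Nat.eq_of_beq_eq_true e1
    have e2' := Nat.eq_of_beq_eq_true e2
    have h3 := rtOK_spec S (npr s) _ _ (hrt r1 hr1 r2 hr2)
    simp only [glueOK, Bool.and_eq_true, decide_eq_true_eq, List.all_eq_true, List.mem_range]
    refine ⟨hx5, fun i hi => ?_⟩
    rw [dig_lowF x.r x.h _ i hx4 hi, dig_lowF y.r y.h _ i hy4 hi, e1', e2']
    exact h3 i hi
  have hgen : ∀ gs : List FlT, (∀ x ∈ gs, x ∈ fs) → blkOK S s e none (gs.map FlT.pr) = true := by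
    intro gs
    induction gs with
    | nil => intro _; rfl
    | cons x xs ih =>
      intro hsub
      rw [List.map_cons, blkOK]
      simp only [Bool.and_eq_true, decide_eq_true_eq]
      refine ⟨⟨⟨?_, trivial⟩, ?_⟩, ih fun y hy => hsub y (List.mem_cons_of_mem _ hy)⟩
      · exact (FlT.ok_iff s e x (hok x (hsub x List.mem_cons_self))).1
      · rw [rowOK, List.all_eq_true]
        intro B hB
        rw [← List.map_cons] at hB
        obtain ⟨y, hy, rfl⟩ := List.mem_map.1 hB
        exact hpair x (hsub x List.mem_cons_self) y (hsub y hy)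
  exact hgen fs fun x hx => hx

/-- a part of a block, evaluated fast -/
theorem partP_eq (S : Spec) (s e k X off m i n : ℕ) (q : List ℕ) (fs : List FlT)
    (hm : fs.length = m) (hfs : ∀ y ∈ fs, y.ok s e = true) :
    blkSrcP S s k X off ((q.drop i).take n) (fs.drop i) =
      blkSrc S s none k (((decT X off m q).drop i).take n) ((fs.map FlT.pr).drop i) := by
  rw [blkSrcP_eq S s e k X off _ _ fun y hy => hfs y (List.mem_of_mem_drop hy), decT_drop,
    decT_take, List.length_drop, hm, List.map_drop]

/-- the last part of a block, evaluated fast -/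
theorem partP_eq' (S : Spec) (s e k X off m i : ℕ) (q : List ℕ) (fs : List FlT)
    (hm : fs.length = m) (hfs : ∀ y ∈ fs, y.ok s e = true) :
    blkSrcP S s k X off (q.drop i) (fs.drop i) =
      blkSrc S s none k ((decT X off m q).drop i) ((fs.map FlT.pr).drop i) := by
  rw [blkSrcP_eq S s e k X off _ _ fun y hy => hfs y (List.mem_of_mem_drop hy), decT_drop,
    List.length_drop, hm, List.map_drop]

end MP433Sys
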