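import Pool.Agent.Work.MP_433a35_co.GB.Sys.Ker

/-!
# Unread pairs (helper36)

If `rho 6 = 1` in a system then a pair with the digit `6` is not read.  `unr n x` turns all these
pairs of the source `x` into free pairs, so that the checker can complete them.
-/

namespace MP433Sys

open Finset

variable {S : Spec} {V : Type*} [Fintype V] (T : Sys S V)

/-- the pairs `< n` with the digit `6` become free (`j` runs from `n` down) -/
noncomputable def unrC (n : ℕ) : ℕ → List ℕ → (ℕ → List ℕ → Src) → Src :=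
  @Nat.rec (fun _ => ℕ → List ℕ → (ℕ → List ℕ → Src) → Src) (fun c fr K => K c fr)
    (fun i ih c fr K => @Bool.rec (fun _ => Src) (ih c fr K)
      (ih (Nat.sub c (Nat.shiftLeft 6 (Nat.mul 3 i))) (i :: fr) K)
      (Nat.beq (Nat.land (Nat.shiftRight c (Nat.mul 3 i)) 7) 6)) n

/-- source with unread pairs made free -/
noncomputable def unr (n : ℕ) (x : Src) : Src := unrC n x.c x.free fun c fr => ⟨x.w, c, fr⟩

theorem dig_sub_ne {c i j : ℕ} (hc : dig c i = 6) (hj : j ≠ i) :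
    dig (c - 6 * 8 ^ i) j = dig c j := by
  have h1 : 6 * 8 ^ i ≤ c := by
    have h2 : 6 ≤ c / 8 ^ i := by
      have h := Nat.mod_le (c / 8 ^ i) 8
      unfold dig at hc
      rwa [hc] at h
    calc 6 * 8 ^ i ≤ c / 8 ^ i * 8 ^ i := Nat.mul_le_mul_right _ h2
      _ ≤ c := Nat.div_mul_le_self _ _
  obtain ⟨d, hd⟩ := Nat.exists_eq_add_of_le h1
  have h3 : c - 6 * 8 ^ i = d := by omega
  have h4 : c = d + 6 * 8 ^ i := by omega
  have h5 : dig d i = 0 := by
    unfold dig at hc ⊢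
    rw [h4, Nat.add_mul_div_right _ _ (by positivity)] at hc
    omega
  rw [h3, h4, dig_add_ne h5 (by norm_num) hj]

theorem dig_sub_self {c i : ℕ} (hc : dig c i = 6) : dig (c - 6 * 8 ^ i) i = 0 := by
  have h1 : 6 * 8 ^ i ≤ c := by
    have h2 : 6 ≤ c / 8 ^ i := by
      have h := Nat.mod_le (c / 8 ^ i) 8
      unfold dig at hc
      rwa [hc] at h
    calc 6 * 8 ^ i ≤ c / 8 ^ i * 8 ^ i := Nat.mul_le_mul_right _ h2
      _ ≤ c := Nat.div_mul_le_self _ _
  obtain ⟨d, hd⟩ := Nat.exists_eq_add_of_le h1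
  have h3 : c - 6 * 8 ^ i = d := by omega
  have h4 : c = d + 6 * 8 ^ i := by omega
  rw [h3]
  unfold dig at hc ⊢
  rw [h4, Nat.add_mul_div_right _ _ (by positivity)] at hc
  omega

/-- an unread pair is free -/
theorem pcount_unread (h6 : ∀ x y, T.rho 6 x y = 1) (k c i : ℕ) (free : List ℕ)
    (hc : dig c i = 6) : T.pcount k (c - 6 * 8 ^ i) (i :: free) = T.pcount k c free := by
  unfold Sys.pcount
  refine Finset.sum_congr rfl fun t _ => ?_
  unfold Sys.wt
  refine Finset.prod_congr rfl fun q _ => Finset.prod_congr rfl fun p _ => ?_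
  by_cases hpq : p < q
  · by_cases hi : idx p q = i
    · rw [if_neg (by rw [hi]; simp), hi]
      by_cases hf : i ∈ free
      · rw [if_neg (by simp [hf])]
      · rw [if_pos ⟨hpq, hf⟩, hc, h6]
    · by_cases hf : idx p q ∈ free
      · rw [if_neg (by simp [hf]), if_neg (by simp [hf])]
      · rw [if_pos ⟨hpq, by simp [hi, hf]⟩, if_pos ⟨hpq, hf⟩, dig_sub_ne hc hi]
  · rw [if_neg (fun h => hpq h.1), if_neg (fun h => hpq h.1)]

theorem unrC_spec (h6 : ∀ x y, T.rho 6 x y = 1) (k : ℕ) (w : ℤ) (n : ℕ) :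
    ∀ (c : ℕ) (fr : List ℕ), ∃ c' fr', unrC n c fr (fun c fr => ⟨w, c, fr⟩) = ⟨w, c', fr'⟩ ∧
      T.pcount k c' fr' = T.pcount k c fr := by
  induction n with
  | zero => intro c fr; exact ⟨c, fr, rfl, rfl⟩
  | succ i ih =>
    intro c fr
    have h' : unrC (i + 1) c fr (fun c fr => ⟨w, c, fr⟩) = @Bool.rec (fun _ => Src)
      (unrC i c fr (fun c fr => ⟨w, c, fr⟩))
      (unrC i (Nat.sub c (Nat.shiftLeft 6 (Nat.mul 3 i))) (i :: fr) (fun c fr => ⟨w, c, fr⟩))
      (Nat.beq (Nat.land (Nat.shiftRight c (Nat.mul 3 i)) 7) 6) := rfl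
    rw [h']
    cases hb : Nat.beq (Nat.land (Nat.shiftRight c (Nat.mul 3 i)) 7) 6
    · exact ih c fr
    · have e7 : (7 : ℕ) = 2 ^ 3 - 1 := by norm_num
      have e8 : (2 : ℕ) ^ (3 * i) = 8 ^ i := by rw [pow_mul]; norm_num
      have hm : Nat.mul 3 i = 3 * i := rfl
      have h2 := Nat.eq_of_beq_eq_true hb
      rw [e7, land_eq, shr_eq, hm, e8] at h2
      have hc : dig c i = 6 := h2
      have hs : Nat.sub c (Nat.shiftLeft 6 (Nat.mul 3 i)) = c - 6 * 8 ^ i := by
        rw [shl_eq, hm, e8]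
        rfl
      obtain ⟨c', fr', k1, k2⟩ := ih (c - 6 * 8 ^ i) (i :: fr)
      refine ⟨c', fr', ?_, ?_⟩
      · rw [hs]
        exact k1
      · rw [k2, pcount_unread T h6 k c i fr hc]

theorem srcVal_unr (h6 : ∀ x y, T.rho 6 x y = 1) (k n : ℕ) (L : List Src) :
    srcVal T k (L.map (unr n)) = srcVal T k L := by
  induction L with
  | nil => rfl
  | cons x L ih =>
    rw [List.map_cons, srcVal_cons', srcVal_cons', ih]
    obtain ⟨c', fr', k1, k2⟩ := unrC_spec T h6 k x.w n x.c x.free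
    have h1 : unr n x = ⟨x.w, c', fr'⟩ := k1
    rw [h1, k2]

end MP433Sys
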