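import Pool.Agent.Work.MP_433a35_co.GB.Sys.PsdN

/-!
# Forms in linear forms

`redN`: the triangular form `Q` is the form `U` applied to the linear forms `B`.
-/

namespace MP433Sys

/-- sum of digit times row -/
def cA (X : ℕ) : ℕ → List ℕ → ℕ
  | u, (b :: bs) => Nat.add (Nat.mul (Nat.mod u X) b) (cA X (Nat.div u X) bs)
  | _, [] => 0

/-- sum of the digits -/
def cC (X : ℕ) : ℕ → List ℕ → ℕ
  | u, (_ :: bs) => Nat.add (Nat.mod u X) (cC X (Nat.div u X) bs)
  | _, [] => 0

/-- the first entry of `u` times `b`, plus twice the other entries times the rows `bs` -/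
def tRow (X off R : ℕ) (K u b : ℕ) (bs : List ℕ) : ℕ :=
  Nat.sub (Nat.add (Nat.mul (Nat.mod u X) b) (Nat.add
    (Nat.mul (Nat.mul (Nat.succ (Nat.mul 2 K)) (Nat.mul off off)) R)
    (Nat.add (Nat.mul 2 (cA X (Nat.div u X) bs)) (Nat.mul off R))))
    (Nat.mul off (Nat.add (Nat.add b (Nat.mul R (Nat.mod u X)))
      (Nat.mul 2 (Nat.add (sB bs) (Nat.mul R (cC X (Nat.div u X) bs))))))

/-- all rows `tRow` -/
def tRows (X off R : ℕ) : ℕ → List ℕ → List ℕ → List ℕ
  | Nat.succ K, (u :: U), (b :: bs) => tRow X off R K u b bs :: tRows X off R K U bs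
  | _, _, _ => []

/-- sum of head times list for pairs -/
def pA (X : ℕ) : List ℕ → List ℕ → ℕ
  | (b :: bs), (t :: ts) => Nat.add (Nat.add (Nat.mul (Nat.mod b X) t)
      (Nat.mul (Nat.mod t X) b)) (pA X bs ts)
  | _, _ => 0

/-- the rows of `Q` are the rows of the products -/
def prodN (X off K : ℕ) : ℕ → ℕ → List ℕ → List ℕ → List ℕ → Bool
  | Nat.succ l, R, bs, ts, (q :: Q) =>
    Nat.beq (Nat.add (pA X bs ts) (Nat.add
        (Nat.mul (Nat.mul (Nat.mul 2 K) (Nat.mul off off)) R) (Nat.mul (Nat.mul 2 off) R)))
      (Nat.add (Nat.mul 2 q) (Nat.mul off (Nat.add (Nat.add (sB bs) (sB ts))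
        (Nat.mul R (Nat.add (sC X bs) (sC X ts)))))) &&
    prodN X off K l (Nat.div R X) (shl X bs) (shl X ts) Q
  | Nat.zero, _, _, _, [] => true
  | _, _, _, _, _ => false

/-- all numbers are lists of length `l` with entries in the range -/
def digA (X lo hi l : ℕ) : List ℕ → Bool
  | (n :: ns) => digOK X lo hi l n && digA X lo hi l ns
  | [] => true

theorem digA_mem {X lo hi l : ℕ} {ns : List ℕ} (h : digA X lo hi l ns = true) :
    ∀ n ∈ ns, digOK X lo hi l n = true := by
  induction ns with
  | nil => simp
  | cons n ns ih =>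
    simp only [digA, Bool.and_eq_true] at h
    intro m hm
    rcases List.mem_cons.1 hm with rfl | hm
    · exact h.1
    · exact ih h.2 m hm

/-- check: `Q` (size `m`) is `U` (size `n`) applied to `B`; bounds `MB`, `MU`, `MT`, `N` -/
def redN (X off MB MU MT N m n : ℕ) (B U Q : List ℕ) : Bool :=
  (Nat.ble 2 X && (Nat.ble 1 X && (Nat.ble (Nat.succ MT) off &&
    (Nat.ble 1 m && (Nat.ble (Nat.mul (Nat.succ (Nat.mul 2 n)) (Nat.mul MU MB)) MT && (Nat.beq B.length n &&
      (Nat.ble (Nat.succ (Nat.mul 4 (Nat.mul n (Nat.mul MB MT)))) (X) &&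
      (Nat.ble (Nat.succ (Nat.mul 2 MT)) (X) &&
      Nat.ble (Nat.succ (Nat.mul 4 N)) (X))))))))) &&
  (digA X (Nat.sub off MB) (Nat.add off MB) m B &&
    (digT X (Nat.sub off MU) (Nat.add off MU) n U &&
    (digT X (Nat.sub off N) (Nat.add off N) m Q &&
    (digA X (Nat.sub off MT) (Nat.add off MT) m
      (tRows X off (repN (X) m) n U B) &&
    (Nat.beq U.length n &&
    prodN X off n m (repN (X) m) B
      (tRows X off (repN (X) m) n U B) Q)))))

/-- linear combination of lists -/
def lin : List ℤ → List (List ℤ) → List ℤ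
  | (u :: us), (b :: bs) => padd (sml u b) (lin us bs)
  | _, _ => []

theorem dot_lin (us : List ℤ) (bs : List (List ℤ)) (x : List ℝ) :
    dot (lin us bs) x = dot us (bs.map fun b => dot b x) := by
  induction us generalizing bs with
  | nil => cases bs <;> simp [lin, dot_nil_left]
  | cons u us ih =>
    cases bs with
    | nil => simp [lin, dot_nil_left, dot_nil_right]
    | cons b bs =>
      rw [lin, dot_padd, dot_sml, ih, List.map_cons, dot_cons]

theorem bdd_sml (c : ℤ) (M N : ℤ) (hc : |c| ≤ M) (v : List ℤ) (hv : ∀ a ∈ v, |a| ≤ N) :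
    ∀ a ∈ sml c v, |a| ≤ M * N := by
  intro a ha
  unfold sml at ha
  rw [List.mem_map] at ha
  obtain ⟨b, hb, rfl⟩ := ha
  rw [abs_mul]
  exact mul_le_mul hc (hv b hb) (abs_nonneg _) ((abs_nonneg c).trans hc)

theorem bdd_lin (M N : ℤ) (hM : 0 ≤ M) (hN : 0 ≤ N) (us : List ℤ) (bs : List (List ℤ))
    (hu : ∀ a ∈ us, |a| ≤ M) (hb : ∀ b ∈ bs, ∀ a ∈ b, |a| ≤ N) :
    ∀ a ∈ lin us bs, |a| ≤ bs.length * (M * N) := by
  induction us generalizing bs with
  | nil => cases bs <;> simp [lin]
  | cons u us ih =>
    cases bs with
    | nil => simp [lin]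
    | cons b bs =>
      intro a ha
      rw [lin] at ha
      have h1 := bdd_sml u M N (hu u List.mem_cons_self) b (hb b List.mem_cons_self)
      have h2 := ih bs (fun a ha => hu a (List.mem_cons_of_mem _ ha))
        (fun b hb' => hb b (List.mem_cons_of_mem _ hb'))
      have h3 := bdd_padd (M * N) (bs.length * (M * N)) (by positivity) (by positivity) _ _ h1 h2
        a ha
      rw [List.length_cons]
      push_cast
      linarith

theorem pk_lin {X : ℕ} (hm : 0 < X) (off lo hi m : ℕ) (bs : List ℕ) (u : ℕ)
    (h : ∀ n ∈ bs, digOK X lo hi m n = true) :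
    pk (X : ℤ) (lin (decI X off bs.length u) (bs.map (decI X off m))) =
      (cA X u bs : ℤ) + (bs.length * (off * off) * repN X m : ℕ) -
        off * (sB bs + repN X m * cC X u bs : ℕ) := by
  induction bs generalizing u with
  | nil => simp [lin, decI, cA, cC, sB, pk]
  | cons b bs ih =>
    have ih' := ih (Nat.div u X) fun m hm => h m (List.mem_cons_of_mem _ hm)
    have h1 := decI_pk hm off lo hi m b (h b List.mem_cons_self)
    have eA : cA X u (b :: bs) =
      Nat.mod u X * b + cA X (Nat.div u X) bs := rfl
    have eB : sB (b :: bs) = b + sB bs := rfl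
    have eC : cC X u (b :: bs) =
      Nat.mod u X + cC X (Nat.div u X) bs := rfl
    rw [List.length_cons, decI_succ, List.map_cons, lin, pk_padd, pk_sml, ih', h1, eA, eB, eC]
    push_cast
    ring

theorem tRow_spec {X off MB MU MT m : ℕ} (hm : 0 < X) (u b : ℕ) (bs : List ℕ)
    (hMT : (2 * bs.length + 1) * (MU * MB) ≤ MT) (hT : 2 * MT < X)
    (hu : digOK X (off - MU) (off + MU) (bs.length + 1) u = true)
    (hb : ∀ n ∈ b :: bs, digOK X (off - MB) (off + MB) m n = true)
    (ht : digOK X (off - MT) (off + MT) m
      (tRow X off (repN X m) bs.length u b bs) = true) (hoff : MT < off) (hm0 : 0 < m)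
    (x : List ℝ) :
    dot (decI X off m (tRow X off (repN X m) bs.length u b bs)) x =
      ((decI X off (bs.length + 1) u).headD 0 : ℝ) * dot (decI X off m b) x +
        2 * dot (decI X off (bs.length + 1) u).tail
          (bs.map fun b => dot (decI X off m b) x) := by
  have hd := decI_succ X off bs.length u
  have hub := decI_bdd off MU _ _ (bs.length + 1) u (by omega) (le_refl _) hu
  have hbb : ∀ n ∈ b :: bs, ∀ a ∈ decI X off m n, |a| ≤ (MB : ℤ) := fun n hn =>
    decI_bdd off MB _ _ m n (by omega) (le_refl _) (hb n hn)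
  set v := decI X off (bs.length + 1) u with hv
  have hhead : |v.headD 0| ≤ (MU : ℤ) := by
    rw [hd]
    exact hub _ (by rw [hd]; exact List.mem_cons_self)
  have htail : ∀ a ∈ v.tail, |a| ≤ (MU : ℤ) := fun a ha => hub a (List.mem_of_mem_tail ha)
  have h1 := bdd_sml _ _ _ hhead _ (hbb b List.mem_cons_self)
  have h2 := bdd_lin (MU : ℤ) (MB : ℤ) (by positivity) (by positivity) v.tail
    (bs.map (decI X off m)) htail (by
      intro t ht
      obtain ⟨n, hn, rfl⟩ := List.mem_map.1 ht
      exact hbb n (List.mem_cons_of_mem _ hn))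
  have h3 := bdd_sml 2 2 _ (by norm_num) _ h2
  have h4 := bdd_padd _ _ (by positivity) (by positivity) _ _ h1 h3
  have h5 : ∀ a ∈ padd (sml (v.headD 0) (decI X off m b))
      (sml 2 (lin v.tail (bs.map (decI X off m)))), |a| ≤ (MT : ℤ) := by
    intro a ha
    refine (h4 a ha).trans ?_
    rw [List.length_map]
    have : (((2 * bs.length + 1) * (MU * MB) : ℕ) : ℤ) ≤ MT := by exact_mod_cast hMT
    push_cast at this
    linarith
  have h6 := pk_inj (X : ℤ) (MT : ℤ) (by exact_mod_cast hT) _ _
    (decI_bdd off MT _ _ m _ (by omega) (le_refl _) ht) h5 ?_ x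
  · rw [h6, dot_padd, dot_sml, dot_sml, dot_lin, List.map_map]
    push_cast
    rfl
  · rw [decI_pk hm off _ _ m _ ht, pk_padd, pk_sml, pk_sml]
    have ev : v.tail = decI X off bs.length (Nat.div u X) := by rw [hd]; rfl
    have e0 : v.headD 0 = (Nat.mod u X : ℤ) - off := by rw [hd]; rfl
    rw [ev, e0, pk_lin hm off (off - MB) (off + MB) m bs _
      (fun n hn => hb n (List.mem_cons_of_mem _ hn)),
      decI_pk hm off _ _ m b (hb b List.mem_cons_self)]
    set t := tRow X off (repN X m) bs.length u b bs with htdef
    have hdef : t = (Nat.mod u X * b + ((2 * bs.length + 1) * (off * off) * repN X m +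
        (2 * cA X (Nat.div u X) bs + off * repN X m))) -
        off * ((b + repN X m * Nat.mod u X) +
          2 * (sB bs + repN X m * cC X (Nat.div u X) bs)) := rfl
    have ht0 : t ≠ 0 := by
      intro h0
      rw [h0] at ht
      obtain ⟨m', rfl⟩ : ∃ m', m = m' + 1 := ⟨m - 1, by omega⟩
      simp only [digOK, Bool.and_eq_true] at ht
      have := Nat.le_of_ble_eq_true ht.1
      rw [land_maskW hm, Nat.zero_mod] at this
      omega
    have hz : t + off * ((b + repN X m * Nat.mod u X) +
          2 * (sB bs + repN X m * cC X (Nat.div u X) bs)) =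
        (Nat.mod u X * b + ((2 * bs.length + 1) * (off * off) * repN X m +
        (2 * cA X (Nat.div u X) bs + off * repN X m))) := by
      omega
    have hz' : (t : ℤ) + off * ((b + repN X m * Nat.mod u X) +
          2 * (sB bs + repN X m * cC X (Nat.div u X) bs)) =
        (Nat.mod u X * b + ((2 * bs.length + 1) * (off * off) * repN X m +
        (2 * cA X (Nat.div u X) bs + off * repN X m))) := by
      exact_mod_cast hz
    push_cast
    linear_combination hz'

/-- combination for pairs -/
def cmb : List (List ℤ) → List (List ℤ) → List ℤ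
  | (b :: bs), (t :: ts) => padd (padd (sml (b.headD 0) t) (sml (t.headD 0) b)) (cmb bs ts)
  | _, _ => []

/-- sum of products -/
noncomputable def prs : List (List ℤ) → List (List ℤ) → List ℝ → ℝ
  | (b :: bs), (t :: ts), x => dot b x * dot t x + prs bs ts x
  | _, _, _ => 0

theorem prs_var (bs ts : List (List ℤ)) (x : ℝ) (xs : List ℝ) :
    2 * prs bs ts (x :: xs) = ((cmb bs ts).headD 0 : ℝ) * x ^ 2 +
      2 * x * dot (cmb bs ts).tail xs + 2 * prs (bs.map List.tail) (ts.map List.tail) xs := by
  induction bs generalizing ts with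
  | nil => cases ts <;> simp [prs, cmb, dot_nil_left]
  | cons b bs ih =>
    cases ts with
    | nil => simp [prs, cmb, dot_nil_left]
    | cons t ts =>
      rw [prs, cmb, List.map_cons, List.map_cons, prs, headD_padd, tail_padd, dot_padd,
        headD_padd, tail_padd, dot_padd, headD_sml, headD_sml, tail_sml, tail_sml, dot_sml,
        dot_sml, dot_head_tail b, dot_head_tail t]
      have := ih ts
      push_cast
      linear_combination this

theorem prs_nil (bs ts : List (List ℤ)) : prs bs ts [] = 0 := by
  induction bs generalizing ts with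
  | nil => cases ts <;> rfl
  | cons b bs ih =>
    cases ts with
    | nil => rfl
    | cons t ts =>
      rw [prs, ih, dot_nil_right]
      simp

theorem pk_cmb {X : ℕ} (hm : 0 < X) (off lo hi lo' hi' l : ℕ) (bs ts : List ℕ)
    (hlen : bs.length = ts.length)
    (hb : ∀ n ∈ bs, digOK X lo hi (l + 1) n = true)
    (ht : ∀ n ∈ ts, digOK X lo' hi' (l + 1) n = true) :
    pk (X : ℤ) (cmb (bs.map (decI X off (l + 1)))
      (ts.map (decI X off (l + 1)))) =
      (pA X bs ts : ℤ) + (2 * bs.length * (off * off) * repN X (l + 1) : ℕ) -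
        off * ((sB bs + sB ts) + repN X (l + 1) * (sC X bs + sC X ts) : ℕ) := by
  induction bs generalizing ts with
  | nil =>
    cases ts with
    | nil => simp [cmb, pA, sB, sC, pk]
    | cons t ts => simp at hlen
  | cons b bs ih =>
    cases ts with
    | nil => simp at hlen
    | cons t ts =>
      have ih' := ih ts (by simpa using hlen) (fun n hn => hb n (List.mem_cons_of_mem _ hn))
        (fun n hn => ht n (List.mem_cons_of_mem _ hn))
      have h1 := decI_pk hm off lo hi (l + 1) b (hb b List.mem_cons_self)
      have h2 := decI_pk hm off lo' hi' (l + 1) t (ht t List.mem_cons_self)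
      have e1 : (decI X off (l + 1) b).headD 0 = (Nat.mod b X : ℤ) - off := by
        rw [decI_succ]; rfl
      have e2 : (decI X off (l + 1) t).headD 0 = (Nat.mod t X : ℤ) - off := by
        rw [decI_succ]; rfl
      have eA : pA X (b :: bs) (t :: ts) =
        (Nat.mod b X * t + Nat.mod t X * b) + pA X bs ts := rfl
      have eB : sB (b :: bs) = b + sB bs := rfl
      have eB' : sB (t :: ts) = t + sB ts := rfl
      have eC : sC X (b :: bs) = Nat.mod b X + sC X bs := rfl
      have eC' : sC X (t :: ts) = Nat.mod t X + sC X ts := rfl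
      rw [List.map_cons, List.map_cons, cmb, pk_padd, pk_padd, pk_sml, pk_sml, ih', h1, h2, e1, e2,
        eA, eB, eB', eC, eC', List.length_cons]
      push_cast
      ring

theorem bdd_cmb (MB MT : ℤ) (hMB : 0 ≤ MB) (hMT : 0 ≤ MT) (bs ts : List (List ℤ))
    (hb : ∀ b ∈ bs, ∀ a ∈ b, |a| ≤ MB) (ht : ∀ t ∈ ts, ∀ a ∈ t, |a| ≤ MT) :
    ∀ a ∈ cmb bs ts, |a| ≤ bs.length * (2 * (MB * MT)) := by
  have hhead : ∀ (M : ℤ) (t : List ℤ), 0 ≤ M → (∀ a ∈ t, |a| ≤ M) → |t.headD 0| ≤ M := by
    intro M t hM h
    cases t with
    | nil => simpa using hM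
    | cons b t => exact h _ List.mem_cons_self
  induction bs generalizing ts with
  | nil => cases ts <;> simp [cmb]
  | cons b bs ih =>
    cases ts with
    | nil => simp [cmb]
    | cons t ts =>
      intro a ha
      rw [cmb] at ha
      have hb1 := hb b List.mem_cons_self
      have ht1 := ht t List.mem_cons_self
      have h1 := bdd_sml _ _ _ (hhead _ _ hMB hb1) _ ht1
      have h2 := bdd_sml _ _ _ (hhead _ _ hMT ht1) _ hb1
      have h3 := bdd_padd _ _ (by positivity) (by positivity) _ _ h1 h2
      have h4 := ih ts (fun b hb' => hb b (List.mem_cons_of_mem _ hb'))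
        (fun t ht' => ht t (List.mem_cons_of_mem _ ht'))
      have h5 := bdd_padd _ _ (by positivity) (by positivity) _ _ h3 h4 a ha
      rw [List.length_cons]
      push_cast
      linarith

theorem prodN_spec {X off MB MT N K : ℕ} (hm : 0 < X) (hW : 1 < X)
    (h1 : 4 * (K * (MB * MT)) + 1 ≤ X) (h2 : 4 * N + 1 ≤ X) (l : ℕ) :
    ∀ (bs ts Q : List ℕ), bs.length = K → ts.length = K →
    (∀ n ∈ bs, digOK X (off - MB) (off + MB) l n = true) →
    (∀ n ∈ ts, digOK X (off - MT) (off + MT) l n = true) →
    digT X (off - N) (off + N) l Q = true →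
    prodN X off K l (repN X l) bs ts Q = true → ∀ x : List ℝ,
    qfu (decT X off l Q) x =
      prs (bs.map (decI X off l)) (ts.map (decI X off l)) x := by
  induction l with
  | zero =>
    intro bs ts Q hbl htl hb ht hQ h x
    cases Q with
    | cons q Q => simp [prodN] at h
    | nil =>
      have e3 : qfu (decT X off 0 []) x = 0 := qfu_nil_left x
      rw [e3]
      clear hbl htl hb ht hQ h e3
      induction bs generalizing ts with
      | nil => cases ts <;> simp [prs]
      | cons b bs ih =>
        cases ts with
        | nil => simp [prs]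
        | cons t ts =>
          rw [List.map_cons, List.map_cons, prs, ← ih ts]
          show 0 = dot [] x * dot [] x + 0
          rw [dot_nil_left]
          simp
  | succ l ih =>
    intro bs ts Q hbl htl hb ht hQ h x
    cases Q with
    | nil => simp [prodN] at h
    | cons q Q =>
      simp only [digT, Bool.and_eq_true] at hQ
      rw [prodN, Bool.and_eq_true] at h
      obtain ⟨hz, hrest⟩ := h
      rw [repN_sh hW] at hrest
      have hih := ih (shl X bs) (shl X ts) Q (by rw [shl_length, hbl]) (by rw [shl_length, htl])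
        (shl_dig _ hb) (shl_dig _ ht) hQ.2 hrest
      have eQ : decT X off (l + 1) (q :: Q) =
          decI X off (l + 1) q :: decT X off l Q := rfl
      cases x with
      | nil => rw [eQ, qfu_nil_right, prs_nil]
      | cons x xs =>
        have hv := prs_var (bs.map (decI X off (l + 1))) (ts.map (decI X off (l + 1))) x xs
        rw [shl_tail, shl_tail, ← hih xs] at hv
        have hz' : (pA X bs ts + ((2 * K) * (off * off) * repN X (l + 1) +
            2 * off * repN X (l + 1))) = 2 * q + off * ((sB bs + sB ts) +
              repN X (l + 1) * (sC X bs + sC X ts)) := Nat.eq_of_beq_eq_true hz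
        have hz2 : ((pA X bs ts : ℤ) + ((2 * K) * (off * off) * repN X (l + 1) +
            2 * off * repN X (l + 1))) = 2 * q + off * ((sB bs + sB ts) +
              repN X (l + 1) * (sC X bs + sC X ts)) := by exact_mod_cast hz'
        have hdot : ∀ y : List ℝ, dot (cmb (bs.map (decI X off (l + 1)))
            (ts.map (decI X off (l + 1)))) y =
            dot (sml 2 (decI X off (l + 1) q)) y := by
          intro y
          refine pk_inj (X : ℤ) ((max (2 * (K * (MB * MT))) (2 * N) : ℕ) : ℤ) ?_ _ _ ?_
            ?_ ?_ y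
          · have : 2 * max (2 * (K * (MB * MT))) (2 * N) < X := by
              rcases le_total (2 * (K * (MB * MT))) (2 * N) with h | h
              · rw [max_eq_right h]; omega
              · rw [max_eq_left h]; omega
            exact_mod_cast this
          · intro a ha
            have := bdd_cmb (MB : ℤ) (MT : ℤ) (by positivity) (by positivity) _ _ (by
              intro t ht'
              obtain ⟨n, hn, rfl⟩ := List.mem_map.1 ht'
              exact decI_bdd off MB _ _ (l + 1) n (by omega) (le_refl _) (hb n hn)) (by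
              intro t ht'
              obtain ⟨n, hn, rfl⟩ := List.mem_map.1 ht'
              exact decI_bdd off MT _ _ (l + 1) n (by omega) (le_refl _) (ht n hn)) a ha
            rw [List.length_map, hbl] at this
            refine this.trans ?_
            have h3 : K * (2 * (MB * MT)) ≤ max (2 * (K * (MB * MT))) (2 * N) := by
              refine le_trans (le_of_eq ?_) (le_max_left _ _)
              ring
            exact_mod_cast h3
          · intro a ha
            have := bdd_sml 2 2 (N : ℤ) (by norm_num) _
              (decI_bdd off N _ _ (l + 1) q (by omega) (le_refl _) hQ.1) a ha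
            refine this.trans ?_
            exact_mod_cast le_max_right (2 * (K * (MB * MT))) (2 * N)
          · rw [pk_cmb hm off _ _ _ _ l bs ts (by rw [hbl, htl]) hb ht, pk_sml,
              decI_pk hm off _ _ (l + 1) q hQ.1, hbl]
            push_cast
            linear_combination hz2
        have h5 := hdot [1]
        rw [dot_head_tail, dot_head_tail (sml 2 _), dot_nil_right, dot_nil_right, headD_sml] at h5
        have h6 := hdot (0 :: xs)
        rw [dot_head_tail, dot_head_tail (sml 2 _), tail_sml, dot_sml] at h6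
        rw [eQ, qfu_cons]
        push_cast at h5 h6
        have h7 : ((cmb (bs.map (decI X off (l + 1)))
            (ts.map (decI X off (l + 1)))).headD 0 : ℝ) =
            2 * ((decI X off (l + 1) q).headD 0 : ℝ) := by linarith
        have h8 : dot (cmb (bs.map (decI X off (l + 1)))
            (ts.map (decI X off (l + 1)))).tail xs =
            2 * dot (decI X off (l + 1) q).tail xs := by linarith
        rw [h7, h8] at hv
        linarith

theorem tRows_spec {X off MB MU MT m : ℕ} (hm : 0 < X) (hT : 2 * MT < X)
    (hoff : MT < off) (hm0 : 0 < m) (n : ℕ) :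
    ∀ (B U : List ℕ), B.length = n → U.length = n → (2 * n + 1) * (MU * MB) ≤ MT →
    (∀ b ∈ B, digOK X (off - MB) (off + MB) m b = true) →
    digT X (off - MU) (off + MU) n U = true →
    (∀ t ∈ tRows X off (repN X m) n U B,
      digOK X (off - MT) (off + MT) m t = true) → ∀ x : List ℝ,
    prs (B.map (decI X off m))
      ((tRows X off (repN X m) n U B).map (decI X off m)) x =
      qfu (decT X off n U) (B.map fun b => dot (decI X off m b) x) ∧
    (tRows X off (repN X m) n U B).length = n := by
  induction n with
  | zero =>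
    intro B U hB hU _ _ _ _ x
    cases B with
    | nil =>
      cases U with
      | nil => exact ⟨by simp [prs, decT, qfu_nil_left], rfl⟩
      | cons u U => simp at hU
    | cons b B => simp at hB
  | succ n ih =>
    intro B U hB hU hMT hb hu ht x
    cases B with
    | nil => simp at hB
    | cons b B =>
      cases U with
      | nil => simp at hU
      | cons u U =>
        have hBn : B.length = n := by simpa using hB
        have hUn : U.length = n := by simpa using hU
        simp only [digT, Bool.and_eq_true] at hu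
        have eR : tRows X off (repN X m) (n + 1) (u :: U) (b :: B) =
          tRow X off (repN X m) n u b B ::
            tRows X off (repN X m) n U B := rfl
        rw [eR] at ht
        have hih := ih B U hBn hUn
          (le_trans (Nat.mul_le_mul_right _ (by omega)) hMT)
          (fun b' hb' => hb b' (List.mem_cons_of_mem _ hb')) hu.2
          (fun t ht' => ht t (List.mem_cons_of_mem _ ht')) x
        have h1 := ht _ List.mem_cons_self
        subst hBn
        have h2 := tRow_spec (MB := MB) (MU := MU) hm u b B
          (le_trans (Nat.mul_le_mul_right _ (by omega)) hMT) hT hu.1 hb h1 hoff hm0 x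
        have eU : decT X off (B.length + 1) (u :: U) =
          decI X off (B.length + 1) u :: decT X off B.length U := rfl
        refine ⟨?_, ?_⟩
        · rw [eR, List.map_cons, List.map_cons, prs, hih.1, h2, eU, List.map_cons, qfu_cons]
          ring
        · rw [eR, List.length_cons, hih.2]

theorem redN_spec (X off MB MU MT N m n : ℕ) (B U Q : List ℕ)
    (h : redN X off MB MU MT N m n B U Q = true) (x : List ℝ) :
    qfu (decT X off m Q) x =
      qfu (decT X off n U) (B.map fun b => dot (decI X off m b) x) := by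
  simp only [redN, Bool.and_eq_true] at h
  obtain ⟨⟨h1, h2, h3, h4, h5, h6, h7, h8, h9⟩, hB, hU, hQ, hT, hUl, hP⟩ := h
  have h1' : 2 ≤ X := Nat.le_of_ble_eq_true h1
  have h2' : 1 ≤ X := Nat.le_of_ble_eq_true h2
  have h3' : MT + 1 ≤ off := Nat.le_of_ble_eq_true h3
  have h4' : 1 ≤ m := Nat.le_of_ble_eq_true h4
  have h5' : (2 * n + 1) * (MU * MB) ≤ MT := Nat.le_of_ble_eq_true h5
  have h6' : B.length = n := Nat.eq_of_beq_eq_true h6
  have h7' : 4 * (n * (MB * MT)) + 1 ≤ X := Nat.le_of_ble_eq_true h7
  have h8' : 2 * MT + 1 ≤ X := Nat.le_of_ble_eq_true h8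
  have h9' : 4 * N + 1 ≤ X := Nat.le_of_ble_eq_true h9
  have hUl' : U.length = n := Nat.eq_of_beq_eq_true hUl
  have hr := tRows_spec h2' (by omega) (by omega) (by omega) n B U h6' hUl' h5' (digA_mem hB) hU
    (digA_mem hT) x
  rw [← hr.1]
  exact prodN_spec h2' (by omega) h7' h9' m B _ Q h6' hr.2 (digA_mem hB) (digA_mem hT) hQ hP x

end MP433Sys
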