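import Pool.Agent.Work.MP_433a35_co.GB.Sys.PsdB

/-!
# Forms in linear forms, special case

`colN`: the triangular form `Q` in `r + d` variables is the form `U` in `r` variables applied to
`x_i + c_i z`, where `z` are the last `d` variables.
-/

namespace MP433Sys

/-- update of the sums of digit times row -/
def updP (X c : ℕ) : ℕ → List ℕ → List ℕ
  | u, (P :: Ps) => Nat.add P (Nat.mul (Nat.mod u X) c) :: updP X c (Nat.div u X) Ps
  | _, [] => []

/-- update of the sums of digits -/
def updS (X : ℕ) : ℕ → List ℕ → List ℕ
  | u, (S :: Ss) => Nat.add S (Nat.mod u X) :: updS X (Nat.div u X) Ss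
  | _, [] => []

/-- check of the last columns -/
def colN (X off R : ℕ) :
    ℕ → ℕ → ℕ → ℕ → List ℕ → List ℕ → List ℕ → List ℕ → List ℕ → List ℕ → Bool
  | Nat.succ l, i, XL, Cs, (P :: Ps), (S :: Ss), (u :: U), (c :: C), (t :: T), (q :: Q) =>
    (Nat.beq (Nat.mod q XL) u &&
    Nat.beq (Nat.add (Nat.mul 2 (Nat.div q XL)) (Nat.mul off
        (Nat.add (Nat.mul 2 (Nat.add Cs (Nat.mul R S))) (Nat.add c (Nat.mul R (Nat.mod u X))))))
      (Nat.add (Nat.mul 2 P) (Nat.add (Nat.mul (Nat.add (Nat.mul (Nat.succ (Nat.mul 2 i))
        (Nat.mul off off)) off) R) (Nat.add t (Nat.mul (Nat.mod u X) c))))) &&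
    colN X off R l (Nat.succ i) (Nat.div XL X) (Nat.add Cs c) (updP X c (Nat.div u X) Ps)
      (updS X (Nat.div u X) Ss) U C T Q
  | Nat.zero, _, _, _, [], [], [], [], [], _ => true
  | _, _, _, _, _, _, _, _, _, _ => false

theorem dot_append (a b : List ℤ) (x : List ℝ) :
    dot (a ++ b) x = dot a (x.take a.length) + dot b (x.drop a.length) := by
  induction a generalizing x with
  | nil => simp [dot_nil_left]
  | cons c a ih =>
    cases x with
    | nil => simp [dot_nil_right]
    | cons y x =>
      rw [List.cons_append, dot_cons, ih, List.length_cons, List.take_succ_cons,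
        List.drop_succ_cons, dot_cons]
      ring

theorem dot_take (a : List ℤ) (x : List ℝ) : dot a (x.take a.length) = dot a x := by
  have := dot_append a [] x
  rw [List.append_nil, dot_nil_left, add_zero] at this
  exact this.symm

theorem decI_mod {X : ℕ} (off l n : ℕ) :
    decI X off l (n % X ^ l) = decI X off l n := by
  induction l generalizing n with
  | zero => rfl
  | succ l ih =>
    rw [decI_succ, decI_succ]
    have e1 : Nat.mod (n % X ^ (l + 1)) X = Nat.mod n X := by
      show n % X ^ (l + 1) % X = n % X
      rw [pow_succ, Nat.mod_mod_of_dvd _ (Dvd.intro_left _ rfl)]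
    have e2 : Nat.div (n % X ^ (l + 1)) X = (n / X) % X ^ l := by
      show n % X ^ (l + 1) / X = _
      rw [pow_succ, mul_comm, Nat.mod_mul_right_div_self]
    rw [e1, e2, ih]
    rfl

theorem decI_append {X : ℕ} (off a b n : ℕ) :
    decI X off (a + b) n = decI X off a n ++ decI X off b (n / X ^ a) := by
  induction a generalizing n with
  | zero => simp [decI]
  | succ a ih =>
    rw [show a + 1 + b = (a + b) + 1 by ring, decI_succ, decI_succ, ih, List.cons_append]
    congr 3
    show n / X / X ^ a = n / X ^ (a + 1)
    rw [Nat.div_div_eq_div_mul, pow_succ, mul_comm]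

theorem digOK_append {X : ℕ} (lo hi a b n : ℕ) (h : digOK X lo hi (a + b) n = true) :
    digOK X lo hi b (n / X ^ a) = true := by
  induction a generalizing n with
  | zero => simpa using h
  | succ a ih =>
    rw [show a + 1 + b = (a + b) + 1 by ring] at h
    simp only [digOK, Bool.and_eq_true] at h
    have := ih _ h.2.2
    have e : Nat.div n X / X ^ a = n / X ^ (a + 1) := by
      show n / X / X ^ a = _
      rw [Nat.div_div_eq_div_mul, pow_succ, mul_comm]
    rwa [e] at this

/-- the list `x_i + c_i z` -/
noncomputable def yv (z : List ℝ) : List ℝ → List (List ℤ) → List ℝ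
  | (x :: xs), (c :: cs) => (x + dot c z) :: yv z xs cs
  | _, _ => []

/-- sum of `x_j (a_j z)` -/
noncomputable def lnA (z : List ℝ) : List ℝ → List (List ℤ) → ℝ
  | (x :: xs), (a :: as) => x * dot a z + lnA z xs as
  | _, _ => 0

/-- update of the rows -/
def updL (c : List ℤ) : List ℤ → List (List ℤ) → List (List ℤ)
  | (u :: us), (a :: as) => padd a (sml u c) :: updL c us as
  | _, _ => []

/-- the rows `a` are given by the sums -/
def invA (X : ℤ) (k oR B : ℤ) : List (List ℤ) → List ℕ → List ℕ → Prop
  | (a :: as), (P :: Ps), (S :: Ss) =>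
    (pk X a = P + k - oR * S ∧ ∀ e ∈ a, |e| ≤ B) ∧ invA X k oR B as Ps Ss
  | [], [], [] => True
  | _, _, _ => False

theorem lnA_updL (z : List ℝ) (c : List ℤ) (us : List ℤ) (as : List (List ℤ)) (xs : List ℝ)
    (h : us.length = as.length) :
    lnA z xs (updL c us as) = lnA z xs as + dot c z * dot us xs := by
  induction us generalizing as xs with
  | nil =>
    cases as with
    | nil => cases xs <;> simp [lnA, updL, dot_nil_left]
    | cons a as => simp at h
  | cons u us ih =>
    cases as with
    | nil => simp at h
    | cons a as =>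
      cases xs with
      | nil => simp [lnA, dot_nil_right]
      | cons x xs =>
        rw [updL, lnA, lnA, ih as xs (by simpa using h), dot_padd, dot_sml, dot_cons]
        ring

theorem dot_yv (z : List ℝ) (us : List ℤ) (cs : List (List ℤ)) (xs : List ℝ)
    (h : z = [] ∨ cs.length ≤ xs.length) (hl : us.length = cs.length) :
    dot us (yv z xs cs) = dot us xs + dot (lin us cs) z := by
  induction us generalizing cs xs with
  | nil => cases cs <;> simp [lin, dot_nil_left]
  | cons u us ih =>
    cases cs with
    | nil => simp at hl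
    | cons c cs =>
      cases xs with
      | nil =>
        rcases h with rfl | h
        · simp [yv, dot_nil_right]
        · simp at h
      | cons x xs =>
        rw [yv, dot_cons, dot_cons, lin, dot_padd, dot_sml, ih cs xs (by
          rcases h with h | h
          · exact Or.inl h
          · exact Or.inr (by simpa using h)) (by simpa using hl)]
        ring

theorem updP_nil (X c u : ℕ) : updP X c u [] = [] := rfl

theorem invA_upd {X : ℕ} (off R MU MC B k : ℤ) (c : ℕ) (cl : List ℤ)
    (hc : pk (X : ℤ) cl = c - off * R) (hcb : ∀ e ∈ cl, |e| ≤ MC) (hMC : 0 ≤ MC) (hMU : 0 ≤ MU)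
    (hB : 0 ≤ B) (offn : ℕ) (hoff : (offn : ℤ) = off) (u : ℕ) (as : List (List ℤ)) (Ps Ss : List ℕ)
    (hub : ∀ e ∈ decI X offn as.length u, |e| ≤ MU)
    (h : invA X k (off * R) B as Ps Ss) :
    invA X (k + off * off * R - off * c) (off * R) (B + MU * MC)
      (updL cl (decI X offn as.length u) as) (updP X c u Ps) (updS X u Ss) := by
  induction as generalizing u Ps Ss with
  | nil =>
    cases Ps with
    | nil =>
      cases Ss with
      | nil => exact trivial
      | cons S Ss => exact h.elim
    | cons P Ps => exact h.elim
  | cons a as ih =>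
    cases Ps with
    | nil => exact h.elim
    | cons P Ps =>
      cases Ss with
      | nil => exact h.elim
      | cons S Ss =>
        obtain ⟨⟨h1, h2⟩, h3⟩ := h
        rw [List.length_cons, decI_succ] at hub ⊢
        have e1 : updP X c u (P :: Ps) = (P + u % X * c) :: updP X c (u / X) Ps := rfl
        have e2 : updS X u (S :: Ss) = (S + u % X) :: updS X (u / X) Ss := rfl
        rw [e1, e2, updL]
        have hu0 : |((Nat.mod u X : ℕ) : ℤ) - offn| ≤ MU := hub _ List.mem_cons_self
        refine ⟨⟨?_, ?_⟩, ih (u / X) Ps Ss (fun e he => hub e (List.mem_cons_of_mem _ he)) h3⟩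
        · rw [pk_padd, pk_sml, h1, hc, hoff]
          show (P : ℤ) + k - off * R * S + (((u % X : ℕ) : ℤ) - off) * (c - off * R) = _
          push_cast
          ring
        · intro e he
          have h4 := bdd_sml _ MU MC hu0 cl hcb
          exact bdd_padd B (MU * MC) hB (by positivity) _ _ h2 h4 e he

theorem yv_nil (z : List ℝ) (cs : List (List ℤ)) : yv z [] cs = [] := by
  cases cs <;> rfl

theorem lnA_nil (z : List ℝ) (as : List (List ℤ)) : lnA z [] as = 0 := by
  cases as <;> rfl

theorem colN_spec {X off MU MC MT NQ r d : ℕ} (hX : 1 < X) (hd : 0 < d) (hoff : MT < off)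
    (b1 : 4 * NQ < X) (b2 : 4 * MT < X) (b3 : (2 * r + 1) * (MU * MC) ≤ MT) (l : ℕ) :
    ∀ (i Cs : ℕ) (a : List (List ℤ)) (P S U C T Q : List ℕ), i + l ≤ r → a.length = l →
    C.length = l →
    invA X (i * off * off * repN X d - off * Cs) (off * repN X d) (i * (MU * MC)) a P S →
    (∀ c ∈ C, digOK X (off - MC) (off + MC) d c = true) →
    T = tRows X off (repN X d) l U C →
    (∀ t ∈ T, digOK X (off - MT) (off + MT) d t = true) →
    digT X (off - MU) (off + MU) l U = true → digT X (off - NQ) (off + NQ) (l + d) Q = true →
    colN X off (repN X d) l i (X ^ l) Cs P S U C T Q = true → ∀ x : List ℝ,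
    qfu (decT X off (l + d) Q) x =
      qfu (decT X off l U) (yv (x.drop l) (x.take l) (C.map (decI X off d))) +
      2 * lnA (x.drop l) (x.take l) a +
      (qfu (decT X off d (Q.drop l)) (x.drop l) -
        prs (C.map (decI X off d)) (T.map (decI X off d)) (x.drop l)) := by
  have hX0 : 0 < X := by omega
  induction l with
  | zero =>
    intro i Cs a P S U C T Q _ hal hCl _ _ hT _ _ _ h x
    have ha : a = [] := List.length_eq_zero_iff.1 hal
    have hC : C = [] := List.length_eq_zero_iff.1 hCl
    subst ha hC
    have hT' : T = [] := by rw [hT]; cases U <;> rfl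
    subst hT'
    cases U with
    | cons u U => cases P <;> cases S <;> simp [colN] at h
    | nil =>
      simp only [List.take_zero, List.drop_zero, List.map_nil, zero_add, yv_nil, lnA_nil,
        mul_zero, prs, sub_zero, qfu_nil_right]
  | succ l ih =>
    intro i Cs a P S U C T Q hir hal hCl hinv hCd hT hTd hUd hQd h x
    cases a with
    | nil => simp at hal
    | cons a0 as =>
    cases P with
    | nil => exact hinv.elim
    | cons P0 Ps =>
    cases S with
    | nil => exact hinv.elim
    | cons S0 Ss =>
    cases C with
    | nil => simp at hCl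
    | cons c C =>
    cases U with
    | nil => simp [colN] at h
    | cons u U =>
    have hCl' : C.length = l := by simpa using hCl
    have hT' : T = tRow X off (repN X d) l u c C :: tRows X off (repN X d) l U C := hT
    subst hT'
    cases Q with
    | nil => simp [colN] at h
    | cons q Q =>
    rw [colN, Bool.and_eq_true, Bool.and_eq_true] at h
    obtain ⟨⟨hq, hg⟩, hrest⟩ := h
    have hXL : Nat.div (X ^ (l + 1)) X = X ^ l := by
      show X ^ (l + 1) / X = X ^ l
      rw [pow_succ, Nat.mul_div_cancel _ hX0]
    rw [hXL] at hrest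
    simp only [digT, Bool.and_eq_true] at hUd hQd
    have hlp : Nat.pred (l + 1 + d) = l + d := by
      show l + 1 + d - 1 = l + d
      omega
    rw [hlp] at hQd
    have hql : decT X off (l + 1 + d) (q :: Q) =
        decI X off (l + 1 + d) q :: decT X off (l + d) Q := by
      show _ :: decT X off (Nat.pred (l + 1 + d)) Q = _
      rw [hlp]
    have hUl : decT X off (l + 1) (u :: U) = decI X off (l + 1) u :: decT X off l U := rfl
    have hq' : q % X ^ (l + 1) = u := Nat.eq_of_beq_eq_true hq
    have hqdec : decI X off (l + 1 + d) q =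
        decI X off (l + 1) u ++ decI X off d (q / X ^ (l + 1)) := by
      rw [decI_append, ← decI_mod off (l + 1) q, hq']
    have hgd : digOK X (off - NQ) (off + NQ) d (q / X ^ (l + 1)) = true :=
      digOK_append _ _ _ _ _ hQd.1
    obtain ⟨⟨hpa, hba⟩, hinv'⟩ := hinv
    have hcd := hCd c List.mem_cons_self
    have htd := hTd _ List.mem_cons_self
    have hcb := decI_bdd off MC _ _ d c (by omega) (le_refl _) hcd
    have htb := decI_bdd off MT _ _ d _ (by omega) (le_refl _) htd
    have hub := decI_bdd off MU _ _ (l + 1) u (by omega) (le_refl _) hUd.1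
    have hgb := decI_bdd off NQ _ _ d _ (by omega) (le_refl _) hgd
    have hpc := decI_pk hX0 off _ _ d c hcd
    have hpt := decI_pk hX0 off _ _ d _ htd
    have hpg := decI_pk hX0 off _ _ d _ hgd
    have hir1 : (2 * i + 1) * (MU * MC) ≤ MT :=
      le_trans (Nat.mul_le_mul_right _ (by omega)) b3
    -- invariant for the next step
    rw [decI_succ] at hub
    have hub' : ∀ e ∈ decI X off as.length (Nat.div u X), |e| ≤ (MU : ℤ) := by
      have : as.length = l := by simpa using hal
      rw [this]
      exact fun e he => hub e (List.mem_cons_of_mem _ he)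
    have hinv2 := invA_upd (X := X) (off : ℤ) (repN X d : ℤ) (MU : ℤ) (MC : ℤ) (i * (MU * MC))
      (i * off * off * repN X d - off * Cs) c (decI X off d c) hpc hcb (by positivity)
      (by positivity) (by positivity) off rfl (Nat.div u X) as Ps Ss hub' hinv'
    have hasl : as.length = l := by simpa using hal
    rw [hasl] at hinv2
    have hinv3 : invA X (((i + 1 : ℕ) : ℤ) * off * off * repN X d - off * ((Cs + c : ℕ) : ℤ))
        (off * repN X d) (((i + 1 : ℕ) : ℤ) * (MU * MC))
        (updL (decI X off d c) (decI X off l (Nat.div u X)) as)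
        (updP X c (Nat.div u X) Ps) (updS X (Nat.div u X) Ss) := by
      have e1 : (i : ℤ) * off * off * repN X d - off * Cs + off * off * repN X d - off * c =
          ((i + 1 : ℕ) : ℤ) * off * off * repN X d - off * ((Cs + c : ℕ) : ℤ) := by
        push_cast
        ring
      have e2 : (i : ℤ) * (MU * MC) + MU * MC = ((i + 1 : ℕ) : ℤ) * (MU * MC) := by
        push_cast
        ring
      rw [← e1, ← e2]
      exact hinv2
    have hupl : (updL (decI X off d c) (decI X off l (Nat.div u X)) as).length = l := by
      have hgen : ∀ (us : List ℤ) (bs : List (List ℤ)), us.length = bs.length →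
          (updL (decI X off d c) us bs).length = bs.length := by
        intro us
        induction us with
        | nil =>
          intro bs hb
          cases bs with
          | nil => rfl
          | cons b bs => simp at hb
        | cons u us ih2 =>
          intro bs hb
          cases bs with
          | nil => simp at hb
          | cons b bs =>
            rw [updL, List.length_cons, List.length_cons, ih2 bs (by simpa using hb)]
      rw [hgen _ as (by rw [decI_length, hasl]), hasl]
    have hih := ih (i + 1) (Cs + c) _ _ _ U C (tRows X off (repN X d) l U C) Q (by omega) hupl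
      hCl' hinv3 (fun c' hc' => hCd c' (List.mem_cons_of_mem _ hc')) rfl
      (fun t ht => hTd t (List.mem_cons_of_mem _ ht)) hUd.2 hQd.2 hrest
    -- the equation for the last columns
    have hg' : 2 * (q / X ^ (l + 1)) + off * (2 * (Cs + repN X d * S0) +
        (c + repN X d * (u % X))) = 2 * P0 + (((2 * i + 1) * (off * off) + off) * repN X d +
        (tRow X off (repN X d) l u c C + (u % X) * c)) := Nat.eq_of_beq_eq_true hg
    have hg2 : 2 * ((q / X ^ (l + 1) : ℕ) : ℤ) + off * (2 * (Cs + repN X d * S0) +
        (c + repN X d * ((u % X : ℕ) : ℤ))) = 2 * P0 + (((2 * i + 1) * (off * off) + off) *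
        repN X d + (tRow X off (repN X d) l u c C + ((u % X : ℕ) : ℤ) * c)) := by
      exact_mod_cast hg'
    have hgz : ∀ z : List ℝ, 2 * dot (decI X off d (q / X ^ (l + 1))) z =
        2 * dot a0 z + (dot (decI X off d (tRow X off (repN X d) l u c C)) z +
          ((((u % X : ℕ) : ℤ) - off : ℤ) : ℝ) * dot (decI X off d c) z) := by
      intro z
      have hu0 : |(((u % X : ℕ) : ℤ) - off)| ≤ (MU : ℤ) := hub _ List.mem_cons_self
      have h1 := bdd_sml 2 2 (NQ : ℤ) (by norm_num) _ hgb
      have h2 := bdd_sml 2 2 ((i : ℤ) * (MU * MC)) (by norm_num) _ hba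
      have h3 := bdd_sml _ _ _ hu0 _ hcb
      have h4 := bdd_padd _ _ (by positivity) (by positivity) _ _ htb h3
      have h5 := bdd_padd _ _ (by positivity) (by positivity) _ _ h2 h4
      have h6 : dot (sml 2 (decI X off d (q / X ^ (l + 1)))) z =
          dot (padd (sml 2 a0) (padd (decI X off d (tRow X off (repN X d) l u c C))
            (sml (((u % X : ℕ) : ℤ) - off) (decI X off d c)))) z := by
        refine pk_inj (X : ℤ) ((max (2 * NQ) (2 * MT) : ℕ) : ℤ) ?_ _ _ ?_ ?_ ?_ z
        · have : 2 * max (2 * NQ) (2 * MT) < X := by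
            rcases le_total (2 * NQ) (2 * MT) with h | h
            · rw [max_eq_right h]; omega
            · rw [max_eq_left h]; omega
          exact_mod_cast this
        · intro e he
          refine (h1 e he).trans ?_
          exact_mod_cast le_max_left (2 * NQ) (2 * MT)
        · intro e he
          refine (h5 e he).trans ?_
          have h7 : 2 * (i * (MU * MC)) + (MT + MU * MC) ≤ max (2 * NQ) (2 * MT) := by
            refine le_trans ?_ (le_max_right _ _)
            have : (2 * i + 1) * (MU * MC) = 2 * (i * (MU * MC)) + MU * MC := by ring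
            omega
          exact_mod_cast h7
        · rw [pk_sml, pk_padd, pk_padd, pk_sml, pk_sml, hpa, hpc, hpt, hpg]
          push_cast
          push_cast at hg2
          linear_combination hg2
      rw [dot_sml, dot_padd, dot_padd, dot_sml, dot_sml] at h6
      push_cast at h6 ⊢
      linarith
    -- the row T
    subst hCl'
    have htz : ∀ z : List ℝ, dot (decI X off d (tRow X off (repN X d) C.length u c C)) z =
        ((((u % X : ℕ) : ℤ) - off : ℤ) : ℝ) * dot (decI X off d c) z +
          2 * dot (lin (decI X off C.length (u / X)) (C.map (decI X off d))) z := by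
      intro z
      have h1 := tRow_spec (MB := MC) (MU := MU) (MT := MT) (m := d) hX0 u c C
        (le_trans (Nat.mul_le_mul_right _ (by omega)) b3) (by omega) hUd.1 hCd htd hoff hd z
      rw [decI_succ] at h1
      rw [h1, dot_lin, List.map_map]
      rfl
    cases x with
    | nil =>
      simp only [List.take_nil, List.drop_nil, qfu_nil_right, yv_nil, lnA_nil, prs_nil]
      simp
    | cons x0 xs =>
      rw [List.drop_succ_cons, List.take_succ_cons, List.drop_succ_cons, hql, hUl, hqdec,
        qfu_cons, hih xs]
      set z := xs.drop C.length with hz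
      have hhead : (decI X off (C.length + 1) u ++ decI X off d (q / X ^ (C.length + 1))).headD 0 =
          ((u % X : ℕ) : ℤ) - off := by
        rw [decI_succ]
        rfl
      have htail : (decI X off (C.length + 1) u ++ decI X off d (q / X ^ (C.length + 1))).tail =
          decI X off C.length (u / X) ++ decI X off d (q / X ^ (C.length + 1)) := by
        rw [decI_succ]
        rfl
      have hhead2 : (decI X off (C.length + 1) u).headD 0 = ((u % X : ℕ) : ℤ) - off := by
        rw [decI_succ]
        rfl
      have htail2 : (decI X off (C.length + 1) u).tail = decI X off C.length (u / X) := by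
        rw [decI_succ]
        rfl
      rw [hhead, htail, dot_append, decI_length, ← hz, List.map_cons, yv, qfu_cons, hhead2, htail2,
        lnA, lnA_updL z _ _ as _ (by rw [decI_length, hasl]), List.map_cons, prs]
      have hyv := dot_yv z (decI X off C.length (u / X)) (C.map (decI X off d))
        (xs.take C.length) (by
          rcases Nat.lt_or_ge xs.length C.length with h | h
          · left
            rw [hz]
            exact List.drop_eq_nil_of_le h.le
          · right
            rw [List.length_map, List.length_take]
            omega) (by rw [decI_length, List.length_map])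
      rw [hyv]
      have hg3 := hgz z
      have ht3 := htz z
      have hg4 : dot (decI X off d (q / X ^ (C.length + 1))) z = dot a0 z +
          ((((u % X : ℕ) : ℤ) - off : ℤ) : ℝ) * dot (decI X off d c) z +
          dot (lin (decI X off C.length (u / X)) (C.map (decI X off d))) z := by
        linarith
      rw [hg4, ht3]
      have e1 : Nat.div u X = u / X := rfl
      rw [e1]
      ring

/-- check: `Q` (size `r + d`) is `U` (size `r`) applied to `x_i + c_i z` -/
def redC (X off MC MU MT N r d : ℕ) (C U Q : List ℕ) : Bool :=
  (Nat.ble 2 X && (Nat.ble (Nat.succ MT) off && (Nat.ble 1 d &&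
    (Nat.ble (Nat.mul (Nat.succ (Nat.mul 2 r)) (Nat.mul MU MC)) MT && (Nat.beq C.length r &&
      (Nat.ble (Nat.succ (Nat.mul 4 (Nat.mul r (Nat.mul MC MT)))) X &&
      (Nat.ble (Nat.succ (Nat.mul 4 MT)) X &&
      Nat.ble (Nat.succ (Nat.mul 4 N)) X))))))) &&
  (digA X (Nat.sub off MC) (Nat.add off MC) d C &&
    (digT X (Nat.sub off MU) (Nat.add off MU) r U &&
    (digT X (Nat.sub off N) (Nat.add off N) (Nat.add r d) Q &&
    (digA X (Nat.sub off MT) (Nat.add off MT) d (tRows X off (repN X d) r U C) &&
    (Nat.beq U.length r &&
    (colN X off (repN X d) r 0 (Nat.pow X r) 0 (List.replicate r 0) (List.replicate r 0) U C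
      (tRows X off (repN X d) r U C) Q &&
    (digT X (Nat.sub off N) (Nat.add off N) d (Q.drop r) &&
    prodN X off r d (repN X d) C (tRows X off (repN X d) r U C) (Q.drop r))))))))

theorem invA_zero (X : ℤ) (oR : ℤ) (r : ℕ) :
    invA X 0 oR 0 (List.replicate r []) (List.replicate r 0) (List.replicate r 0) := by
  induction r with
  | zero => exact trivial
  | succ r ih =>
    rw [List.replicate_succ, List.replicate_succ]
    refine ⟨⟨?_, ?_⟩, ih⟩
    · simp [pk]
    · simp

theorem lnA_zero (z : List ℝ) (r : ℕ) (xs : List ℝ) : lnA z xs (List.replicate r []) = 0 := by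
  induction r generalizing xs with
  | zero => cases xs <;> rfl
  | succ r ih =>
    cases xs with
    | nil => exact lnA_nil _ _
    | cons x xs =>
      rw [List.replicate_succ, lnA, ih, dot_nil_left]
      simp

theorem redC_spec (X off MC MU MT N r d : ℕ) (C U Q : List ℕ)
    (h : redC X off MC MU MT N r d C U Q = true) (x : List ℝ) :
    qfu (decT X off (r + d) Q) x =
      qfu (decT X off r U) (yv (x.drop r) (x.take r) (C.map (decI X off d))) := by
  simp only [redC, Bool.and_eq_true] at h
  obtain ⟨⟨h1, h3, h4, h5, h6, h7, h8, h9⟩, hC, hU, hQ, hT, hUl, hcol, hQd, hP⟩ := h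
  have h1' : 2 ≤ X := Nat.le_of_ble_eq_true h1
  have h3' : MT + 1 ≤ off := Nat.le_of_ble_eq_true h3
  have h4' : 1 ≤ d := Nat.le_of_ble_eq_true h4
  have h5' : (2 * r + 1) * (MU * MC) ≤ MT := Nat.le_of_ble_eq_true h5
  have h6' : C.length = r := Nat.eq_of_beq_eq_true h6
  have h7' : 4 * (r * (MC * MT)) + 1 ≤ X := Nat.le_of_ble_eq_true h7
  have h8' : 4 * MT + 1 ≤ X := Nat.le_of_ble_eq_true h8
  have h9' : 4 * N + 1 ≤ X := Nat.le_of_ble_eq_true h9
  have hUl' : U.length = r := Nat.eq_of_beq_eq_true hUl
  have hinv : invA (X : ℤ) ((0 : ℕ) * off * off * repN X d - off * (0 : ℕ)) (off * repN X d)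
      ((0 : ℕ) * (MU * MC)) (List.replicate r []) (List.replicate r 0) (List.replicate r 0) := by
    have := invA_zero (X : ℤ) (off * repN X d) r
    simpa using this
  have hcs := colN_spec (MT := MT) (MU := MU) (MC := MC) (NQ := N) (r := r) (by omega) (by omega)
    (by omega) (by omega) (by omega) h5' r 0 0 (List.replicate r []) (List.replicate r 0)
    (List.replicate r 0) U C (tRows X off (repN X d) r U C) Q (by omega) (by simp) h6' hinv
    (digA_mem hC) rfl (digA_mem hT) hU hQ hcol x
  rw [hcs, lnA_zero]
  have hr := tRows_spec (MB := MC) (MU := MU) (MT := MT) (m := d) (by omega : 0 < X) (by omega)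
    (by omega) (by omega) r C U h6' hUl' h5' (digA_mem hC) hU (digA_mem hT) (x.drop r)
  have hp := prodN_spec (MB := MC) (MT := MT) (N := N) (by omega : 0 < X) (by omega : 1 < X)
    h7' h9' d C (tRows X off (repN X d) r U C) (Q.drop r) h6' hr.2 (digA_mem hC) (digA_mem hT)
    hQd hP (x.drop r)
  rw [hp]
  ring

end MP433Sys
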