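import Pool.Agent.Work.MP_433a35_co.GB.Sys.Blk
import Pool.Agent.Work.MP_433a35_co.GB.Sys.PsdB
import Pool.Agent.Work.MP_433a35_co.GB.Sys.PsdC

/-!
# Compact literals
-/

namespace MP433Sys

/-- decode pairs `(a, F)`: `a` in the low three bits -/
def decF : List ℕ → List (ℕ × ℕ)
  | [] => []
  | (x :: xs) => (Nat.land x 7, Nat.shiftRight x 3) :: decF xs

end MP433Sys
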