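import Mathlib

/-!
# Weighted pattern counts on at most eight positions

`idx p q` (`p < q`) numbers the pairs of positions; a code `c : ℕ` has three bits per pair,
`dig c i` is the digit (colour or mark) of pair number `i`.  In a system `T` every digit `d` has a
symmetric weight `T.rho d x y ∈ [0, 1]`; `T.full k c` is the sum over all tuples `t : Fin k → V` of
the product of the weights of the pairs; `T.pcount k c free` leaves out the pairs in `free`.
-/

namespace MP433Sys

open Finset

/-- number of the pair `p < q` -/
def idx (p q : ℕ) : ℕ := q * (q - 1) / 2 + p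

/-- number of pairs of `k` positions -/
def npr (k : ℕ) : ℕ := k * (k - 1) / 2

/-- digit of pair number `i` -/
def dig (c i : ℕ) : ℕ := c / 8 ^ i % 8

/-- the kind of a system: `fd` digits of a free pair, `ad` digits of a joined pair, `fg` digits of an
`F`-pair, `mul` product table of the digits on root pairs (`7`: not allowed) -/
structure Spec where
  fd : List ℕ
  ad : List ℕ
  fg : List ℕ
  mul : ℕ → ℕ → ℕ

/-- a system of weights -/
structure Sys (S : Spec) (V : Type*) [Fintype V] where
  rho : ℕ → V → V → ℝ
  fi : V → V → ℝ
  D : ℝ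
  nonneg : ∀ d x y, 0 ≤ rho d x y
  le_one : ∀ d x y, rho d x y ≤ 1
  symm : ∀ d x y, rho d x y = rho d y x
  free : ∀ x y, (S.fd.map fun d => rho d x y).sum = 1
  deg : ∀ x, ∑ y, (S.ad.map fun d => rho d x y).sum ≤ D
  adj : ∀ d x y, d ≠ 0 → rho d x y ≤ (S.ad.map fun d => rho d x y).sum
  fig : ∀ d ∈ S.fg, ∀ x y, rho d x y ≤ fi x y
  mul : ∀ a b x y, S.mul a b ≠ 7 → rho a x y * rho b x y = rho (S.mul a b) x y

namespace Sys

variable {S : Spec} {V : Type*} [Fintype V] (T : Sys S V)

/-- weight of a tuple -/
noncomputable def wt (k c : ℕ) (free : List ℕ) (t : Fin k → V) : ℝ :=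
  ∏ q : Fin k, ∏ p : Fin k,
    if p < q ∧ idx p q ∉ free then T.rho (dig c (idx p q)) (t p) (t q) else 1

/-- total weight of a partial code -/
noncomputable def pcount (k c : ℕ) (free : List ℕ) : ℝ := ∑ t : Fin k → V, T.wt k c free t

/-- total weight of a code -/
noncomputable def full (k c : ℕ) : ℝ := T.pcount k c []

/-- weight of the pairs of `F`-pairs which are not joined -/
noncomputable def bad : ℝ :=
  ∑ a : V, ∑ b : V, ∑ c : V, ∑ d : V,
    T.fi a b * T.fi c d * (T.rho 0 a c * T.rho 0 a d * T.rho 0 b c * T.rho 0 b d)

/-- weight of the extensions of the root tuple `r` to the flag `F` with `a` further positions -/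
noncomputable def fl (s a F : ℕ) (r : Fin s → V) : ℝ :=
  ∑ u : Fin a → V, T.wt (s + a) F [] (Fin.append r u)

end Sys

/-- a weighted partial code -/
structure Src where
  w : ℤ
  c : ℕ
  free : List ℕ
deriving DecidableEq

/-- value of a list of weighted partial codes -/
noncomputable def srcVal {S : Spec} {V : Type*} [Fintype V] (T : Sys S V) (k : ℕ)
    (L : List Src) : ℝ :=
  (L.map fun x => (x.w : ℝ) * T.pcount k x.c x.free).sum

/-- total absolute weight of all completions -/
def srcErr (S : Spec) (L : List Src) : ℕ :=
  (L.map fun x => x.w.natAbs * S.fd.length ^ x.free.length).sum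

/-- the error allowed at level `k` -/
noncomputable def errT {S : Spec} {V : Type*} [Fintype V] (T : Sys S V) (k : ℕ)
    (L : List Src) : ℝ :=
  if k < 4 then 0 else srcErr S L * T.bad * T.D ^ (k - 4)

/-- value of a weighted list of codes -/
noncomputable def ev {S : Spec} {V : Type*} [Fintype V] (T : Sys S V) (k : ℕ)
    (L : List (ℕ × ℤ)) : ℝ :=
  (L.map fun x => (x.2 : ℝ) * T.full k x.1).sum

/-- the pairs between the `a` positions `s, ..` and the `b` positions `s + a, ..` -/
def cross (s a b : ℕ) : List ℕ :=
  (List.range b).flatMap fun y => (List.range a).map fun x => idx (s + x) (s + a + y)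

/-- the digits of `G` on the pairs with upper position `s + y` are moved to `s + a + y` -/
def glueRow (s a G y : ℕ) : ℕ :=
  ((List.range (s + y)).map fun x =>
    dig G (idx x (s + y)) * 8 ^ idx (if x < s then x else a + x) (s + a + y)).sum

/-- product of the flag `F` (on `s + a` positions) and the flag `G` (on `s + b` positions): the root
digits are multiplied with the table of `S` -/
def glue (S : Spec) (s a b F G : ℕ) : ℕ :=
  ((List.range (npr s)).map fun i => S.mul (dig F i) (dig G i) * 8 ^ i).sum +
  F / 8 ^ npr s * 8 ^ npr s + ((List.range b).map fun y => glueRow s a G y).sum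

/-- the root digits of the flags can be multiplied and `F` has no digits outside its pairs -/
def glueOK (S : Spec) (s a F G : ℕ) : Bool :=
  decide (F < 8 ^ npr (s + a)) &&
  (List.range (npr s)).all fun i => decide (S.mul (dig F i) (dig G i) < 7)

/-- sources of the degree row: the new position `k` is joined to position `i` -/
def rowSrc (S : Spec) (k : ℕ) (w : ℤ) (p i : ℕ) : List Src :=
  S.ad.map fun d =>
    ⟨w, p + d * 8 ^ idx i k, ((List.range k).filter fun x => x != i).map fun x => idx x k⟩

/-- two `F`-pairs on the positions `0,1` and `2,3` which are not joined, and every further position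
is joined to an earlier one -/
def viol (S : Spec) (k H : ℕ) : Bool :=
  S.fg.contains (dig H 0) && S.fg.contains (dig H 5) &&
  dig H 1 == 0 && dig H 2 == 0 && dig H 3 == 0 && dig H 4 == 0 && decide (4 ≤ k) &&
  (List.range k).all fun q => decide (q < 4) || (List.range q).any fun p => dig H (idx p q) != 0

/-- `s` packs (base 8) a permutation of the positions `< k`, and the pair with number `idx p q`
is sent to the pair with number `w / 32 ^ idx p q % 32` -/
def permOK (k w s : ℕ) : Bool :=
  (List.range k).all (fun p => decide (s / 8 ^ p % 8 < k)) &&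
  (List.range k).all (fun q => (List.range q).all (fun p =>
    s / 8 ^ p % 8 != s / 8 ^ q % 8 &&
    w / 32 ^ idx p q % 32 ==
      (if s / 8 ^ p % 8 < s / 8 ^ q % 8 then idx (s / 8 ^ p % 8) (s / 8 ^ q % 8)
        else idx (s / 8 ^ q % 8) (s / 8 ^ p % 8))))

/-- relabelled code: the new digit of pair `i` is the old digit of pair `w / 32 ^ i % 32` -/
def relab : ℕ → ℕ → ℕ → ℕ
  | 0, _, _ => 0
  | (n + 1), c, w => 8 * relab n c (w / 32) + dig c (w % 32)

end MP433Sys
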