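import Pool.Agent.Work.MP_433a35_co.GB.Sys.HlpA

/-!
# Products of flags
-/

namespace MP433Sys

open Finset

variable {S : Spec} {V : Type*} [Fintype V] (T : Sys S V)

/-- the digits added by `glue` above the root -/
def glueList (s a b G : ℕ) : List (ℕ × ℕ) :=
  (List.range b).flatMap fun y => (List.range (s + y)).map fun x =>
    (idx (if x < s then x else a + x) (s + a + y), dig G (idx x (s + y)))

/-- the root digits of `glue` -/
def glueLow (S : Spec) (s F G : ℕ) : List (ℕ × ℕ) :=
  (List.range (npr s)).map fun i => (i, S.mul (dig F i) (dig G i))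

theorem glue_eq (s a b F G : ℕ) : glue S s a b F G =
    F / 8 ^ npr s * 8 ^ npr s + Aux.lsum (glueLow S s F G ++ glueList s a b G) := by
  unfold glue Aux.lsum
  rw [List.map_append, List.sum_append, glueLow, List.map_map, glueList, List.map_flatMap,
    Aux.sum_flatMap']
  have : (List.map (fun x => (List.map (fun x => x.2 * 8 ^ x.1)
      (List.map (fun x_1 => (idx (if x_1 < s then x_1 else a + x_1) (s + a + x),
        dig G (idx x_1 (s + x)))) (List.range (s + x)))).sum) (List.range b)) =
      (List.range b).map fun y => glueRow s a G y := by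
    apply List.map_congr_left
    intro y _
    unfold glueRow
    rw [List.map_map]
    rfl
  rw [this, ← add_assoc, add_comm (F / 8 ^ npr s * 8 ^ npr s)]
  rfl

theorem glue_lt {s a x y : ℕ} (hx : x < s + y) : (if x < s then x else a + x) < s + a + y := by
  split_ifs <;> omega

theorem glueList_nodup (s a b G : ℕ) : ((glueList s a b G).map Prod.fst).Nodup := by
  unfold glueList
  rw [List.map_flatMap, List.nodup_flatMap]
  constructor
  · intro y _
    rw [List.map_map]
    refine List.Nodup.map_on ?_ List.nodup_range
    intro x hx x' hx' e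
    rw [List.mem_range] at hx hx'
    simp only [Function.comp] at e
    have := (Aux.idx_inj (glue_lt hx) (glue_lt hx') e).1
    split_ifs at this <;> omega
  · refine List.Nodup.pairwise_of_forall_ne List.nodup_range ?_
    intro y _ y' _ hne i hi hi'
    simp only [List.mem_map, List.mem_range, exists_exists_and_eq_and] at hi hi'
    obtain ⟨x, hx, e⟩ := hi
    obtain ⟨x', hx', e'⟩ := hi'
    have := (Aux.idx_inj (glue_lt hx) (glue_lt hx') (e.trans e'.symm)).2
    omega

theorem glueList_lt (s a b G : ℕ) : ∀ x ∈ glueList s a b G, x.2 < 8 := by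
  intro x hx
  unfold glueList at hx
  simp only [List.mem_flatMap, List.mem_map] at hx
  obtain ⟨y, _, z, _, rfl⟩ := hx
  exact Nat.mod_lt _ (by norm_num)

theorem glueList_ge (s a b G : ℕ) : ∀ x ∈ glueList s a b G, npr (s + a) ≤ x.1 := by
  intro x hx
  unfold glueList at hx
  simp only [List.mem_flatMap, List.mem_map] at hx
  obtain ⟨y, _, z, _, rfl⟩ := hx
  exact Aux.idx_ge (by omega)

theorem all_nodup (s a b F G : ℕ) :
    ((glueLow S s F G ++ glueList s a b G).map Prod.fst).Nodup := by
  rw [List.map_append, List.nodup_append']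
  refine ⟨?_, glueList_nodup s a b G, ?_⟩
  · unfold glueLow
    rw [List.map_map]
    refine List.Nodup.map_on ?_ List.nodup_range
    intro x _ y _ e
    exact e
  · intro i hi hi'
    obtain ⟨x, hx, rfl⟩ := List.mem_map.mp hi'
    have h1 := glueList_ge s a b G x hx
    obtain ⟨z, hz, e⟩ := List.mem_map.mp hi
    unfold glueLow at hz
    simp only [List.mem_map, List.mem_range] at hz
    obtain ⟨j, hj, rfl⟩ := hz
    have h2 : j = x.1 := e
    have := Aux.npr_mono (show s ≤ s + a by omega)
    omega

theorem all_lt (s a b F G : ℕ) (hm : ∀ i < npr s, S.mul (dig F i) (dig G i) < 7) :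
    ∀ x ∈ glueLow S s F G ++ glueList s a b G, x.2 < 8 := by
  intro x hx
  rcases List.mem_append.mp hx with hx | hx
  · unfold glueLow at hx
    simp only [List.mem_map, List.mem_range] at hx
    obtain ⟨j, hj, rfl⟩ := hx
    have := hm j hj
    exact Nat.lt_succ_of_lt this
  · exact glueList_lt s a b G x hx

theorem all_zero (s a b F G : ℕ) (hF : F < 8 ^ npr (s + a)) :
    ∀ x ∈ glueLow S s F G ++ glueList s a b G, dig (F / 8 ^ npr s * 8 ^ npr s) x.1 = 0 := by
  intro x hx
  rw [Aux.dig_trunc]
  rcases List.mem_append.mp hx with hx | hx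
  · unfold glueLow at hx
    simp only [List.mem_map, List.mem_range] at hx
    obtain ⟨j, hj, rfl⟩ := hx
    rw [if_pos hj]
  · split_ifs with h
    · rfl
    · exact Aux.dig_eq_zero (lt_of_lt_of_le hF
        (Nat.pow_le_pow_right (by norm_num) (glueList_ge s a b G x hx)))

theorem dig_glue_root (s a b F G p q : ℕ) (hF : F < 8 ^ npr (s + a))
    (hm : ∀ i < npr s, S.mul (dig F i) (dig G i) < 7) (hpq : p < q) (hq : q < s) :
    dig (glue S s a b F G) (idx p q) = S.mul (dig F (idx p q)) (dig G (idx p q)) := by
  rw [glue_eq]
  refine Aux.dig_lsum_mem _ _ (all_nodup s a b F G) (all_lt s a b F G hm) (all_zero s a b F G hF)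
    (idx p q, S.mul (dig F (idx p q)) (dig G (idx p q))) ?_
  rw [List.mem_append]
  left
  unfold glueLow
  simp only [List.mem_map, List.mem_range]
  exact ⟨idx p q, Aux.idx_lt hpq hq, rfl⟩

theorem dig_glue_low (s a b F G p q : ℕ) (hF : F < 8 ^ npr (s + a))
    (hm : ∀ i < npr s, S.mul (dig F i) (dig G i) < 7) (hpq : p < q) (hs : s ≤ q)
    (hq : q < s + a) : dig (glue S s a b F G) (idx p q) = dig F (idx p q) := by
  rw [glue_eq]
  have hge := Aux.idx_ge (p := p) hs
  have hlt := Aux.idx_lt hpq hq
  rw [Aux.dig_lsum_not_mem _ _ (all_nodup s a b F G) (all_lt s a b F G hm)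
    (all_zero s a b F G hF) _ ?_, Aux.dig_trunc, if_neg (by omega)]
  rw [List.map_append, List.mem_append, not_or]
  constructor
  · intro h
    obtain ⟨x, hx, e⟩ := List.mem_map.mp h
    unfold glueLow at hx
    simp only [List.mem_map, List.mem_range] at hx
    obtain ⟨j, hj, rfl⟩ := hx
    have : j = idx p q := e
    omega
  · intro h
    obtain ⟨x, hx, e⟩ := List.mem_map.mp h
    have := glueList_ge s a b G x hx
    omega

theorem dig_glue_high (s a b F G x y : ℕ) (hF : F < 8 ^ npr (s + a))
    (hm : ∀ i < npr s, S.mul (dig F i) (dig G i) < 7)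
    (hx : x < s + y) (hy : y < b) :
    dig (glue S s a b F G) (idx (if x < s then x else a + x) (s + a + y)) =
      dig G (idx x (s + y)) := by
  rw [glue_eq]
  refine Aux.dig_lsum_mem _ _ (all_nodup s a b F G) (all_lt s a b F G hm)
    (all_zero s a b F G hF)
    (idx (if x < s then x else a + x) (s + a + y), dig G (idx x (s + y))) ?_
  rw [List.mem_append]
  right
  unfold glueList
  simp only [List.mem_flatMap, List.mem_map, List.mem_range]
  exact ⟨y, hy, x, hx, rfl⟩

theorem not_mem_cross_low {s a b p q : ℕ} (hpq : p < q) (hq : q < s + a) :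
    idx p q ∉ cross s a b := by
  unfold cross
  simp only [List.mem_flatMap, List.mem_map, List.mem_range, not_exists, not_and]
  intro y _ x hx e
  have := (Aux.idx_inj (show s + x < s + a + y by omega) hpq e).2
  omega

theorem not_mem_cross_high {s a b p y : ℕ} (hp : p < s + a + y) (h : p < s ∨ s + a ≤ p) :
    idx p (s + a + y) ∉ cross s a b := by
  unfold cross
  simp only [List.mem_flatMap, List.mem_map, List.mem_range, not_exists, not_and]
  intro y' _ x hx e
  have := (Aux.idx_inj (show s + x < s + a + y' by omega) hp e).1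
  omega

theorem mem_cross {s a b x y : ℕ} (hx : x < a) (hy : y < b) :
    idx (s + x) (s + a + y) ∈ cross s a b := by
  unfold cross
  simp only [List.mem_flatMap, List.mem_map, List.mem_range]
  exact ⟨y, hy, x, hx, rfl⟩

/-- weight of the pairs with upper position `s + y` -/
noncomputable def ext (s a c : ℕ) (free : List ℕ) (r : Fin s → V) (u : Fin a → V) : ℝ :=
  ∏ y : Fin a,
    (∏ p : Fin s, if idx p (s + y) ∉ free then T.rho (dig c (idx p (s + y))) (r p) (u y) else 1) *
    ∏ x : Fin a, if x < y ∧ idx (s + x) (s + y) ∉ free then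
      T.rho (dig c (idx (s + x) (s + y))) (u x) (u y) else 1

theorem wt_append (s a c : ℕ) (free : List ℕ) (r : Fin s → V) (u : Fin a → V) :
    T.wt (s + a) c free (Fin.append r u) = T.wt s c free r * ext T s a c free r u := by
  unfold Sys.wt ext
  rw [Fin.prod_univ_add]
  congr 1
  · refine Finset.prod_congr rfl fun q _ => ?_
    rw [Fin.prod_univ_add]
    have : ∏ i : Fin a, (if (Fin.natAdd s i : Fin (s + a)) < Fin.castAdd a q ∧
        idx (Fin.natAdd s i : Fin (s + a)) (Fin.castAdd a q : Fin (s + a)) ∉ free then
        T.rho (dig c (idx (Fin.natAdd s i : Fin (s + a)) (Fin.castAdd a q : Fin (s + a))))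
          (Fin.append r u (Fin.natAdd s i)) (Fin.append r u (Fin.castAdd a q)) else 1) = 1 := by
      refine Finset.prod_eq_one fun i _ => ?_
      rw [if_neg]
      rintro ⟨h, _⟩
      have : s + (i : ℕ) < q := h
      have := q.2
      omega
    rw [this, mul_one]
    refine Finset.prod_congr rfl fun p _ => ?_
    rw [Fin.append_left, Fin.append_left]
    rfl
  · refine Finset.prod_congr rfl fun y _ => ?_
    rw [Fin.prod_univ_add]
    congr 1
    · refine Finset.prod_congr rfl fun p _ => ?_
      rw [Fin.append_left, Fin.append_right]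
      refine if_congr ?_ rfl rfl
      have : (Fin.castAdd a p : Fin (s + a)) < Fin.natAdd s y := by
        show (p : ℕ) < s + y
        have := p.2
        omega
      simp [this]
    · refine Finset.prod_congr rfl fun x _ => ?_
      rw [Fin.append_right, Fin.append_right]
      refine if_congr ?_ rfl rfl
      simp

theorem wt_glue (s a b F G : ℕ) (h : glueOK S s a F G = true) (r : Fin s → V) (u : Fin a → V)
    (u' : Fin b → V) :
    T.wt (s + a + b) (glue S s a b F G) (cross s a b) (Fin.append (Fin.append r u) u') =
      T.wt (s + a) F [] (Fin.append r u) * T.wt (s + b) G [] (Fin.append r u') := by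
  unfold glueOK at h
  simp only [Bool.and_eq_true, decide_eq_true_eq, List.all_eq_true, List.mem_range] at h
  obtain ⟨hF, hm⟩ := h
  rw [wt_append, wt_append, wt_append T s a F, wt_append T s b G]
  have e1 : T.wt s (glue S s a b F G) (cross s a b) r = T.wt s F [] r * T.wt s G [] r := by
    unfold Sys.wt
    rw [← Finset.prod_mul_distrib]
    refine Finset.prod_congr rfl fun q _ => ?_
    rw [← Finset.prod_mul_distrib]
    refine Finset.prod_congr rfl fun p _ => ?_
    by_cases hpq : p < q
    · have hpq' : (p : ℕ) < q := hpq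
      have hq := q.2
      rw [if_pos ⟨hpq, not_mem_cross_low hpq' (by omega)⟩, if_pos ⟨hpq, by simp⟩,
        if_pos ⟨hpq, by simp⟩, dig_glue_root s a b F G p q hF hm hpq' hq, T.mul]
      have := hm _ (Aux.idx_lt hpq' hq)
      omega
    · rw [if_neg (fun h => hpq h.1), if_neg (fun h => hpq h.1), if_neg (fun h => hpq h.1), mul_one]
  have e2 : ext T s a (glue S s a b F G) (cross s a b) r u = ext T s a F [] r u := by
    unfold ext
    refine Finset.prod_congr rfl fun y _ => ?_
    have hy := y.2
    congr 1
    · refine Finset.prod_congr rfl fun p _ => ?_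
      have hp := p.2
      rw [if_pos (not_mem_cross_low (by omega) (by omega)), if_pos (by simp),
        dig_glue_low s a b F G p (s + y) hF hm (by omega) (by omega) (by omega)]
    · refine Finset.prod_congr rfl fun x _ => ?_
      by_cases hxy : x < y
      · have hxy' : (x : ℕ) < y := hxy
        rw [if_pos ⟨hxy, not_mem_cross_low (by omega) (by omega)⟩, if_pos ⟨hxy, by simp⟩,
          dig_glue_low s a b F G (s + x) (s + y) hF hm (by omega) (by omega) (by omega)]
      · rw [if_neg (fun h => hxy h.1), if_neg (fun h => hxy h.1)]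
  have e3 : ext T (s + a) b (glue S s a b F G) (cross s a b) (Fin.append r u) u' =
      ext T s b G [] r u' := by
    unfold ext
    refine Finset.prod_congr rfl fun y _ => ?_
    have hy := y.2
    congr 1
    · rw [Fin.prod_univ_add]
      have : ∏ i : Fin a, (if idx (Fin.natAdd s i : Fin (s + a)) (s + a + y) ∉ cross s a b then
          T.rho (dig (glue S s a b F G) (idx (Fin.natAdd s i : Fin (s + a)) (s + a + y)))
            (Fin.append r u (Fin.natAdd s i)) (u' y) else 1) = 1 := by
        refine Finset.prod_eq_one fun i _ => ?_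
        rw [if_neg]
        intro h
        exact h (mem_cross i.2 y.2)
      rw [this, mul_one]
      refine Finset.prod_congr rfl fun p _ => ?_
      have hp := p.2
      have e := dig_glue_high (S := S) s a b F G p y hF hm (by omega) hy
      rw [if_pos hp] at e
      rw [if_pos, if_pos (by simp), Fin.append_left, Fin.val_castAdd, e]
      exact not_mem_cross_high (by rw [Fin.val_castAdd]; omega) (Or.inl hp)
    · refine Finset.prod_congr rfl fun x _ => ?_
      by_cases hxy : x < y
      · have hxy' : (x : ℕ) < y := hxy
        have e := dig_glue_high (S := S) s a b F G (s + x) y hF hm (by omega) hy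
        rw [if_neg (by omega), show a + (s + (x : ℕ)) = s + a + x by omega] at e
        rw [if_pos ⟨hxy, not_mem_cross_high (by omega) (Or.inr (by omega))⟩,
          if_pos ⟨hxy, by simp⟩, e]
      · rw [if_neg (fun h => hxy h.1), if_neg (fun h => hxy h.1)]
  rw [e1, e2, e3]
  ring

theorem glue_sum (s a b F G : ℕ) (h : glueOK S s a F G = true) :
    ∑ r : Fin s → V, T.fl s a F r * T.fl s b G r =
      T.pcount (s + a + b) (glue S s a b F G) (cross s a b) := by
  unfold Sys.fl Sys.pcount
  rw [Aux.sum_append, Aux.sum_append]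
  refine Finset.sum_congr rfl fun r _ => ?_
  rw [Finset.sum_mul_sum]
  refine Finset.sum_congr rfl fun u _ => Finset.sum_congr rfl fun u' _ => ?_
  rw [wt_glue T s a b F G h r u u']

end MP433Sys
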