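import Pool.Agent.Work.MP_433a35_co.GB.Sys.Defs

/-!
# Auxiliary facts for Deg and Glue: pair numbers, digits, splitting of tuples
-/

namespace MP433Sys

open Finset

namespace Aux

theorem tri_succ (q : ℕ) : npr (q + 1) = npr q + q := by
  unfold npr
  rcases q with _ | q
  · simp
  · simp only [Nat.add_sub_cancel]
    rw [show (q + 1 + 1) * (q + 1) = (q + 1) * q + (q + 1) * 2 by ring]
    rw [Nat.add_mul_div_right _ _ (by norm_num)]

theorem npr_mono {a b : ℕ} (h : a ≤ b) : npr a ≤ npr b :=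
  Nat.div_le_div_right (Nat.mul_le_mul h (Nat.sub_le_sub_right h 1))

theorem idx_eq (p q : ℕ) : idx p q = npr q + p := rfl

theorem idx_ge {p q k : ℕ} (h : k ≤ q) : npr k ≤ idx p q := by
  rw [idx_eq]
  have := npr_mono h
  omega

theorem idx_lt {p q k : ℕ} (h : p < q) (hq : q < k) : idx p q < npr k := by
  have h1 := tri_succ q
  have h2 : npr (q + 1) ≤ npr k := npr_mono hq
  rw [idx_eq]
  omega

theorem idx_inj {p q p' q' : ℕ} (h : p < q) (h' : p' < q') (e : idx p q = idx p' q') :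
    p = p' ∧ q = q' := by
  have hq : q = q' := by
    rcases lt_trichotomy q q' with hlt | heq | hgt
    · have := idx_lt h hlt
      rw [idx_eq] at e this
      rw [idx_eq] at e
      omega
    · exact heq
    · have := idx_lt h' hgt
      rw [idx_eq] at e this
      rw [idx_eq] at e
      omega
  subst hq
  rw [idx_eq, idx_eq] at e
  exact ⟨by omega, rfl⟩

theorem dig_eq_zero {c i : ℕ} (h : c < 8 ^ i) : dig c i = 0 := by
  unfold dig; rw [Nat.div_eq_of_lt h]

theorem dig_add_self {c i x : ℕ} (hc : dig c i = 0) (hx : x < 8) : dig (c + x * 8 ^ i) i = x := by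
  unfold dig at *
  rw [Nat.add_mul_div_right _ _ (by positivity)]
  omega

theorem dig_add_ne {c i j x : ℕ} (hc : dig c i = 0) (hx : x < 8) (hj : j ≠ i) :
    dig (c + x * 8 ^ i) j = dig c j := by
  unfold dig at *
  rcases lt_or_gt_of_ne hj with h | h
  · obtain ⟨d, rfl⟩ : ∃ d, i = j + 1 + d := ⟨i - (j + 1), by omega⟩
    rw [show x * 8 ^ (j + 1 + d) = (8 * (x * 8 ^ d)) * 8 ^ j by ring,
      Nat.add_mul_div_right _ _ (by positivity)]
    omega
  · obtain ⟨d, rfl⟩ : ∃ d, j = i + 1 + d := ⟨j - (i + 1), by omega⟩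
    rw [show 8 ^ (i + 1 + d) = 8 ^ i * 8 * 8 ^ d by ring, ← Nat.div_div_eq_div_mul,
      ← Nat.div_div_eq_div_mul, ← Nat.div_div_eq_div_mul, ← Nat.div_div_eq_div_mul,
      Nat.add_mul_div_right _ _ (by positivity)]
    congr 2
    omega

theorem dig_trunc (F n i : ℕ) : dig (F / 8 ^ n * 8 ^ n) i = if i < n then 0 else dig F i := by
  split_ifs with h
  · obtain ⟨d, rfl⟩ : ∃ d, n = i + 1 + d := ⟨n - (i + 1), by omega⟩
    unfold dig
    rw [show F / 8 ^ (i + 1 + d) * 8 ^ (i + 1 + d) =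
      (8 * (F / 8 ^ (i + 1 + d) * 8 ^ d)) * 8 ^ i by ring, Nat.mul_div_cancel _ (by positivity)]
    omega
  · obtain ⟨d, rfl⟩ : ∃ d, i = n + d := ⟨i - n, by omega⟩
    unfold dig
    rw [pow_add, ← Nat.div_div_eq_div_mul, Nat.mul_div_cancel _ (by positivity),
      Nat.div_div_eq_div_mul]

/-- sum of the digits `x.2` at the places `x.1` -/
def lsum (L : List (ℕ × ℕ)) : ℕ := (L.map fun x => x.2 * 8 ^ x.1).sum

theorem dig_lsum_not_mem (L : List (ℕ × ℕ)) (c : ℕ) (hL : (L.map Prod.fst).Nodup)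
    (hd : ∀ x ∈ L, x.2 < 8) (h0 : ∀ x ∈ L, dig c x.1 = 0) (i : ℕ) (hi : i ∉ L.map Prod.fst) :
    dig (c + lsum L) i = dig c i := by
  induction L generalizing c with
  | nil => simp [lsum]
  | cons x L ih =>
    simp only [List.map_cons, List.nodup_cons, List.mem_cons, not_or] at hL hi
    have hx := hd x (by simp)
    have hx0 := h0 x (by simp)
    have e : c + lsum (x :: L) = (c + x.2 * 8 ^ x.1) + lsum L := by
      simp only [lsum, List.map_cons, List.sum_cons]; ring
    rw [e, ih (c + x.2 * 8 ^ x.1) hL.2 (fun y hy => hd y (by simp [hy])) ?_ hi.2,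
      dig_add_ne hx0 hx hi.1]
    intro y hy
    rw [dig_add_ne hx0 hx, h0 y (by simp [hy])]
    rintro e
    apply hL.1
    rw [← e]
    exact List.mem_map_of_mem hy

theorem dig_lsum_mem (L : List (ℕ × ℕ)) (c : ℕ) (hL : (L.map Prod.fst).Nodup)
    (hd : ∀ x ∈ L, x.2 < 8) (h0 : ∀ x ∈ L, dig c x.1 = 0) (z : ℕ × ℕ) (hz : z ∈ L) :
    dig (c + lsum L) z.1 = z.2 := by
  induction L generalizing c with
  | nil => simp at hz
  | cons x L ih =>
    simp only [List.map_cons, List.nodup_cons] at hL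
    have hx := hd x (by simp)
    have hx0 := h0 x (by simp)
    have e : c + lsum (x :: L) = (c + x.2 * 8 ^ x.1) + lsum L := by
      simp only [lsum, List.map_cons, List.sum_cons]; ring
    have h1 : ∀ y ∈ L, dig (c + x.2 * 8 ^ x.1) y.1 = 0 := by
      intro y hy
      rw [dig_add_ne hx0 hx, h0 y (by simp [hy])]
      rintro e
      apply hL.1
      rw [← e]
      exact List.mem_map_of_mem hy
    rw [e]
    rcases List.mem_cons.mp hz with rfl | hz
    · rw [dig_lsum_not_mem L _ hL.2 (fun y hy => hd y (by simp [hy])) h1 _ hL.1,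
        dig_add_self hx0 hx]
    · exact ih (c + x.2 * 8 ^ x.1) hL.2 (fun y hy => hd y (by simp [hy])) h1 hz

theorem sum_flatMap' {α : Type*} (l : List α) (g : α → List ℕ) :
    (l.flatMap g).sum = (l.map fun x => (g x).sum).sum := by
  induction l with
  | nil => simp
  | cons x l ih => simp [List.flatMap_cons, ih]

variable {S : Spec} {V : Type*} [Fintype V] (T : Sys S V)

theorem wt_nonneg (k c : ℕ) (free : List ℕ) (t : Fin k → V) : 0 ≤ T.wt k c free t := by
  unfold Sys.wt
  exact Finset.prod_nonneg fun q _ => Finset.prod_nonneg fun p _ => by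
    split_ifs
    · exact T.nonneg _ _ _
    · norm_num

theorem sum_snoc {k : ℕ} (f : (Fin (k + 1) → V) → ℝ) :
    ∑ t : Fin (k + 1) → V, f t = ∑ t : Fin k → V, ∑ v : V, f (Fin.snoc t v) := by
  rw [← (Fin.snocEquiv (fun _ : Fin (k + 1) => V)).sum_comp, Fintype.sum_prod_type_right]
  rfl

theorem sum_append {m n : ℕ} (f : (Fin (m + n) → V) → ℝ) :
    ∑ t : Fin (m + n) → V, f t = ∑ r : Fin m → V, ∑ u : Fin n → V, f (Fin.append r u) := by
  rw [← (Fin.appendEquiv m n).sum_comp, Fintype.sum_prod_type]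
  rfl

end Aux

end MP433Sys
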