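import Pool.Agent.Work.MP_433a35_co.GB.Sys.Hyb
import Pool.Agent.Work.MP_433a35_co.GB.EdgeP
import Pool.Agent.Work.MP_433a35_co.GB.Sys.Base

/-!
# Triangle-free graphs

`tri k H`: the code `H` has three joined pairs on some triple; its weight is `0` in a system without
triangles.  `rstarTF_of_hyb`: certificates which use this give `RStar` for triangle-free graphs.
-/

namespace MP433Sys

open Finset

set_option linter.unusedSimpArgs false

/-- some triple is joined -/
def tri (k H : ℕ) : Bool :=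
  (List.range k).any fun r => (List.range r).any fun q => dig H (idx q r) != 0 &&
    (List.range q).any fun p => dig H (idx p q) != 0 && dig H (idx p r) != 0

/-- a system without triangles -/
def NoTri {S : Spec} {V : Type*} [Fintype V] (T : Sys S V) : Prop :=
  ∀ x y z, al T x y * al T y z * al T x z = 0

theorem full_tri {S : Spec} {V : Type*} [Fintype V] (T : Sys S V) (hT : NoTri T) (k H : ℕ)
    (h : tri k H = true) : T.full k H = 0 := by
  unfold tri at h
  simp only [List.any_eq_true, List.mem_range, Bool.and_eq_true, bne_iff_ne, ne_eq] at h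
  obtain ⟨r, hr, q, hq, hqr, p, hp, hpq, hpr⟩ := h
  unfold Sys.full Sys.pcount
  refine sum_eq_zero fun t _ => ?_
  have hz : ∀ (a b : Fin k), a < b → dig H (idx a b) ≠ 0 → al T (t a) (t b) = 0 →
      T.wt k H [] t = 0 := by
    intro a b hab hd ha
    rw [wt_eq_pairs]
    refine prod_eq_zero (i := (a, b)) (by simp [hab]) ?_
    exact le_antisymm (ha ▸ T.adj _ _ _ hd) (T.nonneg _ _ _)
  have h3 := hT (t ⟨p, by omega⟩) (t ⟨q, by omega⟩) (t ⟨r, hr⟩)
  rw [mul_eq_zero, mul_eq_zero] at h3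
  rcases h3 with (h3 | h3) | h3
  · exact hz _ _ hp hpq h3
  · exact hz _ _ hq hqr h3
  · exact hz _ _ (show p < r by omega) hpr h3

/-- **From the quadratic inequality for the graphs with the property `P` to `RStarP`.** -/
theorem rstarP_core (P : (V : Type) → SimpleGraph V → Prop) (a b : ℕ) (ha : 0 < a) (hb : 0 < b)
    (C : ℝ)
    (h : ∀ (V : Type) [Fintype V] [DecidableEq V] (G F : SimpleGraph V) [DecidableRel G.Adj]
      [DecidableRel F.Adj] (D : ℕ) (w : V → V → ℝ), 1 ≤ D → P V G → F ≤ G →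
      (∀ v, G.degree v ≤ D) →
      (∀ x y, 0 ≤ w x y) → (∀ x y, w x y ≤ 1) → (∀ x y, w x y = w y x) →
      (∀ x y, ¬ F.Adj x y → w x y = 0) →
      -C * (((univ : Finset ((V × V) × (V × V))).filter fun q => F.Adj q.1.1 q.1.2 ∧
        F.Adj q.2.1 q.2.2 ∧ MP433GB.nonconf G q.1.1 q.1.2 q.2.1 q.2.2).card : ℝ) ≤
      2 * ∑ x : V, ∑ y : V, w x y ^ 2 *
        (a * (D : ℝ) ^ 2 + b * (MP433GB.codeg G x y * D + (MP433GB.inn G x y : ℝ) / 2)) -
      b * (∑ x : V, ∑ y : V, w x y) ^ 2) :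
    MP433GB.RStarP P (2 + a / b) := by
  intro e1 he1
  have ha' : (0 : ℝ) < a := by exact_mod_cast ha
  have hb' : (0 : ℝ) < b := by exact_mod_cast hb
  set kp : ℝ := a / b with hkp
  have hkp0 : 0 < kp := by positivity
  set C' : ℝ := max C 1 with hC'
  have hC0 : 0 < C' := lt_of_lt_of_le one_pos (le_max_right _ _)
  refine ⟨4 * e1 * b * kp ^ 2 / C', by positivity, 1, ?_⟩
  intro V _ _ G F _ _ D hD1 hPG hFG hdeg hbad
  have hD0 : (0 : ℝ) < D := by exact_mod_cast hD1
  have hdeg' : ∀ v, (G.degree v : ℝ) ≤ D := fun v => by exact_mod_cast hdeg v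
  -- the weights
  set X : V → V → ℝ := fun x y =>
    (2 + kp - 2) * (D : ℝ) ^ 2 + MP433GB.codeg G x y * D + (MP433GB.inn G x y : ℝ) / 2 with hX
  have hXlow : ∀ x y, kp * (D : ℝ) ^ 2 ≤ X x y := by
    intro x y
    have h1 : (0 : ℝ) ≤ MP433GB.codeg G x y * D := by positivity
    have h2 : (0 : ℝ) ≤ (MP433GB.inn G x y : ℝ) / 2 := by positivity
    show kp * (D : ℝ) ^ 2 ≤ (2 + kp - 2) * (D : ℝ) ^ 2 + MP433GB.codeg G x y * D +
      (MP433GB.inn G x y : ℝ) / 2
    nlinarith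
  have hc0 : 0 < kp * (D : ℝ) ^ 2 := by positivity
  have hXpos : ∀ x y, 0 < X x y := fun x y => lt_of_lt_of_le hc0 (hXlow x y)
  have hXs : ∀ x y, X x y = X y x := by
    intro x y
    have e1 : MP433GB.codeg G x y = MP433GB.codeg G y x := by
      unfold MP433GB.codeg
      rw [inter_comm]
    have e2 : MP433GB.inn G x y = MP433GB.inn G y x := by
      unfold MP433GB.inn
      rw [union_comm]
    show (2 + kp - 2) * (D : ℝ) ^ 2 + MP433GB.codeg G x y * D + (MP433GB.inn G x y : ℝ) / 2 =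
      (2 + kp - 2) * (D : ℝ) ^ 2 + MP433GB.codeg G y x * D + (MP433GB.inn G y x : ℝ) / 2
    rw [e1, e2]
  set w : V → V → ℝ := fun x y => if F.Adj x y then kp * (D : ℝ) ^ 2 / X x y else 0 with hw
  have hw0 : ∀ x y, 0 ≤ w x y := by
    intro x y
    show 0 ≤ (if F.Adj x y then kp * (D : ℝ) ^ 2 / X x y else 0)
    split_ifs
    · exact div_nonneg hc0.le (hXpos x y).le
    · exact le_rfl
  have hw1 : ∀ x y, w x y ≤ 1 := by
    intro x y
    show (if F.Adj x y then kp * (D : ℝ) ^ 2 / X x y else 0) ≤ 1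
    split_ifs
    · exact (div_le_one (hXpos x y)).2 (hXlow x y)
    · norm_num
  have hws : ∀ x y, w x y = w y x := by
    intro x y
    show (if F.Adj x y then kp * (D : ℝ) ^ 2 / X x y else 0) =
      (if F.Adj y x then kp * (D : ℝ) ^ 2 / X y x else 0)
    rw [hXs x y]
    simp only [F.adj_comm]
  have hwF : ∀ x y, ¬ F.Adj x y → w x y = 0 := by
    intro x y hn
    show (if F.Adj x y then kp * (D : ℝ) ^ 2 / X x y else 0) = 0
    rw [if_neg hn]
  have main := h V G F D w hD1 hPG hFG hdeg hw0 hw1 hws hwF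
  set B : ℝ := (((univ : Finset ((V × V) × (V × V))).filter fun q => F.Adj q.1.1 q.1.2 ∧
        F.Adj q.2.1 q.2.2 ∧ MP433GB.nonconf G q.1.1 q.1.2 q.2.1 q.2.2).card : ℝ) with hB
  change -C * B ≤ _ at main
  have hB0 : 0 ≤ B := by rw [hB]; positivity
  -- the harmonic sum
  set H : ℝ := ∑ q ∈ (univ : Finset (V × V)).filter (fun q => F.Adj q.1 q.2),
      1 / ((2 + kp - 2) * (D : ℝ) ^ 2 + MP433GB.codeg G q.1 q.2 * D +
        (MP433GB.inn G q.1 q.2 : ℝ) / 2) with hH
  have hHs : H = ∑ x : V, ∑ y : V, if F.Adj x y then 1 / X x y else 0 := by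
    rw [hH, sum_filter, Fintype.sum_prod_type]
  have hS1 : ∑ x : V, ∑ y : V, w x y = kp * (D : ℝ) ^ 2 * H := by
    rw [hHs, mul_sum]
    refine sum_congr rfl fun x _ => ?_
    rw [mul_sum]
    refine sum_congr rfl fun y _ => ?_
    show (if F.Adj x y then kp * (D : ℝ) ^ 2 / X x y else 0) = _
    split_ifs
    · ring
    · ring
  have hS2 : ∑ x : V, ∑ y : V, w x y ^ 2 *
      (a * (D : ℝ) ^ 2 + b * (MP433GB.codeg G x y * D + (MP433GB.inn G x y : ℝ) / 2)) =
      b * ((kp * (D : ℝ) ^ 2) ^ 2 * H) := by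
    rw [hHs, mul_sum, mul_sum]
    refine sum_congr rfl fun x _ => ?_
    rw [mul_sum, mul_sum]
    refine sum_congr rfl fun y _ => ?_
    have e1 : (a : ℝ) * (D : ℝ) ^ 2 +
        b * (MP433GB.codeg G x y * D + (MP433GB.inn G x y : ℝ) / 2) = b * X x y := by
      show _ = (b : ℝ) * ((2 + kp - 2) * (D : ℝ) ^ 2 + MP433GB.codeg G x y * D +
        (MP433GB.inn G x y : ℝ) / 2)
      have : (a : ℝ) = b * kp := by rw [hkp]; field_simp
      rw [this]
      ring
    rw [e1]
    show (if F.Adj x y then kp * (D : ℝ) ^ 2 / X x y else 0) ^ 2 * (b * X x y) = _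
    split_ifs
    · have := (hXpos x y).ne'
      field_simp
    · ring
  rw [hS1, hS2] at main
  have main2 : -C * B ≤ 2 * (b * ((kp * (D : ℝ) ^ 2) ^ 2 * H)) -
      b * (kp * (D : ℝ) ^ 2 * H) ^ 2 := main
  have hCB : C * B ≤ C' * (4 * e1 * b * kp ^ 2 / C' * (D : ℝ) ^ 4) :=
    le_trans (mul_le_mul_of_nonneg_right (le_max_left _ _) hB0)
      (mul_le_mul_of_nonneg_left hbad hC0.le)
  have hCB2 : C' * (4 * e1 * b * kp ^ 2 / C' * (D : ℝ) ^ 4) =
      (b * (kp * (D : ℝ) ^ 2) ^ 2) * (4 * e1) := by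
    field_simp
  have hbc : 0 < (b : ℝ) * (kp * (D : ℝ) ^ 2) ^ 2 := by positivity
  have main3 : H * (H - 2) ≤ 4 * e1 := by
    have : (b * (kp * (D : ℝ) ^ 2) ^ 2) * (H * (H - 2)) ≤
        (b * (kp * (D : ℝ) ^ 2) ^ 2) * (4 * e1) := by
      have e : (b * (kp * (D : ℝ) ^ 2) ^ 2) * (H * (H - 2)) =
          b * (kp * (D : ℝ) ^ 2 * H) ^ 2 - 2 * (b * ((kp * (D : ℝ) ^ 2) ^ 2 * H)) := by ring
      rw [e]
      linarith
    exact le_of_mul_le_mul_left this hbc
  by_contra hcon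
  push Not at hcon
  nlinarith



/-- triangle-free graphs -/
def TFree (V : Type) (G : SimpleGraph V) : Prop := ∀ x y z, G.Adj x y → G.Adj y z → ¬ G.Adj x z

/-- **From the inequality for hybrid systems without triangles to triangle-free graphs.** -/
theorem rstarTF_of_hyb (a b : ℕ) (ha : 0 < a) (hb : 0 < b) (K : ℕ) (hK : 4 ≤ K) (C : ℝ)
    (h : ∀ (V : Type) [Fintype V] (T : Sys hS V), 0 ≤ T.D → NoTri T →
      -C * T.bad * T.D ^ (K - 4) ≤ lvl T K (tgtG hS 3 4 a b)) :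
    MP433GB.RStarP TFree (2 + a / b) := by
  refine rstarP_core TFree a b ha hb C ?_
  intro V _ _ G F _ _ D w hD1 hTF hFG hdeg hw0 hw1 hws hwF
  have hD0 : (0 : ℝ) < D := by exact_mod_cast hD1
  have hdeg' : ∀ v, (G.degree v : ℝ) ≤ D := fun v => by exact_mod_cast hdeg v
  have hal : ∀ x y, al (hSys G F hFG w hw0 hw1 hws hwF D hdeg') x y =
      if G.Adj x y then 1 else 0 := by
    intro x y
    simp only [al, hS, List.map_cons, List.map_nil, List.sum_cons, List.sum_nil, add_zero]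
    exact hrho_12 (w := w) hFG x y
  have hno : NoTri (hSys G F hFG w hw0 hw1 hws hwF D hdeg') := by
    intro x y z
    rw [hal, hal, hal]
    by_cases h1 : G.Adj x y
    · by_cases h2 : G.Adj y z
      · simp [h1, h2, hTF x y z h1 h2]
      · simp [h2]
    · simp [h1]
  have main := h V (hSys G F hFG w hw0 hw1 hws hwF D hdeg') hD0.le hno
  rw [lvl_hSys hFG w hw0 hw1 hws hwF D hdeg' K hK a b] at main
  have hb : (hSys G F hFG w hw0 hw1 hws hwF D hdeg').bad = _ := bad_hrho hFG w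
  rw [hb] at main
  change -C * _ * (D : ℝ) ^ (K - 4) ≤ _ at main
  have hDK : (0 : ℝ) < (D : ℝ) ^ (K - 4) := by positivity
  refine le_of_mul_le_mul_left ?_ hDK
  rw [mul_comm]
  exact main

/-- the strong chromatic index of triangle-free graphs -/
theorem tf_main (kap : ℝ) (hkap : 2 < kap) (hR : MP433GB.RStarP TFree kap) (ε : ℝ) (hε : 0 < ε) :
    ∃ K : ℕ, ∀ (V : Type) [Fintype V] (G : SimpleGraph V) (D : ℕ), K ≤ D → G.CliqueFree 3 →
      (∀ v, (G.neighborSet v).ncard ≤ D) →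
      ∃ col : Sym2 V → ℕ,
        (∀ a b, G.Adj a b → (col s(a, b) : ℝ) < (kap / 2 + ε) * (D : ℝ) ^ 2) ∧
        ∀ a b c e, G.Adj a b → G.Adj c e → s(a, b) ≠ s(c, e) → (b = c ∨ G.Adj b c) →
          col s(a, b) ≠ col s(c, e) := by
  obtain ⟨K, hK⟩ := MP433GB.edge_mainP TFree kap hkap hR ε hε
  refine ⟨K, fun V _ G D hKD hG hdeg => hK V G D hKD ?_ hdeg⟩
  intro x y z h1 h2 h3
  classical
  refine hG {x, y, z} ?_
  rw [SimpleGraph.is3Clique_triple_iff]
  exact ⟨h1, h3, h2⟩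

end MP433Sys
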