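import Pool.Agent.Work.MP_433a35_co.GB.Sys.Ker
import Pool.Agent.Work.MP_433a35_co.GB.Sys.TF
import Pool.Agent.Work.MP_433a35_co.GB.Sys.Asm

/-!
# The hypotheses of the kernel checker for hybrid systems

`hyp_full`, `hyp_tf`: the structure `Hyp T C` for hybrid systems (without triangles).  `Coarse T`:
digit 5 (joined, no colour) is complementary to digit 0; `rstar_of_hybC`, `rstarTF_of_hybC` are the
reductions to the inequality for such systems.  `strong_of_cert`, `strongTF_of_cert`: the final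
theorems from the chunk inequalities.
-/

namespace MP433Sys

open Finset

/-- digit 5 is the complement of digit 0 -/
def Coarse {S : Spec} {V : Type*} [Fintype V] (T : Sys S V) : Prop :=
  ∀ x y, T.rho 0 x y + T.rho 5 x y = 1

theorem bad_nonneg {S : Spec} {V : Type*} [Fintype V] (T : Sys S V) (d : ℕ) (hd : d ∈ S.fg) :
    0 ≤ T.bad := by
  unfold Sys.bad
  have hf : ∀ x y, 0 ≤ T.fi x y := fun x y => (T.nonneg d x y).trans (T.fig d hd x y)
  refine sum_nonneg fun x _ => sum_nonneg fun y _ => sum_nonneg fun z _ => sum_nonneg fun u _ => ?_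
  have h0 := fun x y => T.nonneg 0 x y
  exact mul_nonneg (mul_nonneg (hf _ _) (hf _ _))
    (mul_nonneg (mul_nonneg (mul_nonneg (h0 _ _) (h0 _ _)) (h0 _ _)) (h0 _ _))

theorem bt_nonneg {S : Spec} {V : Type*} [Fintype V] (T : Sys S V) (d : ℕ) (hd : d ∈ S.fg)
    (hD : 0 ≤ T.D) (k : ℕ) : 0 ≤ bt T k := by
  unfold bt
  split_ifs
  · exact le_rfl
  · exact mul_nonneg (bad_nonneg T d hd) (pow_nonneg hD _)

variable {V : Type*} [Fintype V] (T : Sys hS V) (C : Cfg)

theorem bt_hS (hD : 0 ≤ T.D) (k : ℕ) : 0 ≤ bt T k :=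
  bt_nonneg T 2 (by simp [hS]) hD k

theorem alt_fd (ha : C.alt = hS.fd) (x y : V) : (C.alt.map fun d => T.rho d x y).sum = 1 := by
  rw [ha]
  exact T.free x y

theorem alt_coarse (ha : C.alt = [0, 5]) (h5 : Coarse T) (x y : V) :
    (C.alt.map fun d => T.rho d x y).sum = 1 := by
  rw [ha]
  simp only [List.map_cons, List.map_nil, List.sum_cons, List.sum_nil, add_zero]
  exact h5 x y

theorem tri_of_digits (k r : ℕ) (hk : 3 ≤ k) (h0 : dig r 0 ≠ 0) (h1 : dig r 1 ≠ 0)
    (h2 : dig r 2 ≠ 0) : tri k r = true := by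
  unfold tri
  simp only [List.any_eq_true, List.mem_range, Bool.and_eq_true, bne_iff_ne, ne_eq]
  refine ⟨2, by omega, 1, by omega, ?_, 0, by omega, ?_, ?_⟩
  · exact h2
  · exact h0
  · exact h1

theorem tri_zero (hT : NoTri T) (k : ℕ) (hk : 3 ≤ k) (r : ℕ) (h0 : dig r 0 ≠ 0)
    (h1 : dig r 1 ≠ 0) (h2 : dig r 2 ≠ 0) : T.full k r = 0 :=
  full_tri T hT k r (tri_of_digits k r hk h0 h1 h2)

/-- the hypotheses, all graphs, fine digits in the alternative list -/
theorem hyp_full (hD : 0 ≤ T.D) (ha : C.alt = hS.fd) (ht : C.tf = false) : Hyp T C where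
  bt := bt_hS T hD _
  alt := alt_fd T C ha
  tri := by
    intro h
    rw [ht] at h
    exact absurd h Bool.false_ne_true

/-- the hypotheses, triangle-free graphs, fine digits in the alternative list -/
theorem hyp_tf (hD : 0 ≤ T.D) (ha : C.alt = hS.fd) (hT : NoTri T) (hk : 3 ≤ C.k) : Hyp T C where
  bt := bt_hS T hD _
  alt := alt_fd T C ha
  tri := fun _ r h0 h1 h2 => tri_zero T hT C.k hk r h0 h1 h2

/-- the hypotheses, all graphs, coarse digits in the alternative list -/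
theorem hyp_fullC (hD : 0 ≤ T.D) (ha : C.alt = [0, 5]) (h5 : Coarse T) (ht : C.tf = false) :
    Hyp T C where
  bt := bt_hS T hD _
  alt := alt_coarse T C ha h5
  tri := by
    intro h
    rw [ht] at h
    exact absurd h Bool.false_ne_true

/-- the hypotheses, triangle-free graphs, coarse digits in the alternative list -/
theorem hyp_tfC (hD : 0 ≤ T.D) (ha : C.alt = [0, 5]) (h5 : Coarse T) (hT : NoTri T)
    (hk : 3 ≤ C.k) : Hyp T C where
  bt := bt_hS T hD _
  alt := alt_coarse T C ha h5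
  tri := fun _ r h0 h1 h2 => tri_zero T hT C.k hk r h0 h1 h2

/-- the hybrid system of a graph is coarse -/
theorem coarse_hSys {V : Type*} [Fintype V] [DecidableEq V] {G F : SimpleGraph V}
    [DecidableRel G.Adj] [DecidableRel F.Adj] (hFG : F ≤ G) (w : V → V → ℝ)
    (hw0 : ∀ x y, 0 ≤ w x y) (hw1 : ∀ x y, w x y ≤ 1) (hws : ∀ x y, w x y = w y x)
    (hwF : ∀ x y, ¬ F.Adj x y → w x y = 0) (D : ℝ) (hD : ∀ v, (G.degree v : ℝ) ≤ D) :
    Coarse (hSys G F hFG w hw0 hw1 hws hwF D hD) := by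
  intro x y
  show (if G.Adj x y then (0 : ℝ) else 1) + (if G.Adj x y then (1 : ℝ) else 0) = 1
  split_ifs <;> norm_num

/-- **From the inequality for coarse hybrid systems to `RStar`.** -/
theorem rstar_of_hybC (a b : ℕ) (ha : 0 < a) (hb : 0 < b) (K : ℕ) (hK : 4 ≤ K) (C : ℝ)
    (h : ∀ (V : Type) [Fintype V] (T : Sys hS V), 0 ≤ T.D → Coarse T →
      -C * T.bad * T.D ^ (K - 4) ≤ lvl T K (tgtG hS 3 4 a b)) :
    MP433GB.RStar (2 + a / b) := by
  refine rstar_core a b ha hb C ?_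
  intro V _ _ G F _ _ D w hD1 hFG hdeg hw0 hw1 hws hwF
  have hD0 : (0 : ℝ) < D := by exact_mod_cast hD1
  have hdeg' : ∀ v, (G.degree v : ℝ) ≤ D := fun v => by exact_mod_cast hdeg v
  have main := h V (hSys G F hFG w hw0 hw1 hws hwF D hdeg') hD0.le
    (coarse_hSys hFG w hw0 hw1 hws hwF D hdeg')
  rw [lvl_hSys hFG w hw0 hw1 hws hwF D hdeg' K hK a b] at main
  have hb : (hSys G F hFG w hw0 hw1 hws hwF D hdeg').bad = _ := bad_hrho hFG w
  rw [hb] at main
  change -C * _ * (D : ℝ) ^ (K - 4) ≤ _ at main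
  have hDK : (0 : ℝ) < (D : ℝ) ^ (K - 4) := by positivity
  refine le_of_mul_le_mul_left ?_ hDK
  rw [mul_comm]
  exact main

/-- **From the inequality for coarse hybrid systems without triangles to triangle-free graphs.** -/
theorem rstarTF_of_hybC (a b : ℕ) (ha : 0 < a) (hb : 0 < b) (K : ℕ) (hK : 4 ≤ K) (C : ℝ)
    (h : ∀ (V : Type) [Fintype V] (T : Sys hS V), 0 ≤ T.D → NoTri T → Coarse T →
      -C * T.bad * T.D ^ (K - 4) ≤ lvl T K (tgtG hS 3 4 a b)) :
    MP433GB.RStarP TFree (2 + a / b) := by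
  refine rstarP_core TFree a b ha hb C ?_
  intro V _ _ G F _ _ D w hD1 hTF hFG hdeg hw0 hw1 hws hwF
  have hD0 : (0 : ℝ) < D := by exact_mod_cast hD1
  have hdeg' : ∀ v, (G.degree v : ℝ) ≤ D := fun v => by exact_mod_cast hdeg v
  have hal : ∀ x y, al (hSys G F hFG w hw0 hw1 hws hwF D hdeg') x y =
      if G.Adj x y then 1 else 0 := by
    intro x y
    simp only [al, hS, List.map_cons, List.map_nil, List.sum_cons, List.sum_nil, add_zero]
    exact hrho_12 (w := w) hFG x y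
  have hno : NoTri (hSys G F hFG w hw0 hw1 hws hwF D hdeg') := by
    intro x y z
    rw [hal, hal, hal]
    by_cases h1 : G.Adj x y
    · by_cases h2 : G.Adj y z
      · simp [h1, h2, hTF x y z h1 h2]
      · simp [h2]
    · simp [h1]
  have main := h V (hSys G F hFG w hw0 hw1 hws hwF D hdeg') hD0.le hno
    (coarse_hSys hFG w hw0 hw1 hws hwF D hdeg')
  rw [lvl_hSys hFG w hw0 hw1 hws hwF D hdeg' K hK a b] at main
  have hb : (hSys G F hFG w hw0 hw1 hws hwF D hdeg').bad = _ := bad_hrho hFG w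
  rw [hb] at main
  change -C * _ * (D : ℝ) ^ (K - 4) ≤ _ at main
  have hDK : (0 : ℝ) < (D : ℝ) ^ (K - 4) := by positivity
  refine le_of_mul_le_mul_left ?_ hDK
  rw [mul_comm]
  exact main

/-- the strong chromatic index of all graphs, from the inequality for hybrid systems -/
theorem strong_of_hyb (a b : ℕ) (ha : 0 < a) (hb : 0 < b) (K : ℕ) (hK : 4 ≤ K) (C : ℝ)
    (h : ∀ (V : Type) [Fintype V] (T : Sys hS V), 0 ≤ T.D → Coarse T →
      -C * T.bad * T.D ^ (K - 4) ≤ lvl T K (tgtG hS 3 4 a b))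
    (ε : ℝ) (hε : 0 < ε) :
    ∃ K : ℕ, ∀ (V : Type) [Fintype V] (G : SimpleGraph V) (D : ℕ), K ≤ D →
      (∀ v, (G.neighborSet v).ncard ≤ D) →
      ∃ col : Sym2 V → ℕ,
        (∀ x y, G.Adj x y → (col s(x, y) : ℝ) < ((2 + (a : ℝ) / b) / 2 + ε) * (D : ℝ) ^ 2) ∧
        ∀ x y c e, G.Adj x y → G.Adj c e → s(x, y) ≠ s(c, e) → (y = c ∨ G.Adj y c) →
          col s(x, y) ≠ col s(c, e) := by
  have ha' : (0 : ℝ) < a := by exact_mod_cast ha
  have hb' : (0 : ℝ) < b := by exact_mod_cast hb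
  have hp : (0 : ℝ) < (a : ℝ) / b := by positivity
  exact MP433GB.edge_main (2 + (a : ℝ) / b) (by linarith) (rstar_of_hybC a b ha hb K hK C h) ε hε

/-- the strong chromatic index of triangle-free graphs, from the inequality for hybrid systems
without triangles -/
theorem strongTF_of_hyb (a b : ℕ) (ha : 0 < a) (hb : 0 < b) (K : ℕ) (hK : 4 ≤ K) (C : ℝ)
    (h : ∀ (V : Type) [Fintype V] (T : Sys hS V), 0 ≤ T.D → NoTri T → Coarse T →
      -C * T.bad * T.D ^ (K - 4) ≤ lvl T K (tgtG hS 3 4 a b))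
    (ε : ℝ) (hε : 0 < ε) :
    ∃ K : ℕ, ∀ (V : Type) [Fintype V] (G : SimpleGraph V) (D : ℕ), K ≤ D → G.CliqueFree 3 →
      (∀ v, (G.neighborSet v).ncard ≤ D) →
      ∃ col : Sym2 V → ℕ,
        (∀ x y, G.Adj x y → (col s(x, y) : ℝ) < ((2 + (a : ℝ) / b) / 2 + ε) * (D : ℝ) ^ 2) ∧
        ∀ x y c e, G.Adj x y → G.Adj c e → s(x, y) ≠ s(c, e) → (y = c ∨ G.Adj y c) →
          col s(x, y) ≠ col s(c, e) := by
  have ha' : (0 : ℝ) < a := by exact_mod_cast ha
  have hb' : (0 : ℝ) < b := by exact_mod_cast hb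
  have hp : (0 : ℝ) < (a : ℝ) / b := by positivity
  exact tf_main (2 + (a : ℝ) / b) (by linarith) (rstarTF_of_hybC a b ha hb K hK C h) ε hε

end MP433Sys
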