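import Pool.Agent.Work.MP_433a35_co.GB.Sys.KerD

/-!
# The kernel checker: chunks, merging, the final inequality (helper36)

`total`: chunks `ch` (a list `ch.L` of sources, results `ch.R`, total weight `ch.E`) with
`chunkOK S C ch.L cs ch.R ch.E = true`, and for every range `i` of classes
`mergeOK C (col i chs) = true`, give `-(E) * T.bad * T.D ^ (k - 4) ≤ srcVal T k L`,
`L` = all sources.
-/

set_option linter.unusedVariables false

namespace MP433Sys

open Finset

variable {S : Spec} {V : Type*} [Fintype V] (T : Sys S V)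

theorem srcVal_cons' (k : ℕ) (x : Src) (L : List Src) :
    srcVal T k (x :: L) = (x.w : ℝ) * T.pcount k x.c x.free + srcVal T k L := by
  unfold srcVal
  rw [List.map_cons, List.sum_cons]

/-- all sources of a chunk -/
theorem srcs_spec {C : Cfg} (hC : C.Ok S) (hT : Hyp T C) (L : List Src) :
    ∀ (cs : List (ℕ × ℕ)) (P N : Tree C.e) (M : ℕ) (K : Tree C.e → Tree C.e → ℕ → Bool)
      (a b : ℕ → ℕ → ℕ), Rep C.xb C.e P a → Rep C.xb C.e N b →
    srcs S C L cs P N M K = true →
    ∃ P' N' M' a' b', K P' N' M' = true ∧ Rep C.xb C.e P' a' ∧ Rep C.xb C.e N' b' ∧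
      (tval C.e (fval T C) a' - tval C.e (fval T C) b') - M' * bt T C.k ≤
        (tval C.e (fval T C) a - tval C.e (fval T C) b) - M * bt T C.k + srcVal T C.k L ∧
      mass C.e a' + mass C.e b' + M ≤ mass C.e a + mass C.e b + M' := by
  induction L with
  | nil =>
    intro cs P N M K a b ha hb h
    have h' : @List.rec (ℕ × ℕ) (fun _ => Bool) (K P N M) (fun _ _ _ => false) cs = true := h
    cases cs with
    | nil =>
      refine ⟨P, N, M, a, b, h', ha, hb, ?_, le_refl _⟩
      simp [srcVal]
    | cons y cs => exact absurd h' (by simp)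
  | cons x L ih =>
    intro cs P N M K a b ha hb h
    cases cs with
    | nil =>
      have h' : false = true := h
      exact absurd h' (by simp)
    | cons y cs =>
      have h' : (force x.c fun c =>
        band (band (Nat.beq (Nat.shiftRight c (Nat.mul 3 C.n)) 0) (frOK C x.free c))
          (force (Nat.land (Nat.mul c C.RS) C.MS) fun sp =>
            @Int.rec (fun _ => Bool)
              (fun w => expand S C w x.free sp y.1 y.2 P (fun st P' =>
                force (Nat.add M (Nat.mul w (cpl C x.free y.1))) fun M' =>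
                band (Nat.beq st 0) (srcs S C L cs P' N M' K)))
              (fun w => expand S C (Nat.succ w) x.free sp y.1 y.2 N (fun st N' =>
                force (Nat.add M (Nat.mul (Nat.succ w) (cpl C x.free y.1))) fun M' =>
                band (Nat.beq st 0) (srcs S C L cs P N' M' K)))
              x.w)) = true := h
      rw [force_eq, band_iff, band_iff, force_eq] at h'
      obtain ⟨⟨h1, h2⟩, h3⟩ := h'
      obtain ⟨hnd, hfr⟩ := frOK_spec C x.free x.c h2
      have hc8 : x.c < 8 ^ C.n := by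
        have h4 := Nat.eq_of_beq_eq_true h1
        have hm : Nat.mul 3 C.n = 3 * C.n := rfl
        have e8 : (2 : ℕ) ^ (3 * C.n) = 8 ^ C.n := by rw [pow_mul]; norm_num
        rw [shr_eq, hm, e8] at h4
        by_contra hge
        have := Nat.div_pos (not_lt.1 hge) (by positivity : 0 < 8 ^ C.n)
        omega
      have hsp : Nat.land (Nat.mul x.c C.RS) C.MS = spread (2 ^ C.b) C.n x.c := by
        rw [hC.hRS, hC.hMS, geo_eq, geo_eq, hC.hb]
        have e1 : ∑ i ∈ range C.n, 1 * (2 ^ (3 * C.n)) ^ i = ∑ i ∈ range C.n, (2 ^ (3 * C.n)) ^ i :=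
          Finset.sum_congr rfl fun i _ => one_mul _
        rw [e1]
        exact spread_eq C.n x.c hc8
      rw [hsp] at h3
      rw [srcVal_cons']
      have hbt := hT.bt
      rcases hw : x.w with w | w
      · rw [hw] at h3
        have h4 : expand S C w x.free (spread (2 ^ C.b) C.n x.c) y.1 y.2 P (fun st P' =>
                force (Nat.add M (Nat.mul w (cpl C x.free y.1))) fun M' =>
                band (Nat.beq st 0) (srcs S C L cs P' N M' K)) = true := h3
        obtain ⟨st', P1, a1, k1, k2, k3, k4, k5⟩ := expand_spec T hC hT w x.free x.c y.1 y.2 P _ a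
          hnd hfr ha h4
        rw [force_eq, band_iff] at k1
        obtain ⟨P', N', M', a', b', l1, l2, l3, l4, l5⟩ := ih cs P1 N _ K a1 b k2 hb k1.2
        refine ⟨P', N', M', a', b', l1, l2, l3, ?_, ?_⟩
        · have hM : ((Nat.add M (Nat.mul w (cpl C x.free y.1)) : ℕ) : ℝ) =
              M + (w * cpl C x.free y.1 : ℕ) := by
            change ((M + w * cpl C x.free y.1 : ℕ) : ℝ) = _
            push_cast; ring
          rw [hM] at l4
          have h0 : (0 : ℝ) ≤ ((w * cpl C x.free y.1 : ℕ) : ℝ) * bt T C.k :=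
            mul_nonneg (Nat.cast_nonneg _) hbt
          have e1 : ((Int.ofNat w : ℤ) : ℝ) = (w : ℝ) := by simp
          rw [e1]
          linarith
        · have hM : Nat.add M (Nat.mul w (cpl C x.free y.1)) = M + w * cpl C x.free y.1 := rfl
          rw [hM] at l5
          omega
      · rw [hw] at h3
        have h4 : expand S C (Nat.succ w) x.free (spread (2 ^ C.b) C.n x.c) y.1 y.2 N (fun st N' =>
                force (Nat.add M (Nat.mul (Nat.succ w) (cpl C x.free y.1))) fun M' =>
                band (Nat.beq st 0) (srcs S C L cs P N' M' K)) = true := h3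
        obtain ⟨st', N1, b1, k1, k2, k3, k4, k5⟩ := expand_spec T hC hT (Nat.succ w) x.free x.c y.1
          y.2 N _ b hnd hfr hb h4
        rw [force_eq, band_iff] at k1
        obtain ⟨P', N', M', a', b', l1, l2, l3, l4, l5⟩ := ih cs P N1 _ K a b1 ha k2 k1.2
        refine ⟨P', N', M', a', b', l1, l2, l3, ?_, ?_⟩
        · have hM : ((Nat.add M (Nat.mul (Nat.succ w) (cpl C x.free y.1)) : ℕ) : ℝ) =
              M + (Nat.succ w * cpl C x.free y.1 : ℕ) := by
            change ((M + Nat.succ w * cpl C x.free y.1 : ℕ) : ℝ) = _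
            push_cast; ring
          rw [hM] at l4
          have e1 : ((Int.negSucc w : ℤ) : ℝ) = -((Nat.succ w : ℕ) : ℝ) := by
            rw [Int.cast_negSucc]
          rw [e1]
          linarith
        · have hM : Nat.add M (Nat.mul (Nat.succ w) (cpl C x.free y.1)) =
            M + Nat.succ w * cpl C x.free y.1 := rfl
          rw [hM] at l5
          omega

/-- value of packed entries -/
noncomputable def rval {S : Spec} {V : Type*} [Fintype V] (T : Sys S V) (C : Cfg) : ℕ → ℕ → ℝ
  | 0, _ => 0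
  | f + 1, r => if r = 0 then 0 else
      ((r / 2 ^ 20 % 2 ^ C.xb : ℕ) : ℝ) * fval T C (r % 2 ^ C.e) (Nat.land (r / 2 ^ 14) 63) +
        rval T C f (r / 2 ^ (20 + C.xb))

theorem ents_spec {C : Cfg} (hC : C.Ok S) (fuel : ℕ) :
    ∀ (r : ℕ) (acc : Tree C.e) (M : ℕ) (K : Tree C.e → ℕ → Bool) (a : ℕ → ℕ → ℕ),
    Rep C.xb C.e acc a → ents C fuel r acc M K = true →
    ∃ acc' M' a', K acc' M' = true ∧ Rep C.xb C.e acc' a' ∧
      tval C.e (fval T C) a' = tval C.e (fval T C) a + rval T C fuel r ∧
      mass C.e a' + M = mass C.e a + M' := by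
  induction fuel with
  | zero =>
    intro r acc M K a ha h
    have h' : band (Nat.beq r 0) (K acc M) = true := h
    rw [band_iff] at h'
    exact ⟨acc, M, a, h'.2, ha, by rw [rval, add_zero], rfl⟩
  | succ fuel ih =>
    intro r acc M K a ha h
    have h' : @Bool.rec (fun _ => Bool)
      (force (Nat.land (Nat.shiftRight r 20) C.MX) fun v =>
        Tree.upd C.e acc (Nat.land r C.qm)
          (Nat.shiftLeft v (Nat.mul C.xb (Nat.land (Nat.shiftRight r 14) 63)))
          (fun acc' => force (Nat.shiftRight r (Nat.add 20 C.xb)) fun r' =>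
            force (Nat.add M v) fun M' => ents C fuel r' acc' M' K))
      (K acc M) (Nat.beq r 0) = true := h
    by_cases hr : r = 0
    · have hb : Nat.beq r 0 = true := by rw [hr]; rfl
      rw [hb] at h'
      exact ⟨acc, M, a, h', ha, by rw [rval, if_pos hr, add_zero], rfl⟩
    · have hb : Nat.beq r 0 = false := by
        cases hh : Nat.beq r 0
        · rfl
        · exact absurd (Nat.eq_of_beq_eq_true hh) hr
      rw [hb] at h'
      have h2 : (force (Nat.land (Nat.shiftRight r 20) C.MX) fun v =>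
        Tree.upd C.e acc (Nat.land r C.qm)
          (Nat.shiftLeft v (Nat.mul C.xb (Nat.land (Nat.shiftRight r 14) 63)))
          (fun acc' => force (Nat.shiftRight r (Nat.add 20 C.xb)) fun r' =>
            force (Nat.add M v) fun M' => ents C fuel r' acc' M' K)) = true := h'
      have hp : Nat.land (Nat.shiftRight r 14) 63 < 64 := land63 _
      have hq : Nat.land r C.qm < 2 ^ C.e := by
        rw [hC.hqm, land_eq]; exact Nat.mod_lt _ (by positivity)
      rw [force_eq, Tree.upd_eq, force_eq, force_eq, shl_eq] at h2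
      have e1 : Nat.land (Nat.shiftRight r 20) C.MX = r / 2 ^ 20 % 2 ^ C.xb := by
        rw [hC.hMX, land_eq, shr_eq]
      have e2 : Nat.land r C.qm = r % 2 ^ C.e := by rw [hC.hqm, land_eq]
      have e3 : Nat.shiftRight r 14 = r / 2 ^ 14 := shr_eq _ _
      have e4 : Nat.shiftRight r (Nat.add 20 C.xb) = r / 2 ^ (20 + C.xb) := shr_eq _ _
      rw [e3] at hp
      rw [e2] at hq
      rw [e1, e2, e3, e4] at h2
      have e5 : ∀ p, Nat.mul C.xb p = C.xb * p := fun _ => rfl
      rw [e5] at h2
      have hrep := rep_add C.xb C.e acc a (r % 2 ^ C.e) (Nat.land (r / 2 ^ 14) 63)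
        (r / 2 ^ 20 % 2 ^ C.xb) hq hp ha
      obtain ⟨acc', M', a', k1, k2, k3, k4⟩ := ih _ _ _ K _ hrep h2
      refine ⟨acc', M', a', k1, k2, ?_, ?_⟩
      · rw [k3, tval_bump _ _ _ _ _ _ hq hp, rval, if_neg hr]
        ring
      · rw [mass_bump _ _ _ _ _ hq hp] at k4
        have e6 : Nat.add M (r / 2 ^ 20 % 2 ^ C.xb) = M + r / 2 ^ 20 % 2 ^ C.xb := rfl
        rw [e6] at k4
        omega

/-- value of a list of packed entries -/
noncomputable def rvals {S : Spec} {V : Type*} [Fintype V] (T : Sys S V) (C : Cfg)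
    (RL : List ℕ) : ℝ := (RL.map fun r => rval T C 64 r).sum

theorem resl_spec {C : Cfg} (hC : C.Ok S) (RL : List ℕ) :
    ∀ (acc : Tree C.e) (M : ℕ) (K : Tree C.e → ℕ → Bool) (a : ℕ → ℕ → ℕ),
    Rep C.xb C.e acc a → resl C RL acc M K = true →
    ∃ acc' M' a', K acc' M' = true ∧ Rep C.xb C.e acc' a' ∧
      tval C.e (fval T C) a' = tval C.e (fval T C) a + rvals T C RL ∧
      mass C.e a' + M = mass C.e a + M' := by
  induction RL with
  | nil =>
    intro acc M K a ha h
    exact ⟨acc, M, a, h, ha, by simp [rvals], rfl⟩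
  | cons r RL ih =>
    intro acc M K a ha h
    have h' : ents C 64 r acc M (fun acc' M' => resl C RL acc' M' K) = true := h
    obtain ⟨acc1, M1, a1, k1, k2, k3, k4⟩ := ents_spec T hC 64 r acc M _ a ha h'
    obtain ⟨acc', M', a', l1, l2, l3, l4⟩ := ih acc1 M1 K a1 k2 k1
    refine ⟨acc', M', a', l1, l2, ?_, by omega⟩
    have : rvals T C (r :: RL) = rval T C 64 r + rvals T C RL := by simp [rvals]
    rw [l3, k3, this]
    ring

/-- value of a result -/
noncomputable def resv {S : Spec} {V : Type*} [Fintype V] (T : Sys S V) (C : Cfg)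
    (x : List ℕ × List ℕ) : ℝ := rvals T C x.1 - rvals T C x.2

theorem resRows_spec {C : Cfg} (hC : C.Ok S) (R : List (List ℕ × List ℕ)) :
    ∀ (P N : Tree C.e) (M : ℕ) (K : Tree C.e → Tree C.e → ℕ → Bool) (a b : ℕ → ℕ → ℕ),
    Rep C.xb C.e P a → Rep C.xb C.e N b → resRows C R P N M K = true →
    ∃ P' N' M' a' b', K P' N' M' = true ∧ Rep C.xb C.e P' a' ∧ Rep C.xb C.e N' b' ∧
      tval C.e (fval T C) b' - tval C.e (fval T C) a' =
        tval C.e (fval T C) b - tval C.e (fval T C) a + (R.map (resv T C)).sum ∧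
      mass C.e a' + mass C.e b' + M = mass C.e a + mass C.e b + M' := by
  induction R with
  | nil =>
    intro P N M K a b ha hb h
    exact ⟨P, N, M, a, b, h, ha, hb, by simp, rfl⟩
  | cons x R ih =>
    intro P N M K a b ha hb h
    have h' : resl C x.1 N M (fun N' M' => resl C x.2 P M' (fun P' M'' =>
      resRows C R P' N' M'' K)) = true := h
    obtain ⟨N1, M1, b1, k1, k2, k3, k4⟩ := resl_spec T hC x.1 N M _ b hb h'
    obtain ⟨P1, M2, a1, l1, l2, l3, l4⟩ := resl_spec T hC x.2 P M1 _ a ha k1
    obtain ⟨P', N', M', a', b', m1, m2, m3, m4, m5⟩ := ih P1 N1 M2 K a1 b1 l2 k2 l1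
    refine ⟨P', N', M', a', b', m1, m2, m3, ?_, by omega⟩
    rw [m4, k3, l3, List.map_cons, List.sum_cons]
    unfold resv
    ring

/-- **A chunk.** -/
theorem chunk_spec {C : Cfg} (hC : C.Ok S) (hT : Hyp T C) (L : List Src) (cs : List (ℕ × ℕ))
    (R : List (List ℕ × List ℕ)) (E : ℕ) (h : chunkOK S C L cs R E = true) :
    (R.map (resv T C)).sum - E * bt T C.k ≤ srcVal T C.k L := by
  unfold chunkOK at h
  obtain ⟨P, N, M, a, b, k1, k2, k3, k4, k5⟩ := srcs_spec T hC hT L cs _ _ 0 _ _ _
    (rep_zero C.xb C.e) (rep_zero C.xb C.e) h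
  rw [band_iff] at k1
  obtain ⟨hE, k1⟩ := k1
  have hE' : M = E := Nat.eq_of_beq_eq_true hE
  obtain ⟨P', N', M', a', b', l1, l2, l3, l4, l5⟩ := resRows_spec T hC R P N M _ a b k2 k3 k1
  rw [band_iff] at l1
  have hM' : M' < 2 ^ C.xb := Nat.le_of_ble_eq_true l1.1
  rw [mass_zero] at k5
  have hm : mass C.e a' + mass C.e b' ≤ M' := by omega
  have heq := tval_congr_of_beq C.xb C.e P' N' a' b' l2 l3 (by omega) (by omega) l1.2 (fval T C)
  rw [tval_zero, hE'] at k4
  simp only [sub_zero, Nat.cast_zero, zero_mul, zero_add] at k4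
  rw [heq] at l4
  linarith

/-- **Merging.** -/
theorem merge_spec {C : Cfg} (hC : C.Ok S) (R : List (List ℕ × List ℕ))
    (h : mergeOK C R = true) : 0 ≤ (R.map (resv T C)).sum := by
  unfold mergeOK at h
  obtain ⟨N, P, M, b, a, k1, k2, k3, k4, k5⟩ := resRows_spec T hC R _ _ 0 _ _ _
    (rep_zero C.xb C.e) (rep_zero C.xb C.e) h
  rw [band_iff] at k1
  have hM : M < 2 ^ C.xb := Nat.le_of_ble_eq_true k1.1
  rw [mass_zero] at k5
  have h2 := k1.2
  rw [hC.hMX] at h2
  have := tval_le_of_fin C.xb C.e P N a b k3 k2 (by omega) (by omega) h2 (fval T C)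
    (fun q p => full_nonneg T C.k _)
  rw [tval_zero] at k4
  linarith

/-- a checked chunk -/
structure Chunk where
  L : List Src
  R : List (List ℕ × List ℕ)
  E : ℕ

/-- the statement of a chunk -/
def Chunk.good {S : Spec} {V : Type*} [Fintype V] (T : Sys S V) (C : Cfg) (x : Chunk) : Prop :=
  (x.R.map (resv T C)).sum - x.E * bt T C.k ≤ srcVal T C.k x.L

/-- the results of all chunks in the range `i` -/
def col (i : ℕ) (chs : List Chunk) : List (List ℕ × List ℕ) := chs.map fun x => x.R.getD i ([], [])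

theorem resv_nil (C : Cfg) : resv T C ([], []) = 0 := by simp [resv, rvals]

theorem sum_getD (nr : ℕ) (R : List (List ℕ × List ℕ)) (h : R.length ≤ nr)
    (f : List ℕ × List ℕ → ℝ) (hf : f ([], []) = 0) :
    (R.map f).sum = ∑ i ∈ range nr, f (R.getD i ([], [])) := by
  induction R generalizing nr with
  | nil => simp [hf]
  | cons x R ih =>
    obtain ⟨m, rfl⟩ : ∃ m, nr = m + 1 := ⟨nr - 1, by simp at h; omega⟩
    rw [List.map_cons, List.sum_cons, Finset.sum_range_succ', ih m (by simpa using h)]
    simp only [List.getD_cons_succ, List.getD_cons_zero]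
    ring

theorem lsum_sum (nr : ℕ) (chs : List Chunk) (f : ℕ → Chunk → ℝ) :
    (chs.map fun x => ∑ i ∈ range nr, f i x).sum = ∑ i ∈ range nr, (chs.map (f i)).sum := by
  induction chs with
  | nil => simp
  | cons x chs ih => rw [List.map_cons, List.sum_cons, ih, ← Finset.sum_add_distrib]; rfl

theorem srcVal_flat (k : ℕ) (chs : List Chunk) :
    srcVal T k (chs.flatMap Chunk.L) = (chs.map fun x => srcVal T k x.L).sum := by
  unfold srcVal
  induction chs with
  | nil => simp
  | cons x chs ih =>
    rw [List.flatMap_cons, List.map_append, List.sum_append, ih, List.map_cons, List.sum_cons]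

/-- **The final inequality.** -/
theorem total {C : Cfg} (hC : C.Ok S) (hT : Hyp T C) (chs : List Chunk)
    (hg : ∀ x ∈ chs, x.good T C) (nr : ℕ) (hlen : ∀ x ∈ chs, x.R.length ≤ nr)
    (hm : ∀ i < nr, mergeOK C (col i chs) = true) :
    -((chs.map Chunk.E).sum : ℕ) * bt T C.k ≤ srcVal T C.k (chs.flatMap Chunk.L) := by
  rw [srcVal_flat]
  have h1 : (chs.map fun x => (x.R.map (resv T C)).sum - x.E * bt T C.k).sum ≤
      (chs.map fun x => srcVal T C.k x.L).sum :=
    List.sum_le_sum fun x hx => hg x hx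
  have h2 : (chs.map fun x => (x.R.map (resv T C)).sum - x.E * bt T C.k).sum =
      (chs.map fun x => (x.R.map (resv T C)).sum).sum -
        ((chs.map Chunk.E).sum : ℕ) * bt T C.k := by
    clear hg hlen hm h1
    induction chs with
    | nil => simp
    | cons x chs ih =>
      simp only [List.map_cons, List.sum_cons]
      rw [ih]
      push_cast
      ring
  have h3 : (chs.map fun x => (x.R.map (resv T C)).sum) =
      chs.map fun x => ∑ i ∈ range nr, resv T C (x.R.getD i ([], [])) :=
    List.map_congr_left fun x hx => sum_getD nr x.R (hlen x hx) _ (resv_nil T C)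
  have h4 : 0 ≤ (chs.map fun x => (x.R.map (resv T C)).sum).sum := by
    rw [h3, lsum_sum]
    refine Finset.sum_nonneg fun i hi => ?_
    have h5 := merge_spec T hC (col i chs) (hm i (Finset.mem_range.1 hi))
    unfold col at h5
    rw [List.map_map] at h5
    exact h5
  rw [h2] at h1
  linarith

/-- the final inequality in the form needed by `main_ineq` -/
theorem total' {C : Cfg} (hC : C.Ok S) (hT : Hyp T C) (chs : List Chunk)
    (hg : ∀ x ∈ chs, x.good T C) (nr : ℕ) (hlen : ∀ x ∈ chs, x.R.length ≤ nr)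
    (hm : ∀ i < nr, mergeOK C (col i chs) = true) :
    -(if C.k < 4 then (0 : ℝ) else ((chs.map Chunk.E).sum : ℕ)) * T.bad * T.D ^ (C.k - 4) ≤
      srcVal T C.k (chs.flatMap Chunk.L) := by
  have h := total T hC hT chs hg nr hlen hm
  unfold bt at h
  split_ifs at h ⊢ with hk
  · simpa using h
  · calc _ = -((chs.map Chunk.E).sum : ℕ) * (T.bad * T.D ^ (C.k - 4)) := by ring
      _ ≤ _ := h

/-! ### small lemmas for the data modules -/

theorem kall_nil {α : Type*} (P : α → Prop) : ∀ x ∈ ([] : List α), P x :=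
  fun x hx => absurd hx (by simp)

theorem kall_cons {α : Type*} {P : α → Prop} {a : α} {l : List α} (ha : P a) (hl : ∀ x ∈ l, P x) :
    ∀ x ∈ a :: l, P x := by
  intro x hx
  rcases List.mem_cons.1 hx with rfl | hx
  · exact ha
  · exact hl x hx

theorem kall_flat {α : Type*} {P : α → Prop} {l : List α} {L : List (List α)} (hl : ∀ x ∈ l, P x)
    (hL : ∀ x ∈ L.flatten, P x) : ∀ x ∈ (l :: L).flatten, P x := by
  intro x hx
  rw [List.flatten_cons, List.mem_append] at hx
  rcases hx with hx | hx
  · exact hl x hx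
  · exact hL x hx

theorem klen_all {l : List Chunk} {n : ℕ} (h : (l.all fun x => decide (x.R.length ≤ n)) = true) :
    ∀ x ∈ l, x.R.length ≤ n := by
  intro x hx
  have := List.all_eq_true.1 h x hx
  rwa [decide_eq_true_eq] at this

theorem kall_zero (P : ℕ → Prop) : ∀ i < 0, P i := fun i hi => absurd hi (by omega)

theorem kall_succ {P : ℕ → Prop} {n : ℕ} (h : ∀ i < n, P i) (hn : P n) : ∀ i < n + 1, P i := by
  intro i hi
  rcases Nat.lt_or_eq_of_le (Nat.le_of_lt_succ hi) with h' | rfl
  · exact h i h'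
  · exact hn

theorem chunk_good {C : Cfg} (hC : C.Ok S) (hT : Hyp T C) {L : List Src} {cs : List (ℕ × ℕ)}
    {R : List (List ℕ × List ℕ)} {E : ℕ} (h : chunkOK S C L cs R E = true) :
    (Chunk.mk L R E).good T C := chunk_spec T hC hT L cs R E h

/-- the inequality of a level -/
theorem lev_of {C : Cfg} (hC : C.Ok S) (hT : Hyp T C) (chs : List Chunk)
    (hg : ∀ x ∈ chs, x.good T C) (nr : ℕ) (hlen : ∀ x ∈ chs, x.R.length ≤ nr)
    (hm : ∀ i < nr, mergeOK C (col i chs) = true) (names : List (List Src)) (E : ℕ)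
    (hE : (chs.map Chunk.E).sum = E) (hn : chs.map Chunk.L = names) :
    -(if C.k < 4 then (0 : ℝ) else (E : ℝ)) * T.bad * T.D ^ (C.k - 4) ≤
      srcVal T C.k names.flatten := by
  have h := total' T hC hT chs hg nr hlen hm
  rw [hE, List.flatMap_def, hn] at h
  exact h

end MP433Sys
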