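import Pool.Agent.Work.MP_433a35_co.GB.Sys.Base

/-!
# The kernel checker, arithmetic part (helper36)

Codes are also kept in spread form: `spread b n c = ∑ i < n, dig c i * (2 ^ b) ^ i`, `b = 3 (n + 1)`.
A permutation is a number `W = ∑ i < n, 8 ^ i * (2 ^ b) ^ (n - 1 - π i)`; then the block number
`n - 1` of `spread b n c * W` is the relabelled code.
-/

set_option linter.unusedVariables false

namespace MP433Sys

open Finset

/-! ### spread codes and the product -/

/-- spread code -/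
def spread (B n c : ℕ) : ℕ := ∑ i ∈ range n, dig c i * B ^ i

theorem sum_split (B n l : ℕ) (hl : l < n) (d : ℕ → ℕ) :
    ∃ R, ∑ i ∈ range n, d i * B ^ i = ∑ i ∈ range l, d i * B ^ i + d l * B ^ l + B ^ (l + 1) * R := by
  have h1 : ∑ i ∈ range n, d i * B ^ i =
      ∑ i ∈ range (l + 1), d i * B ^ i + ∑ i ∈ Ico (l + 1) n, d i * B ^ i :=
    (Finset.sum_range_add_sum_Ico _ (by omega)).symm
  have h2 : B ^ (l + 1) ∣ ∑ i ∈ Ico (l + 1) n, d i * B ^ i :=
    Finset.dvd_sum fun i hi => (pow_dvd_pow B (Finset.mem_Ico.1 hi).1).mul_left _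
  obtain ⟨R, hR⟩ := h2
  refine ⟨R, ?_⟩
  rw [h1, hR, Finset.sum_range_succ]

theorem geom_bound (B l : ℕ) (hB : 1 ≤ B) (d : ℕ → ℕ) (hd : ∀ i, d i ≤ 7) :
    (B - 1) * ∑ i ∈ range l, d i * B ^ i ≤ 7 * (B ^ l - 1) := by
  induction l with
  | zero => simp
  | succ l ih =>
    rw [Finset.sum_range_succ, mul_add]
    have h1 : (B - 1) * (d l * B ^ l) ≤ 7 * ((B - 1) * B ^ l) := by
      have := Nat.mul_le_mul_right ((B - 1) * B ^ l) (hd l)
      calc (B - 1) * (d l * B ^ l) = d l * ((B - 1) * B ^ l) := by ring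
        _ ≤ _ := this
    have h2 : 1 ≤ B ^ l := Nat.one_le_pow _ _ hB
    have h3 : (B - 1) * B ^ l + (B ^ l - 1) = B ^ (l + 1) - 1 := by
      have h4 : (B - 1) * B ^ l = B ^ (l + 1) - B ^ l := by
        rw [Nat.sub_mul, one_mul, pow_succ, mul_comm (B ^ l) B]
      have h5 : B ^ l ≤ B ^ (l + 1) := Nat.pow_le_pow_right hB (Nat.le_succ l)
      rw [h4]
      omega
    rw [← h3]
    omega

/-- the middle block of the product -/
theorem mid_block (B n : ℕ) (hn : 0 < n) (d v : ℕ → ℕ) (hd : ∀ i, d i ≤ 7)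
    (hv : 7 * ∑ l ∈ range n, v l + 1 ≤ B) (hB : 2 ≤ B) :
    ((∑ i ∈ range n, d i * B ^ i) * (∑ l ∈ range n, v l * B ^ (n - 1 - l))) / B ^ (n - 1) % B =
      ∑ l ∈ range n, d l * v l := by
  set S : ℕ → ℕ := fun l => ∑ i ∈ range l, d i * B ^ i with hS
  have hex : ∀ l, ∃ R, l < n → S n = S l + d l * B ^ l + B ^ (l + 1) * R := by
    intro l
    by_cases hl : l < n
    · obtain ⟨R, hR⟩ := sum_split B n l hl d
      exact ⟨R, fun _ => hR⟩
    · exact ⟨0, fun h => absurd h hl⟩
  choose R hR using hex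
  set L := ∑ l ∈ range n, v l * B ^ (n - 1 - l) * S l with hL
  set M := ∑ l ∈ range n, d l * v l with hM
  set H := ∑ l ∈ range n, v l * R l with hH
  have hprod : S n * (∑ l ∈ range n, v l * B ^ (n - 1 - l)) = L + B ^ (n - 1) * (M + B * H) := by
    rw [hL, hM, hH, Finset.mul_sum, Finset.mul_sum, ← Finset.sum_add_distrib, Finset.mul_sum,
      ← Finset.sum_add_distrib]
    refine Finset.sum_congr rfl fun l hl => ?_
    have hl' := Finset.mem_range.1 hl
    rw [hR l hl']
    have e1 : B ^ (n - 1) = B ^ (n - 1 - l) * B ^ l := by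
      rw [← pow_add]; congr 1; omega
    rw [e1, pow_succ]
    ring
  have hM7 : M ≤ 7 * ∑ l ∈ range n, v l := by
    rw [hM, Finset.mul_sum]
    exact Finset.sum_le_sum fun l _ => Nat.mul_le_mul_right _ (hd l)
  have hMB : M < B := by omega
  have hLB : L < B ^ (n - 1) := by
    have h1 : (B - 1) * L ≤ 7 * (∑ l ∈ range n, v l) * (B ^ (n - 1) - 1) := by
      rw [hL, Finset.mul_sum, mul_assoc, Finset.sum_mul, Finset.mul_sum]
      refine Finset.sum_le_sum fun l hl => ?_
      have hl' := Finset.mem_range.1 hl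
      have h2 := geom_bound B l (by omega) d hd
      have h3 : B ^ (n - 1 - l) * (B ^ l - 1) ≤ B ^ (n - 1) - 1 := by
        rw [Nat.mul_sub, mul_one, ← pow_add]
        have : n - 1 - l + l = n - 1 := by omega
        rw [this]
        have : 1 ≤ B ^ (n - 1 - l) := Nat.one_le_pow _ _ (by omega)
        omega
      calc (B - 1) * (v l * B ^ (n - 1 - l) * S l)
          = v l * (B ^ (n - 1 - l) * ((B - 1) * S l)) := by ring
        _ ≤ v l * (B ^ (n - 1 - l) * (7 * (B ^ l - 1))) :=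
            Nat.mul_le_mul_left _ (Nat.mul_le_mul_left _ h2)
        _ = 7 * (v l * (B ^ (n - 1 - l) * (B ^ l - 1))) := by ring
        _ ≤ 7 * (v l * (B ^ (n - 1) - 1)) :=
            Nat.mul_le_mul_left _ (Nat.mul_le_mul_left _ h3)
    have h2 : 7 * (∑ l ∈ range n, v l) ≤ B - 1 := by omega
    have h3 : (B - 1) * L ≤ (B - 1) * (B ^ (n - 1) - 1) :=
      h1.trans (Nat.mul_le_mul_right _ h2)
    have h4 : L ≤ B ^ (n - 1) - 1 := Nat.le_of_mul_le_mul_left h3 (by omega)
    have h5 : 1 ≤ B ^ (n - 1) := Nat.one_le_pow _ _ (by omega)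
    omega
  have hfin : (S n * (∑ l ∈ range n, v l * B ^ (n - 1 - l))) / B ^ (n - 1) % B = M := by
    rw [hprod, Nat.add_mul_div_left _ _ (Nat.pow_pos (by omega)), Nat.div_eq_of_lt hLB, zero_add,
      Nat.add_mul_mod_self_left, Nat.mod_eq_of_lt hMB]
  exact hfin

/-- a digit of a sum -/
theorem digit_sum (B n : ℕ) (hB : 0 < B) (d : ℕ → ℕ) (hd : ∀ i < n, d i < B) (l : ℕ) (hl : l < n) :
    (∑ i ∈ range n, d i * B ^ i) / B ^ l % B = d l := by
  induction l generalizing n d with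
  | zero =>
    obtain ⟨m, rfl⟩ : ∃ m, n = m + 1 := ⟨n - 1, by omega⟩
    rw [Finset.sum_range_succ']
    have h1 : ∑ x ∈ range m, d (x + 1) * B ^ (x + 1) = B * ∑ x ∈ range m, d (x + 1) * B ^ x := by
      rw [Finset.mul_sum]
      exact Finset.sum_congr rfl fun x _ => by ring
    rw [h1]
    simp only [pow_zero, mul_one, Nat.div_one, Nat.mul_add_mod]
    exact Nat.mod_eq_of_lt (hd 0 (by omega))
  | succ l ih =>
    obtain ⟨m, rfl⟩ : ∃ m, n = m + 1 := ⟨n - 1, by omega⟩
    rw [Finset.sum_range_succ']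
    have h1 : ∑ x ∈ range m, d (x + 1) * B ^ (x + 1) = B * ∑ x ∈ range m, d (x + 1) * B ^ x := by
      rw [Finset.mul_sum]
      exact Finset.sum_congr rfl fun x _ => by ring
    rw [h1, pow_succ', ← Nat.div_div_eq_div_mul]
    simp only [pow_zero, mul_one]
    rw [Nat.mul_add_div hB, Nat.div_eq_of_lt (hd 0 (by omega)), add_zero]
    exact ih m (fun x => d (x + 1)) (fun i hi => hd (i + 1) (by omega)) (by omega)

/-- digits are unique -/
theorem digits_unique (B n : ℕ) (hB : 0 < B) (a b : ℕ → ℕ) (ha : ∀ i < n, a i < B)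
    (hb : ∀ i < n, b i < B) (h : ∑ i ∈ range n, a i * B ^ i = ∑ i ∈ range n, b i * B ^ i)
    (l : ℕ) (hl : l < n) : a l = b l := by
  rw [← digit_sum B n hB a ha l hl, h, digit_sum B n hB b hb l hl]

theorem digits_sum (B n : ℕ) (hB : 0 < B) (W : ℕ) (hW : W < B ^ n) :
    ∑ l ∈ range n, (W / B ^ (n - 1 - l) % B) * B ^ (n - 1 - l) = W := by
  rw [Finset.sum_range_reflect (fun j => (W / B ^ j % B) * B ^ j) n]
  induction n generalizing W with
  | zero => simp at hW; simp [hW]
  | succ n ih =>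
    rw [Finset.sum_range_succ']
    simp only [pow_zero, Nat.div_one, mul_one]
    have h1 : W / B < B ^ n := by
      rw [Nat.div_lt_iff_lt_mul hB]
      rwa [pow_succ] at hW
    have h2 := ih (W / B) h1
    have h3 : ∑ x ∈ range n, W / B ^ (x + 1) % B * B ^ (x + 1) =
        B * ∑ j ∈ range n, (W / B / B ^ j % B) * B ^ j := by
      rw [Finset.mul_sum]
      refine Finset.sum_congr rfl fun j _ => ?_
      rw [Nat.div_div_eq_div_mul, pow_succ, mul_comm B (B ^ j)]
      ring
    rw [h3, h2]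
    exact Nat.div_add_mod W B

theorem dig_eight (c i n : ℕ) (hi : i < n) : c % 8 ^ n / 8 ^ i % 8 = dig c i := by
  unfold dig
  have h1 : 8 ^ n = 8 ^ i * 8 ^ (n - i) := by rw [← pow_add]; congr 1; omega
  rw [h1, Nat.mod_mul_right_div_self, Nat.mod_mod_of_dvd]
  exact dvd_pow_self 8 (by omega)

/-- masking of digits -/
theorem land_mask (b n Y : ℕ) (hb : 3 ≤ b) :
    Nat.land Y (∑ i ∈ range n, 7 * (2 ^ b) ^ i) =
      ∑ i ∈ range n, (Y / (2 ^ b) ^ i % 8) * (2 ^ b) ^ i := by
  induction n generalizing Y with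
  | zero => simp
  | succ n ih =>
    rw [Finset.sum_range_succ', Finset.sum_range_succ']
    simp only [pow_zero, mul_one, Nat.div_one]
    have e1 : ∑ i ∈ range n, 7 * (2 ^ b) ^ (i + 1) = 2 ^ b * ∑ i ∈ range n, 7 * (2 ^ b) ^ i := by
      rw [Finset.mul_sum]
      exact Finset.sum_congr rfl fun x _ => by ring
    have e2 : ∑ i ∈ range n, Y / (2 ^ b) ^ (i + 1) % 8 * (2 ^ b) ^ (i + 1) =
        2 ^ b * ∑ i ∈ range n, (Y / 2 ^ b / (2 ^ b) ^ i % 8) * (2 ^ b) ^ i := by
      rw [Finset.mul_sum]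
      refine Finset.sum_congr rfl fun x _ => ?_
      rw [Nat.div_div_eq_div_mul, ← pow_succ']
      ring
    rw [e1, e2, ← ih (Y / 2 ^ b)]
    set m := ∑ i ∈ range n, 7 * (2 ^ b) ^ i
    have h8 : (8 : ℕ) = 2 ^ 3 := by norm_num
    have hb8 : (8 : ℕ) ≤ 2 ^ b := by rw [h8]; exact Nat.pow_le_pow_right (by norm_num) hb
    have h7 : (7 : ℕ) < 2 ^ b := by omega
    have hy : Y % 8 < 2 ^ b := lt_of_lt_of_le (Nat.mod_lt _ (by norm_num)) hb8
    apply Nat.eq_of_testBit_eq
    intro j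
    change (Y &&& (2 ^ b * m + 7)).testBit j = (2 ^ b * (Y / 2 ^ b &&& m) + Y % 8).testBit j
    rw [Nat.testBit_and, Nat.testBit_two_pow_mul_add _ h7, Nat.testBit_two_pow_mul_add _ hy]
    by_cases hj : j < b
    · rw [if_pos hj, if_pos hj]
      have e7 : (7 : ℕ) = 2 ^ 3 - 1 := by norm_num
      rw [h8, Nat.testBit_mod_two_pow, e7, Nat.testBit_two_pow_sub_one, Bool.and_comm]
    · rw [if_neg hj, if_neg hj, Nat.testBit_and, Nat.testBit_div_two_pow]
      have : b + (j - b) = j := by omega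
      congr 2
      omega

/-- the spread form is obtained by one product and one mask -/
theorem spread_eq (n c : ℕ) (hc : c < 8 ^ n) :
    Nat.land (Nat.mul c (∑ i ∈ range n, (2 ^ (3 * n)) ^ i))
      (∑ i ∈ range n, 7 * (2 ^ (3 * (n + 1))) ^ i) = spread (2 ^ (3 * (n + 1))) n c := by
  rw [land_mask _ _ _ (by omega)]
  unfold spread
  refine Finset.sum_congr rfl fun l hl => ?_
  have hl' := Finset.mem_range.1 hl
  congr 1
  have e8 : ∀ m, (2 : ℕ) ^ (3 * m) = 8 ^ m := fun m => by rw [pow_mul]; norm_num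
  rw [e8, e8]
  change c * (∑ i ∈ range n, (8 ^ n) ^ i) / (8 ^ (n + 1)) ^ l % 8 = dig c l
  have h1 : c * (∑ i ∈ range n, (8 ^ n) ^ i) = ∑ i ∈ range n, c * (8 ^ n) ^ i := Finset.mul_sum _ _ _
  have h2 := digit_sum (8 ^ n) n (by positivity) (fun _ => c) (fun _ _ => hc) l hl'
  rw [← h1] at h2
  have h3 : (8 ^ (n + 1)) ^ l = (8 ^ n) ^ l * 8 ^ l := by
    rw [← pow_mul, ← pow_mul, ← pow_add]
    congr 1
    ring
  rw [h3, ← Nat.div_div_eq_div_mul]
  conv_rhs => rw [← dig_eight c l n hl']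
  have h4 : c % 8 ^ n = c := Nat.mod_eq_of_lt hc
  rw [h4]
  conv_rhs => rw [← h2]
  set z := c * (∑ i ∈ range n, (8 ^ n) ^ i) / (8 ^ n) ^ l
  have h5 := dig_eight z l n hl'
  rw [h5]
  rfl

theorem spread_add (B n c i d : ℕ) (hi : i < n) (hd : d < 8) (hc : dig c i = 0) :
    spread B n (c + d * 8 ^ i) = spread B n c + d * B ^ i := by
  unfold spread
  rw [← Finset.add_sum_erase _ _ (Finset.mem_range.2 hi),
    ← Finset.add_sum_erase (range n) (fun j => dig c j * B ^ j) (Finset.mem_range.2 hi)]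
  have h1 : ∑ j ∈ (range n).erase i, dig (c + d * 8 ^ i) j * B ^ j =
      ∑ j ∈ (range n).erase i, dig c j * B ^ j := by
    refine Finset.sum_congr rfl fun j hj => ?_
    rw [dig_add_ne hc hd (Finset.ne_of_mem_erase hj)]
  rw [h1, dig_add_self hc hd, hc]
  ring

/-! ### permutations -/

/-- the number `W` represents the permutation with pair images `w` and positions `s` -/
def entryOK (k n b W w s : ℕ) : Bool :=
  permOK k w s && decide (W < (2 ^ b) ^ n) &&
  (List.range n).all fun i => decide (w / 32 ^ i % 32 < n) &&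
    (W / (2 ^ b) ^ (n - 1 - w / 32 ^ i % 32) % 2 ^ b == 8 ^ i)

theorem relab_eq (n c w : ℕ) : relab n c w = ∑ i ∈ range n, dig c (w / 32 ^ i % 32) * 8 ^ i := by
  induction n generalizing w with
  | zero => simp [relab]
  | succ n ih =>
    rw [relab, ih, Finset.sum_range_succ', Finset.mul_sum]
    simp only [pow_zero, Nat.div_one, mul_one]
    congr 1
    refine Finset.sum_congr rfl fun i _ => ?_
    rw [Nat.div_div_eq_div_mul, pow_succ, pow_succ, mul_comm 32 (32 ^ i)]
    ring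

theorem entry_spec (k n W w s c : ℕ) (hn : n = npr k) (hn0 : 0 < n)
    (h : entryOK k n (3 * (n + 1)) W w s = true) :
    permOK k w s = true ∧
      spread (2 ^ (3 * (n + 1))) n c * W / (2 ^ (3 * (n + 1))) ^ (n - 1) % 2 ^ (3 * (n + 1)) =
        relab n c w := by
  unfold entryOK at h
  rw [Bool.and_eq_true, Bool.and_eq_true, decide_eq_true_eq] at h
  obtain ⟨⟨hp, hW⟩, hall⟩ := h
  refine ⟨hp, ?_⟩
  set B := 2 ^ (3 * (n + 1)) with hB
  have hB2 : 2 ≤ B := by
    rw [hB]
    calc 2 = 2 ^ 1 := by norm_num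
      _ ≤ 2 ^ (3 * (n + 1)) := Nat.pow_le_pow_right (by norm_num) (by omega)
  have h2 : ∀ i < n, w / 32 ^ i % 32 < n ∧ W / B ^ (n - 1 - w / 32 ^ i % 32) % B = 8 ^ i := by
    intro i hi
    have := List.all_eq_true.1 hall i (List.mem_range.2 hi)
    rw [Bool.and_eq_true, decide_eq_true_eq, beq_iff_eq] at this
    exact this
  set f : ℕ → ℕ := fun i => w / 32 ^ i % 32 with hf
  set v : ℕ → ℕ := fun l => W / B ^ (n - 1 - l) % B with hv
  have hinj : Set.InjOn f (range n : Finset ℕ) := by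
    intro i hi j hj hij
    have h3 := (h2 i (Finset.mem_range.1 hi)).2
    have h4 := (h2 j (Finset.mem_range.1 hj)).2
    have h5 : (8 : ℕ) ^ i = 8 ^ j := by
      rw [← h3, ← h4]
      have : w / 32 ^ i % 32 = w / 32 ^ j % 32 := hij
      rw [this]
    exact Nat.pow_right_injective (by norm_num) h5
  have himg : (range n).image f = range n := by
    apply Finset.eq_of_subset_of_card_le
    · intro x hx
      obtain ⟨i, hi, rfl⟩ := Finset.mem_image.1 hx
      exact Finset.mem_range.2 (h2 i (Finset.mem_range.1 hi)).1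
    · rw [Finset.card_image_of_injOn hinj]
  have hsum : ∀ g : ℕ → ℕ, ∑ l ∈ range n, g l = ∑ i ∈ range n, g (f i) := by
    intro g
    conv_lhs => rw [← himg]
    exact Finset.sum_image hinj
  have hvs : ∑ l ∈ range n, v l = ∑ i ∈ range n, 8 ^ i := by
    rw [hsum v]
    exact Finset.sum_congr rfl fun i hi => (h2 i (Finset.mem_range.1 hi)).2
  have hgeo : ∀ m : ℕ, 7 * ∑ i ∈ range m, 8 ^ i + 1 = 8 ^ m := by
    intro m
    induction m with
    | zero => simp
    | succ m ih => rw [Finset.sum_range_succ, mul_add, pow_succ]; omega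
  have h8n : 8 ^ n ≤ B := by
    rw [hB, pow_mul]
    norm_num
    exact Nat.pow_le_pow_right (by norm_num) (by omega)
  have hmid := mid_block B n hn0 (fun i => dig c i) v
    (fun i => by have := dig_lt c i; omega) (by rw [hvs, hgeo]; exact h8n) hB2
  have hWs : ∑ l ∈ range n, v l * B ^ (n - 1 - l) = W :=
    digits_sum B n (by omega) W hW
  rw [hWs] at hmid
  unfold spread
  rw [hmid, hsum, relab_eq]
  refine Finset.sum_congr rfl fun i hi => ?_
  exact congrArg (fun z => dig c (w / 32 ^ i % 32) * z) (h2 i (Finset.mem_range.1 hi)).2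

/-! ### raw operations -/

theorem shr_eq (a b : ℕ) : Nat.shiftRight a b = a / 2 ^ b := Nat.shiftRight_eq_div_pow a b

theorem shl_eq (a b : ℕ) : Nat.shiftLeft a b = a * 2 ^ b := Nat.shiftLeft_eq a b

theorem land_eq (a b : ℕ) : Nat.land a (2 ^ b - 1) = a % 2 ^ b := Nat.and_two_pow_sub_one_eq_mod a b

theorem land_one (a : ℕ) : Nat.land a 1 = a % 2 := Nat.and_one_is_mod a

end MP433Sys
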