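import Pool.Agent.Work.MP_433a35_co.GB.Sys.KerA

/-!
# The kernel checker: trees of numbers (helper36)
-/

namespace MP433Sys

open Finset

/-- forced evaluation -/
noncomputable def force (n : ℕ) (f : ℕ → Bool) : Bool :=
  @Nat.rec (fun _ => Bool) (f 0) (fun m _ => f (Nat.succ m)) n

theorem force_eq (n : ℕ) (f : ℕ → Bool) : force n f = f n := by
  cases n <;> rfl

/-- a binary tree of depth `e` with numbers at the leaves -/
def Tree : ℕ → Type
  | 0 => ℕ
  | e + 1 => Tree e × Tree e

theorem pick {α : Type} (x y : α) (m : ℕ) :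
    @Nat.rec (fun _ => α) x (fun _ _ => y) m = if m = 0 then x else y := by
  cases m <;> simp

/-- leaf with address `q` (low bits first) -/
noncomputable def Tree.get (e : ℕ) : Tree e → ℕ → ℕ :=
  @Nat.rec (fun e => Tree e → ℕ → ℕ) (fun t _ => t)
    (fun _ ih t q => ih (@Nat.rec (fun _ => _) t.1 (fun _ _ => t.2) (Nat.land q 1))
      (Nat.shiftRight q 1)) e

/-- addition at a leaf -/
noncomputable def Tree.add : (e : ℕ) → Tree e → ℕ → ℕ → Tree e
  | 0, t, _, d => Nat.add t d
  | e + 1, t, q, d => if q % 2 = 0 then (Tree.add e t.1 (q / 2) d, t.2)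
      else (t.1, Tree.add e t.2 (q / 2) d)

/-- addition at a leaf, then continue -/
noncomputable def Tree.upd (e : ℕ) : Tree e → ℕ → ℕ → (Tree e → Bool) → Bool :=
  @Nat.rec (fun e => Tree e → ℕ → ℕ → (Tree e → Bool) → Bool)
    (fun t _ d K => force (Nat.add t d) K)
    (fun _ ih t q d K => @Nat.rec (fun _ => Bool)
      (ih t.1 (Nat.shiftRight q 1) d (fun l => K (l, t.2)))
      (fun _ _ => ih t.2 (Nat.shiftRight q 1) d (fun r => K (t.1, r))) (Nat.land q 1)) e

/-- leafwise comparison -/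
noncomputable def Tree.all2 (f : ℕ → ℕ → Bool) (e : ℕ) : Tree e → Tree e → Bool :=
  @Nat.rec (fun e => Tree e → Tree e → Bool) (fun t u => f t u)
    (fun _ ih t u => @Bool.rec (fun _ => Bool) false (ih t.2 u.2) (ih t.1 u.1)) e

/-- the zero tree -/
noncomputable def Tree.zero (e : ℕ) : Tree e :=
  @Nat.rec (fun e => Tree e) (0 : ℕ) (fun _ z => (z, z)) e

theorem Tree.get_zero (t : Tree 0) (q : ℕ) : Tree.get 0 t q = t := rfl

theorem Tree.get_succ (e : ℕ) (t : Tree (e + 1)) (q : ℕ) :
    Tree.get (e + 1) t q = Tree.get e (if q % 2 = 0 then t.1 else t.2) (q / 2) := by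
  have h : Tree.get (e + 1) t q =
      Tree.get e (@Nat.rec (fun _ => Tree e) t.1 (fun _ _ => t.2) (Nat.land q 1))
        (Nat.shiftRight q 1) := rfl
  rw [h, pick, land_one, shr_eq, pow_one]

theorem Tree.upd_eq (e : ℕ) (t : Tree e) (q d : ℕ) (K : Tree e → Bool) :
    Tree.upd e t q d K = K (Tree.add e t q d) := by
  induction e generalizing q with
  | zero => exact force_eq _ _
  | succ e ih =>
    have h : Tree.upd (e + 1) t q d K = @Nat.rec (fun _ => Bool)
      (Tree.upd e t.1 (Nat.shiftRight q 1) d (fun l => K (l, t.2)))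
      (fun _ _ => Tree.upd e t.2 (Nat.shiftRight q 1) d (fun r => K (t.1, r))) (Nat.land q 1) := rfl
    rw [h, pick, land_one, shr_eq, pow_one, ih, ih, Tree.add]
    split_ifs <;> rfl

theorem Tree.get_add (e : ℕ) (t : Tree e) (q q' d : ℕ) :
    Tree.get e (Tree.add e t q d) q' =
      Tree.get e t q' + if q' % 2 ^ e = q % 2 ^ e then d else 0 := by
  induction e generalizing q q' with
  | zero =>
    simp only [pow_zero, Nat.mod_one, if_true]
    rfl
  | succ e ih =>
    rw [Tree.get_succ, Tree.get_succ, Tree.add]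
    have key : (q' % 2 ^ (e + 1) = q % 2 ^ (e + 1)) ↔
        (q' % 2 = q % 2 ∧ q' / 2 % 2 ^ e = q / 2 % 2 ^ e) := by
      have h1 : ∀ x : ℕ, x % 2 ^ (e + 1) = x % 2 + 2 * (x / 2 % 2 ^ e) := by
        intro x
        rw [pow_succ', Nat.mod_mul]
      rw [h1, h1]
      constructor
      · intro h; constructor <;> omega
      · rintro ⟨h, h'⟩; omega
    by_cases hq : q % 2 = 0
    · rw [if_pos hq]
      by_cases hq' : q' % 2 = 0
      · rw [if_pos hq', if_pos hq']
        simp only
        rw [ih]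
        congr 1
        have : (q' / 2 % 2 ^ e = q / 2 % 2 ^ e) ↔ (q' % 2 ^ (e + 1) = q % 2 ^ (e + 1)) := by
          rw [key]
          constructor
          · intro h; exact ⟨by omega, h⟩
          · intro h; exact h.2
        by_cases h : q' / 2 % 2 ^ e = q / 2 % 2 ^ e
        · rw [if_pos h, if_pos (this.1 h)]
        · rw [if_neg h, if_neg (fun h' => h (this.2 h'))]
      · rw [if_neg hq', if_neg hq', if_neg (fun h => by have := (key.1 h).1; omega), add_zero]
    · rw [if_neg hq]
      by_cases hq' : q' % 2 = 0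
      · rw [if_pos hq', if_pos hq', if_neg (fun h => by have := (key.1 h).1; omega), add_zero]
      · rw [if_neg hq', if_neg hq']
        simp only
        rw [ih]
        congr 1
        have : (q' / 2 % 2 ^ e = q / 2 % 2 ^ e) ↔ (q' % 2 ^ (e + 1) = q % 2 ^ (e + 1)) := by
          rw [key]
          constructor
          · intro h; exact ⟨by omega, h⟩
          · intro h; exact h.2
        by_cases h : q' / 2 % 2 ^ e = q / 2 % 2 ^ e
        · rw [if_pos h, if_pos (this.1 h)]
        · rw [if_neg h, if_neg (fun h' => h (this.2 h'))]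

theorem Tree.get_zero_tree (e q : ℕ) : Tree.get e (Tree.zero e) q = 0 := by
  induction e generalizing q with
  | zero => rfl
  | succ e ih =>
    rw [Tree.get_succ]
    have h : Tree.zero (e + 1) = (Tree.zero e, Tree.zero e) := rfl
    rw [h]
    simp only [ite_self]
    exact ih _

theorem Tree.all2_spec (f : ℕ → ℕ → Bool) (e : ℕ) (t u : Tree e) (h : Tree.all2 f e t u = true)
    (q : ℕ) : f (Tree.get e t q) (Tree.get e u q) = true := by
  induction e generalizing q with
  | zero => exact h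
  | succ e ih =>
    have h' : Tree.all2 f (e + 1) t u =
      @Bool.rec (fun _ => Bool) false (Tree.all2 f e t.2 u.2) (Tree.all2 f e t.1 u.1) := rfl
    rw [h'] at h
    have h1 : Tree.all2 f e t.1 u.1 = true := by
      cases hh : Tree.all2 f e t.1 u.1
      · rw [hh] at h; exact absurd h (by simp)
      · rfl
    rw [h1] at h
    rw [Tree.get_succ, Tree.get_succ]
    by_cases hq : q % 2 = 0
    · rw [if_pos hq, if_pos hq]
      exact ih t.1 u.1 h1 (q / 2)
    · rw [if_neg hq, if_neg hq]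
      exact ih t.2 u.2 h (q / 2)

/-! ### functions of the slots -/

/-- one more unit of weight `w` in the slot `(q, p)` -/
def bump (a : ℕ → ℕ → ℕ) (q p w : ℕ) : ℕ → ℕ → ℕ :=
  fun q' p' => a q' p' + if q' = q ∧ p' = p then w else 0

/-- total weight -/
def mass (e : ℕ) (a : ℕ → ℕ → ℕ) : ℕ := ∑ q ∈ range (2 ^ e), ∑ p ∈ range 64, a q p

/-- total value -/
noncomputable def tval (e : ℕ) (f : ℕ → ℕ → ℝ) (a : ℕ → ℕ → ℕ) : ℝ :=
  ∑ q ∈ range (2 ^ e), ∑ p ∈ range 64, (a q p : ℝ) * f q p

/-- the tree `t` with `xb` bits per slot represents the function `a` -/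
def Rep (xb e : ℕ) (t : Tree e) (a : ℕ → ℕ → ℕ) : Prop :=
  ∀ q < 2 ^ e, Tree.get e t q = ∑ p ∈ range 64, a q p * (2 ^ xb) ^ p

theorem rep_zero (xb e : ℕ) : Rep xb e (Tree.zero e) (fun _ _ => 0) := by
  intro q _
  rw [Tree.get_zero_tree]
  simp

theorem mass_zero (e : ℕ) : mass e (fun _ _ => 0) = 0 := by simp [mass]

theorem tval_zero (e : ℕ) (f : ℕ → ℕ → ℝ) : tval e f (fun _ _ => 0) = 0 := by simp [tval]

theorem mass_bump (e : ℕ) (a : ℕ → ℕ → ℕ) (q p w : ℕ) (hq : q < 2 ^ e) (hp : p < 64) :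
    mass e (bump a q p w) = mass e a + w := by
  unfold mass bump
  simp only [Finset.sum_add_distrib]
  congr 1
  rw [Finset.sum_eq_single q, Finset.sum_eq_single p]
  · simp
  · intro p' _ h; rw [if_neg (fun h' => h h'.2)]
  · intro h; exact absurd (Finset.mem_range.2 hp) h
  · intro q' _ h
    exact Finset.sum_eq_zero fun p' _ => by rw [if_neg (fun h' => h h'.1)]
  · intro h; exact absurd (Finset.mem_range.2 hq) h

theorem tval_bump (e : ℕ) (f : ℕ → ℕ → ℝ) (a : ℕ → ℕ → ℕ) (q p w : ℕ) (hq : q < 2 ^ e)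
    (hp : p < 64) : tval e f (bump a q p w) = tval e f a + w * f q p := by
  unfold tval bump
  push_cast
  simp only [add_mul, Finset.sum_add_distrib]
  congr 1
  rw [Finset.sum_eq_single q, Finset.sum_eq_single p]
  · simp
  · intro p' _ h; rw [if_neg (fun h' => h h'.2), zero_mul]
  · intro h; exact absurd (Finset.mem_range.2 hp) h
  · intro q' _ h
    exact Finset.sum_eq_zero fun p' _ => by rw [if_neg (fun h' => h h'.1), zero_mul]
  · intro h; exact absurd (Finset.mem_range.2 hq) h

theorem rep_add (xb e : ℕ) (t : Tree e) (a : ℕ → ℕ → ℕ) (q p w : ℕ) (hq : q < 2 ^ e)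
    (hp : p < 64) (h : Rep xb e t a) :
    Rep xb e (Tree.add e t q (w * 2 ^ (xb * p))) (bump a q p w) := by
  intro q' hq'
  have h1 := Tree.get_add e t q q' (w * 2 ^ (xb * p))
  rw [Nat.mod_eq_of_lt hq, Nat.mod_eq_of_lt hq', h q' hq'] at h1
  rw [h1]
  have h2 : ∑ p' ∈ range 64, bump a q p w q' p' * (2 ^ xb) ^ p' =
      ∑ p' ∈ range 64, a q' p' * (2 ^ xb) ^ p' +
        ∑ p' ∈ range 64, (if q' = q ∧ p' = p then w else 0) * (2 ^ xb) ^ p' := by
    rw [← Finset.sum_add_distrib]
    exact Finset.sum_congr rfl fun p' _ => by rw [bump, add_mul]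
  rw [h2]
  have h3 : (if q' = q then w * 2 ^ (xb * p) else 0) =
      ∑ p' ∈ range 64, (if q' = q ∧ p' = p then w else 0) * (2 ^ xb) ^ p' := by
    by_cases hqq : q' = q
    · rw [if_pos hqq, Finset.sum_eq_single p]
      · rw [if_pos ⟨hqq, rfl⟩, pow_mul]
      · intro p' _ h; rw [if_neg (fun h' => h h'.2), zero_mul]
      · intro h; exact absurd (Finset.mem_range.2 hp) h
    · rw [if_neg hqq]
      exact (Finset.sum_eq_zero fun p' _ => by rw [if_neg (fun h' => hqq h'.1), zero_mul]).symm
  rw [h3]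

theorem le_mass (e : ℕ) (a : ℕ → ℕ → ℕ) (q p : ℕ) (hq : q < 2 ^ e) (hp : p < 64) :
    a q p ≤ mass e a := by
  unfold mass
  exact (Finset.single_le_sum (f := fun p => a q p) (fun _ _ => Nat.zero_le _)
    (Finset.mem_range.2 hp)).trans
    (Finset.single_le_sum (f := fun q => ∑ p ∈ range 64, a q p) (fun _ _ => Nat.zero_le _)
      (Finset.mem_range.2 hq))

/-- equal trees represent equal functions -/
theorem tval_congr_of_beq (xb e : ℕ) (t u : Tree e) (a b : ℕ → ℕ → ℕ) (ha : Rep xb e t a)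
    (hb : Rep xb e u b) (hma : mass e a < 2 ^ xb) (hmb : mass e b < 2 ^ xb)
    (h : Tree.all2 Nat.beq e t u = true) (f : ℕ → ℕ → ℝ) : tval e f a = tval e f b := by
  unfold tval
  refine Finset.sum_congr rfl fun q hq => Finset.sum_congr rfl fun p hp => ?_
  have hq' := Finset.mem_range.1 hq
  have hp' := Finset.mem_range.1 hp
  have h1 : Tree.get e t q = Tree.get e u q := Nat.eq_of_beq_eq_true (Tree.all2_spec _ e t u h q)
  rw [ha q hq', hb q hq'] at h1
  have h2 := digits_unique (2 ^ xb) 64 (by positivity) (a q) (b q)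
    (fun i hi => lt_of_le_of_lt (le_mass e a q i hq' hi) hma)
    (fun i hi => lt_of_le_of_lt (le_mass e b q i hq' hi) hmb) h1 p hp'
  rw [h2]

/-- all digits of `N` are at most those of `P` -/
noncomputable def finLeaf (xb MX : ℕ) (j : ℕ) : ℕ → ℕ → Bool :=
  @Nat.rec (fun _ => ℕ → ℕ → Bool) (fun _ N => Nat.beq N 0)
    (fun _ ih P N => @Bool.rec (fun _ => Bool)
      (@Bool.rec (fun _ => Bool) false (force (Nat.shiftRight P xb) fun P' =>
        force (Nat.shiftRight N xb) fun N' => ih P' N')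
        (Nat.ble (Nat.land N MX) (Nat.land P MX))) true (Nat.beq N 0)) j

theorem finLeaf_spec (xb : ℕ) (j : ℕ) (a b : ℕ → ℕ) (ha : ∀ p < j, a p < 2 ^ xb)
    (hb : ∀ p < j, b p < 2 ^ xb)
    (h : finLeaf xb (2 ^ xb - 1) j (∑ p ∈ range j, a p * (2 ^ xb) ^ p)
      (∑ p ∈ range j, b p * (2 ^ xb) ^ p) = true) : ∀ p < j, b p ≤ a p := by
  induction j generalizing a b with
  | zero => intro p hp; omega
  | succ j ih =>
    have hX : 0 < 2 ^ xb := by positivity
    have e1 : ∀ c : ℕ → ℕ, ∑ p ∈ range (j + 1), c p * (2 ^ xb) ^ p =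
        2 ^ xb * (∑ p ∈ range j, c (p + 1) * (2 ^ xb) ^ p) + c 0 := by
      intro c
      rw [Finset.sum_range_succ', Finset.mul_sum]
      congr 1
      · exact Finset.sum_congr rfl fun x _ => by ring
      · simp
    have h' : ∀ P N, finLeaf xb (2 ^ xb - 1) (j + 1) P N = @Bool.rec (fun _ => Bool)
      (@Bool.rec (fun _ => Bool) false (force (Nat.shiftRight P xb) fun P' =>
        force (Nat.shiftRight N xb) fun N' => finLeaf xb (2 ^ xb - 1) j P' N')
        (Nat.ble (Nat.land N (2 ^ xb - 1)) (Nat.land P (2 ^ xb - 1)))) true (Nat.beq N 0) :=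
      fun P N => rfl
    rw [h'] at h
    by_cases hN : Nat.beq (∑ p ∈ range (j + 1), b p * (2 ^ xb) ^ p) 0 = true
    · have h0 : ∑ p ∈ range (j + 1), b p * (2 ^ xb) ^ p = 0 := Nat.eq_of_beq_eq_true hN
      intro p hp
      have h1 := (Finset.sum_eq_zero_iff.1 h0) p (Finset.mem_range.2 hp)
      have h2 : b p = 0 := by
        rcases Nat.mul_eq_zero.1 h1 with h | h
        · exact h
        · exact absurd h (by positivity)
      rw [h2]
      exact Nat.zero_le _
    · rw [Bool.not_eq_true] at hN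
      rw [hN] at h
      simp only at h
      have hble : Nat.ble (Nat.land (∑ p ∈ range (j + 1), b p * (2 ^ xb) ^ p) (2 ^ xb - 1))
          (Nat.land (∑ p ∈ range (j + 1), a p * (2 ^ xb) ^ p) (2 ^ xb - 1)) = true := by
        by_contra hh
        rw [Bool.not_eq_true] at hh
        rw [hh] at h
        exact absurd h (by simp)
      rw [hble] at h
      simp only [force_eq] at h
      rw [land_eq, land_eq, e1, e1, Nat.mul_add_mod, Nat.mul_add_mod,
        Nat.mod_eq_of_lt (hb 0 (by omega)), Nat.mod_eq_of_lt (ha 0 (by omega))] at hble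
      rw [shr_eq, shr_eq, e1, e1, Nat.mul_add_div hX, Nat.mul_add_div hX,
        Nat.div_eq_of_lt (hb 0 (by omega)), Nat.div_eq_of_lt (ha 0 (by omega)), add_zero,
        add_zero] at h
      have h3 := ih (fun p => a (p + 1)) (fun p => b (p + 1)) (fun p hp => ha (p + 1) (by omega))
        (fun p hp => hb (p + 1) (by omega)) h
      intro p hp
      rcases p with _ | p
      · exact Nat.le_of_ble_eq_true hble
      · exact h3 p (by omega)

/-- the value is nonnegative if all digits are -/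
theorem tval_le_of_fin (xb e : ℕ) (t u : Tree e) (a b : ℕ → ℕ → ℕ) (ha : Rep xb e t a)
    (hb : Rep xb e u b) (hma : mass e a < 2 ^ xb) (hmb : mass e b < 2 ^ xb)
    (h : Tree.all2 (finLeaf xb (2 ^ xb - 1) 64) e t u = true) (f : ℕ → ℕ → ℝ)
    (hf : ∀ q p, 0 ≤ f q p) : tval e f b ≤ tval e f a := by
  unfold tval
  refine Finset.sum_le_sum fun q hq => Finset.sum_le_sum fun p hp => ?_
  have hq' := Finset.mem_range.1 hq
  have hp' := Finset.mem_range.1 hp
  have h1 := Tree.all2_spec _ e t u h q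
  rw [ha q hq', hb q hq'] at h1
  have h2 := finLeaf_spec xb 64 (a q) (b q)
    (fun i hi => lt_of_le_of_lt (le_mass e a q i hq' hi) hma)
    (fun i hi => lt_of_le_of_lt (le_mass e b q i hq' hi) hmb) h1 p hp'
  exact mul_le_mul_of_nonneg_right (by exact_mod_cast h2) (hf q p)

end MP433Sys
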