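import Pool.Agent.Work.MP_433a35_co.GB.Sys.Defs

/-!
# The weight of a code with two non-joined `F`-pairs
-/

namespace MP433Sys

open Finset

variable {S : Spec} {V : Type*} [Fintype V] (T : Sys S V)

/-- sums over tuples, last coordinate split off -/
theorem sum_snoc' (k : ℕ) (f : (Fin (k + 1) → V) → ℝ) :
    ∑ t, f t = ∑ u : Fin k → V, ∑ v : V, f (Fin.snoc (α := fun _ => V) u v) := by
  rw [← Fintype.sum_prod_type_right' (fun (v : V) (u : Fin k → V) =>
    f (Fin.snoc (α := fun _ => V) u v))]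
  exact (Fintype.sum_equiv (Fin.snocEquiv (fun _ => V)) _ _ fun x => rfl).symm

/-- the weight of an extended tuple -/
theorem wt_snoc (k H : ℕ) (u : Fin k → V) (v : V) :
    T.wt (k + 1) H [] (Fin.snoc (α := fun _ => V) u v) =
      T.wt k H [] u * ∏ i : Fin k, T.rho (dig H (idx i k)) (u i) v := by
  unfold Sys.wt
  rw [Fin.prod_univ_castSucc]
  congr 1
  · refine Finset.prod_congr rfl fun q _ => ?_
    rw [Fin.prod_univ_castSucc]
    have h1 : ¬ (Fin.last k < q.castSucc) := by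
      rw [not_lt]
      exact Fin.le_last _
    simp [h1]
  · rw [Fin.prod_univ_castSucc]
    simp [Fin.castSucc_lt_last]

theorem prod_le_single {n : ℕ} (f : Fin n → ℝ) (h0 : ∀ i, 0 ≤ f i) (h1 : ∀ i, f i ≤ 1)
    (i : Fin n) : ∏ j, f j ≤ f i := by
  rw [← Finset.mul_prod_erase univ f (Finset.mem_univ i)]
  exact mul_le_of_le_one_right (h0 i) (Finset.prod_le_one (fun j _ => h0 j) fun j _ => h1 j)

theorem wt_nonneg' (k c : ℕ) (free : List ℕ) (t : Fin k → V) : 0 ≤ T.wt k c free t := by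
  unfold Sys.wt
  refine Finset.prod_nonneg fun q _ => Finset.prod_nonneg fun p _ => ?_
  split_ifs
  · exact T.nonneg _ _ _
  · norm_num

theorem ad_nonneg (x y : V) : 0 ≤ (S.ad.map fun d => T.rho d x y).sum :=
  List.sum_nonneg fun a ha => by
    obtain ⟨d, _, rfl⟩ := List.mem_map.mp ha
    exact T.nonneg _ _ _

/-- a further position which is joined to an earlier one -/
theorem full_ext (k H i : ℕ) (hi : i < k) (h : dig H (idx i k) ≠ 0) :
    T.full (k + 1) H ≤ T.D * T.full k H := by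
  unfold Sys.full Sys.pcount
  rw [sum_snoc', Finset.mul_sum]
  refine Finset.sum_le_sum fun u _ => ?_
  simp only [wt_snoc]
  rw [← Finset.mul_sum, mul_comm T.D]
  refine mul_le_mul_of_nonneg_left ?_ (wt_nonneg' T k H [] u)
  refine le_trans (Finset.sum_le_sum fun v _ => ?_) (T.deg (u ⟨i, hi⟩))
  exact le_trans (prod_le_single _ (fun j => T.nonneg _ _ _) (fun j => T.le_one _ _ _) ⟨i, hi⟩)
    (T.adj _ _ _ h)

theorem full_four (H : ℕ) (h0 : dig H 0 ∈ S.fg) (h5 : dig H 5 ∈ S.fg) (h1 : dig H 1 = 0)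
    (h2 : dig H 2 = 0) (h3 : dig H 3 = 0) (h4 : dig H 4 = 0) : T.full 4 H ≤ T.bad := by
  unfold Sys.full Sys.pcount Sys.bad
  rw [sum_snoc', sum_snoc', sum_snoc', sum_snoc', Fintype.sum_unique]
  refine Finset.sum_le_sum fun a _ => Finset.sum_le_sum fun b _ => Finset.sum_le_sum fun c _ =>
    Finset.sum_le_sum fun d _ => ?_
  rw [wt_snoc, wt_snoc, wt_snoc, wt_snoc]
  have hw : T.wt 0 H [] default = 1 := by simp [Sys.wt]
  have e0 : (∏ i : Fin 0, T.rho (dig H (idx i 0)) ((default : Fin 0 → V) i) a) = 1 := by simp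
  have e1 : (∏ i : Fin 1, T.rho (dig H (idx i 1))
      ((Fin.snoc (α := fun _ => V) default a : Fin 1 → V) i) b) = T.rho (dig H 0) a b := by
    rw [Fin.prod_univ_one]
    rfl
  have e2 : (∏ i : Fin 2, T.rho (dig H (idx i 2))
      ((Fin.snoc (α := fun _ => V) (Fin.snoc (α := fun _ => V) default a) b : Fin 2 → V) i) c) =
      T.rho (dig H 1) a c * T.rho (dig H 2) b c := by
    rw [Fin.prod_univ_two]
    rfl
  have e3 : (∏ i : Fin 3, T.rho (dig H (idx i 3))
      ((Fin.snoc (α := fun _ => V) (Fin.snoc (α := fun _ => V) (Fin.snoc (α := fun _ => V)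
        default a) b) c : Fin 3 → V) i) d) =
      T.rho (dig H 3) a d * T.rho (dig H 4) b d * T.rho (dig H 5) c d := by
    rw [Fin.prod_univ_three]
    rfl
  rw [hw, e0, e1, e2, e3, h1, h2, h3, h4]
  have f1 := T.fig _ h0 a b
  have f2 := T.fig _ h5 c d
  have n1 := T.nonneg (dig H 0) a b
  have n2 := T.nonneg (dig H 5) c d
  have n3 : 0 ≤ T.rho 0 a c * T.rho 0 a d * T.rho 0 b c * T.rho 0 b d :=
    mul_nonneg (mul_nonneg (mul_nonneg (T.nonneg _ _ _) (T.nonneg _ _ _)) (T.nonneg _ _ _))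
      (T.nonneg _ _ _)
  calc 1 * 1 * T.rho (dig H 0) a b * (T.rho 0 a c * T.rho 0 b c) *
        (T.rho 0 a d * T.rho 0 b d * T.rho (dig H 5) c d)
      = T.rho (dig H 0) a b * T.rho (dig H 5) c d *
        (T.rho 0 a c * T.rho 0 a d * T.rho 0 b c * T.rho 0 b d) := by ring
    _ ≤ T.fi a b * T.fi c d * (T.rho 0 a c * T.rho 0 a d * T.rho 0 b c * T.rho 0 b d) :=
        mul_le_mul_of_nonneg_right (mul_le_mul f1 f2 n2 (le_trans n1 f1)) n3

theorem full_viol (k H : ℕ) (h : viol S k H = true) :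
    4 ≤ k ∧ T.full k H ≤ T.bad * T.D ^ (k - 4) := by
  unfold viol at h
  simp only [Bool.and_eq_true, Bool.or_eq_true, beq_iff_eq, bne_iff_ne, ne_eq,
    List.contains_eq_mem, decide_eq_true_eq, List.all_eq_true, List.any_eq_true,
    List.mem_range] at h
  obtain ⟨⟨⟨⟨⟨⟨⟨h0, h5⟩, h1⟩, h2⟩, h3⟩, h4⟩, hk⟩, hq⟩ := h
  refine ⟨hk, ?_⟩
  have f4 : T.full 4 H ≤ T.bad := full_four T H h0 h5 h1 h2 h3 h4
  rcases isEmpty_or_nonempty V with hV | hV
  · have e1 : T.full k H = 0 := by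
      obtain ⟨n, rfl⟩ : ∃ n, k = n + 1 := ⟨k - 1, by omega⟩
      unfold Sys.full Sys.pcount
      exact Finset.sum_eq_zero fun t _ => (hV.false (t 0)).elim
    have e2 : T.bad = 0 := by
      unfold Sys.bad
      exact Finset.sum_eq_zero fun t _ => (hV.false t).elim
    rw [e1, e2, zero_mul]
  have hD : 0 ≤ T.D := by
    obtain ⟨x⟩ := hV
    exact le_trans (Finset.sum_nonneg fun y _ => ad_nonneg T x y) (T.deg x)
  clear h0 h5 h1 h2 h3 h4
  induction k, hk using Nat.le_induction with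
  | base => simpa using f4
  | succ k hk ih =>
    have ih' := ih fun q hqk => hq q (by omega)
    obtain ⟨p, hp, hpd⟩ : ∃ p < k, dig H (idx p k) ≠ 0 := by
      rcases hq k (by omega) with h | h
      · omega
      · exact h
    calc T.full (k + 1) H ≤ T.D * T.full k H := full_ext T k H p hp hpd
      _ ≤ T.D * (T.bad * T.D ^ (k - 4)) := mul_le_mul_of_nonneg_left ih' hD
      _ = T.bad * T.D ^ (k + 1 - 4) := by
        rw [show k + 1 - 4 = (k - 4) + 1 by omega, pow_succ]
        ring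

end MP433Sys
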