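import Pool.Agent.Work.MP_433a35_co.GB.Sys.KerB
import Pool.Agent.Work.MP_433a35_co.GB.Sys.Viol

/-!
# The kernel checker: sources, completions, results (helper36)

A chunk is a list of weighted partial codes.  Its free pairs are completed one after the other (a bit
of the certificate chooses the list of digits `S.fd` or `C.alt`), every completion is relabelled by a
listed permutation and is then either dropped (`viol`, or a joined triple if `C.tf`) or found in the
table of classes.
-/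

set_option linter.unusedVariables false

namespace MP433Sys

open Finset

/-- constants and tables -/
structure Cfg where
  k : ℕ
  n : ℕ
  b : ℕ
  sh : ℕ
  nb : ℕ
  MW : ℕ
  MB : ℕ
  RS : ℕ
  MS : ℕ
  xb : ℕ
  MX : ℕ
  eW : ℕ
  e : ℕ
  qm : ℕ
  pm : ℕ
  fgm : ℕ
  jn : List (ℕ × ℕ)
  tf : Bool
  dq : ℕ
  alt : List ℕ
  nfd : ℕ
  nalt : ℕ
  tw : Tree eW
  tt : Tree e

/-- conjunction -/
noncomputable def band (x y : Bool) : Bool := @Bool.rec (fun _ => Bool) false y x

theorem band_iff (x y : Bool) : band x y = true ↔ x = true ∧ y = true := by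
  cases x <;> cases y <;> simp [band]

theorem brec_iff (x : Bool) (y : Bool) :
    @Bool.rec (fun _ => Bool) false y x = true ↔ x = true ∧ y = true := by
  cases x <;> cases y <;> simp

/-- number of the permutation `j` -/
noncomputable def Cfg.W (C : Cfg) (j : ℕ) : ℕ :=
  Nat.land (Nat.shiftRight (Tree.get C.eW C.tw j) (Nat.mul C.nb (Nat.shiftRight j C.eW))) C.MW

/-- code of the class with the slot `(q, p)` -/
noncomputable def Cfg.T (C : Cfg) (q p : ℕ) : ℕ :=
  Nat.land (Nat.shiftRight (Tree.get C.e C.tt q) (Nat.mul C.b p)) C.MB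

/-- every further position is joined to an earlier one -/
noncomputable def jnF (r : ℕ) (jn : List (ℕ × ℕ)) : Bool :=
  @List.rec (ℕ × ℕ) (fun _ => Bool) true
    (fun x _ ih => band (Nat.ble 1 (Nat.land (Nat.shiftRight r x.1) x.2)) ih) jn

/-- fast form of `viol` -/
noncomputable def violF (C : Cfg) (r : ℕ) : Bool :=
  band (Nat.ble 4 C.k) (band (Nat.beq (Nat.land (Nat.shiftRight C.fgm (Nat.land r 7)) 1) 1)
    (band (Nat.beq (Nat.land (Nat.shiftRight C.fgm (Nat.land (Nat.shiftRight r 15) 7)) 1) 1)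
      (band (Nat.beq (Nat.land (Nat.shiftRight r 3) 4095) 0) (jnF r C.jn))))

/-- the first three positions are joined -/
noncomputable def triF (r : ℕ) : Bool :=
  band (Nat.ble 1 (Nat.land r 7)) (band (Nat.ble 1 (Nat.land (Nat.shiftRight r 3) 7))
    (Nat.ble 1 (Nat.land (Nat.shiftRight r 6) 7)))

/-- the code may be dropped -/
noncomputable def Cfg.drop (C : Cfg) (r : ℕ) : Bool :=
  @Bool.rec (fun _ => Bool) (violF C r) (@Bool.rec (fun _ => Bool) (violF C r) true (triF r)) C.tf

/-- a completion that is found in the table -/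
noncomputable def itemN (C : Cfg) (w st : ℕ) (acc : Tree C.e) (K : ℕ → Tree C.e → Bool)
    (r q p : ℕ) : Bool :=
  @Bool.rec (fun _ => Bool) false
    (Tree.upd C.e acc q (Nat.shiftLeft w (Nat.mul C.xb p))
      (fun acc' => K (Nat.shiftRight st 32) acc')) (Nat.beq r (C.T q p))

/-- one completion, decoded -/
noncomputable def itemR (C : Cfg) (w st : ℕ) (acc : Tree C.e) (K : ℕ → Tree C.e → Bool)
    (r q0 : ℕ) : Bool :=
  @Bool.rec (fun _ => Bool)
    (force (Nat.land q0 C.qm) fun q => force (Nat.land (Nat.shiftRight st 26) 63) fun p =>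
      itemN C w st acc K r q p)
    (@Bool.rec (fun _ => Bool) false (K (Nat.shiftRight st 32) acc) (C.drop r))
    (Nat.ble C.dq q0)

/-- one completion -/
noncomputable def item (C : Cfg) (w sp st : ℕ) (acc : Tree C.e) (K : ℕ → Tree C.e → Bool) : Bool :=
  force (Nat.land st C.pm) fun j =>
  force (Nat.land (Nat.shiftRight (Nat.mul sp (C.W j)) C.sh) C.MB) fun r =>
  force (Nat.land (Nat.shiftRight st 12) 16383) fun q0 => itemR C w st acc K r q0

/-- list of the digits of a free pair -/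
noncomputable def digs (S : Spec) (C : Cfg) (ch : ℕ) : List ℕ :=
  @Nat.rec (fun _ => List ℕ) S.fd (fun _ _ => C.alt) (Nat.land ch 1)

/-- all completions -/
noncomputable def expand (S : Spec) (C : Cfg) (w : ℕ) (fr : List ℕ) :
    ℕ → ℕ → ℕ → Tree C.e → (ℕ → Tree C.e → Bool) → Bool :=
  @List.rec ℕ (fun _ => ℕ → ℕ → ℕ → Tree C.e → (ℕ → Tree C.e → Bool) → Bool)
    (fun sp _ st acc K => item C w sp st acc K)
    (fun i _ ih sp ch st acc K =>
      @List.rec ℕ (fun _ => ℕ → Tree C.e → Bool) K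
        (fun d _ rest st acc =>
          ih (Nat.add sp (Nat.shiftLeft d (Nat.mul C.b i))) (Nat.shiftRight ch 1) st acc rest)
        (digs S C ch) st acc)
    fr

/-- number of completions -/
noncomputable def cpl (C : Cfg) (fr : List ℕ) : ℕ → ℕ :=
  @List.rec ℕ (fun _ => ℕ → ℕ) (fun _ => 1)
    (fun _ _ ih ch => Nat.mul (@Nat.rec (fun _ => ℕ) C.nfd (fun _ _ => C.nalt) (Nat.land ch 1))
      (ih (Nat.shiftRight ch 1))) fr

/-- the free pairs are different and have the digit `0` -/
noncomputable def frOK (C : Cfg) (fr : List ℕ) : ℕ → Bool :=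
  @List.rec ℕ (fun _ => ℕ → Bool) (fun _ => true)
    (fun i _ ih c => band (Nat.ble (Nat.succ i) C.n)
      (band (Nat.beq (Nat.land (Nat.shiftRight c (Nat.mul 3 i)) 7) 0)
        (ih (Nat.add c (Nat.shiftLeft 7 (Nat.mul 3 i)))))) fr

/-- all sources -/
noncomputable def srcs (S : Spec) (C : Cfg) (L : List Src) :
    List (ℕ × ℕ) → Tree C.e → Tree C.e → ℕ → (Tree C.e → Tree C.e → ℕ → Bool) → Bool :=
  @List.rec Src (fun _ => List (ℕ × ℕ) → Tree C.e → Tree C.e → ℕ →
      (Tree C.e → Tree C.e → ℕ → Bool) → Bool)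
    (fun cs P N M K => @List.rec (ℕ × ℕ) (fun _ => Bool) (K P N M) (fun _ _ _ => false) cs)
    (fun x _ ih cs P N M K => @List.rec (ℕ × ℕ) (fun _ => Bool) false
      (fun y cs' _ =>
        force x.c fun c =>
        band (band (Nat.beq (Nat.shiftRight c (Nat.mul 3 C.n)) 0) (frOK C x.free c))
          (force (Nat.land (Nat.mul c C.RS) C.MS) fun sp =>
            @Int.rec (fun _ => Bool)
              (fun w => expand S C w x.free sp y.1 y.2 P (fun st P' =>
                force (Nat.add M (Nat.mul w (cpl C x.free y.1))) fun M' =>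
                band (Nat.beq st 0) (ih cs' P' N M' K)))
              (fun w => expand S C (Nat.succ w) x.free sp y.1 y.2 N (fun st N' =>
                force (Nat.add M (Nat.mul (Nat.succ w) (cpl C x.free y.1))) fun M' =>
                band (Nat.beq st 0) (ih cs' P N' M' K)))
              x.w)) cs) L

/-- packed entries (class, weight) -/
noncomputable def ents (C : Cfg) (fuel : ℕ) : ℕ → Tree C.e → ℕ → (Tree C.e → ℕ → Bool) → Bool :=
  @Nat.rec (fun _ => ℕ → Tree C.e → ℕ → (Tree C.e → ℕ → Bool) → Bool)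
    (fun r acc M K => band (Nat.beq r 0) (K acc M))
    (fun _ ih r acc M K => @Bool.rec (fun _ => Bool)
      (force (Nat.land (Nat.shiftRight r 20) C.MX) fun v =>
        Tree.upd C.e acc (Nat.land r C.qm)
          (Nat.shiftLeft v (Nat.mul C.xb (Nat.land (Nat.shiftRight r 14) 63)))
          (fun acc' => force (Nat.shiftRight r (Nat.add 20 C.xb)) fun r' =>
            force (Nat.add M v) fun M' => ih r' acc' M' K))
      (K acc M) (Nat.beq r 0)) fuel

/-- a list of packed entries -/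
noncomputable def resl (C : Cfg) (RL : List ℕ) : Tree C.e → ℕ → (Tree C.e → ℕ → Bool) → Bool :=
  @List.rec ℕ (fun _ => Tree C.e → ℕ → (Tree C.e → ℕ → Bool) → Bool)
    (fun acc M K => K acc M)
    (fun r _ ih acc M K => ents C 64 r acc M (fun acc' M' => ih acc' M' K)) RL

/-- results: the first component is added to `N`, the second to `P` -/
noncomputable def resRows (C : Cfg) (R : List (List ℕ × List ℕ)) :
    Tree C.e → Tree C.e → ℕ → (Tree C.e → Tree C.e → ℕ → Bool) → Bool :=
  @List.rec (List ℕ × List ℕ) (fun _ => Tree C.e → Tree C.e → ℕ →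
      (Tree C.e → Tree C.e → ℕ → Bool) → Bool)
    (fun P N M K => K P N M)
    (fun x _ ih P N M K => resl C x.1 N M (fun N' M' => resl C x.2 P M' (fun P' M'' =>
      ih P' N' M'' K))) R

/-- check of a chunk with the result `R` and the total weight `E` -/
noncomputable def chunkOK (S : Spec) (C : Cfg) (L : List Src) (cs : List (ℕ × ℕ))
    (R : List (List ℕ × List ℕ)) (E : ℕ) : Bool :=
  srcs S C L cs (Tree.zero C.e) (Tree.zero C.e) 0 fun P N M =>
    band (Nat.beq M E) (resRows C R P N M fun P' N' M' =>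
      band (Nat.ble (Nat.succ M') (Nat.pow 2 C.xb)) (Tree.all2 Nat.beq C.e P' N'))

/-- the sum of the results is nonnegative on every class -/
noncomputable def mergeOK (C : Cfg) (R : List (List ℕ × List ℕ)) : Bool :=
  resRows C R (Tree.zero C.e) (Tree.zero C.e) 0 fun N P M =>
    band (Nat.ble (Nat.succ M) (Nat.pow 2 C.xb)) (Tree.all2 (finLeaf C.xb C.MX 64) C.e P N)

/-! ### the configuration -/

/-- geometric sum -/
def geo (v s : ℕ) : ℕ → ℕ
  | 0 => 0
  | n + 1 => geo v s n + v * 2 ^ (s * n)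

theorem geo_eq (v s n : ℕ) : geo v s n = ∑ i ∈ range n, v * (2 ^ s) ^ i := by
  induction n with
  | zero => simp [geo]
  | succ n ih => rw [geo, ih, Finset.sum_range_succ, pow_mul]

/-- check of the table of permutations -/
noncomputable def tabOK (C : Cfg) (ws : List (ℕ × ℕ)) : ℕ → Bool :=
  @List.rec (ℕ × ℕ) (fun _ => ℕ → Bool) (fun j => Nat.beq j (C.pm + 1))
    (fun x _ ih j => band (entryOK C.k C.n C.b (C.W j) x.1 x.2) (ih (Nat.succ j))) ws

/-- check of the constants -/
noncomputable def cfgOK (S : Spec) (C : Cfg) : Bool :=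
  decide (C.k ≤ 8) && decide (0 < C.n) && decide (C.n = npr C.k) && decide (C.b = 3 * (C.n + 1)) &&
  decide (C.nb = C.b * C.n) && decide (C.sh = C.b * (C.n - 1)) && decide (C.MW = 2 ^ C.nb - 1) &&
  decide (C.MB = 2 ^ C.b - 1) && decide (C.RS = geo 1 (3 * C.n) C.n) &&
  decide (C.MS = geo 7 C.b C.n) && decide (C.MX = 2 ^ C.xb - 1) && decide (C.qm = 2 ^ C.e - 1) &&
  (S.fd.all fun d => decide (d < 8)) && (C.alt.all fun d => decide (d < 8)) &&
  decide (C.nfd = S.fd.length) && decide (C.nalt = C.alt.length) &&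
  ((List.range 8).all fun d => decide (C.fgm / 2 ^ d % 2 = 1) == false || S.fg.contains d) &&
  decide (C.jn = ((List.range C.k).filter fun q => 4 ≤ q).map fun q => (3 * npr q, 8 ^ q - 1))

/-- the properties of the constants -/
structure Cfg.Ok (S : Spec) (C : Cfg) : Prop where
  hk : C.k ≤ 8
  hn0 : 0 < C.n
  hn : C.n = npr C.k
  hb : C.b = 3 * (C.n + 1)
  hnb : C.nb = C.b * C.n
  hsh : C.sh = C.b * (C.n - 1)
  hMW : C.MW = 2 ^ C.nb - 1
  hMB : C.MB = 2 ^ C.b - 1
  hRS : C.RS = geo 1 (3 * C.n) C.n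
  hMS : C.MS = geo 7 C.b C.n
  hMX : C.MX = 2 ^ C.xb - 1
  hqm : C.qm = 2 ^ C.e - 1
  hfd : ∀ d ∈ S.fd, d < 8
  halt : ∀ d ∈ C.alt, d < 8
  hnfd : C.nfd = S.fd.length
  hnalt : C.nalt = C.alt.length
  hfg : ∀ d < 8, C.fgm / 2 ^ d % 2 = 1 → S.fg.contains d = true
  hjn : C.jn = ((List.range C.k).filter fun q => 4 ≤ q).map fun q => (3 * npr q, 8 ^ q - 1)
  hW : ∀ j ≤ C.pm, ∃ w s, entryOK C.k C.n C.b (C.W j) w s = true

theorem tabOK_spec (C : Cfg) (ws : List (ℕ × ℕ)) (j : ℕ) (h : tabOK C ws j = true) :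
    ∀ i, j ≤ i → i ≤ C.pm → ∃ w s, entryOK C.k C.n C.b (C.W i) w s = true := by
  induction ws generalizing j with
  | nil =>
    intro i hj hi
    have h1 : j = C.pm + 1 := Nat.eq_of_beq_eq_true h
    omega
  | cons x ws ih =>
    have h' : band (entryOK C.k C.n C.b (C.W j) x.1 x.2) (tabOK C ws (Nat.succ j)) = true := h
    rw [band_iff] at h'
    intro i hj hi
    rcases Nat.eq_or_lt_of_le hj with rfl | hlt
    · exact ⟨x.1, x.2, h'.1⟩
    · exact ih _ h'.2 i hlt hi

theorem cfg_ok (S : Spec) (C : Cfg) (ws : List (ℕ × ℕ)) (h : cfgOK S C = true)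
    (hw : tabOK C ws 0 = true) : C.Ok S := by
  unfold cfgOK at h
  simp only [Bool.and_eq_true, decide_eq_true_eq, List.all_eq_true] at h
  obtain ⟨⟨⟨⟨⟨⟨⟨⟨⟨⟨⟨⟨⟨⟨⟨⟨⟨h1, h2⟩, h3⟩, h4⟩, h5⟩, h6⟩, h7⟩, h8⟩, h9⟩, h10⟩, h11⟩, h12⟩, h13⟩, h14⟩,
    h15⟩, h16⟩, h17⟩, h18⟩ := h
  refine ⟨h1, h2, h3, h4, h5, h6, h7, h8, h9, h10, h11, h12, h13, h14, h15, h16, ?_, h18,
    fun j hj => tabOK_spec C ws 0 hw j (Nat.zero_le _) hj⟩
  intro d hd hb
  have h := h17 d (List.mem_range.2 hd)
  rw [Bool.or_eq_true] at h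
  rcases h with h | h
  · rw [beq_iff_eq, decide_eq_false_iff_not] at h
    exact absurd hb h
  · exact h

end MP433Sys
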