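import Pool.Agent.Work.MP_433a35_co.GB.Sys.KerC

/-!
# The kernel checker: specifications (helper36)
-/

set_option linter.unusedVariables false

namespace MP433Sys

open Finset

variable {S : Spec} {V : Type*} [Fintype V] (T : Sys S V)

/-- bound of a dropped code -/
noncomputable def bt {S : Spec} {V : Type*} [Fintype V] (T : Sys S V) (k : ℕ) : ℝ :=
  if k < 4 then 0 else T.bad * T.D ^ (k - 4)

/-- what has to be known of the system -/
structure Hyp {S : Spec} {V : Type*} [Fintype V] (T : Sys S V) (C : Cfg) : Prop where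
  bt : 0 ≤ bt T C.k
  alt : ∀ x y, (C.alt.map fun d => T.rho d x y).sum = 1
  tri : C.tf = true → ∀ r, dig r 0 ≠ 0 → dig r 1 ≠ 0 → dig r 2 ≠ 0 → T.full C.k r = 0

/-- completion of a free pair with any list of digits of sum one -/
theorem pcount_list (k c i : ℕ) (free : List ℕ) (Ld : List ℕ) (hi : i < npr k) (hf : i ∉ free)
    (hc : dig c i = 0) (hfd : ∀ d ∈ Ld, d < 8)
    (hsum : ∀ x y, (Ld.map fun d => T.rho d x y).sum = 1) :
    T.pcount k c (i :: free) = (Ld.map fun d => T.pcount k (c + d * 8 ^ i) free).sum := by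
  obtain ⟨p, q, hpq, hqk, hidx⟩ := exists_idx k i hi
  have hs : ∀ L : List ℕ, (L.map fun d => T.pcount k (c + d * 8 ^ i) free).sum =
      ∑ t : Fin k → V, (L.map fun d => T.wt k (c + d * 8 ^ i) free t).sum := by
    intro L
    induction L with
    | nil => simp
    | cons a L ih =>
      simp only [List.map_cons, List.sum_cons, Finset.sum_add_distrib, ih]
      rfl
  rw [hs]
  unfold Sys.pcount
  refine Finset.sum_congr rfl fun t _ => ?_
  have key : ∀ d ∈ Ld, T.wt k (c + d * 8 ^ i) free t =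
      T.rho d (t ⟨p, by omega⟩) (t ⟨q, hqk⟩) * T.wt k c (i :: free) t := by
    intro d hd
    subst hidx
    exact wt_split T k c free t ⟨p, by omega⟩ ⟨q, hqk⟩ hpq d (hfd d hd) hf hc
  rw [List.map_congr_left key, List.sum_map_mul_right, hsum, one_mul]

/-- value of the class with slot `(q, p)` -/
noncomputable def fval (C : Cfg) (q p : ℕ) : ℝ := T.full C.k (C.T q p)

theorem Cfg.W_le {C : Cfg} (hC : C.Ok S) (j : ℕ) (hj : j ≤ C.pm) :
    ∃ w s, permOK C.k w s = true ∧ ∀ c, spread (2 ^ C.b) C.n c * C.W j / 2 ^ C.sh % 2 ^ C.b =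
      relab C.n c w := by
  obtain ⟨w, s, h⟩ := hC.hW j hj
  have hb := hC.hb
  refine ⟨w, s, ?_, fun c => ?_⟩
  · rw [hb] at h
    exact (entry_spec C.k C.n (C.W j) w s 0 hC.hn hC.hn0 h).1
  · rw [hb] at h
    have h2 := (entry_spec C.k C.n (C.W j) w s c hC.hn hC.hn0 h).2
    have e1 : (2 : ℕ) ^ (C.b * (C.n - 1)) = (2 ^ C.b) ^ (C.n - 1) := pow_mul _ _ _
    rw [hC.hsh, e1]
    rw [← hb] at h2
    exact h2

theorem jnF_spec (r : ℕ) (L : List ℕ) (h : jnF r (L.map fun q => (3 * npr q, 8 ^ q - 1)) = true) :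
    ∀ q ∈ L, r / 8 ^ npr q % 8 ^ q ≠ 0 := by
  induction L with
  | nil => intro q hq; exact absurd hq (by simp)
  | cons a L ih =>
    have h' : band (Nat.ble 1 (Nat.land (Nat.shiftRight r (3 * npr a)) (8 ^ a - 1)))
      (jnF r (L.map fun q => (3 * npr q, 8 ^ q - 1))) = true := h
    rw [band_iff] at h'
    intro q hq
    rcases List.mem_cons.1 hq with rfl | hq
    · have h1 := Nat.le_of_ble_eq_true h'.1
      have e8 : ∀ m, (8 : ℕ) ^ m = 2 ^ (3 * m) := fun m => by rw [pow_mul]; norm_num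
      rw [e8 q, land_eq, shr_eq] at h1
      rw [e8, e8]
      omega
    · exact ih h'.2 q hq

theorem exists_dig_ne (q x : ℕ) (h : x % 8 ^ q ≠ 0) : ∃ p < q, dig x p ≠ 0 := by
  induction q with
  | zero => simp [Nat.mod_one] at h
  | succ q ih =>
    by_cases h0 : x % 8 ^ q = 0
    · refine ⟨q, Nat.lt_succ_self q, ?_⟩
      unfold dig
      intro h1
      apply h
      rw [pow_succ, Nat.mod_mul, h0, h1, mul_zero, add_zero]
    · obtain ⟨p, hp, hd⟩ := ih h0
      exact ⟨p, by omega, hd⟩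

theorem violF_spec {C : Cfg} (hC : C.Ok S) (r : ℕ) (h : violF C r = true) :
    viol S C.k r = true := by
  unfold violF at h
  rw [band_iff, band_iff, band_iff, band_iff] at h
  obtain ⟨h1, h2, h3, h4, h5⟩ := h
  have h1' := Nat.le_of_ble_eq_true h1
  have h2' := Nat.eq_of_beq_eq_true h2
  have h3' := Nat.eq_of_beq_eq_true h3
  have h4' := Nat.eq_of_beq_eq_true h4
  rw [hC.hjn] at h5
  have h5' := jnF_spec r _ h5
  have e7 : (7 : ℕ) = 2 ^ 3 - 1 := by norm_num
  have e4 : (4095 : ℕ) = 2 ^ 12 - 1 := by norm_num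
  rw [land_one, shr_eq, e7, land_eq] at h2'
  rw [land_one, shr_eq, e7, land_eq, shr_eq] at h3'
  rw [shr_eq, e4, land_eq] at h4'
  have d0 : dig r 0 = r % 2 ^ 3 := by unfold dig; norm_num
  have d5 : dig r 5 = r / 2 ^ 15 % 2 ^ 3 := by unfold dig; norm_num
  have g0 := hC.hfg (dig r 0) (dig_lt r 0) (by rw [d0]; exact h2')
  have g5 := hC.hfg (dig r 5) (dig_lt r 5) (by rw [d5]; exact h3')
  have g1 : dig r 1 = 0 := by unfold dig; omega
  have g2 : dig r 2 = 0 := by unfold dig; omega
  have g3 : dig r 3 = 0 := by unfold dig; omega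
  have g4 : dig r 4 = 0 := by unfold dig; omega
  unfold viol
  simp only [Bool.and_eq_true, beq_iff_eq, decide_eq_true_eq]
  refine ⟨⟨⟨⟨⟨⟨⟨g0, g5⟩, g1⟩, g2⟩, g3⟩, g4⟩, h1'⟩, ?_⟩
  rw [List.all_eq_true]
  intro q hq
  rw [Bool.or_eq_true, decide_eq_true_eq]
  by_cases hq4 : q < 4
  · exact Or.inl hq4
  · right
    rw [List.any_eq_true]
    have h6 := h5' q (by rw [List.mem_filter]; exact ⟨hq, by rw [decide_eq_true_eq]; omega⟩)
    obtain ⟨p, hp, hd⟩ := exists_dig_ne q _ h6
    refine ⟨p, List.mem_range.2 hp, ?_⟩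
    rw [bne_iff_ne]
    have : dig r (idx p q) = dig (r / 8 ^ npr q) p := by
      unfold dig
      rw [idx_eq, pow_add, Nat.div_div_eq_div_mul]
    rw [this]
    exact hd

theorem drop_spec {C : Cfg} (hC : C.Ok S) (hT : Hyp T C) (r : ℕ) (h : C.drop r = true) :
    T.full C.k r ≤ bt T C.k := by
  have hv : violF C r = true → T.full C.k r ≤ bt T C.k := by
    intro h
    obtain ⟨h4, h5⟩ := full_viol T C.k r (violF_spec hC r h)
    unfold bt
    rw [if_neg (by omega)]
    exact h5
  unfold Cfg.drop at h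
  cases htf : C.tf
  · rw [htf] at h
    exact hv h
  · rw [htf] at h
    cases htr : triF r
    · simp only [htr] at h
      exact hv h
    · unfold triF at htr
      rw [band_iff, band_iff] at htr
      obtain ⟨h1, h2, h3⟩ := htr
      have e7 : (7 : ℕ) = 2 ^ 3 - 1 := by norm_num
      have h1' := Nat.le_of_ble_eq_true h1
      have h2' := Nat.le_of_ble_eq_true h2
      have h3' := Nat.le_of_ble_eq_true h3
      rw [e7, land_eq] at h1' h2' h3'
      rw [shr_eq] at h2' h3'
      rw [hT.tri htf r (by unfold dig; norm_num at h1' ⊢; omega)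
        (by unfold dig; norm_num at h2' ⊢; omega) (by unfold dig; norm_num at h3' ⊢; omega)]
      exact hT.bt

theorem land63 (x : ℕ) : Nat.land x 63 < 64 := by
  have h : (63 : ℕ) = 2 ^ 6 - 1 := by norm_num
  rw [h, land_eq]
  exact Nat.mod_lt _ (by norm_num)

theorem itemN_spec (C : Cfg) (w st : ℕ) (acc : Tree C.e) (K : ℕ → Tree C.e → Bool)
    (r q p : ℕ) (h : itemN C w st acc K r q p = true) :
    r = C.T q p ∧ K (Nat.shiftRight st 32) (Tree.add C.e acc q (w * 2 ^ (C.xb * p))) = true := by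
  unfold itemN at h
  rw [brec_iff, Tree.upd_eq, shl_eq] at h
  exact ⟨Nat.eq_of_beq_eq_true h.1, h.2⟩

theorem itemR_spec {C : Cfg} (hC : C.Ok S) (w st : ℕ) (acc : Tree C.e)
    (K : ℕ → Tree C.e → Bool) (r q0 : ℕ) (h : itemR C w st acc K r q0 = true) :
    (∃ q p, q < 2 ^ C.e ∧ p < 64 ∧ r = C.T q p ∧
      K (Nat.shiftRight st 32) (Tree.add C.e acc q (w * 2 ^ (C.xb * p))) = true) ∨
    (C.drop r = true ∧ K (Nat.shiftRight st 32) acc = true) := by
  unfold itemR at h
  cases hq : Nat.ble C.dq q0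
  · rw [hq] at h
    have h0 : (force (Nat.land q0 C.qm) fun q => force (Nat.land (Nat.shiftRight st 26) 63) fun p =>
      itemN C w st acc K r q p) = true := h
    rw [force_eq, force_eq] at h0
    obtain ⟨h1, h2⟩ := itemN_spec C w st acc K r _ _ h0
    refine Or.inl ⟨_, _, ?_, land63 _, h1, h2⟩
    rw [hC.hqm, land_eq]
    exact Nat.mod_lt _ (by positivity)
  · rw [hq] at h
    have h' : @Bool.rec (fun _ => Bool) false (K (Nat.shiftRight st 32) acc) (C.drop r) = true := h
    rw [brec_iff] at h'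
    exact Or.inr h'

theorem item_eq (C : Cfg) (w sp st : ℕ) (acc : Tree C.e) (K : ℕ → Tree C.e → Bool) :
    item C w sp st acc K = itemR C w st acc K
      (Nat.land (Nat.shiftRight (Nat.mul sp (C.W (Nat.land st C.pm))) C.sh) C.MB)
      (Nat.land (Nat.shiftRight st 12) 16383) := by
  unfold item
  rw [force_eq, force_eq, force_eq]

/-- one completion -/
theorem item_spec {C : Cfg} (hC : C.Ok S) (hT : Hyp T C) (w c st : ℕ) (acc : Tree C.e)
    (K : ℕ → Tree C.e → Bool) (a : ℕ → ℕ → ℕ) (ha : Rep C.xb C.e acc a)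
    (h : item C w (spread (2 ^ C.b) C.n c) st acc K = true) :
    ∃ st' acc' a', K st' acc' = true ∧ Rep C.xb C.e acc' a' ∧
      tval C.e (fval T C) a' ≤ tval C.e (fval T C) a + w * T.full C.k c ∧
      tval C.e (fval T C) a + w * T.full C.k c ≤ tval C.e (fval T C) a' + w * bt T C.k ∧
      mass C.e a' ≤ mass C.e a + w := by
  rw [item_eq] at h
  have hj' : Nat.land st C.pm ≤ C.pm := Nat.and_le_right
  obtain ⟨w', s', hperm, hrel⟩ := Cfg.W_le hC _ hj'
  have hr' : Nat.land (Nat.shiftRight (Nat.mul (spread (2 ^ C.b) C.n c)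
      (C.W (Nat.land st C.pm))) C.sh) C.MB = relab (npr C.k) c w' := by
    rw [hC.hMB, land_eq, shr_eq, ← hC.hn]
    exact hrel c
  rw [hr'] at h
  have hfull : T.full C.k (relab (npr C.k) c w') = T.full C.k c :=
    full_relab T C.k c w' s' hC.hk hperm
  have hbt := hT.bt
  have hw0 : (0 : ℝ) ≤ w := Nat.cast_nonneg w
  have hc0 : 0 ≤ T.full C.k c := full_nonneg T C.k c
  rcases itemR_spec hC w st acc K _ _ h with ⟨q, p, hq, hp, hrT, hK⟩ | ⟨hdrop, hK⟩
  · have hf : fval T C q p = T.full C.k c := by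
      unfold fval
      rw [← hrT, hfull]
    refine ⟨_, _, bump a q p w, hK, rep_add C.xb C.e acc a q p w hq hp ha, ?_, ?_, ?_⟩
    · rw [tval_bump _ _ _ _ _ _ hq hp, hf]
    · rw [tval_bump _ _ _ _ _ _ hq hp, hf]
      have := mul_nonneg hw0 hbt
      linarith
    · rw [mass_bump _ _ _ _ _ hq hp]
  · refine ⟨_, _, a, hK, ha, ?_, ?_, Nat.le_add_right _ _⟩
    · have := mul_nonneg hw0 hc0
      linarith
    · have h1 := drop_spec T hC hT _ hdrop
      rw [hfull] at h1
      have := mul_le_mul_of_nonneg_left h1 hw0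
      linarith

theorem digs_spec {C : Cfg} (hC : C.Ok S) (hT : Hyp T C) (ch : ℕ) :
    (∀ d ∈ digs S C ch, d < 8) ∧ (∀ x y, ((digs S C ch).map fun d => T.rho d x y).sum = 1) ∧
    (digs S C ch).length = @Nat.rec (fun _ => ℕ) C.nfd (fun _ _ => C.nalt) (Nat.land ch 1) := by
  unfold digs
  rw [pick, pick]
  split_ifs with h
  · exact ⟨hC.hfd, T.free, hC.hnfd.symm⟩
  · exact ⟨hC.halt, hT.alt, hC.hnalt.symm⟩

theorem cpl_cons (C : Cfg) (i : ℕ) (fr : List ℕ) (ch : ℕ) :
    cpl C (i :: fr) ch = @Nat.rec (fun _ => ℕ) C.nfd (fun _ _ => C.nalt) (Nat.land ch 1) *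
      cpl C fr (Nat.shiftRight ch 1) := rfl

/-- all completions of a partial code -/
theorem expand_spec {C : Cfg} (hC : C.Ok S) (hT : Hyp T C) (w : ℕ) (fr : List ℕ) :
    ∀ (c ch st : ℕ) (acc : Tree C.e) (K : ℕ → Tree C.e → Bool) (a : ℕ → ℕ → ℕ),
    fr.Nodup → (∀ i ∈ fr, i < C.n ∧ dig c i = 0) → Rep C.xb C.e acc a →
    expand S C w fr (spread (2 ^ C.b) C.n c) ch st acc K = true →
    ∃ st' acc' a', K st' acc' = true ∧ Rep C.xb C.e acc' a' ∧
      tval C.e (fval T C) a' ≤ tval C.e (fval T C) a + w * T.pcount C.k c fr ∧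
      tval C.e (fval T C) a + w * T.pcount C.k c fr ≤
        tval C.e (fval T C) a' + (w * cpl C fr ch : ℕ) * bt T C.k ∧
      mass C.e a' ≤ mass C.e a + w * cpl C fr ch := by
  induction fr with
  | nil =>
    intro c ch st acc K a _ _ ha h
    have h' : item C w (spread (2 ^ C.b) C.n c) st acc K = true := h
    obtain ⟨st', acc', a', h1, h2, h3, h4, h5⟩ := item_spec T hC hT w c st acc K a ha h'
    have e1 : cpl C [] ch = 1 := rfl
    refine ⟨st', acc', a', h1, h2, h3, ?_, ?_⟩
    · rw [e1, mul_one]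
      exact h4
    · rw [e1, mul_one]
      exact h5
  | cons i fr ih =>
    intro c ch st acc K a hnd hfr ha h
    obtain ⟨hin, hci⟩ := hfr i (List.mem_cons_self)
    rw [List.nodup_cons] at hnd
    obtain ⟨hd8, hsum, hlen⟩ := digs_spec T hC hT ch
    have hpc := pcount_list T C.k c i fr (digs S C ch) (by rw [← hC.hn]; exact hin) hnd.1 hci hd8
      hsum
    rw [cpl_cons, ← hlen, hpc]
    have h' : @List.rec ℕ (fun _ => ℕ → Tree C.e → Bool) K
        (fun d _ rest st acc =>
          expand S C w fr (Nat.add (spread (2 ^ C.b) C.n c) (Nat.shiftLeft d (Nat.mul C.b i)))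
            (Nat.shiftRight ch 1) st acc rest)
        (digs S C ch) st acc = true := h
    clear h hpc hlen hsum
    generalize digs S C ch = Ld at hd8 h'
    induction Ld generalizing st acc a with
    | nil =>
      refine ⟨st, acc, a, h', ha, ?_, ?_, ?_⟩
      · simp
      · simp
      · simp
    | cons d Ld ihL =>
      have hd : d < 8 := hd8 d (List.mem_cons_self)
      have h2 : expand S C w fr (Nat.add (spread (2 ^ C.b) C.n c)
          (Nat.shiftLeft d (Nat.mul C.b i))) (Nat.shiftRight ch 1) st acc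
        (fun st acc => @List.rec ℕ (fun _ => ℕ → Tree C.e → Bool) K
        (fun d _ rest st acc =>
          expand S C w fr (Nat.add (spread (2 ^ C.b) C.n c) (Nat.shiftLeft d (Nat.mul C.b i)))
            (Nat.shiftRight ch 1) st acc rest)
        Ld st acc) = true := h'
      have hsp : Nat.add (spread (2 ^ C.b) C.n c) (Nat.shiftLeft d (Nat.mul C.b i)) =
          spread (2 ^ C.b) C.n (c + d * 8 ^ i) := by
        rw [spread_add _ _ _ _ _ hin hd hci, shl_eq]
        change spread (2 ^ C.b) C.n c + d * 2 ^ (C.b * i) = _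
        rw [pow_mul]
      rw [hsp] at h2
      obtain ⟨st1, acc1, a1, k1, k2, k3, k4, k5⟩ := ih (c + d * 8 ^ i) (Nat.shiftRight ch 1) st acc
        _ a hnd.2 (fun j hj => ⟨(hfr j (List.mem_cons_of_mem _ hj)).1, by
          rw [dig_add_ne hci hd (fun h => hnd.1 (h ▸ hj))]
          exact (hfr j (List.mem_cons_of_mem _ hj)).2⟩) ha h2
      obtain ⟨st2, acc2, a2, l1, l2, l3, l4, l5⟩ := ihL st1 acc1 a1 k2
        (fun d hd => hd8 d (List.mem_cons_of_mem _ hd)) k1
      refine ⟨st2, acc2, a2, l1, l2, ?_, ?_, ?_⟩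
      · rw [List.map_cons, List.sum_cons, mul_add]
        linarith
      · rw [List.map_cons, List.sum_cons, mul_add, List.length_cons]
        push_cast at k4 l4 ⊢
        nlinarith [k4, l4]
      · rw [List.length_cons]
        calc mass C.e a2 ≤ mass C.e a1 + w * (Ld.length * cpl C fr (Nat.shiftRight ch 1)) := l5
          _ ≤ mass C.e a + w * cpl C fr (Nat.shiftRight ch 1) +
              w * (Ld.length * cpl C fr (Nat.shiftRight ch 1)) := Nat.add_le_add_right k5 _
          _ = mass C.e a + w * ((Ld.length + 1) * cpl C fr (Nat.shiftRight ch 1)) := by ring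

theorem frOK_spec (C : Cfg) (fr : List ℕ) : ∀ c, frOK C fr c = true →
    fr.Nodup ∧ ∀ i ∈ fr, i < C.n ∧ dig c i = 0 := by
  induction fr with
  | nil => intro c _; exact ⟨List.nodup_nil, fun i hi => absurd hi (by simp)⟩
  | cons i fr ih =>
    intro c h
    have h' : band (Nat.ble (Nat.succ i) C.n)
      (band (Nat.beq (Nat.land (Nat.shiftRight c (Nat.mul 3 i)) 7) 0)
        (frOK C fr (Nat.add c (Nat.shiftLeft 7 (Nat.mul 3 i))))) = true := h
    rw [band_iff, band_iff] at h'
    obtain ⟨h1, h2, h3⟩ := h'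
    have hi : i < C.n := Nat.le_of_ble_eq_true h1
    have e7 : (7 : ℕ) = 2 ^ 3 - 1 := by norm_num
    have e8 : (2 : ℕ) ^ (3 * i) = 8 ^ i := by rw [pow_mul]; norm_num
    have hm : Nat.mul 3 i = 3 * i := rfl
    have h2' := Nat.eq_of_beq_eq_true h2
    rw [e7, land_eq, shr_eq, hm, e8] at h2'
    have hci : dig c i = 0 := h2'
    have hadd : Nat.add c (Nat.shiftLeft 7 (Nat.mul 3 i)) = c + 7 * 8 ^ i := by
      rw [shl_eq, hm, e8]
      rfl
    rw [hadd] at h3
    obtain ⟨hnd, hall⟩ := ih _ h3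
    have hni : i ∉ fr := by
      intro hmem
      have := (hall i hmem).2
      rw [dig_add_self hci (by norm_num)] at this
      exact absurd this (by norm_num)
    refine ⟨List.nodup_cons.2 ⟨hni, hnd⟩, ?_⟩
    intro j hj
    rcases List.mem_cons.1 hj with rfl | hj
    · exact ⟨hi, hci⟩
    · have := hall j hj
      rw [dig_add_ne hci (by norm_num) (fun h => hni (h ▸ hj))] at this
      exact this

end MP433Sys
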