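import Pool.Agent.Work.MP_433a35_co.GB.Sys.Blk
import Pool.Agent.Work.MP_433a35_co.GB.Sys.Viol
import Pool.Agent.Work.MP_433a35_co.GB.Edge

/-!
# The system of the marks and the harmonic inequality

Digits: `0` not adjacent (or equal), `1` adjacent, `2` weight `w` of an `F`-edge, `3` its square.
`tgt a b` is the target `b D^(K-4) (2 κ' D² ∑ w² + 2 D ∑ w² codeg + ∑ w² inn - (∑ w)²)`, `κ' = a/b`
(sums over ordered pairs).  `rstar_of_marks`: if the target is at least `- C bad D^(K-4)` for all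
systems of marks then `RStar (2 + a / b)` holds.
-/

namespace MP433Sys

open Finset

/-- product table of the marks -/
def mmul (a b : ℕ) : ℕ :=
  bif Nat.beq a 0 then (bif Nat.beq b 0 then 0 else 7)
  else bif Nat.beq a 1 then
    (bif Nat.beq b 1 then 1 else bif Nat.beq b 2 then 2 else bif Nat.beq b 3 then 3 else 7)
  else bif Nat.beq a 2 then (bif Nat.beq b 1 then 2 else bif Nat.beq b 2 then 3 else 7)
  else bif Nat.beq a 3 then (bif Nat.beq b 1 then 3 else 7)
  else 7

/-- the kind of the systems of marks -/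
def mS : Spec where
  fd := [0, 1]
  ad := [1]
  fg := [2, 3]
  mul := mmul

/-- the target -/
def tgt (a b : ℕ) : ℕ → List Src
  | 2 => [⟨2 * a, 3, []⟩]
  | 3 => [⟨2 * b, 75, []⟩]
  | 4 => [⟨-b, 65538, [1, 2, 3, 4]⟩,
      ⟨b, 3 + 1 * 8 + 0 * 64 + 1 * 512 + 0 * 4096 + 32768, []⟩,
      ⟨b, 3 + 1 * 8 + 0 * 64 + 0 * 512 + 1 * 4096 + 32768, []⟩,
      ⟨b, 3 + 1 * 8 + 0 * 64 + 1 * 512 + 1 * 4096 + 32768, []⟩,
      ⟨b, 3 + 0 * 8 + 1 * 64 + 1 * 512 + 0 * 4096 + 32768, []⟩,
      ⟨b, 3 + 0 * 8 + 1 * 64 + 0 * 512 + 1 * 4096 + 32768, []⟩,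
      ⟨b, 3 + 0 * 8 + 1 * 64 + 1 * 512 + 1 * 4096 + 32768, []⟩,
      ⟨b, 3 + 1 * 8 + 1 * 64 + 1 * 512 + 0 * 4096 + 32768, []⟩,
      ⟨b, 3 + 1 * 8 + 1 * 64 + 0 * 512 + 1 * 4096 + 32768, []⟩,
      ⟨b, 3 + 1 * 8 + 1 * 64 + 1 * 512 + 1 * 4096 + 32768, []⟩]
  | _ => []

section general

variable {S : Spec} {V : Type*} [Fintype V] (T : Sys S V)

/-- the weight of an extended tuple, with free pairs -/
theorem wt_snoc_free (k H : ℕ) (free : List ℕ) (u : Fin k → V) (v : V) :
    T.wt (k + 1) H free (Fin.snoc (α := fun _ => V) u v) =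
      T.wt k H free u * ∏ i : Fin k,
        (if idx i k ∉ free then T.rho (dig H (idx i k)) (u i) v else 1) := by
  unfold Sys.wt
  rw [Fin.prod_univ_castSucc]
  congr 1
  · refine Finset.prod_congr rfl fun q _ => ?_
    rw [Fin.prod_univ_castSucc]
    have h1 : ¬ (Fin.last k < q.castSucc) := by
      rw [not_lt]
      exact Fin.le_last _
    simp [h1]
  · rw [Fin.prod_univ_castSucc]
    simp [Fin.castSucc_lt_last]

theorem full_two (c : ℕ) : T.full 2 c = ∑ x : V, ∑ y : V, T.rho (dig c 0) x y := by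
  unfold Sys.full Sys.pcount
  rw [sum_snoc', sum_snoc', Fintype.sum_unique]
  refine sum_congr rfl fun a _ => sum_congr rfl fun b _ => ?_
  rw [wt_snoc, wt_snoc]
  have hw : T.wt 0 c [] default = 1 := by simp [Sys.wt]
  have e0 : (∏ i : Fin 0, T.rho (dig c (idx i 0)) ((default : Fin 0 → V) i) a) = 1 := by simp
  have e1 : (∏ i : Fin 1, T.rho (dig c (idx i 1))
      ((Fin.snoc (α := fun _ => V) default a : Fin 1 → V) i) b) = T.rho (dig c 0) a b := by
    rw [Fin.prod_univ_one]
    rfl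
  rw [hw, e0, e1, one_mul, one_mul]

theorem full_three (c : ℕ) : T.full 3 c =
    ∑ x : V, ∑ y : V, ∑ z : V, T.rho (dig c 0) x y *
      (T.rho (dig c 1) x z * T.rho (dig c 2) y z) := by
  unfold Sys.full Sys.pcount
  rw [sum_snoc', sum_snoc', sum_snoc', Fintype.sum_unique]
  refine sum_congr rfl fun a _ => sum_congr rfl fun b _ => sum_congr rfl fun z _ => ?_
  rw [wt_snoc, wt_snoc, wt_snoc]
  have hw : T.wt 0 c [] default = 1 := by simp [Sys.wt]
  have e0 : (∏ i : Fin 0, T.rho (dig c (idx i 0)) ((default : Fin 0 → V) i) a) = 1 := by simp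
  have e1 : (∏ i : Fin 1, T.rho (dig c (idx i 1))
      ((Fin.snoc (α := fun _ => V) default a : Fin 1 → V) i) b) = T.rho (dig c 0) a b := by
    rw [Fin.prod_univ_one]
    rfl
  have e2 : (∏ i : Fin 2, T.rho (dig c (idx i 2))
      ((Fin.snoc (α := fun _ => V) (Fin.snoc (α := fun _ => V) default a) b : Fin 2 → V) i) z) =
      T.rho (dig c 1) a z * T.rho (dig c 2) b z := by
    rw [Fin.prod_univ_two]
    rfl
  rw [hw, e0, e1, e2, one_mul, one_mul]

theorem pcount_four (c : ℕ) (free : List ℕ) : T.pcount 4 c free =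
    ∑ x : V, ∑ y : V, ∑ z : V, ∑ u : V,
      (if 0 ∉ free then T.rho (dig c 0) x y else 1) *
      ((if 1 ∉ free then T.rho (dig c 1) x z else 1) *
        (if 2 ∉ free then T.rho (dig c 2) y z else 1)) *
      ((if 3 ∉ free then T.rho (dig c 3) x u else 1) *
        (if 4 ∉ free then T.rho (dig c 4) y u else 1) *
        (if 5 ∉ free then T.rho (dig c 5) z u else 1)) := by
  unfold Sys.pcount
  rw [sum_snoc', sum_snoc', sum_snoc', sum_snoc', Fintype.sum_unique]
  refine sum_congr rfl fun a _ => sum_congr rfl fun b _ => sum_congr rfl fun z _ =>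
    sum_congr rfl fun u _ => ?_
  rw [wt_snoc_free, wt_snoc_free, wt_snoc_free, wt_snoc_free]
  have hw : T.wt 0 c free default = 1 := by simp [Sys.wt]
  rw [hw, Fin.prod_univ_zero, Fin.prod_univ_one, Fin.prod_univ_two, Fin.prod_univ_three, one_mul,
    one_mul]
  rfl

theorem lvl_split (K : ℕ) (hK : 4 ≤ K) (L : ℕ → List Src) (h : ∀ k, k ≠ 2 → k ≠ 3 → k ≠ 4 → L k = []) :
    lvl T K L = T.D ^ (K - 2) * srcVal T 2 (L 2) + T.D ^ (K - 3) * srcVal T 3 (L 3) +
      T.D ^ (K - 4) * srcVal T 4 (L 4) := by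
  unfold lvl
  have hsub : ({2, 3, 4} : Finset ℕ) ⊆ range (K + 1) := by
    intro x hx
    simp only [mem_insert, mem_singleton] at hx
    rw [mem_range]
    omega
  rw [← sum_subset hsub]
  · rw [sum_insert (by simp), sum_insert (by simp), sum_singleton]
    ring
  · intro k _ hk
    simp only [mem_insert, mem_singleton, not_or] at hk
    rw [h k hk.1 hk.2.1 hk.2.2, srcVal_nil, mul_zero]

end general

section target

variable {V : Type*} [Fintype V] (T : Sys mS V)

theorem rho01 (x y : V) : T.rho 0 x y + T.rho 1 x y = 1 := by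
  have := T.free x y
  simpa [mS] using this

theorem lvl_tgt (K : ℕ) (hK : 4 ≤ K) (a b : ℕ) :
    lvl T K (tgt a b) = T.D ^ (K - 4) * (2 * a * T.D ^ 2 * ∑ x : V, ∑ y : V, T.rho 3 x y +
      2 * b * T.D * ∑ x : V, ∑ y : V, T.rho 3 x y * ∑ z : V, T.rho 1 x z * T.rho 1 y z +
      b * ∑ x : V, ∑ y : V, T.rho 3 x y * ∑ z : V, ∑ u : V,
        (1 - T.rho 0 x z * T.rho 0 y z) * (1 - T.rho 0 x u * T.rho 0 y u) * T.rho 1 z u -
      b * (∑ x : V, ∑ y : V, T.rho 2 x y) ^ 2) := by
  rw [lvl_split T K hK (tgt a b) (by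
    intro k h2 h3 h4
    unfold tgt
    split <;> first | rfl | contradiction)]
  have s2 : srcVal T 2 (tgt a b 2) = 2 * a * ∑ x : V, ∑ y : V, T.rho 3 x y := by
    have h := full_two T 3
    rw [show dig 3 0 = 3 from rfl] at h
    simp only [srcVal, tgt, List.map_cons, List.map_nil, List.sum_cons, List.sum_nil, add_zero]
    change _ * T.full 2 3 = _
    rw [h]
    push_cast
    ring
  have s3 : srcVal T 3 (tgt a b 3) =
      2 * b * ∑ x : V, ∑ y : V, T.rho 3 x y * ∑ z : V, T.rho 1 x z * T.rho 1 y z := by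
    have h := full_three T 75
    rw [show dig 75 0 = 3 from rfl, show dig 75 1 = 1 from rfl, show dig 75 2 = 1 from rfl] at h
    simp only [srcVal, tgt, List.map_cons, List.map_nil, List.sum_cons, List.sum_nil, add_zero]
    change _ * T.full 3 75 = _
    rw [h]
    simp only [mul_sum]
    push_cast
    rfl
  have s4 : srcVal T 4 (tgt a b 4) =
      b * ∑ x : V, ∑ y : V, T.rho 3 x y * ∑ z : V, ∑ u : V,
        (1 - T.rho 0 x z * T.rho 0 y z) * (1 - T.rho 0 x u * T.rho 0 y u) * T.rho 1 z u -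
      b * (∑ x : V, ∑ y : V, T.rho 2 x y) ^ 2 := by
    have h0 : T.pcount 4 65538 [1, 2, 3, 4] = (∑ x : V, ∑ y : V, T.rho 2 x y) ^ 2 := by
      rw [pcount_four]
      have d0 : dig 65538 0 = 2 := rfl
      have d5 : dig 65538 5 = 2 := rfl
      simp only [d0, d5]
      simp only [List.mem_cons, List.not_mem_nil, or_false, not_true_eq_false, if_false,
        mul_one, OfNat.zero_ne_ofNat, zero_ne_one, or_self, not_false_eq_true, if_true,
        OfNat.ofNat_ne_one, Nat.reduceEqDiff, or_true, one_mul]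
      rw [sq, sum_mul]
      refine sum_congr rfl fun x _ => ?_
      rw [sum_mul]
      refine sum_congr rfl fun y _ => ?_
      rw [mul_sum]
      refine sum_congr rfl fun z _ => ?_
      rw [mul_sum]
    have h1 : ∀ d1 d2 d3 d4 : ℕ, d1 < 8 → d2 < 8 → d3 < 8 → d4 < 8 →
        T.pcount 4 (3 + d1 * 8 + d2 * 64 + d3 * 512 + d4 * 4096 + 32768) [] =
        ∑ x : V, ∑ y : V, ∑ z : V, ∑ u : V, T.rho 3 x y * (T.rho d1 x z * T.rho d2 y z) *
          (T.rho d3 x u * T.rho d4 y u * T.rho 1 z u) := by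
      intro d1 d2 d3 d4 l1 l2 l3 l4
      rw [pcount_four]
      have g0 : dig (3 + d1 * 8 + d2 * 64 + d3 * 512 + d4 * 4096 + 32768) 0 = 3 := by
        unfold dig; omega
      have g1 : dig (3 + d1 * 8 + d2 * 64 + d3 * 512 + d4 * 4096 + 32768) 1 = d1 := by
        unfold dig; omega
      have g2 : dig (3 + d1 * 8 + d2 * 64 + d3 * 512 + d4 * 4096 + 32768) 2 = d2 := by
        unfold dig; omega
      have g3 : dig (3 + d1 * 8 + d2 * 64 + d3 * 512 + d4 * 4096 + 32768) 3 = d3 := by
        unfold dig; omega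
      have g4 : dig (3 + d1 * 8 + d2 * 64 + d3 * 512 + d4 * 4096 + 32768) 4 = d4 := by
        unfold dig; omega
      have g5 : dig (3 + d1 * 8 + d2 * 64 + d3 * 512 + d4 * 4096 + 32768) 5 = 1 := by
        unfold dig; omega
      simp only [g0, g1, g2, g3, g4, g5, List.not_mem_nil, not_false_eq_true, if_true]
    simp only [srcVal, tgt, List.map_cons, List.map_nil, List.sum_cons, List.sum_nil, add_zero]
    rw [h0, h1 1 0 1 0 (by norm_num) (by norm_num) (by norm_num) (by norm_num),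
      h1 1 0 0 1 (by norm_num) (by norm_num) (by norm_num) (by norm_num),
      h1 1 0 1 1 (by norm_num) (by norm_num) (by norm_num) (by norm_num),
      h1 0 1 1 0 (by norm_num) (by norm_num) (by norm_num) (by norm_num),
      h1 0 1 0 1 (by norm_num) (by norm_num) (by norm_num) (by norm_num),
      h1 0 1 1 1 (by norm_num) (by norm_num) (by norm_num) (by norm_num),
      h1 1 1 1 0 (by norm_num) (by norm_num) (by norm_num) (by norm_num),
      h1 1 1 0 1 (by norm_num) (by norm_num) (by norm_num) (by norm_num),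
      h1 1 1 1 1 (by norm_num) (by norm_num) (by norm_num) (by norm_num)]
    simp only [mul_sum]
    have key : ∀ x y z u : V,
        (b : ℝ) * (T.rho 3 x y * ((1 - T.rho 0 x z * T.rho 0 y z) *
          (1 - T.rho 0 x u * T.rho 0 y u) * T.rho 1 z u)) =
        (b : ℝ) * (T.rho 3 x y * (T.rho 1 x z * T.rho 0 y z) *
          (T.rho 1 x u * T.rho 0 y u * T.rho 1 z u)) +
        ((b : ℝ) * (T.rho 3 x y * (T.rho 1 x z * T.rho 0 y z) *
          (T.rho 0 x u * T.rho 1 y u * T.rho 1 z u)) +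
        ((b : ℝ) * (T.rho 3 x y * (T.rho 1 x z * T.rho 0 y z) *
          (T.rho 1 x u * T.rho 1 y u * T.rho 1 z u)) +
        ((b : ℝ) * (T.rho 3 x y * (T.rho 0 x z * T.rho 1 y z) *
          (T.rho 1 x u * T.rho 0 y u * T.rho 1 z u)) +
        ((b : ℝ) * (T.rho 3 x y * (T.rho 0 x z * T.rho 1 y z) *
          (T.rho 0 x u * T.rho 1 y u * T.rho 1 z u)) +
        ((b : ℝ) * (T.rho 3 x y * (T.rho 0 x z * T.rho 1 y z) *
          (T.rho 1 x u * T.rho 1 y u * T.rho 1 z u)) +
        ((b : ℝ) * (T.rho 3 x y * (T.rho 1 x z * T.rho 1 y z) *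
          (T.rho 1 x u * T.rho 0 y u * T.rho 1 z u)) +
        ((b : ℝ) * (T.rho 3 x y * (T.rho 1 x z * T.rho 1 y z) *
          (T.rho 0 x u * T.rho 1 y u * T.rho 1 z u)) +
        (b : ℝ) * (T.rho 3 x y * (T.rho 1 x z * T.rho 1 y z) *
          (T.rho 1 x u * T.rho 1 y u * T.rho 1 z u))))))))) := by
      intro x y z u
      have e1 : T.rho 0 x z = 1 - T.rho 1 x z := by linarith [rho01 T x z]
      have e2 : T.rho 0 y z = 1 - T.rho 1 y z := by linarith [rho01 T y z]
      have e3 : T.rho 0 x u = 1 - T.rho 1 x u := by linarith [rho01 T x u]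
      have e4 : T.rho 0 y u = 1 - T.rho 1 y u := by linarith [rho01 T y u]
      rw [e1, e2, e3, e4]
      ring
    simp only [key, sum_add_distrib]
    push_cast
    ring
  rw [s2, s3, s4]
  have p2 : T.D ^ (K - 2) = T.D ^ (K - 4) * T.D ^ 2 := by
    rw [← pow_add]
    congr 1
    omega
  have p3 : T.D ^ (K - 3) = T.D ^ (K - 4) * T.D := by
    rw [← pow_succ]
    congr 1
    omega
  rw [p2, p3]
  ring

end target

section concrete

variable {V : Type*} [Fintype V] [DecidableEq V] (G F : SimpleGraph V) [DecidableRel G.Adj]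
  [DecidableRel F.Adj]

/-- the weights of the digits -/
def mrho (w : V → V → ℝ) : ℕ → V → V → ℝ
  | 0, x, y => if G.Adj x y then 0 else 1
  | 1, x, y => if G.Adj x y then 1 else 0
  | 2, x, y => w x y
  | 3, x, y => w x y ^ 2
  | _, _, _ => 0

/-- the system of marks of weights `w ∈ [0, 1]` on the edges of `F` -/
noncomputable def mSys (hFG : F ≤ G) (w : V → V → ℝ) (hw0 : ∀ x y, 0 ≤ w x y)
    (hw1 : ∀ x y, w x y ≤ 1) (hws : ∀ x y, w x y = w y x) (hwF : ∀ x y, ¬ F.Adj x y → w x y = 0)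
    (D : ℝ) (hD : ∀ v, (G.degree v : ℝ) ≤ D) : Sys mS V where
  rho := mrho G w
  fi := fun x y => if F.Adj x y then 1 else 0
  D := D
  nonneg := by
    intro d x y
    unfold mrho
    split
    · split_ifs <;> norm_num
    · split_ifs <;> norm_num
    · exact hw0 x y
    · positivity
    · norm_num
  le_one := by
    intro d x y
    unfold mrho
    split
    · split_ifs <;> norm_num
    · split_ifs <;> norm_num
    · exact hw1 x y
    · exact pow_le_one₀ (hw0 x y) (hw1 x y)
    · norm_num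
  symm := by
    intro d x y
    unfold mrho
    split
    · simp only [G.adj_comm]
    · simp only [G.adj_comm]
    · exact hws x y
    · rw [hws x y]
    · rfl
  free := by
    intro x y
    simp only [mS, List.map_cons, List.map_nil, List.sum_cons, List.sum_nil, mrho]
    split_ifs <;> norm_num
  deg := by
    intro x
    simp only [mS, List.map_cons, List.map_nil, List.sum_cons, List.sum_nil, mrho, add_zero]
    rw [sum_boole]
    refine le_trans (le_of_eq ?_) (hD x)
    rw [← G.card_neighborFinset_eq_degree]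
    congr 2
    ext y
    simp
  adj := by
    intro d x y hd
    simp only [mS, List.map_cons, List.map_nil, List.sum_cons, List.sum_nil, add_zero]
    have hz : ∀ x y, ¬ G.Adj x y → w x y = 0 := fun x y h => hwF x y fun h2 => h (hFG h2)
    have h1 : mrho G w 1 x y = if G.Adj x y then 1 else 0 := rfl
    rw [h1]
    unfold mrho
    split
    · exact absurd rfl hd
    · exact le_rfl
    · split_ifs with h
      · exact hw1 x y
      · rw [hz x y h]
    · split_ifs with h
      · exact pow_le_one₀ (hw0 x y) (hw1 x y)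
      · rw [hz x y h]; norm_num
    · split_ifs <;> norm_num
  fig := by
    intro d hd x y
    simp only [mS, List.mem_cons, List.not_mem_nil, or_false] at hd
    rcases hd with rfl | rfl
    · show w x y ≤ _
      split_ifs with h
      · exact hw1 x y
      · rw [hwF x y h]
    · show w x y ^ 2 ≤ _
      split_ifs with h
      · exact pow_le_one₀ (hw0 x y) (hw1 x y)
      · rw [hwF x y h]; norm_num
  mul := by
    intro a b x y
    have hz : ¬ G.Adj x y → w x y = 0 := fun h => hwF x y fun h2 => h (hFG h2)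
    have r0 : mrho G w 0 x y = if G.Adj x y then 0 else 1 := rfl
    have r1 : mrho G w 1 x y = if G.Adj x y then 1 else 0 := rfl
    have r2 : mrho G w 2 x y = w x y := rfl
    have r3 : mrho G w 3 x y = w x y ^ 2 := rfl
    rcases a with _ | _ | _ | _ | a
    · rcases b with _ | b
      · intro _
        show mrho G w 0 x y * mrho G w 0 x y = mrho G w 0 x y
        rw [r0]; split_ifs <;> norm_num
      · intro h; exact absurd rfl h
    · rcases b with _ | _ | _ | _ | b
      · intro h; exact absurd rfl h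
      · intro _
        show mrho G w 1 x y * mrho G w 1 x y = mrho G w 1 x y
        rw [r1]; split_ifs <;> norm_num
      · intro _
        show mrho G w 1 x y * mrho G w 2 x y = mrho G w 2 x y
        rw [r1, r2]; split_ifs with h
        · norm_num
        · rw [hz h]; norm_num
      · intro _
        show mrho G w 1 x y * mrho G w 3 x y = mrho G w 3 x y
        rw [r1, r3]; split_ifs with h
        · norm_num
        · rw [hz h]; norm_num
      · intro h; exact absurd rfl h
    · rcases b with _ | _ | _ | b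
      · intro h; exact absurd rfl h
      · intro _
        show mrho G w 2 x y * mrho G w 1 x y = mrho G w 2 x y
        rw [r1, r2]; split_ifs with h
        · norm_num
        · rw [hz h]; norm_num
      · intro _
        show mrho G w 2 x y * mrho G w 2 x y = mrho G w 3 x y
        rw [r2, r3]; ring
      · intro h; exact absurd rfl h
    · rcases b with _ | _ | b
      · intro h; exact absurd rfl h
      · intro _
        show mrho G w 3 x y * mrho G w 1 x y = mrho G w 3 x y
        rw [r1, r3]; split_ifs with h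
        · norm_num
        · rw [hz h]; norm_num
      · intro h; exact absurd rfl h
    · intro h; exact absurd rfl h

variable {G F}

theorem bad_mSys (hFG : F ≤ G) (w : V → V → ℝ) (hw0 : ∀ x y, 0 ≤ w x y)
    (hw1 : ∀ x y, w x y ≤ 1) (hws : ∀ x y, w x y = w y x) (hwF : ∀ x y, ¬ F.Adj x y → w x y = 0)
    (D : ℝ) (hD : ∀ v, (G.degree v : ℝ) ≤ D) :
    (mSys G F hFG w hw0 hw1 hws hwF D hD).bad =
      (((univ : Finset ((V × V) × (V × V))).filter fun q => F.Adj q.1.1 q.1.2 ∧
        F.Adj q.2.1 q.2.2 ∧ MP433GB.nonconf G q.1.1 q.1.2 q.2.1 q.2.2).card : ℝ) := by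
  rw [← sum_boole, Fintype.sum_prod_type]
  simp only [Fintype.sum_prod_type]
  unfold Sys.bad
  refine sum_congr rfl fun a _ => sum_congr rfl fun b _ => sum_congr rfl fun c _ =>
    sum_congr rfl fun d _ => ?_
  show (if F.Adj a b then (1 : ℝ) else 0) * (if F.Adj c d then (1 : ℝ) else 0) *
    ((if G.Adj a c then (0 : ℝ) else 1) * (if G.Adj a d then (0 : ℝ) else 1) *
      (if G.Adj b c then (0 : ℝ) else 1) * (if G.Adj b d then (0 : ℝ) else 1)) = _
  by_cases h1 : F.Adj a b
  · by_cases h2 : F.Adj c d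
    · by_cases h3 : G.Adj a c
      · simp [h3, MP433GB.nonconf]
      · by_cases h4 : G.Adj a d
        · simp [h4, MP433GB.nonconf]
        · by_cases h5 : G.Adj b c
          · simp [h5, MP433GB.nonconf]
          · by_cases h6 : G.Adj b d
            · simp [h6, MP433GB.nonconf]
            · have n1 : a ≠ c := fun e => h4 (e ▸ hFG h2)
              have n2 : a ≠ d := fun e => h3 (e ▸ (hFG h2).symm)
              have n3 : b ≠ c := fun e => h6 (e ▸ hFG h2)
              have n4 : b ≠ d := fun e => h5 (e ▸ (hFG h2).symm)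
              simp [h1, h2, h3, h4, h5, h6, n1, n2, n3, n4, MP433GB.nonconf]
    · simp [h2]
  · simp [h1]

theorem codeg_sum (x y : V) : ∑ z : V, mrho G (0 : V → V → ℝ) 1 x z *
    mrho G (0 : V → V → ℝ) 1 y z = MP433GB.codeg G x y := by
  unfold MP433GB.codeg
  have : ∀ z : V, mrho G (0 : V → V → ℝ) 1 x z * mrho G (0 : V → V → ℝ) 1 y z =
      if z ∈ G.neighborFinset x ∩ G.neighborFinset y then (1 : ℝ) else 0 := by
    intro z
    show (if G.Adj x z then (1 : ℝ) else 0) * (if G.Adj y z then (1 : ℝ) else 0) = _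
    by_cases h1 : G.Adj x z <;> by_cases h2 : G.Adj y z <;> simp [h1, h2]
  simp only [this]
  rw [sum_boole]
  congr 2
  ext z
  simp

theorem inn_sum (x y : V) : ∑ z : V, ∑ u : V,
    (1 - mrho G (0 : V → V → ℝ) 0 x z * mrho G (0 : V → V → ℝ) 0 y z) *
      (1 - mrho G (0 : V → V → ℝ) 0 x u * mrho G (0 : V → V → ℝ) 0 y u) *
      mrho G (0 : V → V → ℝ) 1 z u = MP433GB.inn G x y := by
  unfold MP433GB.inn
  have hW : ∀ z : V, (1 - mrho G (0 : V → V → ℝ) 0 x z * mrho G (0 : V → V → ℝ) 0 y z) =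
      if z ∈ G.neighborFinset x ∪ G.neighborFinset y then (1 : ℝ) else 0 := by
    intro z
    show (1 - (if G.Adj x z then (0 : ℝ) else 1) * (if G.Adj y z then (0 : ℝ) else 1)) = _
    by_cases h1 : G.Adj x z <;> by_cases h2 : G.Adj y z <;> simp [h1, h2]
  rw [← sum_boole, sum_product]
  simp only [hW]
  rw [← sum_filter_add_sum_filter_not univ
    (fun z => z ∈ G.neighborFinset x ∪ G.neighborFinset y)]
  have e0 : ∑ z ∈ univ.filter (fun z => ¬ z ∈ G.neighborFinset x ∪ G.neighborFinset y), ∑ u : V,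
      (if z ∈ G.neighborFinset x ∪ G.neighborFinset y then (1 : ℝ) else 0) *
      (if u ∈ G.neighborFinset x ∪ G.neighborFinset y then (1 : ℝ) else 0) *
      mrho G (0 : V → V → ℝ) 1 z u = 0 := by
    refine sum_eq_zero fun z hz => sum_eq_zero fun u _ => ?_
    rw [if_neg (mem_filter.1 hz).2, zero_mul, zero_mul]
  rw [e0, add_zero]
  have e1 : univ.filter (fun z => z ∈ G.neighborFinset x ∪ G.neighborFinset y) =
      G.neighborFinset x ∪ G.neighborFinset y := by
    ext z
    simp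
  rw [e1]
  refine sum_congr rfl fun z hz => ?_
  rw [if_pos hz]
  rw [← sum_filter_add_sum_filter_not univ
    (fun u => u ∈ G.neighborFinset x ∪ G.neighborFinset y)]
  have e2 : ∑ u ∈ univ.filter (fun u => ¬ u ∈ G.neighborFinset x ∪ G.neighborFinset y),
      (1 : ℝ) * (if u ∈ G.neighborFinset x ∪ G.neighborFinset y then (1 : ℝ) else 0) *
      mrho G (0 : V → V → ℝ) 1 z u = 0 := by
    refine sum_eq_zero fun u hu => ?_
    rw [if_neg (mem_filter.1 hu).2, mul_zero, zero_mul]
  rw [e2, add_zero, e1]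
  refine sum_congr rfl fun u hu => ?_
  rw [if_pos hu, one_mul, one_mul]
  rfl

/-- the target of a system of marks -/
theorem lvl_mSys (hFG : F ≤ G) (w : V → V → ℝ) (hw0 : ∀ x y, 0 ≤ w x y)
    (hw1 : ∀ x y, w x y ≤ 1) (hws : ∀ x y, w x y = w y x) (hwF : ∀ x y, ¬ F.Adj x y → w x y = 0)
    (D : ℝ) (hD : ∀ v, (G.degree v : ℝ) ≤ D) (K : ℕ) (hK : 4 ≤ K) (a b : ℕ) :
    lvl (mSys G F hFG w hw0 hw1 hws hwF D hD) K (tgt a b) = D ^ (K - 4) *
      (2 * ∑ x : V, ∑ y : V, w x y ^ 2 *
        (a * D ^ 2 + b * (MP433GB.codeg G x y * D + (MP433GB.inn G x y : ℝ) / 2)) -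
      b * (∑ x : V, ∑ y : V, w x y) ^ 2) := by
  rw [lvl_tgt _ K hK a b]
  have h3 : ∀ x y, (mSys G F hFG w hw0 hw1 hws hwF D hD).rho 3 x y = w x y ^ 2 := fun _ _ => rfl
  have h2 : ∀ x y, (mSys G F hFG w hw0 hw1 hws hwF D hD).rho 2 x y = w x y := fun _ _ => rfl
  have h1 : ∀ x y, (mSys G F hFG w hw0 hw1 hws hwF D hD).rho 1 x y =
    mrho G (0 : V → V → ℝ) 1 x y := fun _ _ => rfl
  have h0 : ∀ x y, (mSys G F hFG w hw0 hw1 hws hwF D hD).rho 0 x y =
    mrho G (0 : V → V → ℝ) 0 x y := fun _ _ => rfl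
  have hDD : (mSys G F hFG w hw0 hw1 hws hwF D hD).D = D := rfl
  simp only [h3, h2, h1, h0, hDD, codeg_sum, inn_sum]
  congr 1
  simp only [mul_sum]
  rw [← sum_add_distrib, ← sum_add_distrib]
  congr 1
  refine sum_congr rfl fun x _ => ?_
  rw [← sum_add_distrib, ← sum_add_distrib]
  refine sum_congr rfl fun y _ => ?_
  ring

end concrete

/-- **From the inequality for systems of marks to `RStar`.** -/
theorem rstar_of_marks (a b : ℕ) (ha : 0 < a) (hb : 0 < b) (K : ℕ) (hK : 4 ≤ K) (C : ℝ)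
    (h : ∀ (V : Type) [Fintype V] (T : Sys mS V), 0 ≤ T.D →
      -C * T.bad * T.D ^ (K - 4) ≤ lvl T K (tgt a b)) :
    MP433GB.RStar (2 + a / b) := by
  intro e1 he1
  have ha' : (0 : ℝ) < a := by exact_mod_cast ha
  have hb' : (0 : ℝ) < b := by exact_mod_cast hb
  set kp : ℝ := a / b with hkp
  have hkp0 : 0 < kp := by positivity
  set C' : ℝ := max C 1 with hC'
  have hC0 : 0 < C' := lt_of_lt_of_le one_pos (le_max_right _ _)
  refine ⟨4 * e1 * b * kp ^ 2 / C', by positivity, 1, ?_⟩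
  intro V _ _ G F _ _ D hD1 hFG hdeg hbad
  have hD0 : (0 : ℝ) < D := by exact_mod_cast hD1
  have hdeg' : ∀ v, (G.degree v : ℝ) ≤ D := fun v => by exact_mod_cast hdeg v
  -- the weights
  set X : V → V → ℝ := fun x y =>
    (2 + kp - 2) * (D : ℝ) ^ 2 + MP433GB.codeg G x y * D + (MP433GB.inn G x y : ℝ) / 2 with hX
  have hXlow : ∀ x y, kp * (D : ℝ) ^ 2 ≤ X x y := by
    intro x y
    have h1 : (0 : ℝ) ≤ MP433GB.codeg G x y * D := by positivity
    have h2 : (0 : ℝ) ≤ (MP433GB.inn G x y : ℝ) / 2 := by positivity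
    show kp * (D : ℝ) ^ 2 ≤ (2 + kp - 2) * (D : ℝ) ^ 2 + MP433GB.codeg G x y * D +
      (MP433GB.inn G x y : ℝ) / 2
    nlinarith
  have hc0 : 0 < kp * (D : ℝ) ^ 2 := by positivity
  have hXpos : ∀ x y, 0 < X x y := fun x y => lt_of_lt_of_le hc0 (hXlow x y)
  have hXs : ∀ x y, X x y = X y x := by
    intro x y
    have e1 : MP433GB.codeg G x y = MP433GB.codeg G y x := by
      unfold MP433GB.codeg
      rw [inter_comm]
    have e2 : MP433GB.inn G x y = MP433GB.inn G y x := by
      unfold MP433GB.inn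
      rw [union_comm]
    show (2 + kp - 2) * (D : ℝ) ^ 2 + MP433GB.codeg G x y * D + (MP433GB.inn G x y : ℝ) / 2 =
      (2 + kp - 2) * (D : ℝ) ^ 2 + MP433GB.codeg G y x * D + (MP433GB.inn G y x : ℝ) / 2
    rw [e1, e2]
  set w : V → V → ℝ := fun x y => if F.Adj x y then kp * (D : ℝ) ^ 2 / X x y else 0 with hw
  have hw0 : ∀ x y, 0 ≤ w x y := by
    intro x y
    show 0 ≤ (if F.Adj x y then kp * (D : ℝ) ^ 2 / X x y else 0)
    split_ifs
    · exact div_nonneg hc0.le (hXpos x y).le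
    · exact le_rfl
  have hw1 : ∀ x y, w x y ≤ 1 := by
    intro x y
    show (if F.Adj x y then kp * (D : ℝ) ^ 2 / X x y else 0) ≤ 1
    split_ifs
    · exact (div_le_one (hXpos x y)).2 (hXlow x y)
    · norm_num
  have hws : ∀ x y, w x y = w y x := by
    intro x y
    show (if F.Adj x y then kp * (D : ℝ) ^ 2 / X x y else 0) =
      (if F.Adj y x then kp * (D : ℝ) ^ 2 / X y x else 0)
    rw [hXs x y]
    simp only [F.adj_comm]
  have hwF : ∀ x y, ¬ F.Adj x y → w x y = 0 := by
    intro x y hn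
    show (if F.Adj x y then kp * (D : ℝ) ^ 2 / X x y else 0) = 0
    rw [if_neg hn]
  have main := h V (mSys G F hFG w hw0 hw1 hws hwF D hdeg') hD0.le
  rw [lvl_mSys hFG w hw0 hw1 hws hwF D hdeg' K hK a b,
    bad_mSys hFG w hw0 hw1 hws hwF D hdeg'] at main
  set B : ℝ := (((univ : Finset ((V × V) × (V × V))).filter fun q => F.Adj q.1.1 q.1.2 ∧
        F.Adj q.2.1 q.2.2 ∧ MP433GB.nonconf G q.1.1 q.1.2 q.2.1 q.2.2).card : ℝ) with hB
  change -C * B * (D : ℝ) ^ (K - 4) ≤ _ at main
  have hB0 : 0 ≤ B := by rw [hB]; positivity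
  -- the harmonic sum
  set H : ℝ := ∑ q ∈ (univ : Finset (V × V)).filter (fun q => F.Adj q.1 q.2),
      1 / ((2 + kp - 2) * (D : ℝ) ^ 2 + MP433GB.codeg G q.1 q.2 * D +
        (MP433GB.inn G q.1 q.2 : ℝ) / 2) with hH
  have hHs : H = ∑ x : V, ∑ y : V, if F.Adj x y then 1 / X x y else 0 := by
    rw [hH, sum_filter, Fintype.sum_prod_type]
  have hS1 : ∑ x : V, ∑ y : V, w x y = kp * (D : ℝ) ^ 2 * H := by
    rw [hHs, mul_sum]
    refine sum_congr rfl fun x _ => ?_
    rw [mul_sum]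
    refine sum_congr rfl fun y _ => ?_
    show (if F.Adj x y then kp * (D : ℝ) ^ 2 / X x y else 0) = _
    split_ifs
    · ring
    · ring
  have hS2 : ∑ x : V, ∑ y : V, w x y ^ 2 *
      (a * (D : ℝ) ^ 2 + b * (MP433GB.codeg G x y * D + (MP433GB.inn G x y : ℝ) / 2)) =
      b * ((kp * (D : ℝ) ^ 2) ^ 2 * H) := by
    rw [hHs, mul_sum, mul_sum]
    refine sum_congr rfl fun x _ => ?_
    rw [mul_sum, mul_sum]
    refine sum_congr rfl fun y _ => ?_
    have e1 : (a : ℝ) * (D : ℝ) ^ 2 +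
        b * (MP433GB.codeg G x y * D + (MP433GB.inn G x y : ℝ) / 2) = b * X x y := by
      show _ = (b : ℝ) * ((2 + kp - 2) * (D : ℝ) ^ 2 + MP433GB.codeg G x y * D +
        (MP433GB.inn G x y : ℝ) / 2)
      have : (a : ℝ) = b * kp := by rw [hkp]; field_simp
      rw [this]
      ring
    rw [e1]
    show (if F.Adj x y then kp * (D : ℝ) ^ 2 / X x y else 0) ^ 2 * (b * X x y) = _
    split_ifs
    · have := (hXpos x y).ne'
      field_simp
    · ring
  rw [hS1, hS2] at main
  have hDK : (0 : ℝ) < (D : ℝ) ^ (K - 4) := by positivity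
  have main2 : -C * B ≤ 2 * (b * ((kp * (D : ℝ) ^ 2) ^ 2 * H)) -
      b * (kp * (D : ℝ) ^ 2 * H) ^ 2 := by
    have : (D : ℝ) ^ (K - 4) * (-C * B) ≤ (D : ℝ) ^ (K - 4) *
        (2 * (b * ((kp * (D : ℝ) ^ 2) ^ 2 * H)) - b * (kp * (D : ℝ) ^ 2 * H) ^ 2) := by
      linarith
    exact le_of_mul_le_mul_left this hDK
  have hCB : C * B ≤ C' * (4 * e1 * b * kp ^ 2 / C' * (D : ℝ) ^ 4) :=
    le_trans (mul_le_mul_of_nonneg_right (le_max_left _ _) hB0)
      (mul_le_mul_of_nonneg_left hbad hC0.le)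
  have hCB2 : C' * (4 * e1 * b * kp ^ 2 / C' * (D : ℝ) ^ 4) =
      (b * (kp * (D : ℝ) ^ 2) ^ 2) * (4 * e1) := by
    field_simp
  have hbc : 0 < (b : ℝ) * (kp * (D : ℝ) ^ 2) ^ 2 := by positivity
  have main3 : H * (H - 2) ≤ 4 * e1 := by
    have : (b * (kp * (D : ℝ) ^ 2) ^ 2) * (H * (H - 2)) ≤
        (b * (kp * (D : ℝ) ^ 2) ^ 2) * (4 * e1) := by
      have e : (b * (kp * (D : ℝ) ^ 2) ^ 2) * (H * (H - 2)) =
          b * (kp * (D : ℝ) ^ 2 * H) ^ 2 - 2 * (b * ((kp * (D : ℝ) ^ 2) ^ 2 * H)) := by ring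
      rw [e]
      linarith
    exact le_of_mul_le_mul_left this hbc
  by_contra hcon
  push Not at hcon
  nlinarith

end MP433Sys
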