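import Pool.Agent.Work.MP_433a35_co.GB.Sys.NLa

/-!
# Flags with unread pairs, part 2

The digit `7` in the code of a flag or of a degree row is an unread pair (weight `1`).  `cv k x`
replaces the digits `7` of a source by free pairs.  `main_ineqN`, `main_partsN`: the verifier with
two further lists, blocks and degree rows with unread pairs.
-/

namespace MP433Sys

open Finset

/-- product of digits, `7` is the unread pair, `8` is not allowed -/
def mulN (S : Spec) (a b : ℕ) : ℕ :=
  bif Nat.beq a 7 then b else bif Nat.beq b 7 then a else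
    bif Nat.beq (S.mul a b) 7 then 8 else S.mul a b

/-- the kind `S` with unread pairs -/
def nl (S : Spec) : Spec where
  fd := S.fd
  ad := S.ad
  fg := S.fg
  mul := mulN S

/-- the code `c` with the digits `7` replaced by `0` (`n` digits) -/
def clr : ℕ → ℕ → ℕ
  | 0, _ => 0
  | n + 1, c => Nat.add (bif Nat.beq (c % 8) 7 then 0 else c % 8) (Nat.mul 8 (clr n (c / 8)))

/-- the places of the digits `7` -/
def sev : ℕ → ℕ → ℕ → List ℕ
  | 0, _, _ => []
  | n + 1, i, c => bif Nat.beq (c % 8) 7 then i :: sev n (i + 1) (c / 8) else sev n (i + 1) (c / 8)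

/-- unread pairs become free pairs -/
def cv (k : ℕ) (x : Src) : Src := ⟨x.w, clr (npr k) x.c, x.free ++ sev (npr k) 0 x.c⟩

theorem beq_false {a b : ℕ} (h : a ≠ b) : Nat.beq a b = false := by
  cases hb : Nat.beq a b with
  | false => rfl
  | true => exact absurd (Nat.eq_of_beq_eq_true hb) h

theorem dig_zero' (c : ℕ) : dig c 0 = c % 8 := by simp [dig]

theorem dig_succ' (c i : ℕ) : dig c (i + 1) = dig (c / 8) i := by
  unfold dig
  rw [Nat.div_div_eq_div_mul, pow_succ, mul_comm]

theorem dig_clr (n c i : ℕ) (hi : i < n) :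
    dig (clr n c) i = if dig c i = 7 then 0 else dig c i := by
  induction n generalizing c i with
  | zero => omega
  | succ n ih =>
    have e : clr (n + 1) c = (bif Nat.beq (c % 8) 7 then 0 else c % 8) + 8 * clr n (c / 8) := rfl
    have hb : (bif Nat.beq (c % 8) 7 then 0 else c % 8) = if c % 8 = 7 then 0 else c % 8 := by
      by_cases h : c % 8 = 7
      · simp [h]
      · rw [if_neg h]
        have : Nat.beq (c % 8) 7 = false := beq_false h
        simp [this]
    rw [e, hb]
    have hlt : (if c % 8 = 7 then 0 else c % 8) < 8 := by split_ifs <;> omega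
    cases i with
    | zero =>
      rw [dig_zero', dig_zero']
      omega
    | succ i =>
      rw [dig_succ', dig_succ']
      rw [show ((if c % 8 = 7 then 0 else c % 8) + 8 * clr n (c / 8)) / 8 = clr n (c / 8) by omega]
      exact ih (c / 8) i (by omega)

theorem mem_sev (n i c j : ℕ) : j ∈ sev n i c ↔ i ≤ j ∧ j < i + n ∧ dig c (j - i) = 7 := by
  induction n generalizing i c with
  | zero => simp [sev]; omega
  | succ n ih =>
    have key : j ∈ sev n (i + 1) (c / 8) ↔ i + 1 ≤ j ∧ j < i + (n + 1) ∧ dig c (j - i) = 7 := by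
      rw [ih]
      constructor
      · rintro ⟨h1, h2, h3⟩
        refine ⟨h1, by omega, ?_⟩
        rw [show j - i = (j - (i + 1)) + 1 by omega, dig_succ']
        exact h3
      · rintro ⟨h1, h2, h3⟩
        refine ⟨h1, by omega, ?_⟩
        rw [show j - i = (j - (i + 1)) + 1 by omega, dig_succ'] at h3
        exact h3
    by_cases h : c % 8 = 7
    · have e : sev (n + 1) i c = i :: sev n (i + 1) (c / 8) := by
        simp [sev, h]
      rw [e, List.mem_cons, key]
      constructor
      · rintro (rfl | ⟨h1, h2, h3⟩)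
        · refine ⟨le_rfl, by omega, ?_⟩
          rw [Nat.sub_self, dig_zero']
          exact h
        · exact ⟨by omega, h2, h3⟩
      · rintro ⟨h1, h2, h3⟩
        rcases Nat.eq_or_lt_of_le h1 with h4 | h4
        · exact Or.inl h4.symm
        · exact Or.inr ⟨h4, h2, h3⟩
    · have hb : Nat.beq (c % 8) 7 = false := beq_false h
      have e : sev (n + 1) i c = sev n (i + 1) (c / 8) := by
        simp [sev, hb]
      rw [e, key]
      constructor
      · rintro ⟨h1, h2, h3⟩
        exact ⟨by omega, h2, h3⟩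
      · rintro ⟨h1, h2, h3⟩
        rcases Nat.eq_or_lt_of_le h1 with h4 | h4
        · exfalso
          subst h4
          rw [Nat.sub_self, dig_zero'] at h3
          exact h h3
        · exact ⟨h4, h2, h3⟩

variable {S : Spec} {V : Type*} [Fintype V] (T : Sys S V)

/-- weights with the unread digit -/
noncomputable def rhoN (d : ℕ) (x y : V) : ℝ := if d = 7 then 1 else T.rho d x y

theorem adN (h7 : 7 ∉ S.ad) (x y : V) :
    (S.ad.map fun d => rhoN T d x y) = S.ad.map fun d => T.rho d x y := by
  refine List.map_congr_left fun d hd => ?_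
  unfold rhoN
  rw [if_neg]
  rintro rfl
  exact h7 hd

/-- the system with the unread digit -/
noncomputable def toW (h7 : 7 ∉ S.ad) : NL.Wts (nl S) V where
  rho := rhoN T
  D := T.D
  nonneg := by
    intro d x y
    unfold rhoN
    split_ifs
    · exact zero_le_one
    · exact T.nonneg _ _ _
  deg := by
    intro x
    have e : (nl S).ad = S.ad := rfl
    rw [e]
    simp only [adN T h7]
    exact T.deg x
  mul := by
    intro a b x y h
    change mulN S a b < 8 at h
    change rhoN T a x y * rhoN T b x y = rhoN T (mulN S a b) x y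
    unfold mulN at h ⊢
    by_cases ha : a = 7
    · subst ha
      simp [rhoN]
    · have hba : Nat.beq a 7 = false := beq_false ha
      by_cases hb : b = 7
      · subst hb
        simp [rhoN, hba]
      · have hbb : Nat.beq b 7 = false := beq_false hb
        simp only [hba, hbb, cond_false] at h ⊢
        by_cases hm : S.mul a b = 7
        · simp [hm] at h
        · have hbm : Nat.beq (S.mul a b) 7 = false := beq_false hm
          simp only [hbm, cond_false] at h ⊢
          unfold rhoN
          rw [if_neg ha, if_neg hb, if_neg hm]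
          exact T.mul a b x y hm

theorem wt_cv (h7 : 7 ∉ S.ad) (k c : ℕ) (free : List ℕ) (t : Fin k → V) :
    (toW T h7).wt k c free t = T.wt k (clr (npr k) c) (free ++ sev (npr k) 0 c) t := by
  unfold NL.Wts.wt Sys.wt
  refine prod_congr rfl fun q _ => prod_congr rfl fun p _ => ?_
  by_cases hpq : p < q
  · have hlt : idx p q < npr k := Aux.idx_lt hpq q.2
    by_cases hf : idx p q ∈ free
    · rw [if_neg (fun h => h.2 hf), if_neg (fun h => h.2 (List.mem_append_left _ hf))]
    · rw [if_pos ⟨hpq, hf⟩]
      change rhoN T _ _ _ = _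
      unfold rhoN
      by_cases hd : dig c (idx p q) = 7
      · rw [if_pos hd, if_neg]
        intro h
        apply h.2
        rw [List.mem_append, mem_sev]
        right
        exact ⟨Nat.zero_le _, by omega, by simpa using hd⟩
      · rw [if_neg hd, if_pos, dig_clr _ _ _ hlt, if_neg hd]
        refine ⟨hpq, ?_⟩
        rw [List.mem_append, mem_sev, not_or]
        refine ⟨hf, ?_⟩
        rintro ⟨-, -, h⟩
        exact hd (by simpa using h)
  · rw [if_neg (fun h => hpq h.1), if_neg (fun h => hpq h.1)]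

theorem pcount_cv (h7 : 7 ∉ S.ad) (k c : ℕ) (free : List ℕ) :
    (toW T h7).pcount k c free = T.pcount k (clr (npr k) c) (free ++ sev (npr k) 0 c) := by
  unfold NL.Wts.pcount Sys.pcount
  exact sum_congr rfl fun t _ => wt_cv T h7 k c free t

theorem srcVal_cv (h7 : 7 ∉ S.ad) (k : ℕ) (L : List Src) :
    NL.srcVal (toW T h7) k L = srcVal T k (L.map (cv k)) := by
  unfold NL.srcVal srcVal
  rw [List.map_map]
  congr 1
  refine List.map_congr_left fun x _ => ?_
  rw [pcount_cv]
  rfl

theorem lvl_cv (h7 : 7 ∉ S.ad) (K : ℕ) (L : ℕ → List Src) :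
    NL.lvl (toW T h7) K L = lvl T K (fun k => (L k).map (cv k)) := by
  unfold NL.lvl lvl
  refine sum_congr rfl fun k _ => ?_
  rw [srcVal_cv]
  rfl

/-- the sources of a block with unread pairs -/
def blkSrcN (S : Spec) (s : ℕ) (R : Option ℕ) (k : ℕ) (Q : List (List ℤ)) (F : List (ℕ × ℕ)) :
    List Src := (blkSrc (nl S) s R k Q F).map (cv k)

/-- the sources of a list of degree rows with unread pairs -/
def rowsSrcN (S : Spec) (k : ℕ) (r : List RowD) : List Src := (rowsSrc (nl S) k r).map (cv k)

theorem blkN_nonpos (h7 : 7 ∉ S.ad) (K : ℕ) (hD : 0 ≤ T.D) (b : BlkD)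
    (h : NL.goodN (nl S) K b) : lvl T K (fun k => blkSrcN S b.s b.R k b.Q b.fls) ≤ 0 := by
  have h1 := NL.blk_nonpos (toW T h7) K hD b h
  rw [lvl_cv] at h1
  exact h1

theorem lvl_blksN (h7 : 7 ∉ S.ad) (K : ℕ) (hD : 0 ≤ T.D) (blks : List BlkD)
    (h : ∀ b ∈ blks, NL.goodN (nl S) K b) :
    lvl T K (fun k => blks.flatMap (fun b => blkSrcN S b.s b.R k b.Q b.fls)) ≤ 0 := by
  induction blks with
  | nil => simp [lvl_nil]
  | cons b bs ih =>
    simp only [List.flatMap_cons]
    rw [lvl_append]
    have h1 := blkN_nonpos T h7 K hD b (h b List.mem_cons_self)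
    have h2 := ih fun b hb => h b (List.mem_cons_of_mem _ hb)
    linarith

theorem regular_toW (h7 : 7 ∉ S.ad) (h : Regular T) : NL.Regular (toW T h7) := by
  intro x
  have e : (nl S).ad = S.ad := rfl
  rw [e]
  change ∑ y, (S.ad.map fun d => rhoN T d x y).sum = T.D
  simp only [adN T h7]
  exact h x

theorem lvl_rowsN (h7 : 7 ∉ S.ad) (reg : Bool) (hreg : reg = true → Regular T) (K : ℕ)
    (hD : 0 ≤ T.D) (had : ∀ d ∈ S.ad, d < 8) (rows : List RowD)
    (h : (rows.all fun x => x.ok reg K) = true) :
    lvl T K (fun k => rowsSrcN S k rows) ≤ 0 := by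
  induction rows with
  | nil =>
    unfold rowsSrcN rowsSrc
    simp [lvl_nil]
  | cons b bs ih =>
    simp only [List.all_cons, Bool.and_eq_true] at h
    have e : ∀ k, rowsSrcN S k (b :: bs) = (b.src (nl S) k).map (cv k) ++ rowsSrcN S k bs := by
      intro k
      unfold rowsSrcN rowsSrc
      rw [List.flatMap_cons, List.map_append]
    simp only [e]
    rw [lvl_append]
    have h1 := NL.row_nonpos (toW T h7) reg (fun hr => regular_toW T h7 (hreg hr)) K hD had b h.1
    rw [lvl_cv] at h1
    have h2 := ih h.2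
    linarith

/-- all sources at level `k` -/
def allSrcN (S : Spec) (Tgt : ℕ → List Src) (blks : List BlkD) (rows : List RowD)
    (blksN : List BlkD) (rowsN : List RowD) (k : ℕ) : List Src :=
  allSrc S Tgt blks rows k ++ blksN.flatMap (fun b => blkSrcN S b.s b.R k b.Q b.fls) ++
    rowsSrcN S k rowsN

/-- **The verifier with unread pairs.** -/
theorem main_ineqN (h7 : 7 ∉ S.ad) (reg : Bool) (hreg : reg = true → Regular T) (K : ℕ)
    (hK : 4 ≤ K) (hD : 0 ≤ T.D) (had : ∀ d ∈ S.ad, d < 8)
    (Tgt : ℕ → List Src) (blks : List BlkD) (rows : List RowD)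
    (hb : ∀ b ∈ blks, b.good S K) (hr : (rows.all fun x => x.ok reg K) = true)
    (blksN : List BlkD) (rowsN : List RowD)
    (hbN : ∀ b ∈ blksN, NL.goodN (nl S) K b) (hrN : (rowsN.all fun x => x.ok reg K) = true)
    (c : ℕ → ℝ) (hc0 : ∀ k, k < 4 → c k = 0)
    (hc : ∀ k ≤ K, -(c k) * T.bad * T.D ^ (k - 4) ≤
      srcVal T k (allSrcN S Tgt blks rows blksN rowsN k)) :
    -(∑ k ∈ range (K + 1), c k) * T.bad * T.D ^ (K - 4) ≤ lvl T K Tgt := by
  have h1 : lvl T K (fun k => allSrcN S Tgt blks rows blksN rowsN k) ≤ lvl T K Tgt := by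
    unfold allSrcN allSrc
    rw [lvl_append, lvl_append, lvl_append, lvl_append]
    have h2 := lvl_blks T K hD blks hb
    have h3 := lvl_rows T reg hreg K hD had rows hr
    have h4 := lvl_blksN T h7 K hD blksN hbN
    have h5 := lvl_rowsN T h7 reg hreg K hD had rowsN hrN
    linarith
  refine le_trans ?_ h1
  unfold lvl
  rw [neg_mul, neg_mul, sum_mul, sum_mul, ← sum_neg_distrib]
  refine sum_le_sum fun k hk => ?_
  have hkK : k ≤ K := by
    have := mem_range.1 hk
    omega
  have h2 := hc k hkK
  rcases lt_or_ge k 4 with h4 | h4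
  · rw [hc0 k h4] at h2 ⊢
    simp only [neg_zero, zero_mul] at h2 ⊢
    exact mul_nonneg (pow_nonneg hD _) h2
  · have e1 : T.D ^ (K - 4) = T.D ^ (K - k) * T.D ^ (k - 4) := by
      rw [← pow_add]
      congr 1
      omega
    rw [e1]
    have := mul_le_mul_of_nonneg_left h2 (pow_nonneg hD (K - k))
    linarith

/-- the parts of a block with unread pairs -/
def cutN (S : Spec) (s : ℕ) (R : Option ℕ) (k : ℕ) (Q : List (List ℤ)) (F : List (ℕ × ℕ)) :
    ℕ → List ℕ → List (List Src)
  | i, (n :: ns) => blkSrcN S s R k ((Q.drop i).take n) (F.drop i) :: cutN S s R k Q F (i + n) ns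
  | i, [] => [blkSrcN S s R k (Q.drop i) (F.drop i)]

/-- the parts of all blocks with unread pairs and root size at most `k` -/
def partsN (S : Spec) (k : ℕ) : List (BlkD × List ℕ) → List (List Src)
  | (x :: bs) => (if x.1.s ≤ k then cutN S x.1.s x.1.R k x.1.Q x.1.fls 0 x.2 else []) ++
      partsN S k bs
  | [] => []

/-- all parts, with unread pairs -/
def allPartsN (S : Spec) (Tgt : ℕ → List Src) (k : ℕ) (bs : List (BlkD × List ℕ))
    (rs : List (List RowD)) (bsN : List (BlkD × List ℕ)) (rsN : List (List RowD)) :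
    List (List Src) :=
  parts S Tgt k bs rs ++ (partsN S k bsN ++ rsN.map (rowsSrcN S k))

theorem cutN_eq (S : Spec) (s : ℕ) (R : Option ℕ) (k : ℕ) (Q : List (List ℤ))
    (F : List (ℕ × ℕ)) (ns : List ℕ) (i : ℕ) :
    cutN S s R k Q F i ns = (cutC (nl S) s R k Q F i ns).map fun L => L.map (cv k) := by
  induction ns generalizing i with
  | nil => simp [cutN, cutC, blkSrcN]
  | cons n ns ih => rw [cutN, cutC, ih, List.map_cons]; rfl

theorem partsN_eq (S : Spec) (k : ℕ) (bs : List (BlkD × List ℕ)) :
    partsN S k bs = (partsB (nl S) k bs).map fun L => L.map (cv k) := by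
  induction bs with
  | nil => rfl
  | cons x bs ih =>
    rw [partsN, partsB, List.map_append, ih]
    congr 1
    split_ifs
    · exact cutN_eq ..
    · rfl

theorem flatten_map_map {α β : Type*} (f : α → β) (L : List (List α)) :
    (L.map fun l => l.map f).flatten = L.flatten.map f := by
  induction L with
  | nil => rfl
  | cons l L ih => rw [List.map_cons, List.flatten_cons, ih, List.flatten_cons, List.map_append]

theorem allPartsN_flatten (S : Spec) (Tgt : ℕ → List Src) (k : ℕ) (bs : List (BlkD × List ℕ))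
    (rs : List (List RowD)) (bsN : List (BlkD × List ℕ)) (rsN : List (List RowD)) :
    (allPartsN S Tgt k bs rs bsN rsN).flatten =
      allSrcN S Tgt (bs.map Prod.fst) rs.flatten (bsN.map Prod.fst) rsN.flatten k := by
  unfold allPartsN allSrcN
  rw [List.flatten_append, List.flatten_append, parts_flatten, partsN_eq, flatten_map_map,
    partsB_flatten, List.append_assoc]
  congr 2
  · rw [List.map_flatMap]
    rfl
  · induction rsN with
    | nil => rfl
    | cons r rs ih =>
      rw [List.map_cons, List.flatten_cons, ih, List.flatten_cons]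
      unfold rowsSrcN rowsSrc
      rw [List.flatMap_append, List.map_append]

/-- **The verifier with unread pairs**, for sources cut into parts. -/
theorem main_partsN (h7 : 7 ∉ S.ad) (reg : Bool) (hreg : reg = true → Regular T) (K : ℕ)
    (hK : 4 ≤ K) (hD : 0 ≤ T.D) (had : ∀ d ∈ S.ad, d < 8)
    (Tgt : ℕ → List Src) (blks : List BlkD) (rows : List RowD)
    (hb : ∀ b ∈ blks, b.good S K) (hr : (rows.all fun x => x.ok reg K) = true)
    (blksN : List BlkD) (rowsN : List RowD)
    (hbN : ∀ b ∈ blksN, NL.goodN (nl S) K b) (hrN : (rowsN.all fun x => x.ok reg K) = true)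
    (bs : ℕ → List (BlkD × List ℕ)) (hbs : ∀ k ≤ K, (bs k).map Prod.fst = blks)
    (rs : ℕ → List (List RowD)) (hrs : ∀ k ≤ K, (rs k).flatten = rows)
    (bsN : ℕ → List (BlkD × List ℕ)) (hbsN : ∀ k ≤ K, (bsN k).map Prod.fst = blksN)
    (rsN : ℕ → List (List RowD)) (hrsN : ∀ k ≤ K, (rsN k).flatten = rowsN)
    (c : ℕ → ℝ) (hc0 : ∀ k, k < 4 → c k = 0)
    (hc : ∀ k ≤ K, -(c k) * T.bad * T.D ^ (k - 4) ≤
      srcVal T k (allPartsN S Tgt k (bs k) (rs k) (bsN k) (rsN k)).flatten) :
    -(∑ k ∈ range (K + 1), c k) * T.bad * T.D ^ (K - 4) ≤ lvl T K Tgt := by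
  refine main_ineqN T h7 reg hreg K hK hD had Tgt blks rows hb hr blksN rowsN hbN hrN c hc0 ?_
  intro k hk
  have := hc k hk
  rwa [allPartsN_flatten, hbs k hk, hrs k hk, hbsN k hk, hrsN k hk] at this

end MP433Sys
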