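import Pool.Agent.Work.MP_433a35_co.GB.Sys.Asm

/-!
# Flags with unread pairs, part 1

`Wts S V` is a list of weights of the digits, multiplicative on root pairs whenever the table of
`S` gives a digit (`< 8`).  The digit `7` will be the digit of an unread pair, of weight `1`.
The facts on products of flags (`Glue`), degree rows (`Deg`) and blocks (`Blk`) are repeated for
`Wts`.
-/

namespace MP433Sys

namespace NL

open Finset

/-- weights of the digits -/
structure Wts (S : Spec) (V : Type*) [Fintype V] where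
  rho : ℕ → V → V → ℝ
  D : ℝ
  nonneg : ∀ d x y, 0 ≤ rho d x y
  deg : ∀ x, ∑ y, (S.ad.map fun d => rho d x y).sum ≤ D
  mul : ∀ a b x y, S.mul a b < 8 → rho a x y * rho b x y = rho (S.mul a b) x y

namespace Wts

variable {S : Spec} {V : Type*} [Fintype V] (T : Wts S V)

/-- weight of a tuple -/
noncomputable def wt (k c : ℕ) (free : List ℕ) (t : Fin k → V) : ℝ :=
  ∏ q : Fin k, ∏ p : Fin k,
    if p < q ∧ idx p q ∉ free then T.rho (dig c (idx p q)) (t p) (t q) else 1

/-- total weight of a partial code -/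
noncomputable def pcount (k c : ℕ) (free : List ℕ) : ℝ := ∑ t : Fin k → V, T.wt k c free t

/-- total weight of a code -/
noncomputable def full (k c : ℕ) : ℝ := T.pcount k c []

/-- weight of the extensions of a root tuple to a flag -/
noncomputable def fl (s a F : ℕ) (r : Fin s → V) : ℝ :=
  ∑ u : Fin a → V, T.wt (s + a) F [] (Fin.append r u)

end Wts

/-- value of a list of weighted partial codes -/
noncomputable def srcVal {S : Spec} {V : Type*} [Fintype V] (T : Wts S V) (k : ℕ)
    (L : List Src) : ℝ :=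
  (L.map fun x => (x.w : ℝ) * T.pcount k x.c x.free).sum

/-- the root digits of the flags can be multiplied and `F` has no digits outside its pairs -/
def glueOK (S : Spec) (s a F G : ℕ) : Bool :=
  decide (F < 8 ^ npr (s + a)) &&
  (List.range (npr s)).all fun i => decide (S.mul (dig F i) (dig G i) < 8)

variable {S : Spec} {V : Type*} [Fintype V] (T : Wts S V)

theorem all_lt (s a b F G : ℕ) (hm : ∀ i < npr s, S.mul (dig F i) (dig G i) < 8) :
    ∀ x ∈ glueLow S s F G ++ glueList s a b G, x.2 < 8 := by
  intro x hx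
  rcases List.mem_append.mp hx with hx | hx
  · unfold glueLow at hx
    simp only [List.mem_map, List.mem_range] at hx
    obtain ⟨j, hj, rfl⟩ := hx
    have := hm j hj
    exact this
  · exact glueList_lt s a b G x hx

theorem dig_glue_root (s a b F G p q : ℕ) (hF : F < 8 ^ npr (s + a))
    (hm : ∀ i < npr s, S.mul (dig F i) (dig G i) < 8) (hpq : p < q) (hq : q < s) :
    dig (glue S s a b F G) (idx p q) = S.mul (dig F (idx p q)) (dig G (idx p q)) := by
  rw [glue_eq]
  refine Aux.dig_lsum_mem _ _ (all_nodup s a b F G) (all_lt s a b F G hm) (all_zero s a b F G hF)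
    (idx p q, S.mul (dig F (idx p q)) (dig G (idx p q))) ?_
  rw [List.mem_append]
  left
  unfold glueLow
  simp only [List.mem_map, List.mem_range]
  exact ⟨idx p q, Aux.idx_lt hpq hq, rfl⟩

theorem dig_glue_low (s a b F G p q : ℕ) (hF : F < 8 ^ npr (s + a))
    (hm : ∀ i < npr s, S.mul (dig F i) (dig G i) < 8) (hpq : p < q) (hs : s ≤ q)
    (hq : q < s + a) : dig (glue S s a b F G) (idx p q) = dig F (idx p q) := by
  rw [glue_eq]
  have hge := Aux.idx_ge (p := p) hs
  have hlt := Aux.idx_lt hpq hq
  rw [Aux.dig_lsum_not_mem _ _ (all_nodup s a b F G) (all_lt s a b F G hm)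
    (all_zero s a b F G hF) _ ?_, Aux.dig_trunc, if_neg (by omega)]
  rw [List.map_append, List.mem_append, not_or]
  constructor
  · intro h
    obtain ⟨x, hx, e⟩ := List.mem_map.mp h
    unfold glueLow at hx
    simp only [List.mem_map, List.mem_range] at hx
    obtain ⟨j, hj, rfl⟩ := hx
    have : j = idx p q := e
    omega
  · intro h
    obtain ⟨x, hx, e⟩ := List.mem_map.mp h
    have := glueList_ge s a b G x hx
    omega

theorem dig_glue_high (s a b F G x y : ℕ) (hF : F < 8 ^ npr (s + a))
    (hm : ∀ i < npr s, S.mul (dig F i) (dig G i) < 8)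
    (hx : x < s + y) (hy : y < b) :
    dig (glue S s a b F G) (idx (if x < s then x else a + x) (s + a + y)) =
      dig G (idx x (s + y)) := by
  rw [glue_eq]
  refine Aux.dig_lsum_mem _ _ (all_nodup s a b F G) (all_lt s a b F G hm)
    (all_zero s a b F G hF)
    (idx (if x < s then x else a + x) (s + a + y), dig G (idx x (s + y))) ?_
  rw [List.mem_append]
  right
  unfold glueList
  simp only [List.mem_flatMap, List.mem_map, List.mem_range]
  exact ⟨y, hy, x, hx, rfl⟩

/-- weight of the pairs with upper position `s + y` -/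
noncomputable def ext (s a c : ℕ) (free : List ℕ) (r : Fin s → V) (u : Fin a → V) : ℝ :=
  ∏ y : Fin a,
    (∏ p : Fin s, if idx p (s + y) ∉ free then T.rho (dig c (idx p (s + y))) (r p) (u y) else 1) *
    ∏ x : Fin a, if x < y ∧ idx (s + x) (s + y) ∉ free then
      T.rho (dig c (idx (s + x) (s + y))) (u x) (u y) else 1

theorem wt_append (s a c : ℕ) (free : List ℕ) (r : Fin s → V) (u : Fin a → V) :
    T.wt (s + a) c free (Fin.append r u) = T.wt s c free r * ext T s a c free r u := by
  unfold Wts.wt ext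
  rw [Fin.prod_univ_add]
  congr 1
  · refine Finset.prod_congr rfl fun q _ => ?_
    rw [Fin.prod_univ_add]
    have : ∏ i : Fin a, (if (Fin.natAdd s i : Fin (s + a)) < Fin.castAdd a q ∧
        idx (Fin.natAdd s i : Fin (s + a)) (Fin.castAdd a q : Fin (s + a)) ∉ free then
        T.rho (dig c (idx (Fin.natAdd s i : Fin (s + a)) (Fin.castAdd a q : Fin (s + a))))
          (Fin.append r u (Fin.natAdd s i)) (Fin.append r u (Fin.castAdd a q)) else 1) = 1 := by
      refine Finset.prod_eq_one fun i _ => ?_
      rw [if_neg]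
      rintro ⟨h, _⟩
      have : s + (i : ℕ) < q := h
      have := q.2
      omega
    rw [this, mul_one]
    refine Finset.prod_congr rfl fun p _ => ?_
    rw [Fin.append_left, Fin.append_left]
    rfl
  · refine Finset.prod_congr rfl fun y _ => ?_
    rw [Fin.prod_univ_add]
    congr 1
    · refine Finset.prod_congr rfl fun p _ => ?_
      rw [Fin.append_left, Fin.append_right]
      refine if_congr ?_ rfl rfl
      have : (Fin.castAdd a p : Fin (s + a)) < Fin.natAdd s y := by
        show (p : ℕ) < s + y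
        have := p.2
        omega
      simp [this]
    · refine Finset.prod_congr rfl fun x _ => ?_
      rw [Fin.append_right, Fin.append_right]
      refine if_congr ?_ rfl rfl
      simp

theorem wt_glue (s a b F G : ℕ) (h : glueOK S s a F G = true) (r : Fin s → V) (u : Fin a → V)
    (u' : Fin b → V) :
    T.wt (s + a + b) (glue S s a b F G) (cross s a b) (Fin.append (Fin.append r u) u') =
      T.wt (s + a) F [] (Fin.append r u) * T.wt (s + b) G [] (Fin.append r u') := by
  unfold glueOK at h
  simp only [Bool.and_eq_true, decide_eq_true_eq, List.all_eq_true, List.mem_range] at h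
  obtain ⟨hF, hm⟩ := h
  rw [wt_append, wt_append, wt_append T s a F, wt_append T s b G]
  have e1 : T.wt s (glue S s a b F G) (cross s a b) r = T.wt s F [] r * T.wt s G [] r := by
    unfold Wts.wt
    rw [← Finset.prod_mul_distrib]
    refine Finset.prod_congr rfl fun q _ => ?_
    rw [← Finset.prod_mul_distrib]
    refine Finset.prod_congr rfl fun p _ => ?_
    by_cases hpq : p < q
    · have hpq' : (p : ℕ) < q := hpq
      have hq := q.2
      rw [if_pos ⟨hpq, not_mem_cross_low hpq' (by omega)⟩, if_pos ⟨hpq, by simp⟩,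
        if_pos ⟨hpq, by simp⟩, dig_glue_root s a b F G p q hF hm hpq' hq, T.mul]
      exact hm _ (Aux.idx_lt hpq' hq)
    · rw [if_neg (fun h => hpq h.1), if_neg (fun h => hpq h.1), if_neg (fun h => hpq h.1), mul_one]
  have e2 : ext T s a (glue S s a b F G) (cross s a b) r u = ext T s a F [] r u := by
    unfold ext
    refine Finset.prod_congr rfl fun y _ => ?_
    have hy := y.2
    congr 1
    · refine Finset.prod_congr rfl fun p _ => ?_
      have hp := p.2
      rw [if_pos (not_mem_cross_low (by omega) (by omega)), if_pos (by simp),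
        dig_glue_low s a b F G p (s + y) hF hm (by omega) (by omega) (by omega)]
    · refine Finset.prod_congr rfl fun x _ => ?_
      by_cases hxy : x < y
      · have hxy' : (x : ℕ) < y := hxy
        rw [if_pos ⟨hxy, not_mem_cross_low (by omega) (by omega)⟩, if_pos ⟨hxy, by simp⟩,
          dig_glue_low s a b F G (s + x) (s + y) hF hm (by omega) (by omega) (by omega)]
      · rw [if_neg (fun h => hxy h.1), if_neg (fun h => hxy h.1)]
  have e3 : ext T (s + a) b (glue S s a b F G) (cross s a b) (Fin.append r u) u' =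
      ext T s b G [] r u' := by
    unfold ext
    refine Finset.prod_congr rfl fun y _ => ?_
    have hy := y.2
    congr 1
    · rw [Fin.prod_univ_add]
      have : ∏ i : Fin a, (if idx (Fin.natAdd s i : Fin (s + a)) (s + a + y) ∉ cross s a b then
          T.rho (dig (glue S s a b F G) (idx (Fin.natAdd s i : Fin (s + a)) (s + a + y)))
            (Fin.append r u (Fin.natAdd s i)) (u' y) else 1) = 1 := by
        refine Finset.prod_eq_one fun i _ => ?_
        rw [if_neg]
        intro h
        exact h (mem_cross i.2 y.2)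
      rw [this, mul_one]
      refine Finset.prod_congr rfl fun p _ => ?_
      have hp := p.2
      have e := dig_glue_high (S := S) s a b F G p y hF hm (by omega) hy
      rw [if_pos hp] at e
      rw [if_pos, if_pos (by simp), Fin.append_left, Fin.val_castAdd, e]
      exact not_mem_cross_high (by rw [Fin.val_castAdd]; omega) (Or.inl hp)
    · refine Finset.prod_congr rfl fun x _ => ?_
      by_cases hxy : x < y
      · have hxy' : (x : ℕ) < y := hxy
        have e := dig_glue_high (S := S) s a b F G (s + x) y hF hm (by omega) hy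
        rw [if_neg (by omega), show a + (s + (x : ℕ)) = s + a + x by omega] at e
        rw [if_pos ⟨hxy, not_mem_cross_high (by omega) (Or.inr (by omega))⟩,
          if_pos ⟨hxy, by simp⟩, e]
      · rw [if_neg (fun h => hxy h.1), if_neg (fun h => hxy h.1)]
  rw [e1, e2, e3]
  ring

theorem glue_sum (s a b F G : ℕ) (h : glueOK S s a F G = true) :
    ∑ r : Fin s → V, T.fl s a F r * T.fl s b G r =
      T.pcount (s + a + b) (glue S s a b F G) (cross s a b) := by
  unfold Wts.fl Wts.pcount
  rw [Aux.sum_append, Aux.sum_append]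
  refine Finset.sum_congr rfl fun r _ => ?_
  rw [Finset.sum_mul_sum]
  refine Finset.sum_congr rfl fun u _ => Finset.sum_congr rfl fun u' _ => ?_
  rw [wt_glue T s a b F G h r u u']

theorem wt_nonneg (k c : ℕ) (free : List ℕ) (t : Fin k → V) : 0 ≤ T.wt k c free t := by
  unfold Wts.wt
  exact Finset.prod_nonneg fun q _ => Finset.prod_nonneg fun p _ => by
    split_ifs
    · exact T.nonneg _ _ _
    · norm_num

theorem wt_snoc_row (k p i d : ℕ) (hi : i < k) (hp : p < 8 ^ npr k) (hd : d < 8)
    (t : Fin k → V) (v : V) :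
    T.wt (k + 1) (p + d * 8 ^ idx i k)
      (((List.range k).filter fun y => y != i).map fun y => idx y k) (Fin.snoc t v) =
    T.wt k p [] t * T.rho d (t ⟨i, hi⟩) v := by
  have h0 : dig p (idx i k) = 0 :=
    Aux.dig_eq_zero (lt_of_lt_of_le hp (Nat.pow_le_pow_right (by norm_num) (Aux.idx_ge le_rfl)))
  unfold Wts.wt
  rw [Fin.prod_univ_castSucc]
  congr 1
  · refine Finset.prod_congr rfl fun q _ => ?_
    rw [Fin.prod_univ_castSucc, if_neg, mul_one]
    · refine Finset.prod_congr rfl fun r _ => ?_
      by_cases hrq : r < q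
      · have hlt := Aux.idx_lt (p := r) (q := q) hrq q.2
        have hge := Aux.idx_ge (p := i) (le_refl k)
        have hnot : idx (r : ℕ) q ∉ ((List.range k).filter fun y => y != i).map
            fun y => idx y k := by
          simp only [List.mem_map, not_exists, not_and]
          intro y _ e
          have := Aux.idx_ge (p := y) (le_refl k)
          omega
        rw [if_pos ⟨by simpa using hrq, by simpa using hnot⟩, if_pos ⟨hrq, by simp⟩,
          Fin.snoc_castSucc, Fin.snoc_castSucc, Fin.val_castSucc, Fin.val_castSucc,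
          Aux.dig_add_ne h0 hd (by omega)]
      · rw [if_neg (fun h => hrq (by simpa using h.1)), if_neg (fun h => hrq h.1)]
    · rintro ⟨h, _⟩
      exact absurd h (not_lt.mpr (le_of_lt (Fin.castSucc_lt_last _)))
  · rw [Fin.prod_univ_castSucc, if_neg (fun h => absurd h.1 (lt_irrefl _)), mul_one]
    rw [Finset.prod_eq_single (⟨i, hi⟩ : Fin k)]
    · rw [if_pos, Fin.snoc_castSucc, Fin.snoc_last, Fin.val_castSucc, Fin.val_last,
        Aux.dig_add_self h0 hd]
      refine ⟨Fin.castSucc_lt_last _, ?_⟩
      simp only [Fin.val_castSucc, Fin.val_last, List.mem_map, not_exists, not_and,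
        List.mem_filter, List.mem_range, bne_iff_ne, ne_eq]
      rintro y ⟨hy, hne⟩ e
      exact hne (Aux.idx_inj hy hi e).1
    · intro r _ hne
      rw [if_neg]
      rintro ⟨_, h⟩
      apply h
      simp only [Fin.val_castSucc, Fin.val_last, List.mem_map, List.mem_filter,
        List.mem_range, bne_iff_ne, ne_eq]
      exact ⟨r, ⟨r.2, fun e => hne (Fin.ext e)⟩, rfl⟩
    · intro h
      exact absurd (Finset.mem_univ _) h

theorem row_sum (k p i : ℕ) (hi : i < k) (hp : p < 8 ^ npr k) (w : ℤ) (l : List ℕ)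
    (had : ∀ d ∈ l, d < 8) :
    (l.map fun d => (w : ℝ) * T.pcount (k + 1) (p + d * 8 ^ idx i k)
      (((List.range k).filter fun y => y != i).map fun y => idx y k)).sum =
    w * ∑ t : Fin k → V, T.wt k p [] t * ∑ v, (l.map fun d => T.rho d (t ⟨i, hi⟩) v).sum := by
  induction l with
  | nil => simp
  | cons d l ih =>
    rw [List.map_cons, List.sum_cons, ih (fun x hx => had x (by simp [hx]))]
    simp only [List.map_cons, List.sum_cons, Finset.sum_add_distrib, mul_add]
    congr 2
    unfold Wts.pcount
    rw [Aux.sum_snoc]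
    refine Finset.sum_congr rfl fun t _ => ?_
    rw [Finset.mul_sum]
    exact Finset.sum_congr rfl fun v _ => wt_snoc_row T k p i d hi hp (had d (by simp)) t v

theorem deg_row (k p i : ℕ) (hi : i < k) (hp : p < 8 ^ npr k) (had : ∀ d ∈ S.ad, d < 8)
    (w : ℤ) (hw : 0 ≤ w) :
    srcVal T (k + 1) (rowSrc S k w p i) ≤ w * T.D * T.full k p := by
  have hw' : (0 : ℝ) ≤ w := by exact_mod_cast hw
  unfold srcVal rowSrc
  rw [List.map_map]
  refine le_trans (le_of_eq (row_sum T k p i hi hp w S.ad had)) ?_
  rw [mul_assoc]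
  refine mul_le_mul_of_nonneg_left ?_ hw'
  unfold Wts.full Wts.pcount
  rw [Finset.mul_sum]
  refine Finset.sum_le_sum fun t _ => ?_
  rw [mul_comm T.D]
  exact mul_le_mul_of_nonneg_left (T.deg _) (wt_nonneg T _ _ _ _)

/-- in a regular system the degree rows are equations -/
theorem deg_row_eq (hreg : ∀ x, ∑ y, (S.ad.map fun d => T.rho d x y).sum = T.D) (k p i : ℕ)
    (hi : i < k) (hp : p < 8 ^ npr k) (had : ∀ d ∈ S.ad, d < 8) (w : ℤ) :
    srcVal T (k + 1) (rowSrc S k w p i) = w * T.D * T.full k p := by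
  unfold srcVal rowSrc
  rw [List.map_map]
  refine (row_sum T k p i hi hp w S.ad had).trans ?_
  rw [mul_assoc]
  congr 1
  unfold Wts.full Wts.pcount
  rw [Finset.mul_sum]
  refine Finset.sum_congr rfl fun t _ => ?_
  rw [hreg, mul_comm]

theorem fl_root (s a R F : ℕ) (h : glueOK S s 0 R F = true) (r : Fin s → V) :
    T.fl s a (glue S s 0 a R F) r = T.wt s R [] r * T.fl s a F r := by
  unfold Wts.fl
  rw [mul_sum]
  refine sum_congr rfl fun u _ => ?_
  have h1 := wt_glue T s 0 a R F h r (fun i => i.elim0) u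
  have h2 : Fin.append r (fun i : Fin 0 => (i.elim0 : V)) = r := by
    funext i
    exact Fin.append_left r _ i
  rw [cross_zero] at h1
  change T.wt (s + a) (glue S s 0 a R F) [] (Fin.append (Fin.append r (fun i : Fin 0 => i.elim0)) u) =
    T.wt s R [] (Fin.append r (fun i : Fin 0 => i.elim0)) * T.wt (s + a) F [] (Fin.append r u) at h1
  rw [h2] at h1
  exact h1

/-- check of the products of the flag `A` with the flags `Bs` -/
def rowOK (S : Spec) (s : ℕ) (R : Option ℕ) (A : ℕ × ℕ) (Bs : List (ℕ × ℕ)) : Bool :=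
  Bs.all fun B => glueOK S s A.1 (mulR S s R A) B.2

/-- check of a block -/
def blkOK (S : Spec) (s e : ℕ) (R : Option ℕ) : List (ℕ × ℕ) → Bool
  | [] => true
  | (A :: As) => decide (A.1 ≤ e) &&
    (match R with
      | none => true
      | some R => glueOK S s 0 R A.2) && rowOK S s R A (A :: As) && blkOK S s e R As

/-- weight of the root multiplier -/
noncomputable def rootW (s : ℕ) (R : Option ℕ) (r : Fin s → V) : ℝ :=
  match R with
  | none => 1
  | some R => T.wt s R [] r

/-- the scaled flags -/
noncomputable def flX (s e : ℕ) (fls : List (ℕ × ℕ)) (r : Fin s → V) : List ℝ :=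
  fls.map fun A => T.D ^ (e - A.1) * T.fl s A.1 A.2 r

/-- sum over the levels -/
noncomputable def lvl (K : ℕ) (L : ℕ → List Src) : ℝ :=
  ∑ k ∈ range (K + 1), T.D ^ (K - k) * srcVal T k (L k)

theorem srcVal_append (k : ℕ) (L M : List Src) :
    srcVal T k (L ++ M) = srcVal T k L + srcVal T k M := by
  simp [srcVal]

theorem srcVal_nil (k : ℕ) : srcVal T k [] = 0 := by
  simp [srcVal]

theorem lvl_append (K : ℕ) (L M : ℕ → List Src) :
    lvl T K (fun k => L k ++ M k) = lvl T K L + lvl T K M := by
  simp only [lvl, srcVal_append, mul_add, sum_add_distrib]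

theorem lvl_nil (K : ℕ) : lvl T K (fun _ => []) = 0 := by
  simp [lvl, srcVal_nil]

theorem lvl_single (K k0 : ℕ) (h : k0 ≤ K) (p : Prop) [Decidable p] (x : Src)
    (hp : ¬ p → x.w = 0) :
    lvl T K (fun k => if k0 = k ∧ p then [x] else []) =
      T.D ^ (K - k0) * ((x.w : ℝ) * T.pcount k0 x.c x.free) := by
  unfold lvl
  rw [sum_eq_single k0]
  · by_cases hpp : p
    · simp [srcVal, hpp]
    · simp [srcVal, hpp, hp hpp]
  · intro b _ hb
    have : ¬ (k0 = b ∧ p) := fun h => hb h.1.symm
    simp [this, srcVal_nil]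
  · intro hn
    exact absurd (mem_range.2 (by omega)) hn

theorem fl_mulR (s e : ℕ) (R : Option ℕ) (A : ℕ × ℕ) (As : List (ℕ × ℕ))
    (h : blkOK S s e R (A :: As) = true) (r : Fin s → V) :
    T.fl s A.1 (mulR S s R A) r = rootW T s R r * T.fl s A.1 A.2 r := by
  simp only [blkOK, Bool.and_eq_true] at h
  cases R with
  | none => simp [mulR, rootW]
  | some R => exact fl_root T s A.1 R A.2 h.1.1.2 r

theorem pair_term (s e K : ℕ) (hK : s + 2 * e ≤ K) (R : Option ℕ) (A B : ℕ × ℕ) (hA : A.1 ≤ e)
    (hB : B.1 ≤ e) (hg : glueOK S s A.1 (mulR S s R A) B.2 = true)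
    (hR : ∀ r, T.fl s A.1 (mulR S s R A) r = rootW T s R r * T.fl s A.1 A.2 r) :
    T.D ^ (K - (s + A.1 + B.1)) *
      T.pcount (s + A.1 + B.1) (glue S s A.1 B.1 (mulR S s R A) B.2) (cross s A.1 B.1) =
    ∑ r : Fin s → V, rootW T s R r * T.D ^ (K - s - 2 * e) *
      ((T.D ^ (e - A.1) * T.fl s A.1 A.2 r) * (T.D ^ (e - B.1) * T.fl s B.1 B.2 r)) := by
  rw [← glue_sum T s A.1 B.1 _ _ hg, mul_sum]
  refine sum_congr rfl fun r _ => ?_
  rw [hR r]
  have : T.D ^ (K - (s + A.1 + B.1)) =
      T.D ^ (K - s - 2 * e) * (T.D ^ (e - A.1) * T.D ^ (e - B.1)) := by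
    rw [← pow_add, ← pow_add]
    congr 1
    omega
  rw [this]
  ring

theorem rowS_spec (s e K : ℕ) (hK : s + 2 * e ≤ K) (R : Option ℕ) (A : ℕ × ℕ) (hA : A.1 ≤ e)
    (hR : ∀ r, T.fl s A.1 (mulR S s R A) r = rootW T s R r * T.fl s A.1 A.2 r)
    (cs : List ℤ) (Bs : List (ℕ × ℕ)) (hB : ∀ B ∈ Bs, B.1 ≤ e)
    (hg : rowOK S s R A Bs = true) :
    lvl T K (fun k => rowS S s R k A cs Bs) =
      -∑ r : Fin s → V, rootW T s R r * T.D ^ (K - s - 2 * e) *
        (2 * (T.D ^ (e - A.1) * T.fl s A.1 A.2 r) * dot cs (flX T s e Bs r)) := by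
  induction Bs generalizing cs with
  | nil =>
    cases cs <;> simp [rowS, lvl_nil, flX, dot_nil_right]
  | cons B Bs ih =>
    cases cs with
    | nil => simp [rowS, lvl_nil, dot_nil_left]
    | cons c cs =>
      simp only [rowOK, List.all_cons, Bool.and_eq_true] at hg
      have ih' := ih cs (fun B' hB' => hB B' (List.mem_cons_of_mem _ hB')) hg.2
      have hBe := hB B List.mem_cons_self
      simp only [rowS]
      rw [lvl_append, ih', lvl_single T K (s + A.1 + B.1) (by omega) (c ≠ 0) _
        (by intro h; push Not at h; simp [h])]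
      have hp := pair_term T s e K hK R A B hA hBe hg.1 hR
      push_cast
      rw [show T.D ^ (K - (s + A.1 + B.1)) * (-(2 * (c : ℝ)) *
          T.pcount (s + A.1 + B.1) (glue S s A.1 B.1 (mulR S s R A) B.2) (cross s A.1 B.1)) =
          -(2 * (c : ℝ)) * (T.D ^ (K - (s + A.1 + B.1)) *
          T.pcount (s + A.1 + B.1) (glue S s A.1 B.1 (mulR S s R A) B.2) (cross s A.1 B.1)) by ring,
        hp, mul_sum, ← sum_neg_distrib, ← sum_neg_distrib, ← sum_add_distrib]
      refine sum_congr rfl fun r _ => ?_
      simp only [flX, List.map_cons, dot_cons]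
      ring

theorem blk_spec (s e K : ℕ) (hK : s + 2 * e ≤ K) (R : Option ℕ) (Q : List (List ℤ))
    (fls : List (ℕ × ℕ)) (h : blkOK S s e R fls = true) :
    lvl T K (fun k => blkSrc S s R k Q fls) =
      -∑ r : Fin s → V, rootW T s R r * T.D ^ (K - s - 2 * e) * qfu Q (flX T s e fls r) := by
  induction fls generalizing Q with
  | nil =>
    cases Q <;> simp [blkSrc, lvl_nil, flX, qfu_nil_right]
  | cons A As ih =>
    cases Q with
    | nil => simp [blkSrc, lvl_nil, qfu_nil_left]
    | cons q qs =>
      have hR := fl_mulR T s e R A As h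
      have h' := h
      simp only [blkOK, Bool.and_eq_true, decide_eq_true_eq] at h'
      obtain ⟨⟨⟨hA, -⟩, hrow⟩, hrest⟩ := h'
      have hall : ∀ B ∈ As, B.1 ≤ e := by
        clear ih hR h hrow
        induction As with
        | nil => simp
        | cons B Bs ih2 =>
          simp only [blkOK, Bool.and_eq_true, decide_eq_true_eq] at hrest
          intro B' hB'
          rcases List.mem_cons.1 hB' with rfl | hB'
          · exact hrest.1.1.1
          · exact ih2 hrest.2 B' hB'
      have hrow2 : glueOK S s A.1 (mulR S s R A) A.2 = true ∧ rowOK S s R A As = true := by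
        simpa [rowOK] using hrow
      simp only [blkSrc]
      rw [lvl_append, lvl_append, ih qs hrest,
        rowS_spec T s e K hK R A hA hR q.tail As hall hrow2.2,
        lvl_single T K (s + A.1 + A.1) (by omega) (q.headD 0 ≠ 0) _
        (by intro h0; push Not at h0; show -q.headD 0 = 0; rw [h0]; rfl)]
      have hp := pair_term T s e K hK R A A hA hA hrow2.1 hR
      push_cast
      rw [show T.D ^ (K - (s + A.1 + A.1)) * (-((q.headD 0 : ℤ) : ℝ) *
          T.pcount (s + A.1 + A.1) (glue S s A.1 A.1 (mulR S s R A) A.2) (cross s A.1 A.1)) =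
          -((q.headD 0 : ℤ) : ℝ) * (T.D ^ (K - (s + A.1 + A.1)) *
          T.pcount (s + A.1 + A.1) (glue S s A.1 A.1 (mulR S s R A) A.2) (cross s A.1 A.1)) by ring,
        hp, mul_sum, ← sum_neg_distrib, ← sum_neg_distrib, ← sum_neg_distrib, ← sum_add_distrib,
        ← sum_add_distrib]
      refine sum_congr rfl fun r _ => ?_
      simp only [flX, List.map_cons, qfu_cons]
      ring

theorem rootW_nonneg (s : ℕ) (R : Option ℕ) (r : Fin s → V) : 0 ≤ rootW T s R r := by
  cases R with
  | none => simp [rootW]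
  | some R => exact wt_nonneg T s R [] r

/-- the block is admissible and its form is nonnegative -/
def goodN (S : Spec) (K : ℕ) (b : BlkD) : Prop :=
  b.s + 2 * b.e ≤ K ∧ blkOK S b.s b.e b.R b.fls = true ∧ ∀ x : List ℝ, 0 ≤ qfu b.Q x

theorem blk_nonpos (K : ℕ) (hD : 0 ≤ T.D) (b : BlkD) (h : goodN S K b) :
    lvl T K (fun k => blkSrc S b.s b.R k b.Q b.fls) ≤ 0 := by
  obtain ⟨h1, h2, h3⟩ := h
  rw [blk_spec T b.s b.e K h1 b.R b.Q b.fls h2, neg_nonpos]
  refine sum_nonneg fun r _ => mul_nonneg (mul_nonneg (rootW_nonneg T _ _ r) (pow_nonneg hD _)) ?_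
  exact h3 _

/-- all degrees are equal to `D` -/
def Regular {S : Spec} {V : Type*} [Fintype V] (T : Wts S V) : Prop :=
  ∀ x, ∑ y, (S.ad.map fun d => T.rho d x y).sum = T.D

theorem lvl_single' (K k0 : ℕ) (h : k0 ≤ K) (L : List Src) :
    lvl T K (fun k => if k0 = k then L else []) = T.D ^ (K - k0) * srcVal T k0 L := by
  unfold lvl
  rw [sum_eq_single k0]
  · simp
  · intro b _ hb
    have : ¬ (k0 = b) := fun h => hb h.symm
    simp [this, srcVal_nil]
  · intro hn
    exact absurd (mem_range.2 (by omega)) hn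

theorem row_nonpos (reg : Bool) (hreg : reg = true → Regular T) (K : ℕ) (hD : 0 ≤ T.D)
    (had : ∀ d ∈ S.ad, d < 8) (x : RowD)
    (h : x.ok reg K = true) : lvl T K (fun k => x.src S k) ≤ 0 := by
  simp only [RowD.ok, Bool.and_eq_true, Bool.or_eq_true, decide_eq_true_eq] at h
  obtain ⟨⟨⟨h1, h2⟩, h3⟩, h4⟩ := h
  unfold RowD.src
  rw [lvl_append, lvl_single T K x.k (by omega) True _ (by intro h; exact absurd trivial h),
    lvl_single' T K (x.k + 1) h1]
  have hrow : srcVal T (x.k + 1) (rowSrc S x.k x.w x.p x.i) ≤ x.w * T.D * T.full x.k x.p := by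
    rcases h4 with h4 | h4
    · exact (deg_row_eq T (hreg h4) x.k x.p x.i h2 h3 had x.w).le
    · exact deg_row T x.k x.p x.i h2 h3 had x.w h4
  have e1 : T.D ^ (K - x.k) = T.D ^ (K - (x.k + 1)) * T.D := by
    rw [← pow_succ]
    congr 1
    omega
  have e2 : T.pcount x.k x.p [] = T.full x.k x.p := rfl
  have hp : 0 ≤ T.D ^ (K - (x.k + 1)) := pow_nonneg hD _
  rw [e1, e2]
  push_cast at hrow ⊢
  nlinarith [mul_le_mul_of_nonneg_left hrow hp]

end NL

end MP433Sys
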