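import Pool.Agent.Work.MP_433a35_co.GB.Sys.Psd

/-!
# Fast check that a quadratic form is a sum of squares

Linear forms are packed into one integer, `pk X [a, b, c, ..] = a + X b + X² c + ..`.
-/

namespace MP433Sys

/-- pack a list -/
def pk (X : ℤ) : List ℤ → ℤ
  | [] => 0
  | (a :: l) => Int.add a (Int.mul X (pk X l))

/-- sum of head times packed list -/
def hp (X : ℤ) : List (List ℤ) → ℤ
  | [] => 0
  | (t :: ts) => Int.add (Int.mul (t.headD 0) (pk X t)) (hp X ts)

/-- the rows of the form agree with the squares, in packed form; `ts` are the tails of the forms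
whose first variable has been passed -/
def rowsOK (X : ℤ) : List (List ℤ) → List (List ℤ) → List (List ℤ) → Bool
  | ts, (l :: L), (q :: Q) =>
    decide (pk X q = hp X (l :: ts)) && rowsOK X ((l :: ts).map List.tail) L Q
  | ts, [], (q :: Q) =>
    decide (pk X q = hp X ts) && rowsOK X (ts.map List.tail) [] Q
  | ts, [], [] => ts.all fun t => t.isEmpty
  | _, (_ :: _), [] => false

/-- all entries are at most `M` in absolute value -/
def bdd (M : ℤ) (l : List ℤ) : Bool := l.all fun a => decide (-M ≤ a) && decide (a ≤ M)

/-- check -/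
def sosOK (X M : ℤ) (n : ℕ) (L Q : List (List ℤ)) : Bool :=
  decide (L.length ≤ n) && decide (0 ≤ M) && decide (2 * (n * M * M) < X) &&
  L.all (bdd M) && Q.all (bdd (n * M * M)) && rowsOK X [] L Q

/-- semantic combination -/
def comb : List (List ℤ) → List ℤ
  | [] => []
  | (t :: ts) => padd (sml (t.headD 0) t) (comb ts)

theorem pk_nil (X : ℤ) : pk X [] = 0 := rfl

theorem pk_cons (X a : ℤ) (l : List ℤ) : pk X (a :: l) = a + X * pk X l := rfl

theorem pk_padd (X : ℤ) (u v : List ℤ) : pk X (padd u v) = pk X u + pk X v := by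
  induction u generalizing v with
  | nil => simp [padd, pk_nil]
  | cons a u ih =>
    cases v with
    | nil => simp [padd, pk_nil]
    | cons b v =>
      simp only [padd, pk_cons, ih]
      ring

theorem pk_sml (X c : ℤ) (v : List ℤ) : pk X (sml c v) = c * pk X v := by
  induction v with
  | nil => simp [sml, pk_nil]
  | cons a v ih =>
    have : sml c (a :: v) = (c * a) :: sml c v := rfl
    rw [this, pk_cons, pk_cons, ih]
    ring

theorem hp_eq (X : ℤ) (ts : List (List ℤ)) : hp X ts = pk X (comb ts) := by
  induction ts with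
  | nil => rfl
  | cons t ts ih =>
    have : hp X (t :: ts) = t.headD 0 * pk X t + hp X ts := rfl
    rw [this, ih, comb, pk_padd, pk_sml]

theorem bdd_iff (M : ℤ) (l : List ℤ) : bdd M l = true ↔ ∀ a ∈ l, |a| ≤ M := by
  simp [bdd, abs_le]

theorem bdd_padd (M N : ℤ) (hM : 0 ≤ M) (hN : 0 ≤ N) (u v : List ℤ) (hu : ∀ a ∈ u, |a| ≤ M)
    (hv : ∀ a ∈ v, |a| ≤ N) : ∀ a ∈ padd u v, |a| ≤ M + N := by
  induction u generalizing v with
  | nil =>
    intro a ha
    have := hv a (by simpa [padd] using ha)
    linarith
  | cons b u ih =>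
    cases v with
    | nil =>
      intro a ha
      have := hu a (by simpa [padd] using ha)
      linarith
    | cons c v =>
      intro a ha
      simp only [padd, List.mem_cons] at ha
      rcases ha with rfl | ha
      · have h1 := hu b List.mem_cons_self
        have h2 := hv c List.mem_cons_self
        exact (abs_add_le b c).trans (by linarith)
      · exact ih v (fun a h => hu a (List.mem_cons_of_mem _ h))
          (fun a h => hv a (List.mem_cons_of_mem _ h)) a ha

theorem bdd_comb (M : ℤ) (hM : 0 ≤ M) (ts : List (List ℤ)) (h : ∀ t ∈ ts, ∀ a ∈ t, |a| ≤ M) :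
    ∀ a ∈ comb ts, |a| ≤ ts.length * M * M := by
  induction ts with
  | nil => simp [comb]
  | cons t ts ih =>
    intro a ha
    have hhead : |t.headD 0| ≤ M := by
      cases t with
      | nil => simpa using hM
      | cons b t => exact h _ List.mem_cons_self b List.mem_cons_self
    have h1 : ∀ a ∈ sml (t.headD 0) t, |a| ≤ M * M := by
      intro a ha
      unfold sml at ha
      rw [List.mem_map] at ha
      obtain ⟨b, hb, rfl⟩ := ha
      rw [abs_mul]
      exact mul_le_mul hhead (h t List.mem_cons_self b hb) (abs_nonneg _) hM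
    have h2 := bdd_padd (M * M) (ts.length * M * M) (by positivity) (by positivity) _ _ h1
      (ih fun t ht => h t (List.mem_cons_of_mem _ ht)) a ha
    rw [List.length_cons]
    push_cast
    nlinarith

theorem pk_inj (X N : ℤ) (hN : 2 * N < X) (u v : List ℤ) (hu : ∀ a ∈ u, |a| ≤ N)
    (hv : ∀ a ∈ v, |a| ≤ N) (h : pk X u = pk X v) (x : List ℝ) : dot u x = dot v x := by
  have key : ∀ a b c : ℤ, |a| ≤ N → |b| ≤ N → a - b = X * c → a = b := by
    intro a b c ha hb habc
    rw [abs_le] at ha hb
    rcases lt_trichotomy c 0 with hc | hc | hc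
    · have : X * c ≤ -X := by nlinarith
      linarith
    · rw [hc, mul_zero] at habc
      linarith
    · have : X ≤ X * c := by nlinarith
      linarith
  induction u generalizing v x with
  | nil =>
    induction v generalizing x with
    | nil => rfl
    | cons b v ih2 =>
      have h0 := hv b List.mem_cons_self
      have hN0 : 0 ≤ N := (abs_nonneg b).trans h0
      rw [pk_cons, pk_nil] at h
      have hb : (0 : ℤ) = b := key 0 b (pk X v) (by simpa using hN0) h0 (by linarith)
      subst hb
      have hX : X ≠ 0 := by
        have := hN0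
        linarith
      have h1 : pk X v = 0 := by
        have : X * pk X v = 0 := by linarith
        exact (mul_eq_zero.1 this).resolve_left hX
      cases x with
      | nil => rw [dot_nil_right, dot_nil_right]
      | cons x xs =>
        rw [dot_nil_left, dot_cons]
        have h2 := ih2 (fun a ha => hv a (List.mem_cons_of_mem _ ha)) (by rw [pk_nil, h1]) xs
        rw [dot_nil_left] at h2
        simp [← h2]
  | cons a u ih =>
    have ha := hu a List.mem_cons_self
    have hN0 : 0 ≤ N := (abs_nonneg a).trans ha
    have hX : X ≠ 0 := by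
      have := hN0
      linarith
    cases v with
    | nil =>
      rw [pk_cons, pk_nil] at h
      have hb : a = 0 := key a 0 (-pk X u) ha (by simpa using hN0) (by linarith)
      subst hb
      have h1 : pk X u = 0 := by
        have : X * pk X u = 0 := by linarith
        exact (mul_eq_zero.1 this).resolve_left hX
      cases x with
      | nil => rw [dot_nil_right, dot_nil_right]
      | cons x xs =>
        rw [dot_nil_left, dot_cons]
        have h2 := ih [] (fun a ha => hu a (List.mem_cons_of_mem _ ha)) (by simp)
          (by rw [pk_nil, h1]) xs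
        rw [dot_nil_left] at h2
        simp [h2]
    | cons b v =>
      rw [pk_cons, pk_cons] at h
      have hb : a = b := key a b (pk X v - pk X u) ha (hv b List.mem_cons_self) (by linarith)
      subst hb
      have h1 : pk X u = pk X v := by
        have : X * pk X u = X * pk X v := by linarith
        exact mul_left_cancel₀ hX this
      cases x with
      | nil => rw [dot_nil_right, dot_nil_right]
      | cons x xs =>
        rw [dot_cons, dot_cons, ih v (fun a ha => hu a (List.mem_cons_of_mem _ ha))
          (fun a ha => hv a (List.mem_cons_of_mem _ ha)) h1 xs]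

/-- sum of the squares of the linear forms -/
noncomputable def sqs (ts : List (List ℤ)) (x : List ℝ) : ℝ := (ts.map fun t => dot t x ^ 2).sum

theorem dot_head_tail (t : List ℤ) (x : ℝ) (xs : List ℝ) :
    dot t (x :: xs) = (t.headD 0 : ℝ) * x + dot t.tail xs := by
  cases t with
  | nil => simp [dot_nil_left]
  | cons a t => rfl

theorem sqs_cons (ts : List (List ℤ)) (x : ℝ) (xs : List ℝ) :
    sqs ts (x :: xs) = ((comb ts).headD 0 : ℝ) * x ^ 2 + 2 * x * dot (comb ts).tail xs +
      sqs (ts.map List.tail) xs := by
  induction ts with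
  | nil => simp [sqs, comb, dot_nil_left]
  | cons t ts ih =>
    have e1 : sqs (t :: ts) (x :: xs) = dot t (x :: xs) ^ 2 + sqs ts (x :: xs) := by
      simp [sqs]
    have e2 : sqs ((t :: ts).map List.tail) xs = dot t.tail xs ^ 2 + sqs (ts.map List.tail) xs := by
      simp [sqs]
    rw [e1, e2, ih, comb, headD_padd, tail_padd, dot_padd, headD_sml, tail_sml, dot_sml,
      dot_head_tail]
    push_cast
    ring

theorem sqs_nil_right (ts : List (List ℤ)) : sqs ts [] = 0 := by
  induction ts with
  | nil => simp [sqs]
  | cons t ts ih =>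
    have e1 : sqs (t :: ts) [] = dot t [] ^ 2 + sqs ts [] := by
      simp [sqs]
    rw [e1, ih, dot_nil_right]
    simp

/-- value of the remaining triangular forms -/
noncomputable def sqT : List (List ℤ) → List ℝ → ℝ
  | (l :: L), (x :: xs) => dot l (x :: xs) ^ 2 + sqT L xs
  | _, _ => 0

theorem sqT_nonneg (L : List (List ℤ)) (x : List ℝ) : 0 ≤ sqT L x := by
  induction L generalizing x with
  | nil => cases x <;> simp [sqT]
  | cons l L ih =>
    cases x with
    | nil => simp [sqT]
    | cons x xs =>
      simp only [sqT]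
      have := ih xs
      positivity

theorem sqs_nonneg (ts : List (List ℤ)) (x : List ℝ) : 0 ≤ sqs ts x := by
  unfold sqs
  refine List.sum_nonneg ?_
  intro a ha
  obtain ⟨t, _, rfl⟩ := List.mem_map.1 ha
  positivity

theorem rowsOK_spec (X M : ℤ) (n : ℕ) (hM : 0 ≤ M) (hX : 2 * (n * M * M) < X)
    (Q : List (List ℤ)) : ∀ (ts L : List (List ℤ)), ts.length + L.length ≤ n →
    (∀ t ∈ ts, ∀ a ∈ t, |a| ≤ M) → (∀ t ∈ L, ∀ a ∈ t, |a| ≤ M) →
    (∀ q ∈ Q, ∀ a ∈ q, |a| ≤ n * M * M) → rowsOK X ts L Q = true → ∀ x : List ℝ,
    qfu Q x = sqs ts x + sqT L x := by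
  have hcomb : ∀ ts : List (List ℤ), ts.length ≤ n → (∀ t ∈ ts, ∀ a ∈ t, |a| ≤ M) →
      ∀ q : List ℤ, (∀ a ∈ q, |a| ≤ n * M * M) → pk X q = hp X ts → ∀ (x : ℝ) (xs : List ℝ),
      (q.headD 0 : ℝ) * x ^ 2 + 2 * x * dot q.tail xs =
        ((comb ts).headD 0 : ℝ) * x ^ 2 + 2 * x * dot (comb ts).tail xs := by
    intro ts hlen hts q hq hpk x xs
    rw [hp_eq] at hpk
    have hb : ∀ a ∈ comb ts, |a| ≤ n * M * M := by
      intro a ha
      refine (bdd_comb M hM ts hts a ha).trans ?_
      have : (ts.length : ℤ) ≤ n := by exact_mod_cast hlen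
      exact mul_le_mul_of_nonneg_right (mul_le_mul_of_nonneg_right this hM) hM
    have h1 := pk_inj X (n * M * M) hX q (comb ts) hq hb hpk
    have h2 := h1 [1]
    rw [dot_head_tail, dot_head_tail, dot_nil_right, dot_nil_right] at h2
    have h3 : (q.headD 0 : ℝ) = ((comb ts).headD 0 : ℝ) := by linarith
    have h4 := h1 (0 :: xs)
    rw [dot_head_tail, dot_head_tail] at h4
    have h5 : dot q.tail xs = dot (comb ts).tail xs := by linarith
    rw [h3, h5]
  have htail : ∀ ts : List (List ℤ), (∀ t ∈ ts, ∀ a ∈ t, |a| ≤ M) →
      ∀ t ∈ ts.map List.tail, ∀ a ∈ t, |a| ≤ M := by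
    intro ts hts t ht a ha
    obtain ⟨s, hs, rfl⟩ := List.mem_map.1 ht
    exact hts s hs a (List.mem_of_mem_tail ha)
  induction Q with
  | nil =>
    intro ts L _ _ _ _ h x
    cases L with
    | nil =>
      simp only [rowsOK, List.all_eq_true] at h
      have : sqs ts x = 0 := by
        unfold sqs
        refine List.sum_eq_zero ?_
        intro a ha
        obtain ⟨t, ht, rfl⟩ := List.mem_map.1 ha
        have := h t ht
        rw [List.isEmpty_iff] at this
        rw [this, dot_nil_left]
        simp
      rw [qfu_nil_left, this]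
      cases x <;> simp [sqT]
    | cons l L => simp [rowsOK] at h
  | cons q Q ih =>
    intro ts L hlen hts hL hQ h x
    cases L with
    | nil =>
      simp only [rowsOK, Bool.and_eq_true, decide_eq_true_eq] at h
      cases x with
      | nil => simp [qfu_nil_right, sqs_nil_right, sqT]
      | cons x xs =>
        have h1 := ih (ts.map List.tail) [] (by simpa using hlen) (htail ts hts) (by simp)
          (fun q hq => hQ q (List.mem_cons_of_mem _ hq)) h.2 xs
        have h2 := hcomb ts (by simpa using hlen) hts q (hQ q List.mem_cons_self) h.1 x xs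
        have h3 : sqT [] xs = 0 := by cases xs <;> simp [sqT]
        have h4 : sqT [] (x :: xs) = 0 := by simp [sqT]
        rw [qfu_cons, h1, h3, h4, sqs_cons]
        linarith
    | cons l L =>
      simp only [rowsOK, Bool.and_eq_true, decide_eq_true_eq] at h
      cases x with
      | nil => simp [qfu_nil_right, sqs_nil_right, sqT]
      | cons x xs =>
        have hts' : ∀ t ∈ l :: ts, ∀ a ∈ t, |a| ≤ M := by
          intro t ht
          rcases List.mem_cons.1 ht with rfl | ht
          · exact hL _ List.mem_cons_self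
          · exact hts t ht
        have hlen' : (l :: ts).length ≤ n := by
          simp only [List.length_cons] at hlen ⊢
          omega
        have h1 := ih ((l :: ts).map List.tail) L
          (by simp only [List.length_map, List.length_cons] at hlen ⊢; omega)
          (htail _ hts') (fun t ht => hL t (List.mem_cons_of_mem _ ht))
          (fun q hq => hQ q (List.mem_cons_of_mem _ hq)) h.2 xs
        have h2 := hcomb (l :: ts) hlen' hts' q (hQ q List.mem_cons_self) h.1 x xs
        have h3 := sqs_cons (l :: ts) x xs
        have h4 : sqs (l :: ts) (x :: xs) = dot l (x :: xs) ^ 2 + sqs ts (x :: xs) := by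
          simp [sqs]
        rw [qfu_cons, h1]
        simp only [sqT]
        linarith

theorem sosOK_spec (X M : ℤ) (n : ℕ) (L Q : List (List ℤ)) (h : sosOK X M n L Q = true)
    (x : List ℝ) : 0 ≤ qfu Q x := by
  simp only [sosOK, Bool.and_eq_true, decide_eq_true_eq, List.all_eq_true] at h
  obtain ⟨⟨⟨⟨⟨h1, h2⟩, h3⟩, h4⟩, h5⟩, h6⟩ := h
  have := rowsOK_spec X M n h2 h3 Q [] L (by simpa using h1) (by simp)
    (fun t ht => (bdd_iff M t).1 (h4 t ht)) (fun q hq => (bdd_iff _ q).1 (h5 q hq)) h6 x
  rw [this]
  have h7 : sqs [] x = 0 := by simp [sqs]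
  rw [h7, zero_add]
  exact sqT_nonneg L x

end MP433Sys
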