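import Pool.Agent.Work.MP_433a35_co.GB.Sys.PsdF

/-!
# Packed check that a quadratic form is nonnegative

A list of integers `a_0, a_1, ..` of length `l` is stored as the number `∑ (a_j + off) X^j`.
`psdN`: the triangular form `U` is a sum of squares of triangular forms `L` plus a form with a
dominant diagonal.  `redN`: the form `Q` is `U` applied to the linear forms `B`.
-/

namespace MP433Sys

/-- decode a list of integers: digits to the base `X` -/
def decI (X off : ℕ) : ℕ → ℕ → List ℤ
  | Nat.zero, _ => []
  | Nat.succ l, n => Int.subNatNat (Nat.mod n X) off :: decI X off l (Nat.div n X)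

/-- decode the rows of a triangular matrix: the first row has `l` entries -/
def decT (X off : ℕ) : ℕ → List ℕ → List (List ℤ)
  | l, (n :: ns) => decI X off l n :: decT X off (Nat.pred l) ns
  | _, [] => []

/-- all `l` digits are in `[lo, hi]`, and there are no further digits -/
def digOK (X lo hi : ℕ) : ℕ → ℕ → Bool
  | Nat.zero, n => Nat.beq n 0
  | Nat.succ l, n => Nat.ble lo (Nat.mod n X) && (Nat.ble (Nat.mod n X) hi &&
      digOK X lo hi l (Nat.div n X))

/-- sum of head times list -/
def sA (X : ℕ) : List ℕ → ℕ
  | [] => 0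
  | (n :: ns) => Nat.add (Nat.mul (Nat.mod n X) n) (sA X ns)

/-- sum -/
def sB : List ℕ → ℕ
  | [] => 0
  | (n :: ns) => Nat.add n (sB ns)

/-- sum of the heads -/
def sC (X : ℕ) : List ℕ → ℕ
  | [] => 0
  | (n :: ns) => Nat.add (Nat.mod n X) (sC X ns)

/-- shift all -/
def shl (X : ℕ) : List ℕ → List ℕ
  | [] => []
  | (n :: ns) => Nat.div n X :: shl X ns

/-- the difference of the row `u` and the squares, with the offset -/
def slk (X off R K u : ℕ) (ts : List ℕ) : ℕ :=
  Nat.sub (Nat.add u (Nat.mul off (Nat.add (sB ts) (Nat.mul R (sC X ts)))))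
    (Nat.add (sA X ts) (Nat.mul (Nat.mul K (Nat.mul off off)) R))

/-- the rows of the form are the rows of the squares plus small rows -/
def rowsN (X off eta c H : ℕ) : ℕ → ℕ → ℕ → List ℕ → List ℕ → List ℕ → Bool
  | Nat.succ l, R, K, ts, (v :: L), (u :: U) =>
    (fun z => Nat.ble (Nat.add off c) (Nat.mod z X) && (Nat.ble (Nat.mod z X)
      (Nat.add off H) && digOK X (Nat.sub off eta) (Nat.add off eta) l (Nat.div z X)))
      (slk X off R (Nat.succ K) u (v :: ts)) &&
    rowsN X off eta c H l (Nat.div R X) (Nat.succ K) (shl X (v :: ts)) L U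
  | Nat.zero, R, _, _, [], [] => Nat.beq R 0
  | _, _, _, _, _, _ => false

/-- digits of the rows of a triangular matrix -/
def digT (X lo hi : ℕ) : ℕ → List ℕ → Bool
  | l, (n :: ns) => digOK X lo hi l n && digT X lo hi (Nat.pred l) ns
  | _, [] => true

/-- repunit -/
def repN (X : ℕ) : ℕ → ℕ
  | Nat.zero => 0
  | Nat.succ l => Nat.add 1 (Nat.mul X (repN X l))

/-- sum of squares of the first `n` entries -/
noncomputable def sqn : ℕ → List ℝ → ℝ
  | 0, _ => 0
  | _, [] => 0
  | (n + 1), (x :: xs) => x ^ 2 + sqn n xs

theorem sqn_nonneg (n : ℕ) (x : List ℝ) : 0 ≤ sqn n x := by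
  induction n generalizing x with
  | zero => simp [sqn]
  | succ n ih =>
    cases x with
    | nil => simp [sqn]
    | cons x xs =>
      simp only [sqn]
      have := ih xs
      positivity

theorem sqn_nil (n : ℕ) : sqn n [] = 0 := by
  cases n <;> simp [sqn]

theorem dot_small (eta : ℝ) (t : List ℤ) (ht : ∀ a ∈ t, |(a : ℝ)| ≤ eta) (x : ℝ) (xs : List ℝ) :
    -(eta * (t.length * x ^ 2 + sqn t.length xs)) ≤ 2 * x * dot t xs := by
  induction t generalizing xs with
  | nil => simp [dot_nil_left, sqn]
  | cons a t ih =>
    have h0 : 0 ≤ eta := (abs_nonneg _).trans (ht a List.mem_cons_self)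
    cases xs with
    | nil =>
      rw [dot_nil_right, sqn_nil, mul_zero, neg_nonpos]
      positivity
    | cons z zs =>
      have h1 := ih (fun b hb => ht b (List.mem_cons_of_mem _ hb)) zs
      have h2 := abs_le.1 (ht a List.mem_cons_self)
      rw [dot_cons]
      simp only [sqn, List.length_cons]
      push_cast
      have h3 : -(eta * (x ^ 2 + z ^ 2)) ≤ 2 * x * (a * z) := by
        nlinarith [mul_nonneg (sub_nonneg.2 h2.2) (sq_nonneg (x - z)),
          mul_nonneg (sub_nonneg.2 h2.2) (sq_nonneg (x + z)),
          mul_nonneg (by linarith [h2.1] : 0 ≤ eta + a) (sq_nonneg (x - z)),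
          mul_nonneg (by linarith [h2.1] : 0 ≤ eta + a) (sq_nonneg (x + z))]
      nlinarith

theorem land_maskW {X : ℕ} (_ : 0 < X) (n : ℕ) : Nat.mod n X = n % X := rfl

theorem shiftR (n X : ℕ) : Nat.div n X = n / X := rfl

theorem decI_succ (X off l n : ℕ) :
    decI X off (l + 1) n =
      ((Nat.mod n X : ℤ) - off) :: decI X off l (Nat.div n X) := by
  show Int.subNatNat (Nat.mod n X) off :: _ = _
  rw [Int.subNatNat_eq_coe]

theorem decI_length (X off l n : ℕ) : (decI X off l n).length = l := by
  induction l generalizing n with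
  | zero => rfl
  | succ l ih => rw [decI_succ, List.length_cons, ih]

theorem repN_succ (X l : ℕ) : repN X (l + 1) = 1 + X * repN X l := rfl

theorem repN_shift {X : ℕ} (hX : 1 < X) (l : ℕ) : repN X (l + 1) / X = repN X l := by
  rw [repN_succ, Nat.add_mul_div_left _ _ (by omega), Nat.div_eq_of_lt hX, zero_add]

/-- the value of the packed list -/
theorem decI_pk {X : ℕ} (hm : 0 < X) (off lo hi l n : ℕ)
    (h : digOK X lo hi l n = true) :
    pk (X : ℤ) (decI X off l n) = (n : ℤ) - off * repN X l := by
  induction l generalizing n with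
  | zero =>
    have h0 : n = 0 := Nat.eq_of_beq_eq_true h
    subst h0
    simp [decI, pk, repN]
  | succ l ih =>
    simp only [digOK, Bool.and_eq_true] at h
    rw [decI_succ, pk_cons, ih _ h.2.2, land_maskW hm, shiftR, repN_succ]
    have := Nat.div_add_mod n (X)
    have h2 : (X : ℤ) * ((n / X : ℕ) : ℤ) + ((n % X : ℕ) : ℤ) = n := by
      exact_mod_cast this
    push_cast at h2 ⊢
    linarith

theorem decI_bdd {X : ℕ} (off M lo hi l n : ℕ) (hlo : off ≤ lo + M) (hhi : hi ≤ off + M)
    (h : digOK X lo hi l n = true) : ∀ a ∈ decI X off l n, |a| ≤ (M : ℤ) := by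
  induction l generalizing n with
  | zero =>
    intro a ha
    simp [decI] at ha
  | succ l ih =>
    simp only [digOK, Bool.and_eq_true] at h
    have h1 := Nat.le_of_ble_eq_true h.1
    have h2 := Nat.le_of_ble_eq_true h.2.1
    intro a ha
    rw [decI_succ, List.mem_cons] at ha
    rcases ha with rfl | ha
    · rw [abs_le]
      constructor <;> omega
    · exact ih _ h.2.2 a ha

theorem shl_length (X : ℕ) (ts : List ℕ) : (shl X ts).length = ts.length := by
  induction ts with
  | nil => rfl
  | cons n ns ih =>
    show (Nat.div n X :: shl X ns).length = _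
    rw [List.length_cons, List.length_cons, ih]

/-- the packed sum of head times list -/
theorem hp_dec {X : ℕ} (hm : 0 < X) (off lo hi l : ℕ) (ts : List ℕ)
    (h : ∀ n ∈ ts, digOK X lo hi (l + 1) n = true) :
    hp (X : ℤ) (ts.map (decI X off (l + 1))) =
      (sA X ts : ℤ) + (ts.length * (off * off) * repN X (l + 1) : ℕ) -
        off * (sB ts + repN X (l + 1) * sC X ts : ℕ) := by
  induction ts with
  | nil => simp [hp, sA, sB, sC]
  | cons n ns ih =>
    have ih' := ih fun m hm => h m (List.mem_cons_of_mem _ hm)
    have h1 := decI_pk hm off lo hi (l + 1) n (h n List.mem_cons_self)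
    have e : hp (X : ℤ) ((n :: ns).map (decI X off (l + 1))) =
        ((Nat.mod n X : ℤ) - off) * pk (X : ℤ) (decI X off (l + 1) n) +
          hp (X : ℤ) (ns.map (decI X off (l + 1))) := by
      have e0 : (decI X off (l + 1) n).headD 0 = (Nat.mod n X : ℤ) - off := by
        rw [decI_succ]
        rfl
      rw [List.map_cons, ← e0]
      rfl
    have eA : sA X (n :: ns) = Nat.mod n X * n + sA X ns := rfl
    have eB : sB (n :: ns) = n + sB ns := rfl
    have eC : sC X (n :: ns) = Nat.mod n X + sC X ns := rfl
    rw [e, ih', h1, eA, eB, eC, List.length_cons]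
    push_cast
    ring

theorem shl_dig {X lo hi l : ℕ} (ts : List ℕ)
    (h : ∀ n ∈ ts, digOK X lo hi (l + 1) n = true) :
    ∀ n ∈ shl X ts, digOK X lo hi l n = true := by
  induction ts with
  | nil => simp [shl]
  | cons n ns ih =>
    intro m hm
    have hm' : m ∈ Nat.div n X :: shl X ns := hm
    rcases List.mem_cons.1 hm' with rfl | hm'
    · have h1 := h n List.mem_cons_self
      simp only [digOK, Bool.and_eq_true] at h1
      exact h1.2.2
    · exact ih (fun m hm => h m (List.mem_cons_of_mem _ hm)) m hm'

theorem shl_tail {X off l : ℕ} (ts : List ℕ) :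
    (ts.map (decI X off (l + 1))).map List.tail = (shl X ts).map (decI X off l) := by
  induction ts with
  | nil => rfl
  | cons n ns ih =>
    have e : shl X (n :: ns) = Nat.div n X :: shl X ns := rfl
    rw [List.map_cons, List.map_cons, ih, e, List.map_cons, decI_succ]
    rfl

/-- the row `u` is the row of the squares plus a small row -/
theorem slk_spec {X off M N eta c H l K u : ℕ} (hm : 0 < X) (ts : List ℕ)
    (hK : K = ts.length) (hts : ∀ n ∈ ts, digOK X (off - M) (off + M) (l + 1) n = true)
    (hu : digOK X (off - N) (off + N) (l + 1) u = true)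
    (hNN : K * M * M + H ≤ N) (hN : 2 * N < X) (heta : eta ≤ H) (hoff : 0 < off)
    (hz : (Nat.ble (Nat.add off c) (Nat.mod (slk X off (repN X (l + 1)) K u ts) X) &&
      (Nat.ble (Nat.mod (slk X off (repN X (l + 1)) K u ts) X) (Nat.add off H) &&
        digOK X (Nat.sub off eta) (Nat.add off eta) l
          (Nat.div (slk X off (repN X (l + 1)) K u ts) X))) = true) :
    ∃ (e0 : ℤ) (e : List ℤ), (c : ℤ) ≤ e0 ∧ e.length = l ∧ (∀ a ∈ e, |a| ≤ (eta : ℤ)) ∧
      ∀ x : List ℝ, dot (decI X off (l + 1) u) x =
        dot (comb (ts.map (decI X off (l + 1)))) x + dot (e0 :: e) x := by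
  set z := slk X off (repN X (l + 1)) K u ts with hzdef
  simp only [Bool.and_eq_true] at hz
  obtain ⟨hz1, hz2, hz3⟩ := hz
  have hz1' : off + c ≤ Nat.mod z X := Nat.le_of_ble_eq_true hz1
  have hz2' : Nat.mod z X ≤ off + H := Nat.le_of_ble_eq_true hz2
  have hzd : digOK X 0 (X) (l + 1) z = true := by
    have hgen : ∀ (l' n : ℕ) (lo hi : ℕ), digOK X lo hi l' n = true →
        digOK X 0 (X) l' n = true := by
      intro l'
      induction l' with
      | zero => intro n lo hi h; exact h
      | succ l' ih =>
        intro n lo hi h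
        simp only [digOK, Bool.and_eq_true] at h ⊢
        refine ⟨Nat.ble_eq_true_of_le (Nat.zero_le _), Nat.ble_eq_true_of_le ?_, ih _ _ _ h.2.2⟩
        rw [land_maskW hm]
        exact (Nat.mod_lt _ (by positivity)).le
    simp only [digOK, Bool.and_eq_true]
    refine ⟨Nat.ble_eq_true_of_le (Nat.zero_le _), Nat.ble_eq_true_of_le ?_, hgen _ _ _ _ hz3⟩
    rw [land_maskW hm]
    exact (Nat.mod_lt _ (by positivity)).le
  refine ⟨(Nat.mod z X : ℤ) - off, decI X off l (Nat.div z X), ?_,
    decI_length _ _ _ _, ?_, ?_⟩
  · have : ((off + c : ℕ) : ℤ) ≤ (Nat.mod z X : ℤ) := by exact_mod_cast hz1'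
    push_cast at this
    linarith
  · refine decI_bdd off eta _ _ l _ ?_ ?_ hz3
    · show off ≤ off - eta + eta
      omega
    · exact le_refl _
  · intro x
    rw [← dot_padd]
    have hcomb := bdd_comb (M : ℤ) (by positivity) (ts.map (decI X off (l + 1))) (by
      intro t ht
      obtain ⟨n, hn, rfl⟩ := List.mem_map.1 ht
      exact decI_bdd off M _ _ (l + 1) n (by omega) (le_refl _) (hts n hn))
    rw [List.length_map, ← hK] at hcomb
    have hE : ∀ a ∈ ((Nat.mod z X : ℤ) - off) :: decI X off l (Nat.div z X),
        |a| ≤ (H : ℤ) := by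
      intro a ha
      rcases List.mem_cons.1 ha with rfl | ha
      · rw [abs_le]
        constructor
        · have : ((off + c : ℕ) : ℤ) ≤ (Nat.mod z X : ℤ) := by exact_mod_cast hz1'
          push_cast at this
          have h0 : (0 : ℤ) ≤ c := by positivity
          have h1 : (0 : ℤ) ≤ H := by positivity
          linarith
        · have : (Nat.mod z X : ℤ) ≤ ((off + H : ℕ) : ℤ) := by exact_mod_cast hz2'
          push_cast at this
          linarith
      · have := decI_bdd off eta _ _ l _ (by show off ≤ off - eta + eta; omega) (le_refl _) hz3 a ha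
        have h2 : (eta : ℤ) ≤ H := by exact_mod_cast heta
        linarith
    have hsum := bdd_padd (K * M * M : ℤ) (H : ℤ) (by positivity) (by positivity) _ _ hcomb hE
    have hNN' : ((K * M * M : ℤ) + H) ≤ N := by exact_mod_cast hNN
    refine pk_inj (X : ℤ) (N : ℤ) (by exact_mod_cast hN) _ _
      (decI_bdd off N _ _ (l + 1) u (by omega) (le_refl _) hu)
      (fun a ha => (hsum a ha).trans hNN') ?_ x
    rw [pk_padd, ← hp_eq, hp_dec hm off _ _ l ts hts, decI_pk hm off _ _ (l + 1) u hu]
    have e1 : pk (X : ℤ) (((Nat.mod z X : ℤ) - off) ::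
        decI X off l (Nat.div z X)) = (z : ℤ) - off * repN X (l + 1) := by
      rw [← decI_succ, decI_pk hm off _ _ (l + 1) z hzd]
    rw [e1]
    have hzv : z + (sA X ts + K * (off * off) * repN X (l + 1)) =
        u + off * (sB ts + repN X (l + 1) * sC X ts) := by
      have hz0 : z ≠ 0 := by
        intro h0
        rw [h0, land_maskW hm, Nat.zero_mod] at hz1'
        omega
      have hdef : z = (u + off * (sB ts + repN X (l + 1) * sC X ts)) -
          (sA X ts + K * (off * off) * repN X (l + 1)) := rfl
      omega
    have hzv' : (z : ℤ) + (sA X ts + K * (off * off) * repN X (l + 1)) =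
        u + off * (sB ts + repN X (l + 1) * sC X ts) := by exact_mod_cast hzv
    rw [← hK]
    push_cast at hzv' ⊢
    linarith

theorem repN_sh {X : ℕ} (hX : 1 < X) (l : ℕ) : Nat.div (repN X (l + 1)) X = repN X l :=
  repN_shift hX l

theorem rowsN_spec {X off M N eta c H n : ℕ} (hm : 0 < X) (hW : 1 < X)
    (hN : 2 * N < X) (hn : n * M * M + H ≤ N) (heta : eta ≤ H) (hoff : 0 < off) (l : ℕ) :
    ∀ (ts L U : List ℕ), ts.length + l ≤ n →
    (∀ t ∈ ts, digOK X (off - M) (off + M) l t = true) →
    digT X (off - M) (off + M) l L = true → digT X (off - N) (off + N) l U = true →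
    rowsN X off eta c H l (repN X l) ts.length ts L U = true → ∀ x : List ℝ,
    sqs (ts.map (decI X off l)) x + sqT (decT X off l L) x +
      ((c : ℝ) - eta * l + eta) * sqn l x ≤ qfu (decT X off l U) x := by
  induction l with
  | zero =>
    intro ts L U _ _ _ _ h x
    cases L with
    | nil =>
      cases U with
      | nil =>
        have e1 : sqs (ts.map (decI X off 0)) x = 0 := by
          unfold sqs
          refine List.sum_eq_zero ?_
          intro a ha
          obtain ⟨t, ht, rfl⟩ := List.mem_map.1 ha
          obtain ⟨m, _, rfl⟩ := List.mem_map.1 ht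
          show dot [] x ^ 2 = 0
          rw [dot_nil_left]
          simp
        have e2 : sqT (decT X off 0 []) x = 0 := by
          cases x <;> rfl
        have e3 : qfu (decT X off 0 []) x = 0 := qfu_nil_left x
        rw [e1, e2, e3]
        simp [sqn]
      | cons u U => simp [rowsN] at h
    | cons v L => simp [rowsN] at h
  | succ l ih =>
    intro ts L U hlen hts hL hU h x
    cases L with
    | nil => simp [rowsN] at h
    | cons v L =>
      cases U with
      | nil => simp [rowsN] at h
      | cons u U =>
        simp only [digT, Bool.and_eq_true] at hL hU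
        rw [rowsN, Bool.and_eq_true] at h
        obtain ⟨hz, hrest⟩ := h
        have hts' : ∀ t ∈ v :: ts, digOK X (off - M) (off + M) (l + 1) t = true := by
          intro t ht
          rcases List.mem_cons.1 ht with rfl | ht
          · exact hL.1
          · exact hts t ht
        have hNN : (ts.length + 1) * M * M + H ≤ N := by
          have h1 : (ts.length + 1) * M * M ≤ n * M * M :=
            Nat.mul_le_mul_right _ (Nat.mul_le_mul_right _ (by omega))
          omega
        obtain ⟨e0, e, hc, hel, he, hdot⟩ := slk_spec (c := c) hm (v :: ts) (by simp) hts' hU.1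
          hNN hN heta hoff hz
        rw [repN_sh hW] at hrest
        have hlen' : (shl X (v :: ts)).length = ts.length + 1 := by rw [shl_length]; rfl
        have h1 := ih (shl X (v :: ts)) L U (by rw [hlen']; omega) (shl_dig _ hts') hL.2 hU.2
          (by rw [hlen']; exact hrest)
        have eT : decT X off (l + 1) (u :: U) =
            decI X off (l + 1) u :: decT X off l U := rfl
        have eL : decT X off (l + 1) (v :: L) =
            decI X off (l + 1) v :: decT X off l L := rfl
        cases x with
        | nil => simp [qfu_nil_right, sqs_nil_right, sqT, sqn, eT, eL]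
        | cons x xs =>
          have h2 := h1 xs
          have h3 := sqs_cons ((v :: ts).map (decI X off (l + 1))) x xs
          rw [shl_tail] at h3
          have h4 : sqs ((v :: ts).map (decI X off (l + 1))) (x :: xs) =
              dot (decI X off (l + 1) v) (x :: xs) ^ 2 +
                sqs (ts.map (decI X off (l + 1))) (x :: xs) := by
            simp [sqs]
          have h5 := hdot [1]
          rw [dot_head_tail, dot_head_tail (comb _), dot_head_tail (e0 :: e), dot_nil_right,
            dot_nil_right, dot_nil_right] at h5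
          have h6 := hdot (0 :: xs)
          rw [dot_head_tail, dot_head_tail (comb _), dot_head_tail (e0 :: e)] at h6
          have h7 := dot_small (eta : ℝ) e (by
            intro a ha
            have := he a ha
            rw [← Int.cast_abs]
            exact_mod_cast this) x xs
          rw [hel] at h7
          have hcr : (c : ℝ) ≤ (e0 : ℝ) := by exact_mod_cast hc
          rw [eT, qfu_cons, eL]
          simp only [sqT, sqn]
          have e0h : (((e0 :: e).headD 0 : ℤ) : ℝ) = e0 := rfl
          have e0t : (e0 :: e).tail = e := rfl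
          rw [e0h] at h5 h6
          rw [e0t] at h6
          have h8 : ((decI X off (l + 1) u).headD 0 : ℝ) =
              ((comb ((v :: ts).map (decI X off (l + 1)))).headD 0 : ℝ) + e0 := by linarith
          have h9 : dot (decI X off (l + 1) u).tail xs =
              dot (comb ((v :: ts).map (decI X off (l + 1)))).tail xs + dot e xs := by
            linarith
          rw [h8, h9]
          have hx2 : 0 ≤ x ^ 2 := sq_nonneg x
          have hmul : (c : ℝ) * x ^ 2 ≤ e0 * x ^ 2 := mul_le_mul_of_nonneg_right hcr hx2
          push_cast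
          nlinarith

/-- check that the form `U` is nonnegative -/
def psdN (X off M N H eta n : ℕ) (L U : List ℕ) : Bool :=
  (Nat.ble 2 X && (Nat.ble 1 X && (Nat.ble 1 off && (Nat.ble eta H &&
    (Nat.ble (Nat.succ (Nat.mul 2 N)) (X) &&
      Nat.ble (Nat.add (Nat.mul (Nat.mul n M) M) H) N))))) &&
  (digT X (Nat.sub off M) (Nat.add off M) n L &&
    (digT X (Nat.sub off N) (Nat.add off N) n U &&
      rowsN X off eta (Nat.mul n eta) H n (repN (X) n) 0 [] L U))

theorem psdN_spec (X off M N H eta n : ℕ) (L U : List ℕ)
    (h : psdN X off M N H eta n L U = true) (x : List ℝ) :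
    0 ≤ qfu (decT X off n U) x := by
  simp only [psdN, Bool.and_eq_true] at h
  obtain ⟨⟨h1, h2, h3, h4, h5, h6⟩, h7, h8, h9⟩ := h
  have h1' : 2 ≤ X := Nat.le_of_ble_eq_true h1
  have h2' : 1 ≤ X := Nat.le_of_ble_eq_true h2
  have h3' : 1 ≤ off := Nat.le_of_ble_eq_true h3
  have h4' : eta ≤ H := Nat.le_of_ble_eq_true h4
  have h5' : 2 * N + 1 ≤ X := Nat.le_of_ble_eq_true h5
  have h6' : n * M * M + H ≤ N := Nat.le_of_ble_eq_true h6
  have h10 := rowsN_spec (c := n * eta) h2' h1' (by omega) h6' h4' h3' n [] L U (by simp) (by simp)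
    h7 h8 h9 x
  have h11 : 0 ≤ sqs (([] : List ℕ).map (decI X off n)) x := sqs_nonneg _ _
  have h12 := sqT_nonneg (decT X off n L) x
  have h13 := sqn_nonneg n x
  have h14 : 0 ≤ (((n * eta : ℕ) : ℝ) - eta * n + eta) * sqn n x := by
    refine mul_nonneg ?_ h13
    push_cast
    have : (0 : ℝ) ≤ eta := by positivity
    nlinarith
  linarith

end MP433Sys
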