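import Pool.Agent.Work.MP_433a35_co.GB.Sys.Glue

/-!
# Root multipliers
-/

namespace MP433Sys

open Finset

variable {S : Spec} {V : Type*} [Fintype V] (T : Sys S V)

theorem cross_zero (s b : ℕ) : cross s 0 b = [] := by
  simp [cross]

theorem fl_root (s a R F : ℕ) (h : glueOK S s 0 R F = true) (r : Fin s → V) :
    T.fl s a (glue S s 0 a R F) r = T.wt s R [] r * T.fl s a F r := by
  unfold Sys.fl
  rw [mul_sum]
  refine sum_congr rfl fun u _ => ?_
  have h1 := wt_glue T s 0 a R F h r (fun i => i.elim0) u
  have h2 : Fin.append r (fun i : Fin 0 => (i.elim0 : V)) = r := by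
    funext i
    exact Fin.append_left r _ i
  rw [cross_zero] at h1
  change T.wt (s + a) (glue S s 0 a R F) [] (Fin.append (Fin.append r (fun i : Fin 0 => i.elim0)) u) =
    T.wt s R [] (Fin.append r (fun i : Fin 0 => i.elim0)) * T.wt (s + a) F [] (Fin.append r u) at h1
  rw [h2] at h1
  exact h1

end MP433Sys
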