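import Pool.Agent.Work.MP_433a35_co.GB.Sys.Asm
import Pool.Agent.Work.MP_433a35_co.GB.Sys.KerB

/-!
# Fast evaluation of the sources of a block (helper36)

In a block with root code `ρ` the root digits of the flags are `ρ_i` or `ρ_i + 1` (mark) and
`mul x y + ρ_i = x + y` for these digits, so the product of the flags `F` and `G` is the number
`F + mv a G`, where `mv a G` depends only on `G` and the number `a` of extra vertices of `F`.
-/

namespace MP433Sys

open Finset

/-- a flag `F` with `a` extra vertices and its moved codes -/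
structure Mv where
  a : ℕ
  F : ℕ
  m0 : ℕ
  m1 : ℕ
  m2 : ℕ
deriving DecidableEq

/-- the moved code -/
def mv (s r a b G : ℕ) : ℕ :=
  (G % 8 ^ npr s - r) + ((List.range b).map fun y => glueRow s a G y).sum

/-- all moved codes of a flag -/
def mkMv (s r : ℕ) (A : ℕ × ℕ) : Mv :=
  ⟨A.1, A.2, mv s r 0 A.1 A.2, mv s r 1 A.1 A.2, mv s r 2 A.1 A.2⟩

/-- the root digits of the flags are allowed -/
def digAl (s : ℕ) (al : List (List ℕ)) (F : ℕ) : Bool :=
  (List.range (npr s)).all fun i => (al.getD i []).contains (dig F i)

/-- the product table is additive on the allowed digits -/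
def addAl (S : Spec) (s r : ℕ) (al : List (List ℕ)) : Bool :=
  (List.range (npr s)).all fun i => (al.getD i []).all fun x => (al.getD i []).all fun y =>
    decide (S.mul x y + dig r i = x + y)

/-- check of the moved codes of a block -/
def mvOK (S : Spec) (s r : ℕ) (al : List (List ℕ)) (fls : List (ℕ × ℕ)) (M : List Mv) : Bool :=
  decide (r < 8 ^ npr s) && addAl S s r al &&
  (fls.all fun A => decide (A.1 ≤ 2) && (digAl s al A.2 && decide (r ≤ A.2 % 8 ^ npr s))) &&
  decide (fls.map (mkMv s r) = M)

theorem sum_dig (n F : ℕ) :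
    ((List.range n).map fun i => dig F i * 8 ^ i).sum = F % 8 ^ n := by
  induction n with
  | zero => simp [Nat.mod_one]
  | succ n ih =>
    rw [List.range_succ, List.map_append, List.sum_append, ih]
    simp only [List.map_cons, List.map_nil, List.sum_cons, List.sum_nil, add_zero]
    rw [pow_succ, Nat.mod_mul]
    unfold dig
    ring

/-- the product is a sum of numbers -/
theorem glueF_eq (S : Spec) (s r : ℕ) (al : List (List ℕ)) (hr : r < 8 ^ npr s)
    (hadd : addAl S s r al = true) (a b F G : ℕ) (hF : digAl s al F = true)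
    (hG : digAl s al G = true) (hrG : r ≤ G % 8 ^ npr s) :
    glue S s a b F G = F + mv s r a b G := by
  unfold glue mv
  have h1 : ((List.range (npr s)).map fun i => S.mul (dig F i) (dig G i) * 8 ^ i).sum + r =
      F % 8 ^ npr s + G % 8 ^ npr s := by
    have hr' : r = ((List.range (npr s)).map fun i => dig r i * 8 ^ i).sum := by
      rw [sum_dig, Nat.mod_eq_of_lt hr]
    conv_lhs => rw [hr']
    rw [← sum_dig (npr s) F, ← sum_dig (npr s) G, ← List.sum_map_add, ← List.sum_map_add]
    refine congrArg List.sum (List.map_congr_left fun i hi => ?_)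
    have k1 := List.all_eq_true.1 hadd i hi
    have k2 := List.all_eq_true.1 hF i hi
    have k3 := List.all_eq_true.1 hG i hi
    rw [List.contains_iff_mem] at k2 k3
    have k4 := List.all_eq_true.1 (List.all_eq_true.1 k1 _ k2) _ k3
    rw [decide_eq_true_eq] at k4
    rw [← add_mul, ← add_mul, k4]
  have h2 : F % 8 ^ npr s + F / 8 ^ npr s * 8 ^ npr s = F := Nat.mod_add_div' F _
  omega

/-- products with one flag; `F` its code, `g` the moved code, `fr` the free pairs -/
noncomputable def rowF (ka F : ℕ) (g : Mv → ℕ) (fr : List ℕ) (cs : List ℤ) :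
    List Mv → List Src → List Src :=
  @List.rec ℤ (fun _ => List Mv → List Src → List Src) (fun _ t => t)
    (fun c _ ih Bs t => @List.rec Mv (fun _ => List Src) t
      (fun B Bs' _ => @Int.rec (fun _ => List Src)
        (fun n => @Nat.rec (fun _ => List Src) (ih Bs' t)
          (fun m _ => @Bool.rec (fun _ => List Src) (ih Bs' t)
            (⟨Int.negSucc (Nat.succ (Nat.mul 2 m)), Nat.add F (g B), fr⟩ :: ih Bs' t)
            (Nat.beq B.a ka)) n)
        (fun m => @Bool.rec (fun _ => List Src) (ih Bs' t)
            (⟨Int.ofNat (Nat.succ (Nat.succ (Nat.mul 2 m))), Nat.add F (g B), fr⟩ :: ih Bs' t)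
            (Nat.beq B.a ka)) c) Bs) cs

/-- square of a flag -/
noncomputable def diaF (ka F : ℕ) (g : Mv → ℕ) (fr : List ℕ) (c : ℤ) (B : Mv) (t : List Src) :
    List Src :=
  @Bool.rec (fun _ => List Src) t
    (@Int.rec (fun _ => List Src)
      (fun n => @Nat.rec (fun _ => List Src) t
        (fun m _ => ⟨Int.negSucc m, Nat.add F (g B), fr⟩ :: t) n)
      (fun m => ⟨Int.ofNat (Nat.succ m), Nat.add F (g B), fr⟩ :: t) c) (Nat.beq B.a ka)

/-- all products of one flag with `a` extra vertices -/
noncomputable def oneF (k s a : ℕ) (g : Mv → ℕ) (A : Mv) (q : List ℤ) (As : List Mv)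
    (t : List Src) : List Src :=
  @Bool.rec (fun _ => List Src) t
    (@List.rec ℤ (fun _ => List Src) t
      (fun c q' _ => diaF (Nat.sub k (Nat.add s a)) A.F g (cross s a (Nat.sub k (Nat.add s a))) c A
        (rowF (Nat.sub k (Nat.add s a)) A.F g (cross s a (Nat.sub k (Nat.add s a))) q' As t)) q)
    (Nat.ble (Nat.add s a) k)

/-- all products of a block at level `k` -/
noncomputable def blkF (s k : ℕ) (M : List Mv) : List (List ℤ) → List Src :=
  @List.rec Mv (fun _ => List (List ℤ) → List Src) (fun _ => [])
    (fun A As ih Q => @List.rec (List ℤ) (fun _ => List Src) []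
      (fun q Q' _ => @Nat.rec (fun _ => List Src) (oneF k s 0 Mv.m0 A q As (ih Q'))
        (fun x _ => @Nat.rec (fun _ => List Src) (oneF k s 1 Mv.m1 A q As (ih Q'))
          (fun _ _ => oneF k s 2 Mv.m2 A q As (ih Q')) x) A.a) Q) M

/-- the product of `A` with `B` is given by the moved code -/
def GM (S : Spec) (s : ℕ) (A B : ℕ × ℕ) (x : Mv) : Prop :=
  x.a = B.1 ∧ x.F = B.2 ∧ glue S s A.1 B.1 A.2 B.2 = A.2 +
    (if A.1 = 0 then x.m0 else if A.1 = 1 then x.m1 else x.m2)

theorem rowF_eq (S : Spec) (s k : ℕ) (A : ℕ × ℕ) (g : Mv → ℕ)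
    (hg : ∀ x : Mv, g x = if A.1 = 0 then x.m0 else if A.1 = 1 then x.m1 else x.m2)
    (hk : s + A.1 ≤ k) (cs : List ℤ) : ∀ (Bs : List (ℕ × ℕ)) (Ms : List Mv) (t : List Src),
    List.Forall₂ (GM S s A) Bs Ms →
    rowF (k - (s + A.1)) A.2 g (cross s A.1 (k - (s + A.1))) cs Ms t =
      rowS S s none k A cs Bs ++ t := by
  induction cs with
  | nil =>
    intro Bs Ms t _
    cases Bs <;> rfl
  | cons c cs ih =>
    intro Bs Ms t h
    cases h with
    | nil => rfl
    | @cons B x Bs Ms hx hrest =>
      obtain ⟨ha, hF, hgl⟩ := hx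
      have hrw : rowS S s none k A (c :: cs) (B :: Bs) =
          (if s + A.1 + B.1 = k ∧ c ≠ 0 then
            [⟨-(2 * c), glue S s A.1 B.1 A.2 B.2, cross s A.1 B.1⟩] else []) ++
            rowS S s none k A cs Bs := rfl
      rw [hrw, List.append_assoc, ← ih Bs Ms t hrest]
      by_cases hB : s + A.1 + B.1 = k
      · have hb : Nat.beq x.a (k - (s + A.1)) = true := by
          rw [ha]
          have : B.1 = k - (s + A.1) := by omega
          rw [this]
          exact Nat.beq_refl _
        have hBk : k - (s + A.1) = B.1 := by omega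
        have hc' : Nat.add A.2 (g x) = glue S s A.1 B.1 A.2 B.2 := by
          rw [hgl, hg]
          rfl
        rcases c with n | m
        · rcases n with _ | m
          · rw [if_neg (by simp)]
            rfl
          · have e : rowF (k - (s + A.1)) A.2 g (cross s A.1 (k - (s + A.1)))
                (Int.ofNat (m + 1) :: cs) (x :: Ms) t = @Bool.rec (fun _ => List Src)
                (rowF (k - (s + A.1)) A.2 g (cross s A.1 (k - (s + A.1))) cs Ms t)
                (⟨Int.negSucc (Nat.succ (Nat.mul 2 m)), Nat.add A.2 (g x),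
                  cross s A.1 (k - (s + A.1))⟩ ::
                  rowF (k - (s + A.1)) A.2 g (cross s A.1 (k - (s + A.1))) cs Ms t)
                (Nat.beq x.a (k - (s + A.1))) := rfl
            rw [e, hb, if_pos ⟨hB, by simp; omega⟩]
            simp only
            rw [hc', hBk]
            have e2 : Int.negSucc (Nat.succ (Nat.mul 2 m)) = -(2 * Int.ofNat (m + 1)) := by
              have h3 : Nat.mul 2 m = 2 * m := rfl
              rw [h3]
              simp only [Int.negSucc_eq, Int.ofNat_eq_natCast]
              push_cast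
              ring
            rw [e2]
            rfl
        · have e : rowF (k - (s + A.1)) A.2 g (cross s A.1 (k - (s + A.1)))
              (Int.negSucc m :: cs) (x :: Ms) t = @Bool.rec (fun _ => List Src)
              (rowF (k - (s + A.1)) A.2 g (cross s A.1 (k - (s + A.1))) cs Ms t)
              (⟨Int.ofNat (Nat.succ (Nat.succ (Nat.mul 2 m))), Nat.add A.2 (g x),
                cross s A.1 (k - (s + A.1))⟩ ::
                rowF (k - (s + A.1)) A.2 g (cross s A.1 (k - (s + A.1))) cs Ms t)
              (Nat.beq x.a (k - (s + A.1))) := rfl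
          rw [e, hb, if_pos ⟨hB, by simp⟩]
          simp only
          rw [hc', hBk]
          have e2 : Int.ofNat (Nat.succ (Nat.succ (Nat.mul 2 m))) = -(2 * Int.negSucc m) := by
            have h3 : Nat.mul 2 m = 2 * m := rfl
            rw [h3]
            simp only [Int.negSucc_eq, Int.ofNat_eq_natCast]
            push_cast
            ring
          rw [e2]
          rfl
      · have hb : Nat.beq x.a (k - (s + A.1)) = false := by
          cases hh : Nat.beq x.a (k - (s + A.1))
          · rfl
          · have := Nat.eq_of_beq_eq_true hh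
            rw [ha] at this
            exfalso
            omega
        rw [if_neg (fun h => hB h.1), List.nil_append]
        rcases c with n | m
        · rcases n with _ | m
          · rfl
          · have e : rowF (k - (s + A.1)) A.2 g (cross s A.1 (k - (s + A.1)))
                (Int.ofNat (m + 1) :: cs) (x :: Ms) t = @Bool.rec (fun _ => List Src)
                (rowF (k - (s + A.1)) A.2 g (cross s A.1 (k - (s + A.1))) cs Ms t)
                (⟨Int.negSucc (Nat.succ (Nat.mul 2 m)), Nat.add A.2 (g x),
                  cross s A.1 (k - (s + A.1))⟩ ::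
                  rowF (k - (s + A.1)) A.2 g (cross s A.1 (k - (s + A.1))) cs Ms t)
                (Nat.beq x.a (k - (s + A.1))) := rfl
            rw [e, hb]
        · have e : rowF (k - (s + A.1)) A.2 g (cross s A.1 (k - (s + A.1)))
              (Int.negSucc m :: cs) (x :: Ms) t = @Bool.rec (fun _ => List Src)
              (rowF (k - (s + A.1)) A.2 g (cross s A.1 (k - (s + A.1))) cs Ms t)
              (⟨Int.ofNat (Nat.succ (Nat.succ (Nat.mul 2 m))), Nat.add A.2 (g x),
                cross s A.1 (k - (s + A.1))⟩ ::
                rowF (k - (s + A.1)) A.2 g (cross s A.1 (k - (s + A.1))) cs Ms t)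
              (Nat.beq x.a (k - (s + A.1))) := rfl
          rw [e, hb]

theorem rowS_big (S : Spec) (s k : ℕ) (A : ℕ × ℕ) (h : k < s + A.1) (cs : List ℤ)
    (F : List (ℕ × ℕ)) : rowS S s none k A cs F = [] := by
  induction F generalizing cs with
  | nil => cases cs <;> rfl
  | cons B F ih =>
    cases cs with
    | nil => rfl
    | cons c cs =>
      rw [rowS, ih, if_neg (by omega)]
      rfl

theorem oneF_eq (S : Spec) (s k : ℕ) (A : ℕ × ℕ) (g : Mv → ℕ)
    (hg : ∀ x : Mv, g x = if A.1 = 0 then x.m0 else if A.1 = 1 then x.m1 else x.m2)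
    (x : Mv) (hx : GM S s A A x) (q : List ℤ) (Bs : List (ℕ × ℕ)) (Ms : List Mv)
    (hf : List.Forall₂ (GM S s A) Bs Ms) (t : List Src) :
    oneF k s A.1 g x q Ms t =
      (if s + A.1 + A.1 = k ∧ q.headD 0 ≠ 0 then
        [⟨-q.headD 0, glue S s A.1 A.1 A.2 A.2, cross s A.1 A.1⟩] else []) ++
      rowS S s none k A q.tail Bs ++ t := by
  unfold oneF
  obtain ⟨ha, hF, hgl⟩ := hx
  cases hb : Nat.ble (Nat.add s A.1) k
  · have hlt : k < s + A.1 := by
      by_contra hh
      have := Nat.ble_eq_true_of_le (not_lt.1 hh)
      have e : Nat.ble (Nat.add s A.1) k = Nat.ble (s + A.1) k := rfl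
      rw [e, this] at hb
      exact absurd hb (by simp)
    rw [rowS_big S s k A hlt, if_neg (by omega)]
    rfl
  · have hle : s + A.1 ≤ k := Nat.le_of_ble_eq_true hb
    cases q with
    | nil =>
      rw [if_neg (by simp)]
      cases Bs <;> rfl
    | cons c q' =>
      have hrow := rowF_eq S s k A g hg hle q' Bs Ms t hf
      have e1 : Nat.sub k (Nat.add s A.1) = k - (s + A.1) := rfl
      simp only [e1, hF, List.headD_cons, List.tail_cons]
      rw [hrow, List.append_assoc]
      generalize rowS S s none k A q' Bs ++ t = t'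
      unfold diaF
      have hc' : Nat.add A.2 (g x) = glue S s A.1 A.1 A.2 A.2 := by
        rw [hgl, hg]
        rfl
      by_cases hA : s + A.1 + A.1 = k
      · have hb2 : Nat.beq x.a (k - (s + A.1)) = true := by
          rw [ha]
          have : A.1 = k - (s + A.1) := by omega
          rw [← this]
          exact Nat.beq_refl _
        have hAk : k - (s + A.1) = A.1 := by omega
        rw [hb2]
        simp only
        rw [hc', hAk]
        rcases c with n | m
        · rcases n with _ | m
          · rw [if_neg (by simp)]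
            rfl
          · rw [if_pos ⟨hA, by simp; omega⟩]
            rfl
        · rw [if_pos ⟨hA, by simp⟩]
          rfl
      · have hb2 : Nat.beq x.a (k - (s + A.1)) = false := by
          cases hh : Nat.beq x.a (k - (s + A.1))
          · rfl
          · have := Nat.eq_of_beq_eq_true hh
            rw [ha] at this
            exfalso
            omega
        rw [hb2, if_neg (fun h => hA h.1)]
        rfl

theorem blkF_eq (S : Spec) (s r k : ℕ) (fls : List (ℕ × ℕ)) : ∀ (Q : List (List ℤ)),
    (∀ A ∈ fls, A.1 ≤ 2) → (∀ A ∈ fls, ∀ B ∈ fls, GM S s A B (mkMv s r B)) →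
    blkF s k (fls.map (mkMv s r)) Q = blkSrc S s none k Q fls := by
  induction fls with
  | nil =>
    intro Q _ _
    rw [blkSrc_nil]
    rfl
  | cons A As ih =>
    intro Q h2 hf
    cases Q with
    | nil => rfl
    | cons q Q' =>
      have hrest : blkF s k (As.map (mkMv s r)) Q' = blkSrc S s none k Q' As :=
        ih Q' (fun B hB => h2 B (List.mem_cons_of_mem _ hB))
          (fun B hB C hC => hf B (List.mem_cons_of_mem _ hB) C (List.mem_cons_of_mem _ hC))
      have hfa : List.Forall₂ (GM S s A) As (As.map (mkMv s r)) := by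
        rw [List.forall₂_map_right_iff, List.forall₂_same]
        exact fun B hB => hf A List.mem_cons_self B (List.mem_cons_of_mem _ hB)
      have hself := hf A List.mem_cons_self A List.mem_cons_self
      have hrhs : blkSrc S s none k (q :: Q') (A :: As) =
          (if s + A.1 + A.1 = k ∧ q.headD 0 ≠ 0 then
            [⟨-q.headD 0, glue S s A.1 A.1 A.2 A.2, cross s A.1 A.1⟩] else []) ++
          rowS S s none k A q.tail As ++ blkSrc S s none k Q' As := rfl
      rw [hrhs, ← hrest]
      have e : blkF s k ((A :: As).map (mkMv s r)) (q :: Q') =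
          @Nat.rec (fun _ => List Src)
            (oneF k s 0 Mv.m0 (mkMv s r A) q (As.map (mkMv s r)) (blkF s k (As.map (mkMv s r)) Q'))
            (fun x _ => @Nat.rec (fun _ => List Src)
              (oneF k s 1 Mv.m1 (mkMv s r A) q (As.map (mkMv s r))
                (blkF s k (As.map (mkMv s r)) Q'))
              (fun _ _ => oneF k s 2 Mv.m2 (mkMv s r A) q (As.map (mkMv s r))
                (blkF s k (As.map (mkMv s r)) Q')) x) A.1 := rfl
      rw [e]
      have hA := h2 A List.mem_cons_self
      generalize hT : blkF s k (As.map (mkMv s r)) Q' = t'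
      obtain h | h | h : A.1 = 0 ∨ A.1 = 1 ∨ A.1 = 2 := by omega
      · have := oneF_eq S s k A Mv.m0 (fun x => by rw [if_pos h]) (mkMv s r A) hself q As _ hfa t'
        rw [← this, h]
        rfl
      · have := oneF_eq S s k A Mv.m1 (fun x => by rw [if_neg (by omega), if_pos h])
          (mkMv s r A) hself q As _ hfa t'
        rw [← this, h]
        rfl
      · have := oneF_eq S s k A Mv.m2 (fun x => by rw [if_neg (by omega), if_neg (by omega)])
          (mkMv s r A) hself q As _ hfa t'
        rw [← this, h]
        rfl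

/-- the sources of a part of a block -/
theorem blkF_spec (S : Spec) (s r : ℕ) (al : List (List ℕ)) (fls : List (ℕ × ℕ)) (M : List Mv)
    (h : mvOK S s r al fls M = true) (k i : ℕ) (Q : List (List ℤ)) :
    blkSrc S s none k Q (fls.drop i) = blkF s k (M.drop i) Q := by
  unfold mvOK at h
  simp only [Bool.and_eq_true, decide_eq_true_eq, List.all_eq_true] at h
  obtain ⟨⟨⟨hr, hadd⟩, hfl⟩, hM⟩ := h
  rw [← hM, ← List.map_drop, blkF_eq S s r k (fls.drop i) Q]
  · exact fun A hA => (hfl A (List.mem_of_mem_drop hA)).1
  · intro A hA B hB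
    have h1 := hfl A (List.mem_of_mem_drop hA)
    have h2 := hfl B (List.mem_of_mem_drop hB)
    refine ⟨rfl, rfl, ?_⟩
    rw [glueF_eq S s r al hr hadd A.1 B.1 A.2 B.2 h1.2.1 h2.2.1 h2.2.2]
    obtain h | h | h : A.1 = 0 ∨ A.1 = 1 ∨ A.1 = 2 := by omega
    · rw [if_pos h, h]
      rfl
    · rw [if_neg (by omega), if_pos h, h]
      rfl
    · rw [if_neg (by omega), if_neg (by omega), h]
      rfl

end MP433Sys
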